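import Pool.Agent.Lib.MP_1a91b9_ntT.DB.El
import Pool.Agent.Lib.MP_1a91b9_ntT.DB.Thaine

/-!
# DB: isotypic classes: from the kernel to the cokernel

PROOF (complete; stream DB of helper55). Jobs ClA (`dv`, `finite_cc`, `tauD_dv`, `mem_range_dv`), ClB
(`naka`, `exists_fun`), ClC (`cl`).

`DD N` is the group of divisors, `dv` the divisor of an element, `CC N` the divisor class group.
`finite_cc`: the homomorphism `DD N → Additive (ClassGroup (𝓞 N))`, `single w 1 ↦ mk0 w`, has kernel
contained in the range of `dv` (if the product of the `w^(m_w)` is principal, generated by `x ≠ 0` as a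
fractional ideal, then `od w x = m_w`: `FractionalIdeal.finprod_heightOneSpectrum_factorization` and
the uniqueness of the factorization; or: with integral ideals `I = Π w^(m_w^+)`, `J = Π w^(m_w^-)` in the
same class: `(a) I = (b) J` with integers `a, b ≠ 0` (`ClassGroup.mk0_eq_mk0_iff`), compare the orders),
so `CC N` embeds into (is a quotient of a subgroup of) a finite group. `mem_range_dv`: a divisor is
principal iff it is `dv x`, by definition; `dv x = 0` iff all the `od w x` are `0`.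
`tauD_dv`: `gpl_od`, `Finsupp.mapDomain` along the bijection `gpl σ` (inverse `gpl σ⁻¹`).

`naka` (Nakayama): `C` a finitely generated module over a commutative ring `A`, `J` an ideal, `x ∈ C`
nonzero with `J x = 0`; then `J C ≠ C`: otherwise `Submodule.exists_sub_one_mem_and_smul_eq_zero_of_fg_
of_le_smul` gives `r` with `r - 1 ∈ J`, `r C = 0`, and `x = r x - (r - 1) x = 0`.
`exists_fun`: `C` a finite abelian group with an endomorphism `τ`, `g : 𝓞 K` such that every class
prime to `ϖ` is a power of `g`, `x ≠ 0` in `C` such that `∑ f_i τ^i x = 0` for every polynomial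
`f ∈ ℤ[X]` with `ϖ ∣ f(g)`. Then there is a nonzero homomorphism `φ : C → ZMod ℓ` with
`φ (∑ f_i τ^i y) = 0` for all `y` and all such `f`. Take `A = ℤ[X]` acting on `C` through `τ`
(`Module.AEval'`, `Polynomial.aeval τ f` with `τ : Module.End ℤ C`), `J` = the ideal of the `f` with
`ϖ ∣ f(g)` (a kernel). `naka`: `C/JC ≠ 0`, it is killed by `ℓ ∈ J`: a nonzero `ZMod ℓ`-vector space
(`AddCommGroup.zmodModule`), so there is a nonzero linear form.

`cl`. `τ` = an element of `Gal(N/k)` with `ga τ P = sm g P`, `g` from `exists_primgen` (`Full.all`);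
every `σ` is a power `τ^i` (`ga σ P = sm c P`, `c = g^i` modulo `ϖ`; `Full.gen`). Let `I = (1/ℓ) dv α ∈ DD N`,
`x` its class. If `x = 0`: `I = dv y`, `ε = α y^(-ℓ)`, first alternative. Otherwise, for `f` with
`ϖ ∣ f(g)`: `ℓ ∑ f_i τ^i I = dv (Π (sg (τ^i) α)^(f_i))` and `el` of this product is `∑ f_i A(g^i) = A (f(g))
= 0` (`Iso`, `Iso.map_dvd`), so it is `z^ℓ` and `∑ f_i τ^i I = dv z` (divide by `ℓ`): its class is `0`.
`exists_fun` gives `φ`; `f v := φ (class of v)`. Nonzero because the classes of the places generate.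
`PrincZero`: `φ` of the class of `dv x` (`finsum` over the finite support). `IsoPl`: for `w` define
`H : 𝓞 K → ZMod ℓ` by `H c = φ (F(τ) [w])` for any `F ∈ ℤ[X]` with `ϖ ∣ F(g) - c` (exists: `0` or a power
of `X`; well defined and additive by the property of `φ`; e.g. choose `F` and use uniqueness);
for `σ = τ^i`, `ga σ P = sm c P`: `ϖ ∣ c - g^i`, `H c = φ (τ^i [w]) = f (gpl σ w)`.
-/

set_option autoImplicit false

namespace Pool.Agent.Lib.MP_1a91b9_ntT.DB

open NumberField IsDedekindDomain WeierstrassCurve Polynomial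

universe u

noncomputable section

/-- divisors -/
abbrev DD (N : Type u) [Field N] : Type u := HeightOneSpectrum (𝓞 N) →₀ ℤ

/-- the divisor of an element -/
def dv (N : Type u) [Field N] [NumberField N] : Additive Nˣ →+ DD N where
  toFun y := Finsupp.ofSupportFinite (fun w => od w ((Additive.toMul y : Nˣ) : N))
    (od_finite (Additive.toMul y : Nˣ).ne_zero)
  map_zero' := by
    ext w
    exact od_one w
  map_add' := by
    intro a b
    ext w
    exact od_mul w (Additive.toMul a : Nˣ).ne_zero (Additive.toMul b : Nˣ).ne_zero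

theorem dv_apply {N : Type u} [Field N] [NumberField N] (y : Additive Nˣ)
    (w : HeightOneSpectrum (𝓞 N)) : dv N y w = od w ((Additive.toMul y : Nˣ) : N) := rfl

/-- the divisor class group -/
abbrev CC (N : Type u) [Field N] [NumberField N] : Type u := DD N ⧸ (dv N).range

open nonZeroDivisors in
private theorem cla_count {N : Type u} [Field N] [NumberField N]
    (w : HeightOneSpectrum (𝓞 N)) {x : N} (hx : x ≠ 0) :
    FractionalIdeal.count N w (FractionalIdeal.spanSingleton (𝓞 N)⁰ x) = od w x := by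
  classical
  obtain ⟨a, b, hb, rfl⟩ := IsFractionRing.div_surjective (A := 𝓞 N) x
  have hb0 : b ≠ 0 := nonZeroDivisors.ne_zero hb
  have ha0 : a ≠ 0 := by
    rintro rfl
    exact hx (by rw [map_zero, zero_div])
  have hne : FractionalIdeal.spanSingleton (𝓞 N)⁰ (algebraMap (𝓞 N) N a / algebraMap (𝓞 N) N b) ≠
      0 := by
    rw [Ne, FractionalIdeal.spanSingleton_eq_zero_iff]
    exact hx
  rw [FractionalIdeal.count_well_defined (K := N) w hne (a := b) (J := Ideal.span {a})]
  · rw [od, map_div₀, HeightOneSpectrum.valuation_of_algebraMap,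
      HeightOneSpectrum.valuation_of_algebraMap, w.intValuation_if_neg ha0,
      w.intValuation_if_neg hb0, WithZero.log_div WithZero.exp_ne_zero WithZero.exp_ne_zero,
      WithZero.log_exp, WithZero.log_exp]
    ring
  · rw [FractionalIdeal.coeIdeal_span_singleton, FractionalIdeal.spanSingleton_mul_spanSingleton,
      div_eq_inv_mul]

open nonZeroDivisors in
theorem finite_cc (N : Type u) [Field N] [NumberField N] : Finite (CC N) := by
  classical
  let J : DD N → FractionalIdeal (𝓞 N)⁰ N := fun D =>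
    D.prod (fun w n => (w.asIdeal : FractionalIdeal (𝓞 N)⁰ N) ^ n)
  have hJ0 : ∀ D, J D ≠ 0 := by
    intro D
    change ∏ w ∈ D.support, (w.asIdeal : FractionalIdeal (𝓞 N)⁰ N) ^ (D w) ≠ 0
    rw [Finset.prod_ne_zero_iff]
    intro w _
    exact zpow_ne_zero _ (FractionalIdeal.coeIdeal_ne_zero.mpr w.ne_bot)
  have hJc : ∀ D w, FractionalIdeal.count N w (J D) = D w := fun D w =>
    FractionalIdeal.count_finsuppProd N w D
  let c : DD N → (FractionalIdeal (𝓞 N)⁰ N)ˣ ⧸ (toPrincipalIdeal (𝓞 N) N).range := fun D =>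
    QuotientGroup.mk (Units.mk0 (J D) (hJ0 D))
  have hfin : Finite ((FractionalIdeal (𝓞 N)⁰ N)ˣ ⧸ (toPrincipalIdeal (𝓞 N) N).range) :=
    Finite.of_equiv _ (ClassGroup.equiv (R := 𝓞 N) N).toEquiv
  have hc : ∀ D D' : DD N, c D = c D' → (QuotientAddGroup.mk D : CC N) = QuotientAddGroup.mk D' := by
    intro D D' h
    have h1 := QuotientGroup.eq.mp h
    obtain ⟨x, hx⟩ := h1
    rw [toPrincipalIdeal_eq_iff] at hx
    rw [QuotientAddGroup.eq]
    refine ⟨Additive.ofMul x, ?_⟩
    ext w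
    have h2 := cla_count w x.ne_zero
    rw [hx, Units.val_mul, Units.val_inv_eq_inv_val, Units.val_mk0, Units.val_mk0,
      FractionalIdeal.count_mul N w (inv_ne_zero (hJ0 D)) (hJ0 D'), FractionalIdeal.count_inv,
      hJc, hJc] at h2
    exact h2.symm
  apply Finite.of_injective (fun x : CC N => c (Quotient.out x))
  intro x y hxy
  have h1 := hc _ _ hxy
  have h2 : ∀ x : CC N, (QuotientAddGroup.mk (Quotient.out x) : CC N) = x := fun x =>
    Quotient.out_eq x
  rw [h2, h2] at h1
  exact h1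

section
variable {k N : Type u} [Field k] [NumberField k] [Field N] [NumberField N] [Algebra k N]

/-- the action of an automorphism on divisors -/
def tauD (σ : Gal(N/k)) : DD N →+ DD N := Finsupp.mapDomain.addMonoidHom (gpl σ)

theorem tauD_apply (σ : Gal(N/k)) (D : DD N) (w : HeightOneSpectrum (𝓞 N)) :
    tauD σ D (gpl σ w) = D w := by
  refine Finsupp.mapDomain_apply ?_ D w
  intro a b hab
  have h1 : gpl σ⁻¹ (gpl σ a) = gpl σ⁻¹ (gpl σ b) := congrArg _ hab
  rw [← gpl_mul, ← gpl_mul, inv_mul_cancel, gpl_one, gpl_one] at h1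
  exact h1

theorem tauD_dv (σ : Gal(N/k)) (y : Nˣ) : tauD σ (dv N (Additive.ofMul y)) =
    dv N (Additive.ofMul (sg σ y)) := by
  ext w
  have hw : w = gpl σ (gpl σ⁻¹ w) := by rw [← gpl_mul, mul_inv_cancel, gpl_one]
  rw [hw, tauD_apply, dv_apply, dv_apply]
  exact (gpl_od σ (gpl σ⁻¹ w) (y : N)).symm

/-- the action of an automorphism on divisor classes -/
def tauC (σ : Gal(N/k)) : CC N →+ CC N :=
  QuotientAddGroup.map _ _ (tauD σ) (by
    rintro _ ⟨y, rfl⟩
    exact ⟨Additive.ofMul (sg σ (Additive.toMul y)), (tauD_dv σ (Additive.toMul y)).symm⟩)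

theorem tauC_single (σ : Gal(N/k)) (w : HeightOneSpectrum (𝓞 N)) :
    tauC σ (QuotientAddGroup.mk (Finsupp.single w 1) : CC N) =
      (QuotientAddGroup.mk (Finsupp.single (gpl σ w) 1) : CC N) := by
  have h1 : tauD σ (Finsupp.single w 1) = Finsupp.single (gpl σ w) 1 := Finsupp.mapDomain_single
  rw [← h1]
  rfl

theorem tauC_mul (σ τ : Gal(N/k)) (x : CC N) : tauC (σ * τ) x = tauC σ (tauC τ x) := by
  obtain ⟨D, rfl⟩ := QuotientAddGroup.mk_surjective x
  have h1 : tauD (σ * τ) D = tauD σ (tauD τ D) := by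
    change Finsupp.mapDomain (gpl (σ * τ)) D = Finsupp.mapDomain (gpl σ) (Finsupp.mapDomain (gpl τ) D)
    rw [← Finsupp.mapDomain_comp]
    have h2 : (gpl (σ * τ) : HeightOneSpectrum (𝓞 N) → HeightOneSpectrum (𝓞 N)) =
        gpl σ ∘ gpl τ := funext fun w => gpl_mul σ τ w
    rw [h2]
  change (QuotientAddGroup.mk (tauD (σ * τ) D) : CC N) = QuotientAddGroup.mk (tauD σ (tauD τ D))
  rw [h1]

end

theorem naka {A C : Type*} [CommRing A] [AddCommGroup C] [Module A C] [Module.Finite A C]
    (J : Ideal A) {x : C} (hx0 : x ≠ 0) (hx : ∀ a ∈ J, a • x = 0) :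
    J • (⊤ : Submodule A C) ≠ ⊤ := by
  intro htop
  obtain ⟨r, hr, hr0⟩ := Submodule.exists_sub_one_mem_and_smul_eq_zero_of_fg_of_le_smul J
    (⊤ : Submodule A C) Module.Finite.fg_top (le_of_eq htop.symm)
  have h1 : r • x = 0 := hr0 x Submodule.mem_top
  have h2 : (r - 1) • x = 0 := hx _ hr
  apply hx0
  have h3 : x = r • x - (r - 1) • x := by
    rw [sub_smul, one_smul]
    abel
  rw [h3, h1, h2, sub_zero]

private theorem clb_form0 {k : Type*} [Field k] {Q : Type*} [AddCommGroup Q] [Module k Q]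
    {v : Q} (hv : v ≠ 0) : ∃ ψ : Q →+ k, ψ v ≠ 0 := by
  by_contra hcon
  push Not at hcon
  refine hv ((Module.forall_dual_apply_eq_zero_iff k v).1 (fun φ => ?_))
  exact hcon φ.toAddMonoidHom

private theorem clb_form {ℓ : ℕ} [Fact ℓ.Prime] {Q : Type*} [AddCommGroup Q]
    (hl : ∀ v : Q, ℓ • v = 0) {v : Q} (hv : v ≠ 0) : ∃ ψ : Q →+ ZMod ℓ, ψ v ≠ 0 :=
  @clb_form0 (ZMod ℓ) _ Q _ (AddCommGroup.zmodModule hl) v hv

theorem exists_fun {ϖ : 𝓞 K} {ℓ q : ℕ} (h : PD ϖ ℓ q) {g : 𝓞 K} {C : Type*} [AddCommGroup C]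
    [Finite C] (τ : Module.End ℤ C) {x : C} (hx0 : x ≠ 0)
    (hx : ∀ f : ℤ[X], ϖ ∣ aeval g f → aeval τ f x = 0) :
    ∃ φ : C →+ ZMod ℓ, φ ≠ 0 ∧ ∀ (f : ℤ[X]) (y : C), ϖ ∣ aeval g f → φ (aeval τ f y) = 0 := by
  have : Fact ℓ.Prime := ⟨h.hl⟩
  let _ : Module ℤ[X] C := Module.compHom C (aeval τ : ℤ[X] →ₐ[ℤ] Module.End ℤ C).toRingHom
  have hsm : ∀ (f : ℤ[X]) (y : C), f • y = aeval τ f y := fun _ _ => rfl
  let J : Ideal ℤ[X] :=
    Ideal.comap (aeval g : ℤ[X] →ₐ[ℤ] 𝓞 K).toRingHom (Ideal.span {ϖ})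
  have hJ : ∀ f : ℤ[X], f ∈ J ↔ ϖ ∣ aeval g f := by
    intro f
    rw [Ideal.mem_comap, Ideal.mem_span_singleton]
    rfl
  have : Module.Finite ℤ[X] C := Module.Finite.of_finite
  have hne : J • (⊤ : Submodule ℤ[X] C) ≠ ⊤ := by
    refine naka J hx0 (fun a ha => ?_)
    rw [hsm]
    exact hx a ((hJ a).1 ha)
  let Q := C ⧸ (J • (⊤ : Submodule ℤ[X] C))
  have : Nontrivial Q := Submodule.Quotient.nontrivial_iff.2 hne
  have hl : ∀ v : Q, ℓ • v = 0 := by
    intro v
    obtain ⟨y, rfl⟩ := Submodule.Quotient.mk_surjective _ v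
    rw [← Submodule.Quotient.mk_smul, Submodule.Quotient.mk_eq_zero]
    have h1 : ((ℓ : ℤ[X])) • y = ℓ • y := by
      rw [Nat.cast_smul_eq_nsmul]
    rw [← h1]
    refine Submodule.smul_mem_smul ((hJ _).2 ?_) Submodule.mem_top
    rw [map_natCast]
    exact h.dvd
  obtain ⟨v, hv⟩ := exists_ne (0 : Q)
  obtain ⟨ψ, hψ⟩ := clb_form hl hv
  let π : C →+ Q := (Submodule.mkQ (J • (⊤ : Submodule ℤ[X] C))).toAddMonoidHom
  refine ⟨ψ.comp π, ?_, ?_⟩
  · intro h0
    apply hψ
    obtain ⟨y, hy⟩ := Submodule.Quotient.mk_surjective _ v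
    have h3 := DFunLike.congr_fun h0 y
    rw [← hy]
    exact h3
  · intro f y hf
    have h3 : π (aeval τ f y) = 0 := by
      show Submodule.Quotient.mk _ = 0
      rw [Submodule.Quotient.mk_eq_zero, ← hsm]
      exact Submodule.smul_mem_smul ((hJ f).2 hf) Submodule.mem_top
    show ψ (π (aeval τ f y)) = 0
    rw [h3, map_zero]

section
variable {k N : Type u} [Field k] [NumberField k] [Algebra K k] [Field N] [NumberField N]
  [Algebra K N] [Algebra k N] [IsScalarTower K k N] [DecidableEq N] [IsGalois k N]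
  {ϖ : 𝓞 K} {ℓ q : ℕ} (h : PD ϖ ℓ q) {P : Pt N} (hF : Full k ϖ P)
include h hF

theorem cl {g : 𝓞 K} (hg : ∀ c : 𝓞 K, ¬ ϖ ∣ c → ∃ i : ℕ, ϖ ∣ c - g ^ i) (hg0 : ¬ ϖ ∣ g) {α : Nˣ}
    (hα : ∀ w : HeightOneSpectrum (𝓞 N), (ℓ : ℤ) ∣ od w (α : N)) (hiso : Iso k ℓ P α) :
    (∃ ε y : Nˣ, (∀ w : HeightOneSpectrum (𝓞 N), od w (ε : N) = 0) ∧ α = ε * y ^ ℓ) ∨
    ∃ f : HeightOneSpectrum (𝓞 N) → ZMod ℓ, (∃ v, f v ≠ 0) ∧ PrincZero f ∧ IsoPl k ℓ P f := by
  classical
  have hl0 : (ℓ : ℤ) ≠ 0 := by exact_mod_cast h.hl.ne_zero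
  obtain ⟨τ, hτ⟩ := hF.all g hg0
  have hτi : ∀ i : ℕ, ga (τ ^ i) P = sm N (g ^ i) P := by
    intro i
    induction i with
    | zero => rw [pow_zero, pow_zero, ga_one, map_one]; rfl
    | succ i ih =>
      have e : sm N (g * g ^ i) P = sm N g (sm N (g ^ i) P) := by rw [map_mul]; rfl
      rw [pow_succ, pow_succ', ga_mul, hτ, ga_sm, ih, e]
  have hσ : ∀ (σ : Gal(N/k)) (c : 𝓞 K), ga σ P = sm N c P →
      ∃ i : ℕ, ϖ ∣ c - g ^ i ∧ σ = τ ^ i := by
    intro σ c hc
    obtain ⟨i, hi⟩ := hg c (hF.c_ne h hc)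
    refine ⟨i, hi, ?_⟩
    have h1 : ga σ P = ga (τ ^ i) P := by
      rw [hc, hτi, hF.ord.sm_eq_iff]
      exact hi
    have h2 : (τ ^ i)⁻¹ * σ = 1 := by
      apply hF.gen
      rw [ga_mul, h1, ← ga_mul, inv_mul_cancel, ga_one]
    exact (inv_mul_eq_one.mp h2).symm
  obtain ⟨A, hA⟩ := hiso
  -- the divisor `I`
  obtain ⟨I, hI⟩ : ∃ I : DD N, (ℓ : ℤ) • I = dv N (Additive.ofMul α) := by
    refine ⟨Finsupp.mapRange (fun n : ℤ => n / (ℓ : ℤ)) (Int.zero_ediv _)
      (dv N (Additive.ofMul α)), ?_⟩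
    ext w
    rw [Finsupp.smul_apply, Finsupp.mapRange_apply, smul_eq_mul]
    exact Int.mul_ediv_cancel' (hα w)
  by_cases hx0 : (QuotientAddGroup.mk I : CC N) = 0
  · left
    rw [QuotientAddGroup.eq_zero_iff] at hx0
    obtain ⟨y, hy⟩ := hx0
    refine ⟨α * ((Additive.toMul y) ^ ℓ)⁻¹, Additive.toMul y, ?_, by rw [inv_mul_cancel_right]⟩
    intro w
    have h1 : od w ((α : Nˣ) : N) = (ℓ : ℤ) * od w ((Additive.toMul y : Nˣ) : N) := by
      have h2 := DFunLike.congr_fun hI w
      rw [← hy, Finsupp.smul_apply, dv_apply, dv_apply, smul_eq_mul] at h2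
      exact h2.symm
    rw [Units.val_mul, od_mul w (Units.ne_zero _) (Units.ne_zero _), Units.val_inv_eq_inv_val,
      od_inv, Units.val_pow_eq_pow_val, od_pow, h1]
    ring
  right
  -- the three endomorphisms
  set TU : Module.End ℤ (Additive Nˣ) :=
    (MonoidHom.toAdditive (Units.map (τ : N →* N))).toIntLinearMap with hTU
  set TD : Module.End ℤ (DD N) := (tauD τ).toIntLinearMap with hTD
  set TC : Module.End ℤ (CC N) := (tauC τ).toIntLinearMap with hTC
  have hTU1 : ∀ y : Additive Nˣ, TU y = Additive.ofMul (sg τ (Additive.toMul y)) := fun y => rfl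
  -- compatibility of polynomials
  have comp : ∀ {M M' : Type u} [AddCommGroup M] [AddCommGroup M'] (F : M →+ M')
      (S : Module.End ℤ M) (T : Module.End ℤ M'), (∀ y, F (S y) = T (F y)) →
      ∀ (f : ℤ[X]) (y : M), F (aeval S f y) = aeval T f (F y) := by
    intro M M' _ _ F S T hST f y
    have hpow : ∀ (i : ℕ) (y : M), F ((S ^ i) y) = (T ^ i) (F y) := by
      intro i
      induction i with
      | zero => intro y; simp
      | succ i ih => intro y; rw [pow_succ, pow_succ, Module.End.mul_apply, ih, hST]; rfl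
    induction f using Polynomial.induction_on' with
    | add p q hp hq => rw [map_add, map_add, LinearMap.add_apply, LinearMap.add_apply, map_add, hp, hq]
    | monomial n a =>
      rw [aeval_monomial, aeval_monomial, Module.End.mul_apply, Module.End.mul_apply,
        Module.algebraMap_end_apply, Module.algebraMap_end_apply, map_zsmul, hpow]
  have hdv : ∀ (f : ℤ[X]) (y : Additive Nˣ), dv N (aeval TU f y) = aeval TD f (dv N y) :=
    comp (dv N) TU TD (fun y => (tauD_dv τ (Additive.toMul y)).symm)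
  have hmk : ∀ (f : ℤ[X]) (y : DD N), (QuotientAddGroup.mk (aeval TD f y) : CC N) =
      aeval TC f (QuotientAddGroup.mk y : CC N) :=
    comp (QuotientAddGroup.mk' _) TD TC (fun y => rfl)
  -- the class in `El` of a polynomial of `α`
  have hel : ∀ f : ℤ[X], (QuotientAddGroup.mk (aeval TU f (Additive.ofMul α)) : El ℓ N) =
      A (aeval g f) := by
    intro f
    have hpow : ∀ i : ℕ, (TU ^ i) (Additive.ofMul α) = Additive.ofMul (sg (τ ^ i) α) := by
      intro i
      induction i with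
      | zero => rw [pow_zero, pow_zero]; rfl
      | succ i ih =>
        rw [pow_succ', Module.End.mul_apply, ih, hTU1, pow_succ', sg_sg]
        rfl
    induction f using Polynomial.induction_on' with
    | add p q hp hq =>
      rw [map_add, map_add, LinearMap.add_apply, map_add, QuotientAddGroup.mk_add, hp, hq]
    | monomial n a =>
      rw [aeval_monomial, aeval_monomial, Module.End.mul_apply, Module.algebraMap_end_apply,
        hpow, QuotientAddGroup.mk_zsmul, algebraMap_int_eq, eq_intCast, ← zsmul_eq_mul, map_zsmul,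
        ← hA (τ ^ n) (g ^ n) (hτi n)]
      rfl
  have hx : ∀ f : ℤ[X], ϖ ∣ aeval g f → aeval TC f (QuotientAddGroup.mk I : CC N) = 0 := by
    intro f hf
    have h1 := hel f
    rw [Iso.map_dvd h hF hA hf, QuotientAddGroup.eq_zero_iff] at h1
    obtain ⟨z, hz⟩ := h1
    have h2 : (ℓ : ℤ) • dv N z = (ℓ : ℤ) • aeval TD f I := by
      rw [← map_zsmul, ← map_zsmul, hI, ← hdv, ← hz]
      exact congrArg (dv N) (natCast_zsmul z ℓ)
    have h3 : dv N z = aeval TD f I := by
      ext w
      have h4 := DFunLike.congr_fun h2 w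
      rw [Finsupp.smul_apply, Finsupp.smul_apply, smul_eq_mul, smul_eq_mul] at h4
      exact mul_left_cancel₀ hl0 h4
    rw [← hmk, ← h3, QuotientAddGroup.eq_zero_iff]
    exact ⟨z, rfl⟩
  have hfin : Finite (CC N) := finite_cc N
  obtain ⟨φ, hφ0, hφ⟩ := exists_fun h TC hx0 hx
  set f : HeightOneSpectrum (𝓞 N) → ZMod ℓ :=
    fun v => φ (QuotientAddGroup.mk (Finsupp.single v 1) : CC N) with hf
  have hfD : ∀ D : DD N, φ (QuotientAddGroup.mk D : CC N) = ∑ v ∈ D.support, D v • f v := by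
    intro D
    conv_lhs => rw [← D.sum_single]
    rw [Finsupp.sum]
    have h1 : (QuotientAddGroup.mk (∑ v ∈ D.support, Finsupp.single v (D v)) : CC N) =
        ∑ v ∈ D.support, (QuotientAddGroup.mk (Finsupp.single v (D v)) : CC N) :=
      map_sum (QuotientAddGroup.mk' _) _ _
    rw [h1, map_sum]
    refine Finset.sum_congr rfl fun v _ => ?_
    have h2 : Finsupp.single v (D v) = D v • Finsupp.single v (1 : ℤ) := by
      rw [Finsupp.smul_single, smul_eq_mul, mul_one]
    rw [h2, QuotientAddGroup.mk_zsmul, map_zsmul]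
  refine ⟨f, ?_, ?_, ?_⟩
  · by_contra hcon
    push Not at hcon
    apply hφ0
    refine AddMonoidHom.ext fun x => ?_
    obtain ⟨D, rfl⟩ := QuotientAddGroup.mk_surjective x
    rw [hfD, AddMonoidHom.zero_apply]
    exact Finset.sum_eq_zero fun v _ => by rw [hcon v, smul_zero]
  · intro x hx
    have h1 := hfD (dv N (Additive.ofMul (Units.mk0 x hx)))
    have h2 : (QuotientAddGroup.mk (dv N (Additive.ofMul (Units.mk0 x hx))) : CC N) = 0 := by
      rw [QuotientAddGroup.eq_zero_iff]
      exact ⟨_, rfl⟩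
    rw [h2, map_zero] at h1
    rw [finsum_eq_sum_of_support_subset (s := (dv N (Additive.ofMul (Units.mk0 x hx))).support)]
    · exact h1.symm
    · intro v hv
      rw [Finset.mem_coe, Finsupp.mem_support_iff]
      intro h3
      apply hv
      have h4 : od v x = 0 := h3
      change od v x • f v = 0
      rw [h4, zero_smul]
  · intro w
    -- a polynomial for each class
    have hFc : ∀ c : 𝓞 K, ∃ F : ℤ[X], ϖ ∣ aeval g F - c := by
      intro c
      by_cases hc : ϖ ∣ c
      · exact ⟨0, by rw [map_zero, zero_sub]; exact (dvd_neg).mpr hc⟩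
      · obtain ⟨i, hi⟩ := hg c hc
        refine ⟨X ^ i, ?_⟩
        rw [map_pow, aeval_X, ← neg_sub]
        exact (dvd_neg).mpr hi
    choose F hFF using hFc
    have huniq : ∀ (p q : ℤ[X]), ϖ ∣ aeval g p - aeval g q →
        φ (aeval TC p (QuotientAddGroup.mk (Finsupp.single w 1) : CC N)) =
        φ (aeval TC q (QuotientAddGroup.mk (Finsupp.single w 1) : CC N)) := by
      intro p q hpq
      rw [← map_sub] at hpq
      have h1 := hφ (p - q) (QuotientAddGroup.mk (Finsupp.single w 1) : CC N) hpq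
      rw [map_sub, LinearMap.sub_apply, map_sub, sub_eq_zero] at h1
      exact h1
    refine ⟨AddMonoidHom.mk' (fun c => φ (aeval TC (F c)
      (QuotientAddGroup.mk (Finsupp.single w 1) : CC N))) ?_, ?_⟩
    · intro a b
      change φ (aeval TC (F (a + b)) _) = φ (aeval TC (F a) _) + φ (aeval TC (F b) _)
      rw [← map_add φ, ← LinearMap.add_apply, ← map_add (aeval TC)]
      apply huniq
      rw [map_add]
      have e : aeval g (F (a + b)) - (aeval g (F a) + aeval g (F b)) =
          (aeval g (F (a + b)) - (a + b)) - (aeval g (F a) - a) - (aeval g (F b) - b) := by ring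
      rw [e]
      exact dvd_sub (dvd_sub (hFF _) (hFF _)) (hFF _)
    · intro σ c hc
      obtain ⟨i, hi, rfl⟩ := hσ σ c hc
      change f (gpl (τ ^ i) w) = φ (aeval TC (F c) _)
      rw [huniq (F c) (X ^ i)]
      · rw [map_pow, aeval_X]
        have h1 : ∀ j : ℕ, (TC ^ j) (QuotientAddGroup.mk (Finsupp.single w 1) : CC N) =
            (QuotientAddGroup.mk (Finsupp.single (gpl (τ ^ j) w) 1) : CC N) := by
          intro j
          induction j with
          | zero => rw [pow_zero, pow_zero, gpl_one]; rfl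
          | succ j ih =>
            rw [pow_succ', Module.End.mul_apply, ih, pow_succ', gpl_mul]
            exact tauC_single τ _
        rw [h1]
      · rw [map_pow, aeval_X]
        have e : aeval g (F c) - g ^ i = (aeval g (F c) - c) + (c - g ^ i) := by ring
        rw [e]
        exact dvd_add (hFF _) hi

end

end

end Pool.Agent.Lib.MP_1a91b9_ntT.DB
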