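import Pool.Agent.Lib.MP_1a91b9_ntT.DB.YY
import Pool.Agent.Lib.MP_1a91b9_ntT.DB.Thaine
import Pool.Agent.Lib.MP_1a91b9_ntT.S4.PsiDef

/-!
# DB: Thaine's argument for the elliptic units; discrete logarithms

PROOF (complete; stream DB of helper55). Jobs TaA (`exists_beta`, `beta_fix`, `od_beta`),
TaD (`decomp_three`), TaB (`thaine_app`), TaC (`exists_prim`, `dlog`).

`lam` is a place of `N` with `p = nrm lam` prime, `ℓ ∣ p - 1`, not above `3`.
`exists_beta`: let `v = lam.under (𝓞 K)` (or the ideal `comap`): `𝓞 K/v` embeds in `𝓞 N/lam`, a field with `p`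
elements (`nrm_eq`), so `𝓞 K/v` has `p` elements: `absNorm v = p`. `v` is prime to `3` (`3 ∉ lam`):
`S4.exists_gen` gives `β = 1` modulo `3` generating `v`.
`beta_fix`: `frob_sm` with `σ = 1`, `W = lam`, `n = q`: `x - x^p ∈ lam` as the residue field has `p` elements;
`lam.valuation q = 1`: `ℓ ∉ lam` (else `ℓ, p ∈ lam`, `ℓ = p`, contradicts `ℓ ∣ p - 1`); `q • P = 0`.
`od_beta`: `β ∤ 3`, `β ∤ ϖ` (norms; `p ≠ ℓ`, and `p ≠ 3` by `Deg1.mod_three`), so for a place `v` of `N`
containing `β`: `v 3 = 1`, `v ϖ = 1`, `unram` for `N/k`: `e = 1`, `od v β = od (v.under (𝓞 k)) β` (`od_map`),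
and this is `1` because `𝓞 K → 𝓞 k` is bijective (`hk`) and `β` generates a prime ideal.
`decomp_three`: suppose every `σ` with `gpl σ v = v` is `1`. Then the orbit of `v` has `[N:k]` elements, all
the places above `v.under (𝓞 k)`, so `e = f = 1` (`Ideal.ncard_primesOver_mul_ramificationIdxIn_mul_
inertiaDegIn`). `1 - om` has order `1` at the place of `K` above `3` (`(1 - om)^2 = -3 om`, the ideal is of
norm `3`), so `od v (1 - om) = 1`: every `z` with `v z < 1` has `v z ≤ v (1 - om)`; the residue field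
of `v` has `3` elements. `no_tors_three` with `n = q`: `P = 0`, contradiction to `Ord ϖ P`.

`thaine_app`. `β` from `exists_beta`; `L`, `R` from `exists_ext` with `k0 = k = N`. `hgen` given; for the
places `v ∋ β` of `N` `od v β = 1`, so `ram` (with `k := N`, `F := L`) gives `[L:N] + 1 = p`, total
ramification and `hall`. Choose `τ` with `ga τ R = sm b R = b • R` (`p ∤ b`, since `b` is a primitive
root). `τ` generates: `ga σ R = sm c R = j • R`, `j = b^i` modulo `p`, so `σ = τ^i` (`hgen`).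
`thaine` with `y = yy c`, `t = tc R`, `Z` = the set of the `gpl σ lam`. `hZ`: `W.under ∈ Z` iff `β ∈ W`
(the places of `N` over `β` are the conjugates of `lam`: `gpl_trans`, they have the same place below
in `k` because `𝓞 K → 𝓞 k` is bijective and `(β)` is maximal), `τ t = tc (ga τ R) = tc (b • R)`,
`ker_sm_t`: `v (tc (b • R) - b t) ≤ v t ^ 4 < v t`. `h0`: `v = W.under ∉ Z`: if `v 3 < 1` then `h v = 0`
(`h3`), else `W 3 = 1`, `W β = 1`: `unram` for `L/N`: `e = 1`. `ℓ ∣ [L:N] = p - 1`.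
Result: `W (yy c - b^(a v)) < 1`, with `yy_cong` `W (xi c - b^(a v)) < 1`, so `v (xi c - b^(a v)) < 1`
(`val_map_lt`; every `v` has a `W` above). `a σ := a (gpl σ lam)`. The `gpl σ lam` are distinct: if
`gpl σ lam = gpl τ lam` then `ρ = τ⁻¹ σ` fixes `lam` and `ρ x - x ∈ lam` for all integers `x`: modulo
`lam` `x` is congruent to an integer of `ℤ` (the residue field has `p` elements): `nos` gives `ρ = 1`.

`exists_prim`: `(ZMod p)ˣ` is cyclic. `dlog`: for `x` with `lam x = 1` there is an integer `m` with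
`lam (x - m) < 1`, `p ∤ m`, so `a` with `lam (x - b^a) < 1`; `a` is unique modulo `p - 1`, so modulo `ℓ`.
`A c` is the class of such an `a` for `xi c`: additive by `xi_add` (`z = b^e` modulo `lam`), `0` at the
multiples of `ϖ` by `xi_zero`. If `A 1 = 0`: `a = ℓ m`, `xi 1 = (b^m)^ℓ` modulo `lam`.
-/

set_option autoImplicit false

namespace Pool.Agent.Lib.MP_1a91b9_ntT.DB

open NumberField IsDedekindDomain WeierstrassCurve Pool.Agent.Lib.MP_1a91b9_nt

universe u

noncomputable section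

private theorem taa_mem {F : Type u} [Field F] [NumberField F] (v : HeightOneSpectrum (𝓞 F)) (x : 𝓞 F) :
    v.valuation F (x : F) < 1 ↔ x ∈ v.asIdeal := v.valuation_lt_one_iff_mem x

private theorem taa_int {F : Type u} [Field F] [NumberField F] (v : HeightOneSpectrum (𝓞 F)) (n : ℤ) :
    v.valuation F (n : F) < 1 ↔ (n : 𝓞 F) ∈ v.asIdeal := by
  rw [← taa_mem]
  simp

private theorem taa_one_notMem {F : Type u} [Field F] [NumberField F] (v : HeightOneSpectrum (𝓞 F)) :
    (1 : 𝓞 F) ∉ v.asIdeal := fun h => v.isPrime.ne_top ((Ideal.eq_top_iff_one _).2 h)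

private theorem taa_val_one {F : Type u} [Field F] [NumberField F] (v : HeightOneSpectrum (𝓞 F)) {x : 𝓞 F}
    (hx : x ∉ v.asIdeal) : v.valuation F (x : F) = 1 := by
  refine le_antisymm (v.valuation_le_one x) ?_
  rw [← not_lt, taa_mem]
  exact hx

private theorem taa_K {F : Type u} [Field F] [NumberField F] [Algebra K F] (v : HeightOneSpectrum (𝓞 F))
    (x : 𝓞 K) : v.valuation F (algebraMap K F (x : K)) < 1 ↔ algebraMap (𝓞 K) (𝓞 F) x ∈ v.asIdeal := by
  rw [← taa_mem]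
  rfl

private theorem taa_dvd {F : Type u} [Field F] [NumberField F] [Algebra K F] (v : HeightOneSpectrum (𝓞 F))
    {x y : 𝓞 K} (h : x ∣ y) (hx : algebraMap (𝓞 K) (𝓞 F) x ∈ v.asIdeal) :
    algebraMap (𝓞 K) (𝓞 F) y ∈ v.asIdeal := by
  obtain ⟨c, rfl⟩ := h
  rw [map_mul]
  exact Ideal.mul_mem_right _ _ hx

private theorem taa_card {F : Type u} [Field F] [NumberField F] (v : HeightOneSpectrum (𝓞 F)) :
    Nat.card (𝓞 F ⧸ v.asIdeal) = nrm v := (nrm_eq v).symm

private theorem taa_cast3 {F : Type u} [Field F] [NumberField F] : ((3 : 𝓞 F) : F) = 3 :=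
  map_ofNat (algebraMap (𝓞 F) F) 3

/-- a place does not contain two coprime integers -/
private theorem taa_coprime {F : Type u} [Field F] [NumberField F] (v : HeightOneSpectrum (𝓞 F)) {a b : ℕ}
    (hab : a.Coprime b) (ha : (a : 𝓞 F) ∈ v.asIdeal) (hb : (b : 𝓞 F) ∈ v.asIdeal) : False := by
  obtain ⟨x, y, hxy⟩ := (Nat.isCoprime_iff_coprime.2 hab)
  apply taa_one_notMem v
  have h1 : (1 : 𝓞 F) = (x : 𝓞 F) * (a : 𝓞 F) + (y : 𝓞 F) * (b : 𝓞 F) := by
    have := congrArg (fun z : ℤ => (z : 𝓞 F)) hxy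
    push_cast at this
    exact this.symm
  rw [h1]
  exact Ideal.add_mem _ (Ideal.mul_mem_left _ _ ha) (Ideal.mul_mem_left _ _ hb)

private theorem taa_beta_p {F : Type u} [Field F] [NumberField F] [Algebra K F]
    (v : HeightOneSpectrum (𝓞 F)) {β : 𝓞 K} {p : ℕ} (hβ : Deg1 β p)
    (hv : algebraMap (𝓞 K) (𝓞 F) β ∈ v.asIdeal) : (p : 𝓞 F) ∈ v.asIdeal := by
  have h1 : β ∣ ((p : ℤ) : 𝓞 K) := (hβ.dvd_int_iff p).2 dvd_rfl
  have h2 := taa_dvd v h1 hv
  simpa using h2

private theorem taa_pl {ℓ p : ℕ} (hℓ : ℓ.Prime) (hp : p.Prime) (h : ℓ ∣ p - 1) : p.Coprime ℓ := by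
  rw [Nat.coprime_primes hp hℓ]
  intro e
  subst e
  have h1 := Nat.le_of_dvd (by have := hp.two_le; omega) h
  have := hp.two_le
  omega

private theorem taa_three {F : Type u} [Field F] [NumberField F] [Algebra K F]
    (v : HeightOneSpectrum (𝓞 F)) {β : 𝓞 K} (hβ : (3 : 𝓞 K) ∣ β - 1)
    (hv : algebraMap (𝓞 K) (𝓞 F) β ∈ v.asIdeal) : (3 : 𝓞 F) ∉ v.asIdeal := by
  intro h3
  apply taa_one_notMem v
  have h1 := taa_dvd v hβ (by rw [map_ofNat]; exact h3)
  rw [map_sub, map_one] at h1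
  have h2 : (1 : 𝓞 F) = algebraMap (𝓞 K) (𝓞 F) β - (algebraMap (𝓞 K) (𝓞 F) β - 1) := by ring
  rw [h2]
  exact Ideal.sub_mem _ hv h1
section tab
variable {F : Type u} [Field F] [NumberField F]

private theorem tab_mem (w : HeightOneSpectrum (𝓞 F)) (a : 𝓞 F) :
    w.valuation F (a : F) < 1 ↔ a ∈ w.asIdeal :=
  w.valuation_lt_one_iff_mem a

/-- the residue field of a place of prime norm consists of the classes of the integers -/
private theorem tab_int (lam : HeightOneSpectrum (𝓞 F)) (hp : (nrm lam).Prime) (x : 𝓞 F) :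
    ∃ m : ℤ, x - m ∈ lam.asIdeal := by
  have hfin : Finite (𝓞 F ⧸ lam.asIdeal) := Ideal.finiteQuotientOfFreeOfNeBot _ lam.ne_bot
  let _ : Fintype (𝓞 F ⧸ lam.asIdeal) := Fintype.ofFinite _
  have hcard : Fintype.card (𝓞 F ⧸ lam.asIdeal) = nrm lam := by
    rw [← Nat.card_eq_fintype_card, nrm_eq]
    rfl
  have : Fact (nrm lam).Prime := ⟨hp⟩
  let e : ZMod (nrm lam) ≃+* (𝓞 F ⧸ lam.asIdeal) := ZMod.ringEquivOfPrime _ hp hcard
  obtain ⟨z, hz⟩ := e.surjective (Ideal.Quotient.mk lam.asIdeal x)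
  refine ⟨(z.val : ℤ), ?_⟩
  rw [← Ideal.Quotient.eq_zero_iff_mem, map_sub, ← hz, Int.cast_natCast, map_natCast,
    ← map_natCast e, ZMod.natCast_zmod_val, sub_self]

private theorem tab_nrm_mem (lam : HeightOneSpectrum (𝓞 F)) :
    lam.valuation F ((nrm lam : ℕ) : F) < 1 := by
  have h1 : ((nrm lam : ℕ) : 𝓞 F) ∈ lam.asIdeal := by
    rw [nrm_eq]
    exact Ideal.absNorm_mem _
  have h2 := (tab_mem lam _).2 h1
  exact_mod_cast h2

/-- a place of prime norm different from `ℓ` does not contain `ℓ` -/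
private theorem tab_ell (lam : HeightOneSpectrum (𝓞 F)) (hp : (nrm lam).Prime) {ℓ : ℕ}
    (hℓ : ℓ.Prime) (hne : ℓ ≠ nrm lam) : lam.valuation F (ℓ : F) = 1 := by
  have hle : lam.valuation F (ℓ : F) ≤ 1 := by
    have h1 := lam.valuation_le_one (K := F) ((ℓ : ℕ) : 𝓞 F)
    exact_mod_cast h1
  refine le_antisymm hle ?_
  by_contra hlt
  push Not at hlt
  have hcop : IsCoprime (ℓ : ℤ) (nrm lam : ℤ) :=
    Nat.isCoprime_iff_coprime.2 ((Nat.coprime_primes hℓ hp).2 hne)
  obtain ⟨a, b, hab⟩ := hcop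
  have h1 : (1 : F) = (a : F) * (ℓ : F) + (b : F) * ((nrm lam : ℕ) : F) := by
    exact_mod_cast hab.symm
  have hint : ∀ m : ℤ, lam.valuation F (m : F) ≤ 1 := by
    intro m
    have h1 := lam.valuation_le_one (K := F) ((m : ℤ) : 𝓞 F)
    exact_mod_cast h1
  have h2 : lam.valuation F (1 : F) < 1 := by
    rw [h1]
    refine lt_of_le_of_lt (Valuation.map_add _ _ _) (max_lt ?_ ?_)
    · rw [map_mul]
      exact lt_of_le_of_lt (mul_le_of_le_one_left' (hint a)) hlt
    · rw [map_mul]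
      exact lt_of_le_of_lt (mul_le_of_le_one_left' (hint b)) (tab_nrm_mem lam)
  rw [map_one] at h2
  exact lt_irrefl _ h2

private theorem tab_over {L : Type u} [Field L] [NumberField L] [Algebra F L]
    (v : HeightOneSpectrum (𝓞 F)) : ∃ w : HeightOneSpectrum (𝓞 L), w.under (𝓞 F) = v := by
  have : v.asIdeal.IsMaximal := v.isMaximal
  obtain ⟨Q, hQm, hQ⟩ := Ideal.exists_maximal_ideal_liesOver_of_isIntegral (S := 𝓞 L) v.asIdeal
  have hne : Q ≠ ⊥ := Ideal.ne_bot_of_liesOver_of_ne_bot v.ne_bot Q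
  refine ⟨⟨Q, hQm.isPrime, hne⟩, ?_⟩
  apply HeightOneSpectrum.ext
  exact hQ.over.symm

variable [Algebra K F]

/-- the places which contain `β` -/
private theorem tab_dvd {β : 𝓞 K} (hβ : Prime β) {v : HeightOneSpectrum (𝓞 F)}
    (hv : v.valuation F (algebraMap K F (β : K)) < 1) (x : 𝓞 K) :
    v.valuation F (algebraMap K F (x : K)) < 1 ↔ β ∣ x := by
  have hmem : ∀ y : 𝓞 K, v.valuation F (algebraMap K F (y : K)) < 1 ↔
      y ∈ (v.under (𝓞 K)).asIdeal := by
    intro y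
    exact tab_mem v (algebraMap (𝓞 K) (𝓞 F) y)
  have hmax : (Ideal.span {β}).IsMaximal := by
    have h1 : (Ideal.span {β}).IsPrime := (Ideal.span_singleton_prime hβ.ne_zero).2 hβ
    refine h1.isMaximal ?_
    rw [Ne, Ideal.span_singleton_eq_bot]
    exact hβ.ne_zero
  have heq : Ideal.span {β} = (v.under (𝓞 K)).asIdeal := by
    refine hmax.eq_of_le (v.under (𝓞 K)).isPrime.ne_top ?_
    rw [Ideal.span_le, Set.singleton_subset_iff]
    exact (hmem β).1 hv
  rw [hmem, ← heq, Ideal.mem_span_singleton]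

end tab

theorem exists_prim {p : ℕ} (hp : p.Prime) : ∃ b : ℤ,
    (∀ x : ℤ, ¬ (p : ℤ) ∣ x → ∃ i : ℕ, (p : ℤ) ∣ x - b ^ i) ∧ ¬ (p : ℤ) ∣ b ∧
    ∀ i : ℕ, (p : ℤ) ∣ b ^ i - 1 → p - 1 ∣ i := by
  have : Fact p.Prime := ⟨hp⟩
  obtain ⟨g, hg⟩ := IsCyclic.exists_generator (α := (ZMod p)ˣ)
  have hb : (((((g : ZMod p)).val : ℕ) : ℤ) : ZMod p) = (g : ZMod p) := by
    rw [Int.cast_natCast, ZMod.natCast_zmod_val]
  refine ⟨(((g : ZMod p)).val : ℕ), ?_, ?_, ?_⟩
  · intro x hx
    have hx0 : (x : ZMod p) ≠ 0 := by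
      intro h
      exact hx ((ZMod.intCast_zmod_eq_zero_iff_dvd x p).1 h)
    obtain ⟨i, hi⟩ := (mem_powers_iff_mem_zpowers).2 (hg (Units.mk0 (x : ZMod p) hx0))
    refine ⟨i, ?_⟩
    rw [← ZMod.intCast_zmod_eq_zero_iff_dvd]
    have h1 := congrArg (Units.val) hi
    simp only [Units.val_pow_eq_pow_val, Units.val_mk0] at h1
    rw [Int.cast_sub, Int.cast_pow, hb, h1, sub_self]
  · intro h
    rw [← ZMod.intCast_zmod_eq_zero_iff_dvd, hb] at h
    exact g.ne_zero h
  · intro i h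
    rw [← ZMod.intCast_zmod_eq_zero_iff_dvd, Int.cast_sub, Int.cast_pow, hb, Int.cast_one,
      sub_eq_zero] at h
    have h1 : g ^ i = 1 := Units.ext (by rw [Units.val_pow_eq_pow_val, h, Units.val_one])
    have h2 := orderOf_dvd_of_pow_eq_one h1
    rwa [orderOf_eq_card_of_forall_mem_zpowers hg, Nat.card_eq_fintype_card, ZMod.card_units] at h2

section
variable {N : Type u} [Field N] [NumberField N] {lam : HeightOneSpectrum (𝓞 N)}

private theorem tac_mem (x : 𝓞 N) (y : N) (e : algebraMap (𝓞 N) N x = y) :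
    lam.valuation N y < 1 ↔ x ∈ lam.asIdeal := by
  rw [← e]
  exact HeightOneSpectrum.valuation_lt_one_iff_mem (K := N) lam x

private theorem tac_int (hp : (nrm lam).Prime) (m : ℤ) :
    lam.valuation N (m : N) < 1 ↔ (nrm lam : ℤ) ∣ m := by
  have h0 : ∀ m : ℤ, lam.valuation N (m : N) < 1 ↔ ((m : ℤ) : 𝓞 N) ∈ lam.asIdeal := by
    intro m
    exact tac_mem _ _ (map_intCast (algebraMap (𝓞 N) N) m)
  have hpm : ((nrm lam : ℤ) : 𝓞 N) ∈ lam.asIdeal := by
    rw [nrm_eq]
    have := Ideal.absNorm_mem lam.asIdeal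
    rwa [← Int.cast_natCast (R := 𝓞 N)] at this
  rw [h0]
  constructor
  · intro h
    by_contra hnd
    have hc : IsCoprime (nrm lam : ℤ) m :=
      (Nat.prime_iff_prime_int.1 hp).coprime_iff_not_dvd.2 hnd
    obtain ⟨u, v, huv⟩ := hc
    apply lam.isPrime.ne_top
    rw [Ideal.eq_top_iff_one]
    have h1 : ((u * nrm lam + v * m : ℤ) : 𝓞 N) ∈ lam.asIdeal := by
      rw [Int.cast_add, Int.cast_mul, Int.cast_mul]
      exact Ideal.add_mem _ (Ideal.mul_mem_left _ _ hpm) (Ideal.mul_mem_left _ _ h)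
    rw [huv, Int.cast_one] at h1
    exact h1
  · rintro ⟨c, rfl⟩
    rw [Int.cast_mul]
    exact Ideal.mul_mem_right _ _ hpm

private theorem tac_int_le (m : ℤ) : lam.valuation N (m : N) ≤ 1 := by
  rw [← map_intCast (algebraMap (𝓞 N) N) m]
  exact HeightOneSpectrum.valuation_le_one (K := N) lam ((m : ℤ) : 𝓞 N)

private theorem tac_near (hp : (nrm lam).Prime) {x : N} (hx : lam.valuation N x ≤ 1) :
    ∃ m : ℤ, lam.valuation N (x - m) < 1 := by
  obtain ⟨y, hy⟩ := exists_val_lt_of_int lam hx 1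
  have hprime := lam.isPrime
  have : Fact (nrm lam).Prime := ⟨hp⟩
  have hcard : Nat.card (𝓞 N ⧸ lam.asIdeal) = nrm lam := by
    rw [nrm_eq]
    rfl
  have h1 : (1 : 𝓞 N ⧸ lam.asIdeal) ≠ 0 := one_ne_zero
  have h2 := mem_zmultiples_of_prime_card hcard (g := (1 : 𝓞 N ⧸ lam.asIdeal))
    (g' := Ideal.Quotient.mk lam.asIdeal y) h1
  obtain ⟨m, hm⟩ := AddSubgroup.mem_zmultiples_iff.1 h2
  refine ⟨m, ?_⟩
  have h3 : y - ((m : ℤ) : 𝓞 N) ∈ lam.asIdeal := by
    rw [← Ideal.Quotient.eq_zero_iff_mem, map_sub, map_intCast, ← hm, zsmul_eq_mul, mul_one,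
      sub_self]
  have e : algebraMap (𝓞 N) N (y - ((m : ℤ) : 𝓞 N)) = (y : N) - (m : N) := by
    rw [← map_intCast (algebraMap (𝓞 N) N) m]
    exact map_sub (algebraMap (𝓞 N) N) y _
  rw [← tac_mem _ _ e] at h3
  have h4 : x - m = (x - (y : N)) + ((y : N) - m) := by ring
  rw [h4]
  refine (Valuation.map_add _ _ _).trans_lt (max_lt (lt_of_le_of_lt hy ?_) h3)
  rw [← WithZero.exp_zero, WithZero.exp_lt_exp]
  norm_num

variable {b : ℤ} (hp : (nrm lam).Prime) (hb0 : ¬ (nrm lam : ℤ) ∣ b)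

include hp hb0 in
private theorem tac_b : lam.valuation N (b : N) = 1 :=
  le_antisymm (tac_int_le b) (not_lt.1 fun h => hb0 ((tac_int hp b).1 h))

include hp hb0 in
private theorem tac_bz (a : ℤ) : lam.valuation N ((b : N) ^ a) = 1 := by
  rw [map_zpow₀, tac_b hp hb0, one_zpow]

include hp in
private theorem tac_log (hb : ∀ x : ℤ, ¬ (nrm lam : ℤ) ∣ x → ∃ i : ℕ, (nrm lam : ℤ) ∣ x - b ^ i)
    {x : N} (hx : lam.valuation N x = 1) : ∃ a : ℤ, lam.valuation N (x - (b : N) ^ a) < 1 := by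
  obtain ⟨m, hm⟩ := tac_near hp hx.le
  have h1 : ¬ (nrm lam : ℤ) ∣ m := by
    rw [← tac_int hp]
    intro h
    have h2 : lam.valuation N x < 1 := by
      have h3 : x = (x - m) + m := by ring
      rw [h3]
      exact (Valuation.map_add _ _ _).trans_lt (max_lt hm h)
    exact absurd hx h2.ne
  obtain ⟨i, hi⟩ := hb m h1
  refine ⟨i, ?_⟩
  rw [← tac_int hp] at hi
  push_cast at hi
  have h4 : x - (b : N) ^ ((i : ℕ) : ℤ) = (x - m) + (m - (b : N) ^ i) := by
    rw [zpow_natCast]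
    ring
  rw [h4]
  exact (Valuation.map_add _ _ _).trans_lt (max_lt hm hi)

include hp hb0 in
private theorem tac_uniq {ℓ : ℕ} (hl : ℓ ∣ nrm lam - 1)
    (hb1 : ∀ i : ℕ, (nrm lam : ℤ) ∣ b ^ i - 1 → nrm lam - 1 ∣ i)
    {x : N} {a a' : ℤ} (h1 : lam.valuation N (x - (b : N) ^ a) < 1)
    (h2 : lam.valuation N (x - (b : N) ^ a') < 1) : (a : ZMod ℓ) = a' := by
  have hbN : (b : N) ≠ 0 := by
    intro h
    have := tac_b (N := N) hp hb0
    rw [h, map_zero] at this
    exact zero_ne_one this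
  have key : ∀ a a' : ℤ, a' ≤ a → lam.valuation N ((b : N) ^ a - (b : N) ^ a') < 1 →
      (a : ZMod ℓ) = a' := by
    intro a a' hle h
    obtain ⟨n, hn⟩ := Int.eq_ofNat_of_zero_le (sub_nonneg.2 hle)
    have ha : a = a' + n := by omega
    have h3 : (b : N) ^ a - (b : N) ^ a' = (b : N) ^ a' * ((b : N) ^ n - 1) := by
      rw [ha, zpow_add₀ hbN, zpow_natCast]
      ring
    rw [h3, map_mul, tac_bz hp hb0, one_mul] at h
    have h4 : (nrm lam : ℤ) ∣ b ^ n - 1 := by
      rw [← tac_int (N := N) hp]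
      push_cast
      exact h
    have h5 : ℓ ∣ n := hl.trans (hb1 n h4)
    rw [ha, Int.cast_add, Int.cast_natCast, (ZMod.natCast_eq_zero_iff n ℓ).2 h5, add_zero]
  have h3 : lam.valuation N ((b : N) ^ a - (b : N) ^ a') < 1 := by
    have h4 : (b : N) ^ a - (b : N) ^ a' = (x - (b : N) ^ a') - (x - (b : N) ^ a) := by ring
    rw [h4]
    exact (Valuation.map_sub _ _ _).trans_lt (max_lt h2 h1)
  rcases le_total a' a with h | h
  · exact key a a' h h3
  · refine (key a' a h ?_).symm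
    rw [← Valuation.map_neg, neg_sub]
    exact h3

include hp hb0 in
private theorem tac_mul {x y : N} {a c : ℤ} (hx : lam.valuation N x = 1)
    (h1 : lam.valuation N (x - (b : N) ^ a) < 1) (h2 : lam.valuation N (y - (b : N) ^ c) < 1) :
    lam.valuation N (x * y - (b : N) ^ (a + c)) < 1 := by
  have hbN : (b : N) ≠ 0 := by
    intro h
    have := tac_b (N := N) hp hb0
    rw [h, map_zero] at this
    exact zero_ne_one this
  have h3 : x * y - (b : N) ^ (a + c) =
      x * (y - (b : N) ^ c) + (x - (b : N) ^ a) * (b : N) ^ c := by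
    rw [zpow_add₀ hbN]
    ring
  rw [h3]
  refine (Valuation.map_add _ _ _).trans_lt (max_lt ?_ ?_)
  · rw [map_mul, hx, one_mul]
    exact h2
  · rw [map_mul, tac_bz hp hb0, mul_one]
    exact h1

include hp hb0 in
private theorem tac_pow {x : N} {a : ℤ} (hx : lam.valuation N x = 1)
    (h1 : lam.valuation N (x - (b : N) ^ a) < 1) (n : ℕ) :
    lam.valuation N (x ^ n - (b : N) ^ (n * a)) < 1 := by
  induction n with
  | zero => simp
  | succ n ih =>
    rw [pow_succ, Nat.cast_succ, add_mul, one_mul]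
    exact tac_mul hp hb0 (by rw [map_pow, hx, one_pow]) ih h1

end

private theorem tad_pow {Γ : Type*} [LinearOrderedCommGroupWithZero Γ] {a : Γ} {n : ℕ}
    (hn : n ≠ 0) (h : a ^ n = 1) : a = 1 := by
  rcases lt_trichotomy a 1 with h1 | h1 | h1
  · exact absurd h (pow_lt_one₀ zero_le h1 hn).ne
  · exact h1
  · exact absurd h (one_lt_pow₀ h1 hn).ne'

/-- the prime element above `3` in a field isomorphic to `K` -/
private theorem tad_unif {k : Type u} [Field k] [NumberField k] [Algebra K k]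
    (hk : Function.Bijective (algebraMap K k)) {w : HeightOneSpectrum (𝓞 k)}
    (hw : w.valuation k (3 : k) < 1) : od w (1 - omF k) = 1 := by
  have h3 : NeZero (3 : ℕ) := ⟨by norm_num⟩
  have hf3 : Fact (Nat.Prime 3) := ⟨by norm_num⟩
  have hpr : Prime (om_spec.toInteger - 1 : 𝓞 K) := om_spec.zeta_sub_one_prime'
  obtain ⟨e, he⟩ : ∃ e : K ≃+* k, ∀ x : K, e x = algebraMap K k x :=
    ⟨RingEquiv.ofBijective (algebraMap K k) hk, fun x => rfl⟩
  obtain ⟨π, hπ⟩ : ∃ π : 𝓞 k, π = RingOfIntegers.mapRingEquiv e (om_spec.toInteger - 1) :=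
    ⟨_, rfl⟩
  have hπp : Prime π := by
    rw [hπ]
    exact (MulEquiv.prime_iff (RingOfIntegers.mapRingEquiv e).toMulEquiv).2 hpr
  have hπc : (π : k) = omF k - 1 := by
    rw [hπ, RingOfIntegers.mapRingEquiv_apply, he]
    have h1 : ((om_spec.toInteger - 1 : 𝓞 K) : K) = om - 1 := rfl
    rw [h1, map_sub, map_one]
    rfl
  have hsq : (π : k) ^ 2 = -(3 * omF k) := by
    rw [hπc]
    linear_combination omF_quad k
  have hom : w.valuation k (omF k) = 1 := by
    have h1 := congrArg (w.valuation k) (omF_cube k)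
    rw [map_pow, map_one] at h1
    exact tad_pow (by norm_num) h1
  have hval : w.valuation k (π : k) < 1 := by
    have h1 := congrArg (w.valuation k) hsq
    rw [map_pow, Valuation.map_neg, map_mul, hom, mul_one] at h1
    by_contra hcon
    push Not at hcon
    have h2 : 1 ≤ w.valuation k (π : k) ^ 2 := one_le_pow₀ hcon
    rw [h1] at h2
    exact absurd hw (not_lt.2 h2)
  have hmem : π ∈ w.asIdeal := by
    have h1 : w.valuation k (algebraMap (𝓞 k) k π) < 1 := hval
    rwa [HeightOneSpectrum.valuation_lt_one_iff_mem] at h1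
  have hmax : (Ideal.span {π}).IsMaximal :=
    Ring.DimensionLEOne.maximalOfPrime (by simpa using hπp.ne_zero)
      ((Ideal.span_singleton_prime hπp.ne_zero).2 hπp)
  have hspan : w.asIdeal = Ideal.span {π} := by
    refine (hmax.eq_of_le w.isPrime.ne_top ?_).symm
    rw [Ideal.span_singleton_le_iff_mem]
    exact hmem
  have hv : w.valuation k (π : k) = WithZero.exp (-1 : ℤ) := by
    rw [← w.intValuation_singleton hπp.ne_zero hspan]
    exact w.valuation_of_algebraMap π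
  have hv2 : w.valuation k (1 - omF k) = WithZero.exp (-1 : ℤ) := by
    rw [← hv, hπc, ← Valuation.map_neg, neg_sub]
  unfold od
  rw [hv2, WithZero.log_exp]
  norm_num

/-- cubes modulo `1 - om` -/
private theorem tad_cube {k : Type u} [Field k] [NumberField k] [Algebra K k]
    (hk : Function.Bijective (algebraMap K k)) (x : 𝓞 k) :
    ∃ c : 𝓞 k, (x : k) ^ 3 - x = (1 - omF k) * c := by
  obtain ⟨e, he⟩ : ∃ e : K ≃+* k, ∀ x : K, e x = algebraMap K k x :=
    ⟨RingEquiv.ofBijective (algebraMap K k) hk, fun x => rfl⟩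
  obtain ⟨y, hy⟩ := (RingOfIntegers.mapRingEquiv e).surjective x
  obtain ⟨m, n, hmn⟩ := S3.exists_coords y
  obtain ⟨omk, homk⟩ : ∃ omk : 𝓞 k, algebraMap (𝓞 k) k omk = omF k := by
    refine ⟨⟨omF k, ?_⟩, rfl⟩
    refine ⟨Polynomial.X ^ 3 - Polynomial.C 1, Polynomial.monic_X_pow_sub_C _ (by norm_num), ?_⟩
    simp [omF_cube]
  have hinj : Function.Injective (algebraMap (𝓞 k) k) := RingOfIntegers.coe_injective
  have hx : x = (m : 𝓞 k) + n * omk := by
    apply hinj
    rw [map_add, map_mul, map_intCast, map_intCast, homk]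
    have h1 : algebraMap (𝓞 k) k x = e (y : K) := by
      rw [← hy]
      rfl
    rw [h1, he, hmn, map_add, map_mul, map_intCast, map_intCast]
    rfl
  have hq : omk ^ 2 + omk + 1 = 0 := by
    apply hinj
    rw [map_add, map_add, map_pow, map_one, map_zero, homk]
    exact omF_quad k
  have h3 : ∃ j : ℤ, (m + n) ^ 3 - (m + n) = 3 * j := by
    have h1 : ∀ a : ZMod 3, a ^ 3 - a = 0 := by decide
    have h2 := h1 ((m + n : ℤ) : ZMod 3)
    have h4 : (((m + n) ^ 3 - (m + n) : ℤ) : ZMod 3) = 0 := by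
      push_cast
      push_cast at h2
      exact h2
    rw [ZMod.intCast_zmod_eq_zero_iff_dvd] at h4
    exact_mod_cast h4
  obtain ⟨j, hj⟩ := h3
  have hjk : ((m : 𝓞 k) + n) ^ 3 - (m + n) = 3 * j := by
    exact_mod_cast congrArg (Int.cast : ℤ → 𝓞 k) hj
  refine ⟨(1 - omk) * (-omk ^ 2) * j - (n : 𝓞 k) * (3 * (m + n) ^ 2 - 3 * (m + n) * n * (1 - omk)
    + n ^ 2 * (1 - omk) ^ 2 - 1), ?_⟩
  have h5 : x ^ 3 - x = (1 - omk) * ((1 - omk) * (-omk ^ 2) * j - (n : 𝓞 k) *
      (3 * (m + n) ^ 2 - 3 * (m + n) * n * (1 - omk) + n ^ 2 * (1 - omk) ^ 2 - 1)) := by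
    rw [hx]
    linear_combination hjk + j * (omk ^ 2 - 3 * omk + 3) * hq
  have h6 := congrArg (algebraMap (𝓞 k) k) h5
  rw [map_sub, map_pow, map_mul, map_sub, map_one, homk] at h6
  exact h6

open scoped Pointwise in
/-- trivial decomposition group: unramified of degree one -/
private theorem tad_ef {k N : Type u} [Field k] [NumberField k] [Field N] [NumberField N]
    [Algebra k N] [IsGalois k N] (v : HeightOneSpectrum (𝓞 N))
    (hst : ∀ σ : Gal(N/k), gpl σ v = v → σ = 1) :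
    v.asIdeal.ramificationIdx (𝓞 k) = 1 ∧ v.asIdeal.inertiaDeg (𝓞 k) = 1 := by
  have i1 : v.asIdeal.IsPrime := v.isPrime
  have i2 : (v.under (𝓞 k)).asIdeal.IsPrime := (v.under (𝓞 k)).isPrime
  have i3 : (v.under (𝓞 k)).asIdeal.IsMaximal := (v.under (𝓞 k)).isMaximal
  have i4 : v.asIdeal.LiesOver (v.under (𝓞 k)).asIdeal := ⟨rfl⟩
  have i5 : Finite (v.under (𝓞 k)).asIdeal.ResidueField := by
    have j1 : Finite (𝓞 k ⧸ (v.under (𝓞 k)).asIdeal) :=
      Ideal.finiteQuotientOfFreeOfNeBot _ (v.under (𝓞 k)).ne_bot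
    exact Finite.of_surjective _
      (Ideal.bijective_algebraMap_quotient_residueField (v.under (𝓞 k)).asIdeal).2
  have h1 := Ideal.card_stabilizer_eq (G := Gal(N/k)) (v.under (𝓞 k)).asIdeal v.asIdeal
  have h2 : Nat.card (MulAction.stabilizer Gal(N/k) v.asIdeal) = 1 := by
    rw [Nat.card_eq_one_iff_unique]
    refine ⟨⟨?_⟩, ⟨1⟩⟩
    have hone : ∀ g : MulAction.stabilizer Gal(N/k) v.asIdeal, g.1 = 1 := by
      rintro ⟨g, hg⟩
      change g = 1
      apply hst
      apply HeightOneSpectrum.ext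
      rw [MulAction.mem_stabilizer_iff] at hg
      conv_rhs => rw [← hg]
      rw [Ideal.pointwise_smul_eq_comap]
      rfl
    intro a b
    exact Subtype.ext ((hone a).trans (hone b).symm)
  rw [h2, Ideal.ramificationIdxIn_eq_ramificationIdx _ v.asIdeal Gal(N/k),
    Ideal.inertiaDegIn_eq_inertiaDeg _ v.asIdeal Gal(N/k)] at h1
  exact ⟨Nat.eq_one_of_mul_eq_one_right h1.symm, Nat.eq_one_of_mul_eq_one_left h1.symm⟩

section
variable {k N : Type u} [Field k] [NumberField k] [Algebra K k] [Field N] [NumberField N]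
  [Algebra K N] [Algebra k N] [IsScalarTower K k N] [DecidableEq N] [IsGalois k N]
  {ϖ : 𝓞 K} {ℓ q : ℕ} (h : PD ϖ ℓ q) {P : Pt N} (hF : Full k ϖ P)
  (hk : Function.Bijective (algebraMap K k)) {lam : HeightOneSpectrum (𝓞 N)}
  (hp : (nrm lam).Prime) (hl : ℓ ∣ nrm lam - 1) (hl3 : lam.valuation N (3 : N) = 1)

include hp hl3 in
theorem exists_beta : ∃ β : 𝓞 K, Deg1 β (nrm lam) ∧
    lam.valuation N (algebraMap K N (β : K)) < 1 := by
  set I : Ideal (𝓞 K) := lam.asIdeal.comap (algebraMap (𝓞 K) (𝓞 N)) with hI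
  have hIp : I.IsPrime := Ideal.IsPrime.comap _
  -- the residue rings
  have hfin : Finite (𝓞 N ⧸ lam.asIdeal) := lam.asIdeal.finiteQuotientOfFreeOfNeBot lam.ne_bot
  let f : 𝓞 K ⧸ I →+* 𝓞 N ⧸ lam.asIdeal := Ideal.quotientMap lam.asIdeal (algebraMap (𝓞 K) (𝓞 N)) le_rfl
  have hinj : Function.Injective f := Ideal.quotientMap_injective' le_rfl
  have hdvd : Nat.card (𝓞 K ⧸ I) ∣ nrm lam := by
    rw [← taa_card]
    exact AddSubgroup.card_dvd_of_injective f.toAddMonoidHom hinj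
  have hfinK : Finite (𝓞 K ⧸ I) := Finite.of_injective f hinj
  have hnt : Nontrivial (𝓞 K ⧸ I) := Ideal.Quotient.nontrivial_iff.2 hIp.ne_top
  have hcard : Nat.card (𝓞 K ⧸ I) = nrm lam := by
    rcases (Nat.dvd_prime hp).1 hdvd with h1 | h1
    · have h2 : 1 < Nat.card (𝓞 K ⧸ I) := Finite.one_lt_card
      omega
    · exact h1
  have h3 : (3 : 𝓞 K) ∉ I := by
    intro h
    rw [hI, Ideal.mem_comap, map_ofNat] at h
    have h4 := (taa_mem lam (3 : 𝓞 N)).2 h
    have h5 : ((3 : 𝓞 N) : N) = 3 := taa_cast3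
    rw [h5, hl3] at h4
    exact lt_irrefl _ h4
  have hI0 : I ≠ ⊥ := by
    intro h
    have h4 : Ideal.absNorm I = nrm lam := hcard
    rw [h, Ideal.absNorm_bot] at h4
    exact hp.ne_zero h4.symm
  have hmax : I.IsMaximal := hIp.isMaximal hI0
  have hco : IsCoprime I (Ideal.span {3}) := by
    rw [Ideal.isCoprime_iff_sup_eq]
    refine hmax.1.2 _ (lt_of_le_of_ne le_sup_left ?_)
    intro h
    apply h3
    rw [h]
    exact Ideal.mem_sup_right (Ideal.mem_span_singleton_self _)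
  obtain ⟨a, ha1, ha2⟩ := S4.exists_gen I hco
  refine ⟨a, ⟨hp, ?_, ha1⟩, ?_⟩
  · rw [ha2]
    exact hcard
  · rw [taa_K]
    have h4 : a ∈ I := by
      rw [← ha2]
      exact Ideal.mem_span_singleton_self _
    exact h4

include h hF hp hl hl3 in
theorem beta_fix {β : 𝓞 K} (hβ : Deg1 β (nrm lam))
    (hb : lam.valuation N (algebraMap K N (β : K)) < 1) : ¬ β ∣ ϖ ∧ sm N β P = P := by
  have hco : (nrm lam).Coprime ℓ := taa_pl h.hl hp hl
  have hbm := (taa_K lam β).1 hb
  have hpm : ((nrm lam : ℕ) : 𝓞 N) ∈ lam.asIdeal := taa_beta_p lam hβ hbm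
  have hlm : ((ℓ : ℕ) : 𝓞 N) ∉ lam.asIdeal := fun hl2 => taa_coprime lam hco hpm hl2
  have hvl : lam.valuation N (ℓ : N) = 1 := by
    have h1 := taa_val_one lam hlm
    simpa using h1
  refine ⟨fun hd => ?_, ?_⟩
  · have h1 : β ∣ ((ℓ : ℤ) : 𝓞 K) := by
      have h2 := hd.trans h.dvd
      simpa using h2
    have h2 := (hβ.dvd_int_iff ℓ).1 h1
    have h3 : nrm lam ∣ ℓ := by exact_mod_cast h2
    have h4 := (Nat.prime_dvd_prime_iff_eq hp h.hl).1 h3
    rw [h4] at hco
    exact h.hl.one_lt.ne' ((Nat.coprime_self _).1 hco)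
  · have hσ : ∀ x : 𝓞 N, (1 : Gal(N/k)) • x - x ^ nrm lam ∈ lam.asIdeal := by
      intro x
      rw [one_smul, ← Ideal.Quotient.eq, map_pow]
      have hmax : lam.asIdeal.IsMaximal := lam.isMaximal
      let _ : Field (𝓞 N ⧸ lam.asIdeal) := Ideal.Quotient.field lam.asIdeal
      have hfin : Finite (𝓞 N ⧸ lam.asIdeal) := lam.asIdeal.finiteQuotientOfFreeOfNeBot lam.ne_bot
      have := Fintype.ofFinite (𝓞 N ⧸ lam.asIdeal)
      have h1 := FiniteField.pow_card (Ideal.Quotient.mk lam.asIdeal x)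
      rw [← Nat.card_eq_fintype_card, taa_card] at h1
      exact h1.symm
    have hℓ3 : ℓ.Coprime 3 := by
      rw [Nat.coprime_primes h.hl Nat.prime_three]
      have := h.five
      omega
    have hq3 : q.Coprime 3 := by
      rcases h.alt with e | e
      · rw [e]; exact hℓ3
      · rw [e]; exact hℓ3.pow_left 2
    have hvq : lam.valuation N (q : N) = 1 := by
      rcases h.alt with e | e
      · rw [e]; exact hvl
      · rw [e]
        push_cast
        rw [map_pow, hvl, one_pow]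
    have hqd : ϖ ∣ (q : 𝓞 K) := by
      rcases h.alt with e | e
      · rw [e]; exact h.dvd
      · rw [e]
        push_cast
        exact h.dvd.trans (dvd_pow_self _ two_ne_zero)
    have hqP : q • P = 0 := by
      rw [← sm_nat]
      exact (hF.ord _).2 hqd
    have h1 := frob_sm hβ lam hb (1 : Gal(N/k)) hσ hq3 hvq hqP
    rw [ga_one] at h1
    exact h1.symm

include h hF hk in
theorem od_beta {β : 𝓞 K} {p : ℕ} (hβ : Deg1 β p) (hpl : ℓ ∣ p - 1) {v : HeightOneSpectrum (𝓞 N)}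
    (hv : v.valuation N (algebraMap K N (β : K)) < 1) : od v (algebraMap K N (β : K)) = 1 := by
  have hbm := (taa_K v β).1 hv
  have hco : p.Coprime ℓ := taa_pl h.hl hβ.prime hpl
  have hpm : ((p : ℕ) : 𝓞 N) ∈ v.asIdeal := taa_beta_p v hβ hbm
  have hlm : ((ℓ : ℕ) : 𝓞 N) ∉ v.asIdeal := fun hl2 => taa_coprime v hco hpm hl2
  have h3 : v.valuation N (3 : N) = 1 := by
    have h1 := taa_val_one v (taa_three v hβ.one hbm)
    rwa [taa_cast3] at h1
  have hϖ : v.valuation N (algebraMap K N (ϖ : K)) = 1 := by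
    have h1 : algebraMap (𝓞 K) (𝓞 N) ϖ ∉ v.asIdeal := by
      intro h2
      apply hlm
      have h4 := taa_dvd v h.dvd h2
      simpa using h4
    exact taa_val_one v h1
  have hram : v.asIdeal.ramificationIdx (𝓞 k) = 1 :=
    unram h.prime h.one hF.ord hF.gen v h3 hϖ
  have e1 : algebraMap K N (β : K) = algebraMap k N (algebraMap K k (β : K)) :=
    IsScalarTower.algebraMap_apply K k N _
  rw [e1, od_map, hram, Nat.cast_one, one_mul]
  rw [e1, val_map_lt] at hv
  -- the place below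
  let e : K ≃+* k := RingEquiv.ofBijective (algebraMap K k) hk
  set b : 𝓞 k := RingOfIntegers.mapRingEquiv e β with hb
  have hbk : ((b : 𝓞 k) : k) = algebraMap K k (β : K) := rfl
  rw [← hbk] at hv ⊢
  have hbu : b ∈ (v.under (𝓞 k)).asIdeal := (taa_mem _ b).1 hv
  have hbp : Prime b := (MulEquiv.prime_iff (RingOfIntegers.mapRingEquiv e)).2 hβ.isPrime
  have hsp : (Ideal.span {b}).IsPrime := (Ideal.span_singleton_prime hbp.ne_zero).2 hbp
  have hsm : (Ideal.span {b}).IsMaximal := hsp.isMaximal (by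
    rw [Ne, Ideal.span_singleton_eq_bot]
    exact hbp.ne_zero)
  have hu : (v.under (𝓞 k)).asIdeal = Ideal.span {b} :=
    (hsm.eq_of_le (v.under (𝓞 k)).isPrime.ne_top ((Ideal.span_singleton_le_iff_mem _).2 hbu)).symm
  have h4 : (v.under (𝓞 k)).valuation k ((b : 𝓞 k) : k) = WithZero.exp (-1 : ℤ) := by
    rw [HeightOneSpectrum.valuation_of_algebraMap]
    exact (v.under (𝓞 k)).intValuation_singleton hbp.ne_zero hu
  unfold od
  rw [h4, WithZero.log_exp, neg_neg]

include h hF hk in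
theorem decomp_three {v : HeightOneSpectrum (𝓞 N)} (hv : v.valuation N (3 : N) < 1) :
    ∃ σ : Gal(N/k), σ ≠ 1 ∧ gpl σ v = v := by
  by_contra hcon
  push Not at hcon
  obtain ⟨he, hf⟩ := tad_ef (k := k) v (fun σ hσ => by
    by_contra h1
    exact hcon σ h1 hσ)
  have hvk : (v.under (𝓞 k)).valuation k (3 : k) < 1 := by
    rw [← val_map_lt, map_ofNat]
    exact hv
  have homN : algebraMap k N (1 - omF k) = 1 - omF N := by
    rw [map_sub, map_one, omF, omF, ← IsScalarTower.algebraMap_apply]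
  have hod : od v (1 - omF N) = 1 := by
    rw [← homN, od_map, he, tad_unif hk hvk]
    norm_num
  have hs0 : (1 - omF N : N) ≠ 0 := sub_ne_zero.2 (omF_ne_one N).symm
  have hs1 : v.valuation N (1 - omF N) < 1 := by
    rw [val_lt_one_iff v hs0, hod]
    norm_num
  have hun : ∀ z : N, v.valuation N z < 1 → v.valuation N z ≤ v.valuation N (1 - omF N) := by
    intro z hz
    by_cases hz0 : z = 0
    · rw [hz0, map_zero]
      exact zero_le
    · rw [val_lt_one_iff v hz0] at hz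
      rw [val_le_val_iff v hz0 hs0, hod]
      omega
  have hres : ∀ z : N, v.valuation N z ≤ 1 → v.valuation N (z ^ 3 - z) < 1 := by
    intro z hz
    obtain ⟨x, hx⟩ := res_field (k := k) v hf hz
    obtain ⟨c, hc⟩ := tad_cube hk x
    obtain ⟨y, hy⟩ : ∃ y : N, y = algebraMap k N (x : k) := ⟨_, rfl⟩
    rw [← hy] at hx
    have hy1 : v.valuation N y ≤ 1 := by
      have h1 : y = z - (z - y) := by ring
      rw [h1]
      exact (Valuation.map_sub _ _ _).trans (max_le hz hx.le)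
    have hcy : v.valuation N (y ^ 3 - y) < 1 := by
      have h1 : y ^ 3 - y = (1 - omF N) * algebraMap k N (c : k) := by
        have h2 := congrArg (algebraMap k N) hc
        rw [map_sub, map_pow, map_mul, homN, ← hy] at h2
        exact h2
      rw [h1, map_mul]
      have h3 : v.valuation N (algebraMap k N (c : k)) ≤ 1 := by
        rw [val_map_le]
        exact (v.under (𝓞 k)).valuation_le_one c
      exact mul_lt_one_of_nonneg_of_lt_one_left zero_le hs1 h3
    have h4 : z ^ 3 - z = (z - y) * (z ^ 2 + z * y + y ^ 2 - 1) + (y ^ 3 - y) := by ring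
    rw [h4]
    refine (v.valuation N).map_add_lt ?_ hcy
    rw [map_mul]
    refine mul_lt_one_of_nonneg_of_lt_one_left zero_le hx ?_
    have a1 : v.valuation N (z ^ 2) ≤ 1 := by
      rw [map_pow]
      exact pow_le_one₀ zero_le hz
    have a2 : v.valuation N (z * y) ≤ 1 := by
      rw [map_mul]
      exact mul_le_one₀ hz zero_le hy1
    have a3 : v.valuation N (y ^ 2) ≤ 1 := by
      rw [map_pow]
      exact pow_le_one₀ zero_le hy1
    have a4 : v.valuation N (1 : N) ≤ 1 := by rw [map_one]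
    exact (Valuation.map_sub _ _ _).trans (max_le ((Valuation.map_add _ _ _).trans
      (max_le ((Valuation.map_add _ _ _).trans (max_le a1 a2)) a3)) a4)
  have hl1 : v.valuation N (ℓ : N) = 1 := by
    have h1 : v.valuation N (ℓ : N) ≤ 1 := by
      have h2 : v.valuation N (algebraMap (𝓞 N) N (ℓ : 𝓞 N)) ≤ 1 := v.valuation_le_one _
      rwa [map_natCast] at h2
    refine le_antisymm h1 ?_
    by_contra h2
    push Not at h2
    have hcop : Nat.Coprime 3 ℓ := by
      rw [Nat.coprime_primes Nat.prime_three h.hl]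
      have := h.five
      omega
    have hcop' : IsCoprime (3 : ℤ) (ℓ : ℤ) := by
      have := Nat.isCoprime_iff_coprime.2 hcop
      exact_mod_cast this
    obtain ⟨a, b, hab⟩ := hcop'
    have h3 : (a : N) * 3 + b * ℓ = 1 := by exact_mod_cast congrArg (Int.cast : ℤ → N) hab
    have hint : ∀ c : ℤ, v.valuation N (c : N) ≤ 1 := by
      intro c
      have h4 : v.valuation N (algebraMap (𝓞 N) N (c : 𝓞 N)) ≤ 1 := v.valuation_le_one _
      rwa [map_intCast] at h4
    have h4 : v.valuation N ((a : N) * 3 + b * ℓ) < 1 := by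
      refine (v.valuation N).map_add_lt ?_ ?_
      · rw [map_mul]
        exact mul_lt_one_of_nonneg_of_lt_one_right (hint a) zero_le hv
      · rw [map_mul]
        exact mul_lt_one_of_nonneg_of_lt_one_right (hint b) zero_le h2
    rw [h3, map_one] at h4
    exact lt_irrefl _ h4
  have hq1 : v.valuation N (q : N) = 1 := by
    rcases h.alt with h1 | h1
    · rw [h1, hl1]
    · rw [h1]
      push_cast
      rw [map_pow, hl1, one_pow]
  have hqP : q • P = 0 := by
    rw [← sm_nat, hF.ord]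
    have h1 := Ideal.absNorm_mem (Ideal.span {ϖ})
    rw [h.norm, Ideal.mem_span_singleton] at h1
    exact h1
  have hP0 := no_tors_three (v.valuation N) hv hun hres hq1 hqP
  have h1 : sm N (1 : 𝓞 K) P = 0 := by rw [hP0, map_zero]
  rw [hF.ord] at h1
  exact h.prime.not_isUnit (isUnit_of_dvd_one h1)

variable {T : Finset (𝓞 K)} {iv : 𝓞 K → 𝓞 K} {n : 𝓞 K → ℤ} (hT : TrD ϖ ℓ T iv n)
  {b : ℤ} (hb : ∀ x : ℤ, ¬ (nrm lam : ℤ) ∣ x → ∃ i : ℕ, (nrm lam : ℤ) ∣ x - b ^ i)
  (hb0 : ¬ (nrm lam : ℤ) ∣ b) (hb1 : ∀ i : ℕ, (nrm lam : ℤ) ∣ b ^ i - 1 → nrm lam - 1 ∣ i)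
include h hF hp hl hl3 hT hb hb0 hb1

include hk in
theorem thaine_app {f : HeightOneSpectrum (𝓞 N) → ZMod ℓ} (hf : PrincZero f)
    (hf3 : ∀ v : HeightOneSpectrum (𝓞 N), v.valuation N (3 : N) < 1 → f v = 0) (c : 𝓞 K) :
    (∀ σ τ : Gal(N/k), gpl σ lam = gpl τ lam → σ = τ) ∧
    ∃ a : Gal(N/k) → ℤ, (∀ σ : Gal(N/k),
      (gpl σ lam).valuation N (xi T iv n P c - (b : N) ^ a σ) < 1) ∧
      ∑ σ : Gal(N/k), (a σ : ZMod ℓ) * f (gpl σ lam) = 0 := by
  classical
  have hlp : ℓ ≠ nrm lam := by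
    rintro rfl
    have h1 := Nat.le_of_dvd (Nat.sub_pos_of_lt hp.one_lt) hl
    have h2 := hp.one_lt
    omega
  -- the places `gpl σ lam` are distinct
  have hϖ1 : lam.valuation N (algebraMap K N (ϖ : K)) = 1 := by
    have h1 := tab_ell lam hp h.hl hlp
    obtain ⟨ϖ', hϖ'⟩ := h.dvd
    have h2 : (ℓ : N) = algebraMap K N (ϖ : K) * algebraMap K N (ϖ' : K) := by
      have h3 := congrArg (fun x : 𝓞 K => algebraMap K N (x : K)) hϖ'
      simpa using h3
    rw [h2, map_mul] at h1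
    have h3 : lam.valuation N (algebraMap K N (ϖ : K)) ≤ 1 := v_alg_le _ ϖ
    have h4 : lam.valuation N (algebraMap K N (ϖ' : K)) ≤ 1 := v_alg_le _ ϖ'
    refine le_antisymm h3 ?_
    rw [← h1]
    exact mul_le_of_le_one_right' h4
  have hinj : ∀ σ τ : Gal(N/k), gpl σ lam = gpl τ lam → σ = τ := by
    intro σ τ hστ
    have h1 : gpl (τ⁻¹ * σ) lam = lam := by
      rw [gpl_mul, hστ, ← gpl_mul, inv_mul_cancel, gpl_one]
    have h2 : τ⁻¹ * σ = 1 := by
      refine nos h.prime h.one hF.ord hF.gen lam hl3 hϖ1 _ ?_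
      intro x
      obtain ⟨m, hm⟩ := tab_int lam hp x
      have h3 : (τ⁻¹ * σ) • (x - (m : 𝓞 N)) ∈ lam.asIdeal := by
        rw [← tab_mem] at hm ⊢
        have h4 := gpl_val (τ⁻¹ * σ) lam ((x - (m : 𝓞 N) : 𝓞 N) : N)
        rw [h1] at h4
        have h5 : (((τ⁻¹ * σ) • (x - (m : 𝓞 N)) : 𝓞 N) : N) =
          (τ⁻¹ * σ) ((x - (m : 𝓞 N) : 𝓞 N) : N) := rfl
        rw [h5, h4]
        exact hm
      have h6 := lam.asIdeal.sub_mem h3 hm
      have h7 : (τ⁻¹ * σ) • (x - (m : 𝓞 N)) - (x - (m : 𝓞 N)) = (τ⁻¹ * σ) • x - x := by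
        rw [smul_sub]
        have h8 : (τ⁻¹ * σ) • (m : 𝓞 N) = (m : 𝓞 N) :=
          map_intCast (MulSemiringAction.toRingHom Gal(N/k) (𝓞 N) (τ⁻¹ * σ)) m
        rw [h8]
        ring
      rwa [h7] at h6
    exact (inv_mul_eq_one.1 h2).symm
  refine ⟨hinj, ?_⟩
  have hℓ : Fact ℓ.Prime := ⟨h.hl⟩
  obtain ⟨β, hβ, hlamβ⟩ := exists_beta (N := N) hp hl3
  obtain ⟨hβϖ, hPβ⟩ := beta_fix h hF hp hl hl3 hβ hlamβ
  obtain ⟨L, iF, iNF, iKL, i0, iNL, s0, s1, s2, g0, g1, R, hR, hgen⟩ :=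
    exists_ext N N hβ.isPrime hβ.one
  clear g0 s2 s0 i0
  -- the places which contain `β`
  have hβval : ∀ v : HeightOneSpectrum (𝓞 N), v.valuation N (algebraMap K N (β : K)) < 1 ↔
      ∃ σ : Gal(N/k), gpl σ lam = v := by
    intro v
    constructor
    · intro hv
      refine gpl_trans lam v ?_
      apply HeightOneSpectrum.ext
      ext x
      obtain ⟨x0, hx0⟩ : ∃ x0 : 𝓞 K, algebraMap K k (x0 : K) = (x : k) := by
        obtain ⟨z, hz⟩ := hk.2 (x : k)
        have hint : IsIntegral ℤ z := by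
          have h1 : IsIntegral ℤ (algebraMap K k z) := by
            rw [hz]
            exact x.2
          exact (isIntegral_algebraMap_iff (algebraMap K k).injective).1 h1
        exact ⟨⟨z, hint⟩, hz⟩
      have hx1 : algebraMap K N (x0 : K) = algebraMap k N (x : k) := by
        rw [IsScalarTower.algebraMap_apply K k N, hx0]
      have key : ∀ u : HeightOneSpectrum (𝓞 N), u.valuation N (algebraMap K N (β : K)) < 1 →
          (x ∈ (u.under (𝓞 k)).asIdeal ↔ β ∣ x0) := by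
        intro u hu
        rw [← tab_dvd hβ.isPrime hu x0, hx1]
        exact (tab_mem u (algebraMap (𝓞 k) (𝓞 N) x)).symm
      rw [key lam hlamβ, key v hv]
    · rintro ⟨σ, rfl⟩
      have h1 := gpl_val σ lam (algebraMap K N (β : K))
      rw [IsScalarTower.algebraMap_apply K k N, AlgEquiv.commutes,
        ← IsScalarTower.algebraMap_apply K k N] at h1
      rw [h1]
      exact hlamβ
  have hod : ∀ v : HeightOneSpectrum (𝓞 N), v.valuation N (algebraMap K N (β : K)) < 1 →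
      od v (algebraMap K N (β : K)) = 1 := fun v hv => od_beta h hF hk hβ hl hv
  have hram := fun (v : HeightOneSpectrum (𝓞 N))
    (hv : v.valuation N (algebraMap K N (β : K)) < 1) =>
      ram (k := N) (F := L) hβ.isPrime hβ.one hR hgen v (hod v hv)
  obtain ⟨hfin, -, hall⟩ := hram lam hlamβ
  rw [hβ.norm] at hfin
  have hfin' : Module.finrank N L = nrm lam - 1 := by omega
  obtain ⟨τ, hτ⟩ := hall (b : 𝓞 K) (by rw [hβ.dvd_int_iff]; exact hb0)
  have hpow : ∀ i : ℕ, ga (τ ^ i) R = sm L ((b : 𝓞 K) ^ i) R := by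
    intro i
    induction i with
    | zero => rw [pow_zero, ga_one, pow_zero, map_one]; rfl
    | succ i ih =>
      rw [pow_succ, ga_mul, hτ, ga_sm, ih, pow_succ', map_mul]
      rfl
  have hgenτ : ∀ σ : Gal(L/N), σ ∈ Subgroup.zpowers τ := by
    intro σ
    obtain ⟨c', hc', hσ⟩ := gal_sm (k := N) hβ.isPrime.ne_zero hR σ
    obtain ⟨j, hj, hcj⟩ := hβ.exists_int c'
    have hndvd : ¬ β ∣ c' := fun hd => hβ.isPrime.not_isUnit (hc'.isUnit_of_dvd' hd dvd_rfl)
    have hpj : ¬ (nrm lam : ℤ) ∣ (j : ℤ) := by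
      intro hd
      apply hndvd
      have h1 := (hβ.dvd_int_iff (j : ℤ)).2 hd
      rw [Int.cast_natCast] at h1
      have h2 := dvd_add hcj h1
      rwa [sub_add_cancel] at h2
    obtain ⟨i, hi⟩ := hb j hpj
    have h3 : β ∣ c' - (b : 𝓞 K) ^ i := by
      have h4 := (hβ.dvd_int_iff ((j : ℤ) - b ^ i)).2 hi
      rw [Int.cast_sub, Int.cast_natCast, Int.cast_pow] at h4
      have h5 := dvd_add hcj h4
      rwa [sub_add_sub_cancel] at h5
    have h6 : ga σ R = ga (τ ^ i) R := by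
      rw [hσ, hpow, hR.sm_eq_iff]
      exact h3
    have h7 : ga ((τ ^ i)⁻¹ * σ) R = R := by
      rw [ga_mul, h6, ← ga_mul, inv_mul_cancel, ga_one]
    have h8 := hgen _ h7
    rw [(inv_mul_eq_one.1 h8).symm]
    exact Subgroup.npow_mem_zpowers τ i
  have hy : Algebra.norm N (yy T iv n P R c) = 1 :=
    yy_norm h hT hF.ord hβ hβϖ hR hPβ hgen hall c
  have hyu : ∀ W : HeightOneSpectrum (𝓞 L), W.valuation L (yy T iv n P R c) = 1 :=
    fun W => yy_val h hT hF.ord hβ hβϖ hR (W.valuation L) c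
  -- the relation
  let Z : Finset (HeightOneSpectrum (𝓞 N)) :=
    Finset.univ.image fun σ : Gal(N/k) => gpl σ lam
  have hZmem : ∀ v : HeightOneSpectrum (𝓞 N), v ∈ Z ↔
      v.valuation N (algebraMap K N (β : K)) < 1 := by
    intro v
    rw [hβval]
    simp [Z]
  obtain ⟨a, ha, hsum⟩ := thaine (ℓ := ℓ) (N := N) (L := L) (by rw [hfin']; exact hl) hgenτ hy hyu
    Z (t := tc R) (b := b) (by
      intro W hW
      have hv := (hZmem _).1 hW
      obtain ⟨h1, -, h2, h3, -⟩ := (hram _ hv).2.1 W rfl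
      refine ⟨h1, h2, ?_⟩
      have h4 : τ (tc R) = tc (sm L (b : 𝓞 K) R) := by
        rw [← hτ]
        exact (tc_pm ((τ : L →ₐ[N] L).restrictScalars K) R).symm
      have h5 := ker_sm_t (W.valuation L) h3 (b : 𝓞 K)
      have h6 : algebraMap K L (((b : ℤ) : 𝓞 K) : K) = (b : L) := by simp
      rw [h6] at h5
      rw [h4]
      refine lt_of_le_of_lt h5 ?_
      have ht0 : tc R ≠ 0 := by
        intro h7
        rw [h7] at h2
        simp [od] at h2
      rw [val_eq W ht0, h2, ← WithZero.exp_nsmul, WithZero.exp_lt_exp]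
      norm_num) hf (by
      intro W hW
      rw [hZmem] at hW
      by_cases h3 : (W.under (𝓞 N)).valuation N (3 : N) < 1
      · exact Or.inl (hf3 _ h3)
      · right
        have hle : (W.under (𝓞 N)).valuation N (3 : N) ≤ 1 := by
          have h4 := (W.under (𝓞 N)).valuation_le_one (K := N) (3 : 𝓞 N)
          have h5 : ((3 : 𝓞 N) : N) = 3 := map_ofNat (algebraMap (𝓞 N) N) 3
          rw [← h5]
          exact h4
        have h3' : (W.under (𝓞 N)).valuation N (3 : N) = 1 := le_antisymm hle (not_lt.1 h3)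
        have hβ' : (W.under (𝓞 N)).valuation N (algebraMap K N (β : K)) = 1 :=
          le_antisymm (v_alg_le _ β) (not_lt.1 hW)
        have h5 : W.valuation L (3 : L) = 1 := by
          have h6 := (val_map_eq W (3 : N)).2 h3'
          rwa [map_ofNat] at h6
        have h7 : W.valuation L (algebraMap K L (β : K)) = 1 := by
          rw [IsScalarTower.algebraMap_apply K N L]
          exact (val_map_eq W _).2 hβ'
        rw [unram (k := N) hβ.isPrime hβ.one hR hgen W h5 h7]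
        intro h8
        exact h.hl.one_lt.ne' (Nat.dvd_one.1 h8))
  refine ⟨fun σ => a (gpl σ lam), ?_, ?_⟩
  · intro σ
    obtain ⟨W, hW⟩ := tab_over (L := L) (gpl σ lam)
    have hv : (gpl σ lam).valuation N (algebraMap K N (β : K)) < 1 := (hβval _).2 ⟨σ, rfl⟩
    have h1 := ha W (by rw [hW, hZmem]; exact hv)
    rw [hW] at h1
    have hWβ : W.valuation L (algebraMap K L (β : K)) < 1 := by
      rw [IsScalarTower.algebraMap_apply K N L, val_map_lt, hW]
      exact hv
    have h2 := yy_cong h hT hF.ord hβ hβϖ hR (W.valuation L) hWβ c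
    have h3 : W.valuation L (algebraMap N L (xi T iv n P c - (b : N) ^ a (gpl σ lam))) < 1 := by
      have h4 : algebraMap N L (xi T iv n P c - (b : N) ^ a (gpl σ lam)) =
          (yy T iv n P R c - (b : L) ^ a (gpl σ lam)) -
            (yy T iv n P R c - algebraMap N L (xi T iv n P c)) := by
        rw [map_sub, map_zpow₀, map_intCast]
        ring
      rw [h4]
      exact lt_of_le_of_lt (Valuation.map_sub _ _ _) (max_lt h1 h2)
    rw [val_map_lt, hW] at h3
    exact h3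
  · rw [← hsum]
    refine (Finset.sum_image (s := Finset.univ) (g := fun σ : Gal(N/k) => gpl σ lam)
      (f := fun v => (a v : ZMod ℓ) * f v) ?_).symm
    intro σ _ τ' _ hστ
    exact hinj σ τ' hστ

theorem dlog : ∃ A : 𝓞 K →+ ZMod ℓ, (∀ x : 𝓞 K, ϖ ∣ x → A x = 0) ∧
    (∀ (c : 𝓞 K) (a : ℤ), lam.valuation N (xi T iv n P c - (b : N) ^ a) < 1 →
      (a : ZMod ℓ) = A c) ∧
    (A 1 = 0 → ∃ z : N, lam.valuation N (xi T iv n P 1 - z ^ ℓ) < 1) := by
  classical
  have hx : ∀ c, lam.valuation N (xi T iv n P c) = 1 := fun c => xi_val h hT hF.ord _ c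
  choose a ha using fun c : 𝓞 K => tac_log hp hb (hx c)
  have huniq : ∀ (c : 𝓞 K) (e : ℤ), lam.valuation N (xi T iv n P c - (b : N) ^ e) < 1 →
      (e : ZMod ℓ) = (a c : ZMod ℓ) := fun c e he => tac_uniq hp hb0 hl hb1 he (ha c)
  have hzero : ∀ x : 𝓞 K, ϖ ∣ x → (a x : ZMod ℓ) = 0 := by
    intro x hx0
    have h1 := huniq x 0 (by rw [xi_zero h hT hF.ord hx0, zpow_zero, sub_self, map_zero]; exact zero_lt_one)
    rw [← h1, Int.cast_zero]
  have hadd : ∀ c d : 𝓞 K, (a (c + d) : ZMod ℓ) = (a c : ZMod ℓ) + (a d : ZMod ℓ) := by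
    intro c d
    obtain ⟨z, hz0, hz, hcd⟩ := xi_add h hT hF.ord c d
    have hz1 : lam.valuation N z = 1 := (val_eq_one_iff lam hz0).2 (hz lam)
    obtain ⟨e, he⟩ := tac_log hp hb hz1
    have h1 := tac_mul hp hb0 (hx c) (ha c) (ha d)
    have h2 := tac_pow hp hb0 hz1 he ℓ
    have h3 := tac_mul hp hb0 (by rw [map_mul, hx c, hx d, one_mul]) h1 h2
    rw [← hcd] at h3
    rw [← huniq (c + d) _ h3, Int.cast_add, Int.cast_add, Int.cast_mul, Int.cast_natCast,
      ZMod.natCast_self, zero_mul, add_zero]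
  refine ⟨AddMonoidHom.mk' (fun c => (a c : ZMod ℓ)) hadd, hzero, fun c e he => huniq c e he, ?_⟩
  intro h1
  have h2 : ((a 1 : ℤ) : ZMod ℓ) = 0 := h1
  have hne : NeZero ℓ := ⟨h.hl.ne_zero⟩
  rw [ZMod.intCast_zmod_eq_zero_iff_dvd] at h2
  obtain ⟨m, hm⟩ := h2
  refine ⟨(b : N) ^ m, ?_⟩
  rw [← zpow_natCast, ← zpow_mul, mul_comm, ← hm]
  exact ha 1

end

end

end Pool.Agent.Lib.MP_1a91b9_ntT.DB
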