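import Pool.Agent.Lib.MP_1a91b9_ntT.DB.El

/-!
# Theorem D: the statements which are carried along the tower

`VT ϖ ℓ F` (the Selmer group in Kummer form is trivial over `F`), `DT ϖ F` (the field of the points
killed by `ϖ` has nontrivial decomposition groups over the places above `3`).
-/

set_option autoImplicit false

namespace Pool.Agent.Lib.MP_1a91b9_ntT.DB

open NumberField IsDedekindDomain WeierstrassCurve

universe u

/-- the group `V` over `F` is trivial -/
def VT (ϖ : 𝓞 K) (ℓ : ℕ) (F : Type u) [Field F] [NumberField F] [Algebra K F] : Prop :=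
  ∀ (N : Type u) [Field N] [NumberField N] [Algebra K N] [Algebra F N] [IsScalarTower K F N]
    [DecidableEq N] [IsGalois F N] (P : Pt N), Full F ϖ P → ∀ y : Nˣ, VV F ϖ ℓ P y →
    ∃ z : Nˣ, y = z ^ ℓ

/-- the decomposition groups at the places above `3` are not trivial -/
def DT (ϖ : 𝓞 K) (F : Type u) [Field F] [NumberField F] [Algebra K F] : Prop :=
  ∀ (N : Type u) [Field N] [NumberField N] [Algebra K N] [Algebra F N] [IsScalarTower K F N]
    [DecidableEq N] [IsGalois F N] (P : Pt N), Full F ϖ P → ∀ v : HeightOneSpectrum (𝓞 N),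
    v.valuation N (3 : N) < 1 → ∃ σ : Gal(N/F), σ ≠ 1 ∧ gpl σ v = v

/-- the decomposition groups at the places above `b` are not trivial -/
def DTb (b ϖ : 𝓞 K) (F : Type u) [Field F] [NumberField F] [Algebra K F] : Prop :=
  ∀ (N : Type u) [Field N] [NumberField N] [Algebra K N] [Algebra F N] [IsScalarTower K F N]
    [DecidableEq N] [IsGalois F N] (P : Pt N), Full F ϖ P → ∀ v : HeightOneSpectrum (𝓞 N),
    v.valuation N (algebraMap K N (b : K)) < 1 → ∃ σ : Gal(N/F), σ ≠ 1 ∧ gpl σ v = v

theorem dt_three (ϖ : 𝓞 K) (F : Type u) [Field F] [NumberField F] [Algebra K F] :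
    DTb 3 ϖ F ↔ DT ϖ F := by
  have e : ∀ (N : Type u) [Field N] [Algebra K N], algebraMap K N (((3 : 𝓞 K) : K)) = 3 := by
    intro N _ _
    have h : ((3 : 𝓞 K) : K) = 3 := map_ofNat (algebraMap (𝓞 K) K) 3
    rw [h, map_ofNat]
  constructor
  · intro h N _ _ _ _ _ _ _ P hP v hv
    exact h N P hP v (by rw [e]; exact hv)
  · intro h N _ _ _ _ _ _ _ P hP v hv
    rw [e] at hv
    exact h N P hP v hv

end Pool.Agent.Lib.MP_1a91b9_ntT.DB
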