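import Pool.Agent.Lib.MP_1a91b9_ntT.DB.UnIso
import Pool.Agent.Lib.MP_1a91b9_ntT.DB.ThA
import Pool.Agent.Lib.MP_1a91b9_ntT.DB.Dens
import Pool.Agent.Lib.MP_1a91b9_ntT.DB.Cl
import Pool.Agent.Lib.MP_1a91b9_ntT.DB.VT

/-!
# DB: the base case

PROOF (complete; stream DB of helper55). Jobs BaA (`no_h`), BaB (`base_V`, `base_VT`).

`no_h`: suppose `f v0 ≠ 0`. `T, iv, n` from `exists_trD`; `ξ = xi 1` is not an `ℓ`-th power (`xi_ne_pow`,
`¬ ϖ ∣ 1`), a unit everywhere (`xi_val`). `f v = 0` if `v 3 < 1`: `decomp_three`, `IsoPl.fix`.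
`exists_place` with `S` = the places with `v 3 < 1` (finite) gives `lam`. `b` from `exists_prim`, `A` from
`dlog`. `H` from the isotypy of `f` at `lam` (`IsoPl`, kills the multiples of `ϖ` by `IsoPl.map_dvd`).
For `c` let `a` be as in `thaine_app`. The map `Gal(N/k) → T`, `σ ↦ d` with `ga σ P = sm d P`, is a
bijection (`Full`, `gal_sm`, `IsRes`). For `σ`, `d`: `(gpl σ lam) (xi c - b^(a σ)) < 1`; apply `gpl_val` with
`σ⁻¹`: `lam (σ⁻¹ (xi c) - b^(a σ)) < 1` and `σ⁻¹ (xi c) = xi (c iv d)` (`xi_ga` for `σ⁻¹`: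
`ga σ⁻¹ P = sm (iv d) P`), so `(a σ : ZMod ℓ) = A (c iv d)`; `f (gpl σ lam) = H d`. So
`∑_{d ∈ T} A (c iv d) H d = 0` for all `c`; `lin_tr`: `A = 0` or `H = 0`. If `A = 0`: `xi 1` is an `ℓ`-th
power modulo `lam` (`dlog`), contradiction to the choice of `lam`. If `H = 0`: `f lam = H 1 = 0`
(`gpl_one`, `ga_one`), contradiction.
`base_V`: `g` from `exists_primgen`; `cl`: the second alternative is excluded by `no_h`; so
`y = ε s^ℓ`. `Iso ε` (`Iso.mul`, `Iso.inv`, `Iso.pow_ell`), `iso_unit`: `ε = xi c z^ℓ`. So `y = xi c (z s)^ℓ`.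
`w` from `exists_w`; `WLoc` at `w`: `w (y b^ℓ) = 1`, `w (y b^ℓ - e^ℓ) ≤ exp (-2)`. With `r = z s b` (as an
element of `N`, `w r = 1` since `w (xi c) = 1`): `w (xi c - (e/r)^ℓ) ≤ exp (-2)`: `xi_pow`: `ϖ ∣ c`, so
`xi c = 1` (`xi_zero`) and `y = (z s)^ℓ`.
-/

set_option autoImplicit false

namespace Pool.Agent.Lib.MP_1a91b9_ntT.DB

open NumberField IsDedekindDomain WeierstrassCurve

universe u

section
variable {k N : Type u} [Field k] [NumberField k] [Algebra K k] [Field N] [NumberField N]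
  [Algebra K N] [Algebra k N] [IsScalarTower K k N] [DecidableEq N] [IsGalois k N]
  {ϖ : 𝓞 K} {ℓ q : ℕ} (h : PD ϖ ℓ q) {P : Pt N} (hF : Full k ϖ P)
  (hk : Function.Bijective (algebraMap K k))
include h hF hk

theorem no_h {f : HeightOneSpectrum (𝓞 N) → ZMod ℓ} (hf : PrincZero f)
    (hiso : IsoPl k ℓ P f) (v : HeightOneSpectrum (𝓞 N)) : f v = 0 := by
  by_contra hv0
  obtain ⟨T, iv, n, hT⟩ := exists_trD h
  have hξ0 : xi T iv n P 1 ≠ 0 := xi_ne_zero h hT hF.ord 1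
  have hξu : ∀ w : HeightOneSpectrum (𝓞 N), w.valuation N (xi T iv n P 1) = 1 := fun w =>
    xi_val h hT hF.ord (w.valuation N) 1
  have hξ : ¬ ∃ z : N, xi T iv n P 1 = z ^ ℓ := by
    rintro ⟨z, hz⟩
    have hz0 : z ≠ 0 := by
      rintro rfl
      rw [zero_pow h.hl.ne_zero] at hz
      exact hξ0 hz
    have h1 : ϖ ∣ 1 := by
      refine xi_ne_pow h hF hk hT (c := 1) ⟨Units.mk0 z hz0, ?_⟩
      apply Units.ext
      rw [Units.val_pow_eq_pow_val, Units.val_mk0]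
      exact hz
    exact h.prime.not_isUnit (isUnit_of_dvd_one h1)
  have hf3 : ∀ v : HeightOneSpectrum (𝓞 N), v.valuation N (3 : N) < 1 → f v = 0 := by
    intro v hv
    obtain ⟨σ, hσ1, hσ⟩ := decomp_three h hF hk hv
    exact IsoPl.fix h hF hiso hσ hσ1
  have h3 : (3 : N) ≠ 0 := three_ne
  have hS : {v : HeightOneSpectrum (𝓞 N) | v.valuation N (3 : N) < 1}.Finite := by
    refine (od_finite h3).subset ?_
    intro v hv
    have h1 := (val_lt_one_iff v h3).1 hv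
    exact h1.ne'
  obtain ⟨lam, hlS, hp, hl, hflam, hlz⟩ := exists_place h.hl
    (by have := h.five; omega) hf ⟨v, hv0⟩
    hξ0 hξu hξ hS
  have hl3 : lam.valuation N (3 : N) = 1 := by
    refine le_antisymm ?_ (not_lt.1 hlS)
    have h1 : lam.valuation N (algebraMap (𝓞 N) N 3) ≤ 1 := lam.valuation_le_one (K := N) (3 : 𝓞 N)
    have e3 : algebraMap (𝓞 N) N 3 = 3 := map_ofNat _ 3
    rw [e3] at h1
    exact h1
  obtain ⟨b, hb, hb0, hb1⟩ := exists_prim hp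
  obtain ⟨A, hA0, hA1, hA2⟩ := dlog h hF hp hl hl3 hT hb hb0 hb1
  obtain ⟨H, hH⟩ := hiso lam
  have hH0 : ∀ c : 𝓞 K, ϖ ∣ c → H c = 0 := fun c hc => IsoPl.map_dvd h hF hH hc
  have hϖ0 : ϖ ≠ 0 := h.prime.ne_zero
  -- the representative of an automorphism
  have hD : ∀ σ : Gal(N/k), ∃ d : 𝓞 K, d ∈ T ∧ ga σ P = sm N d P := by
    intro σ
    obtain ⟨c, -, hc⟩ := gal_sm hϖ0 hF.ord σ
    have hcn := Full.c_ne h hF hc
    obtain ⟨d, hd, hcd⟩ := hT.res.ex c hcn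
    exact ⟨d, hd, hc.trans ((hF.ord.sm_eq_iff c d).2 hcd)⟩
  choose D hDT hDP using hD
  have hDinj : ∀ σ τ : Gal(N/k), D σ = D τ → σ = τ := by
    intro σ τ e
    have h1 : ga σ P = ga τ P := by rw [hDP σ, hDP τ, e]
    have h2 : ga (τ⁻¹ * σ) P = P := by
      rw [ga_mul, h1, ← ga_mul, inv_mul_cancel, ga_one]
    have h3' := hF.gen _ h2
    exact (inv_mul_eq_one.1 h3').symm
  have key : ∀ c : 𝓞 K, ∑ d ∈ T, A (c * iv d) * H d = 0 := by
    intro c
    obtain ⟨-, a, ha, hsum⟩ := thaine_app h hF hk hp hl hl3 hT hb hb0 hb1 hf hf3 c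
    rw [← hsum]
    symm
    refine Finset.sum_bij (fun σ _ => D σ) (fun σ _ => hDT σ) (fun σ _ τ _ e => hDinj σ τ e)
      (fun d hd => ?_) (fun σ _ => ?_)
    · obtain ⟨σ, hσ⟩ := hF.all d (hT.res.nz d hd)
      refine ⟨σ, Finset.mem_univ _, ?_⟩
      have h1 : sm N (D σ) P = sm N d P := by rw [← hDP σ, hσ]
      exact hT.res.uniq _ (hDT σ) _ hd ((hF.ord.sm_eq_iff _ _).1 h1)
    · have hnd : ¬ ϖ ∣ D σ := hT.res.nz _ (hDT σ)
      have e1 : f (gpl σ lam) = H (D σ) := hH σ (D σ) (hDP σ)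
      have e2 : ((a σ : ℤ) : ZMod ℓ) = A (c * iv (D σ)) := by
        refine hA1 _ _ ?_
        rw [← gpl_val σ lam]
        have e3 : σ (xi T iv n P (c * iv (D σ)) - (b : N) ^ a σ) =
            xi T iv n P c - (b : N) ^ a σ := by
          rw [map_sub, xi_ga h hT hF.ord hnd (hDP σ), map_zpow₀, map_intCast]
          congr 1
          refine xi_cong h hT hF.ord ?_
          have e4 : c * iv (D σ) * D σ - c = c * (D σ * iv (D σ) - 1) := by ring
          rw [e4]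
          exact Dvd.dvd.mul_left (hT.inv _ hnd) _
        rw [e3]
        exact ha σ
      rw [e1, e2]
  rcases lin_tr h hT A H hA0 hH0 key with h0 | h0
  · exact hlz (hA2 (by rw [h0]; rfl))
  · apply hflam
    have h1 := hH 1 1 (by rw [ga_one, map_one]; rfl)
    rw [gpl_one, h0] at h1
    exact h1

theorem base_V {y : Nˣ} (hy : VV k ϖ ℓ P y) : ∃ z : Nˣ, y = z ^ ℓ := by
  obtain ⟨T, iv, n, hT⟩ := exists_trD h
  obtain ⟨g, hg, hg0, -⟩ := exists_primgen h
  rcases cl h hF hg hg0 hy.od hy.iso with ⟨ε, s, hε, hys⟩ | ⟨f, ⟨v, hv⟩, hf, hiso⟩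
  · have hisoε : Iso k ℓ P ε := by
      have e1 : ε = y * (s ^ ℓ)⁻¹ := by rw [hys, mul_inv_cancel_right]
      rw [e1]
      exact Iso.mul h hF hy.iso (Iso.inv h hF (Iso.pow_ell h hF s))
    obtain ⟨c, z, hcz⟩ := iso_unit h hF hk hT hε hisoε
    obtain ⟨w, hw, ht⟩ := exists_w h hF hk
    obtain ⟨b, e, hb1, hb2⟩ := hy.loc w hw
    have hy1 : (y : N) = xi T iv n P c * ((z : N) * s) ^ ℓ := by
      rw [hys, hcz]
      push_cast
      rw [mul_pow, ← mul_assoc]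
      rfl
    have hxc : w.valuation N (xi T iv n P c) = 1 := xi_val h hT hF.ord (w.valuation N) c
    set r : N := (z : N) * s * b with hr
    have hyr : (y : N) * b ^ ℓ = xi T iv n P c * r ^ ℓ := by
      rw [hy1, hr]
      ring
    have hwr : w.valuation N (r ^ ℓ) = 1 := by
      rw [hyr, map_mul, hxc, one_mul] at hb1
      exact hb1
    have hr0 : r ^ ℓ ≠ 0 := by
      intro h0
      rw [h0, map_zero] at hwr
      exact zero_ne_one hwr
    have hz : w.valuation N (xi T iv n P c - (e / r) ^ ℓ) ≤ WithZero.exp (-2 : ℤ) := by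
      have e1 : xi T iv n P c - (e / r) ^ ℓ = ((y : N) * b ^ ℓ - e ^ ℓ) / r ^ ℓ := by
        rw [hyr, div_pow]
        field_simp
      rw [e1, map_div₀, hwr, div_one]
      exact hb2
    have hc := xi_pow h hT hF.ord w hw ht hz
    refine ⟨z * s, ?_⟩
    apply Units.ext
    rw [hy1, xi_zero h hT hF.ord hc, one_mul]
    push_cast
    rfl
  · exact absurd (no_h h hF hk hf hiso v) hv

end

theorem base_VT {ϖ : 𝓞 K} {ℓ q : ℕ} (h : PD ϖ ℓ q) (k : Type u) [Field k] [NumberField k]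
    [Algebra K k] (hk : Function.Bijective (algebraMap K k)) : VT ϖ ℓ k := by
  intro N _ _ _ _ _ _ _ P hF y hy
  exact base_V h hF hk hy

theorem base_DT {ϖ : 𝓞 K} {ℓ q : ℕ} (h : PD ϖ ℓ q) (k : Type u) [Field k] [NumberField k]
    [Algebra K k] (hk : Function.Bijective (algebraMap K k)) : DT ϖ k := by
  intro N _ _ _ _ _ _ _ P hF v hv
  exact decomp_three h hF hk hv

end Pool.Agent.Lib.MP_1a91b9_ntT.DB
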