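import Pool.Agent.Lib.MP_1a91b9_ntT.DB.Tors

/-!
# DB: the distribution relation of the ordinate (general `β`)

PROOF (complete; stream DB of helper55). Jobs DiA (`dist_fun`), DiB (`dist_C`, `dist_one`, `dist_two`).

`T` is a system of representatives of the NONZERO classes of `𝓞 K/(β)` (put `T0 = T ∪ {0}`); `Ord β R`: the
annihilator of `R` is `(β)`.

`dist_fun` (analytic). Let `y z = (Y z - 1)/2`; `q_a = a/β` for `a ∈ T0` (complex numbers `embK a/embK β`).
Let `S = {z | β z ∈ Λ} ∪ {z | β z - e ∈ Λ}` where `e` is the zero of `y` (`Y e = 1`; `y z = 0`, `z ∉ Λ` iff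
`z - e ∈ Λ`: `y = 0` forces `x = 0`, so `u z = ptZ = u e`, `exists_uni`).
`F z = y (β z) * (y z * Π_{a ∈ T} y (z + q_a))⁻¹`.
* `F` is `Λ`-periodic (`β l ∈ Λ`), `S` closed discrete (`S3.eventually_mul_notMem` and translates).
* Off `S` all `y(z + q_a)` are `≠ 0` and `z + q_a ∉ Λ`: `z + q_a ∈ Λ` gives `β z ∈ Λ` (`β q_a = a`);
  `y (z + q_a) = 0` gives `z + q_a - e ∈ Λ`, `β z - β e ∈ Λ`, and `β e - e ∈ Λ` because `(β - 1) e` is a
  multiple of `3 e ∈ Λ` (`three_Z`), so `β z - e ∈ Λ`. So `F` is differentiable there.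
* At `s ∈ S` `F` has a finite limit. Case `β s ∈ Λ`: exactly one `a0 ∈ T0` with `s + q_{a0} ∈ Λ` (`hT`).
  `(z - s)^3 y(β z) → c β^{-3}`, `(z - s)^3 y(z + q_{a0}) → c` with `c ≠ 0` (`S3.Q_eq`, `S3.tendsto_Qr`:
  `z^3 ℘'(z) → -2`), the other factors tend to `y(s + q_a) ≠ 0` (`s + q_a ∉ Λ`, and `s + q_a - e ∈ Λ` would
  give `e ∈ Λ`). So the limit is `β^{-3} Π_{a ≠ a0} y(s + q_a)^{-1}`. Case `β s - e ∈ Λ`: exactly one `a0`
  with `s + q_{a0} - e ∈ Λ`; identity `y(z + e) * y(-z) = 1` for `z ∉ Λ`, `z + e ∉ Λ`, `X z ≠ 0`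
  (`y(T + Z) = -1/(1 + y(T))`, `y(-T) = -1 - y(T)`; `add_generic` with `w = e`, `X e = 0`, `Y e = 1`), hence
  `z^{-3} y(z + e) → -1/c` as `z → 0`; so `(z-s)^{-3} y(β z) → - β^3/c` and `(z - s)^{-3} y(z + q_{a0}) →
  -1/c`, the other factors have nonzero finite limits: the limit of `F` is finite.
* `S3.liouville_eq` with the limit at `0`: `F = β^{-3} (Π_{a ∈ T} y(q_a))^{-1}` off `S`.

`dist_C`: translate with `u` (`exists_uni`): `P = u z`, `sm β P = u(β z) ≠ 0`, `yc (sm β P) ≠ 0` iff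
`β z - e ∉ Λ`. `R = u r`, `β r ∈ Λ`, `r = c/β`, `c : 𝓞 K`; `Ord β R` gives: `β ∣ d c → β ∣ d` for all `d`, so
`a ↦` the representative in `T` of `a c` is a bijection of `T` (injective on a finite set);
`sm a R = u(a c/β)` so the products over `a ∈ T` are permuted (`uniq`, periodicity of `u`).
With `P = S`: `sm β S = S` (`sm_S`), `yc S = om ≠ 0`: `om β^3 Π y(sm a R) = om Π y(S + sm a R)`:
this is `dist_one` over `ℂ`; then `dist_two` over `ℂ`.
Over `F`: apply `f` (`yc_pm`, `pm_S`, `pm_sm`, `map_prod`, `pm_inj`, `AlgHom.commutes`: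
`f (algebraMap K F β) = embK β`; `Ord β (pm f R)` from `pm_sm` and injectivity).
-/

set_option autoImplicit false

namespace Pool.Agent.Lib.MP_1a91b9_ntT.DB

open NumberField IsDedekindDomain WeierstrassCurve S3

/-- `T` is a system of representatives of the nonzero classes of `𝓞 K / (β)` -/
structure IsRes (β : 𝓞 K) (T : Finset (𝓞 K)) : Prop where
  nz : ∀ a ∈ T, ¬ β ∣ a
  ex : ∀ c : 𝓞 K, ¬ β ∣ c → ∃ a ∈ T, β ∣ c - a
  uniq : ∀ a ∈ T, ∀ b ∈ T, β ∣ a - b → a = b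

/-- the annihilator of `R` is `(β)` -/
def Ord {F : Type*} [Field F] [Algebra K F] [DecidableEq F] (β : 𝓞 K) (R : Pt F) : Prop :=
  ∀ c : 𝓞 K, sm F c R = 0 ↔ β ∣ c

section DiA

open Filter Topology

/-- the ordinate as a function on the plane -/
private noncomputable def diA_y (z : ℂ) : ℂ := (Y z - 1) / 2

private theorem diA_y_add {l : ℂ} (hl : l ∈ PP.lattice) (z : ℂ) : diA_y (z + l) = diA_y z := by
  rw [diA_y, diA_y, Ell.Y_add hl]

private theorem diA_diff {z : ℂ} (hz : z ∉ PP.lattice) : DifferentiableAt ℂ diA_y z := by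
  have h1 : DifferentiableAt ℂ (fun w => (PP.derivWeierstrassP w / Om ^ 3 - 1) / 2) z :=
    (((differentiableAt_Q hz).div_const _).sub_const _).div_const _
  exact h1

private theorem diA_lim_pole : Tendsto (fun w : ℂ => w ^ 3 * diA_y w) (𝓝[≠] 0)
    (𝓝 (-(Om ^ 3)⁻¹)) := by
  have h0 : Tendsto (fun w : ℂ => w ^ 3) (𝓝[≠] 0) (𝓝 0) := by
    have h1 : ContinuousAt (fun w : ℂ => w ^ 3) 0 := by fun_prop
    have h2 := h1.tendsto
    rw [zero_pow (by norm_num)] at h2
    exact h2.mono_left nhdsWithin_le_nhds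
  have hq : Tendsto (fun w : ℂ => Qr w) (𝓝[≠] 0) (𝓝 0) := by
    have h1 := tendsto_Qr (j := 0) (by norm_num)
    simpa using h1
  have h2 : Tendsto (fun w : ℂ => ((-2 + w ^ 3 * Qr w) / Om ^ 3 - w ^ 3) / 2) (𝓝[≠] 0)
      (𝓝 (((-2 + 0 * 0) / Om ^ 3 - 0) / 2)) :=
    (((tendsto_const_nhds.add (h0.mul hq)).div_const _).sub h0).div_const _
  have e : ((-2 + 0 * 0) / Om ^ 3 - 0) / 2 = -(Om ^ 3)⁻¹ := by ring
  rw [e] at h2
  refine h2.congr' ?_
  filter_upwards [self_mem_nhdsWithin] with w hw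
  have hw' : w ≠ 0 := hw
  rw [diA_y, Y, Q_eq]
  field_simp

private theorem diA_tend_mul {b : ℂ} (hb : b ≠ 0) :
    Tendsto (fun w : ℂ => b * w) (𝓝[≠] 0) (𝓝[≠] 0) := by
  refine tendsto_nhdsWithin_iff.2 ⟨?_, ?_⟩
  · have h1 : ContinuousAt (fun w : ℂ => b * w) 0 := by fun_prop
    have h2 := h1.tendsto
    rw [mul_zero] at h2
    exact h2.mono_left nhdsWithin_le_nhds
  · filter_upwards [self_mem_nhdsWithin] with w hw
    exact mul_ne_zero hb hw

private theorem diA_zero_id {e z : ℂ} (he : e ∉ PP.lattice) (he0 : Y e = 1)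
    (hz : z ∉ PP.lattice) (h1 : z - e ∉ PP.lattice) (h2 : z + e ∉ PP.lattice) :
    diA_y (z + e) = -(1 + diA_y z)⁻¹ := by
  obtain ⟨hX, hx3, hy3⟩ := add_generic hz he h1 h2
  have hXe : X e = 0 := by
    have h3 := Y_sq he
    rw [he0] at h3
    have h4 : X e ^ 3 = 0 := by linear_combination (-1 / 4) * h3
    exact pow_eq_zero_iff (by norm_num) |>.1 h4
  rw [hXe] at hX hx3 hy3
  rw [he0] at hx3 hy3
  have hu := mk_uni hz
  have hx0 : X z ≠ 0 := hX
  have hyy : (Y z - 1) / 2 * ((Y z - 1) / 2 + 1) = X z ^ 3 := by linear_combination hu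
  have hy1 : (Y z - 1) / 2 + 1 ≠ 0 := by
    intro h
    rw [h, mul_zero] at hyy
    exact pow_ne_zero 3 hx0 hyy.symm
  have hs : (Y z - 1) / (2 * (X z - 0)) = (Y z - 1) / 2 / X z := by
    rw [sub_zero, div_div]
  rw [hs] at hx3 hy3
  change (Y (z + e) - 1) / 2 = -(1 + (Y z - 1) / 2)⁻¹
  rw [hy3, hx3]
  set y := (Y z - 1) / 2 with hy
  set x := X z with hx
  have hy1' : 1 + y ≠ 0 := by rw [add_comm]; exact hy1
  have hy0 : y ≠ 0 := by
    intro h
    rw [h, zero_mul] at hyy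
    exact pow_ne_zero 3 hx0 hyy.symm
  have e1 : y / x * ((y / x) ^ 2 - x - 0 - x) + y = y ^ 3 / x ^ 3 - y := by
    field_simp
    ring
  have e2 : y ^ 3 / x ^ 3 - y = -(y / (1 + y)) := by
    rw [← hu]
    have e3 : y ^ 2 + y = y * (1 + y) := by ring
    rw [e3]
    field_simp
    ring
  rw [e1, e2]
  field_simp
  ring

private theorem diA_lim_zero {e : ℂ} (he : e ∉ PP.lattice) (he0 : Y e = 1) :
    Tendsto (fun w : ℂ => (w ^ 3)⁻¹ * diA_y (w + e)) (𝓝[≠] 0) (𝓝 (Om ^ 3)) := by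
  have h0 : Tendsto (fun w : ℂ => w ^ 3) (𝓝[≠] 0) (𝓝 0) := by
    have h1 : ContinuousAt (fun w : ℂ => w ^ 3) 0 := by fun_prop
    have h2 := h1.tendsto
    rw [zero_pow (by norm_num)] at h2
    exact h2.mono_left nhdsWithin_le_nhds
  have hO := pow_ne_zero 3 Om_ne_zero
  have h1 : Tendsto (fun w : ℂ => -(w ^ 3 + w ^ 3 * diA_y w)⁻¹) (𝓝[≠] 0)
      (𝓝 (-(0 + -(Om ^ 3)⁻¹)⁻¹)) := by
    refine ((h0.add diA_lim_pole).inv₀ ?_).neg
    rw [zero_add]
    exact neg_ne_zero.2 (inv_ne_zero hO)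
  have e1 : -(0 + -(Om ^ 3)⁻¹)⁻¹ = Om ^ 3 := by
    rw [zero_add, inv_neg, inv_inv, neg_neg]
  rw [e1] at h1
  refine h1.congr' ?_
  filter_upwards [self_mem_nhdsWithin, eventually_notMem 0, eventually_add_notMem e 0,
    eventually_add_notMem (-e) 0] with w hw hw1 hw2 hw3
  rw [diA_zero_id he he0 hw1 (by rw [sub_eq_add_neg]; exact hw3) hw2]
  rw [mul_neg, ← mul_inv, mul_add, mul_one]

private theorem diA_ratio_pole {b : ℂ} (hb : b ≠ 0) :
    Tendsto (fun w : ℂ => diA_y (b * w) * (diA_y w)⁻¹) (𝓝[≠] 0) (𝓝 (b ^ 3)⁻¹) := by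
  have hO := inv_ne_zero (pow_ne_zero 3 Om_ne_zero)
  have h1 := (diA_lim_pole.comp (diA_tend_mul hb)).mul
    (diA_lim_pole.inv₀ (neg_ne_zero.2 hO))
  have h2 := h1.const_mul ((b ^ 3)⁻¹)
  rw [mul_inv_cancel₀ (neg_ne_zero.2 hO), mul_one] at h2
  refine h2.congr' ?_
  filter_upwards [self_mem_nhdsWithin] with w hw
  have hw' : w ≠ 0 := hw
  simp only [Function.comp_apply]
  rw [mul_inv, mul_pow]
  field_simp

private theorem diA_ratio_zero {e : ℂ} (he : e ∉ PP.lattice) (he0 : Y e = 1) {b : ℂ}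
    (hb : b ≠ 0) :
    Tendsto (fun w : ℂ => diA_y (b * w + e) * (diA_y (w + e))⁻¹) (𝓝[≠] 0) (𝓝 (b ^ 3)) := by
  have hO := pow_ne_zero 3 Om_ne_zero
  have h1 := ((diA_lim_zero he he0).comp (diA_tend_mul hb)).mul
    ((diA_lim_zero he he0).inv₀ hO)
  have h2 := h1.const_mul (b ^ 3)
  rw [mul_inv_cancel₀ hO, mul_one] at h2
  refine h2.congr' ?_
  filter_upwards [self_mem_nhdsWithin] with w hw
  have hw' : w ≠ 0 := hw
  simp only [Function.comp_apply]
  rw [mul_inv, mul_pow]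
  field_simp

private theorem diA_three {e : ℂ} (he : e ∉ PP.lattice) (he0 : Y e = 1) :
    3 * e ∈ PP.lattice := by
  classical
  obtain ⟨u, -, hu0, hu1, -, -⟩ := exists_uni
  have hXe : X e = 0 := by
    have h3 := Y_sq he
    rw [he0] at h3
    have h4 : X e ^ 3 = 0 := by linear_combination (-1 / 4) * h3
    exact pow_eq_zero_iff (by norm_num) |>.1 h4
  have h1 : u e = ptZ ℂ := by
    refine pt_ext (fun h => he ((hu0 e).1 h)) Z_ne_zero ?_ ?_
    · rw [(hu1 e he).1, hXe]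
      rfl
    · rw [(hu1 e he).2, he0]
      simp [ptZ]
  have h2 : u (3 * e) = 0 := by
    have e3 : (3 : ℂ) * e = 3 • e := by simp
    rw [e3, map_nsmul, h1, three_Z]
  exact (hu0 _).1 h2

private theorem diA_zero_iff {e z : ℂ} (he : e ∉ PP.lattice) (he0 : Y e = 1)
    (hz : z ∉ PP.lattice) (h : diA_y z = 0) : z - e ∈ PP.lattice := by
  classical
  obtain ⟨u, -, hu0, hu1, -, -⟩ := exists_uni
  have hXe : ∀ w, w ∉ PP.lattice → Y w = 1 → X w = 0 := by
    intro w hw hw0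
    have h3 := Y_sq hw
    rw [hw0] at h3
    have h4 : X w ^ 3 = 0 := by linear_combination (-1 / 4) * h3
    exact pow_eq_zero_iff (by norm_num) |>.1 h4
  have hYz : Y z = 1 := by
    rw [diA_y] at h
    linear_combination 2 * h
  have h1 : u z = u e := by
    refine pt_ext (fun h => hz ((hu0 z).1 h)) (fun h => he ((hu0 e).1 h)) ?_ ?_
    · rw [(hu1 z hz).1, (hu1 e he).1, hXe e he he0, hXe z hz hYz]
    · rw [(hu1 z hz).2, (hu1 e he).2, he0, hYz]
  rw [← hu0, map_sub, h1, sub_self]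

private theorem diA_b_ne {β : 𝓞 K} (h : β ≠ 0) : embK (β : K) ≠ 0 := by
  intro h0
  have h1 : (β : K) = 0 := by
    apply embK.toRingHom.injective
    rw [map_zero]
    exact h0
  exact h (RingOfIntegers.ext h1)

private theorem diA_b_sub {β : 𝓞 K} (h : (3 : 𝓞 K) ∣ β - 1) {e : ℂ} (he : e ∉ PP.lattice)
    (he0 : Y e = 1) : embK (β : K) * e - e ∈ PP.lattice := by
  obtain ⟨c, hc⟩ := h
  have h1 : embK (β : K) - 1 = 3 * embK (c : K) := by
    have h2 : ((β - 1 : 𝓞 K) : K) = ((3 * c : 𝓞 K) : K) := by rw [hc]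
    have h3 : ((β - 1 : 𝓞 K) : K) = (β : K) - 1 := by
      change algebraMap (𝓞 K) K (β - 1) = _
      rw [map_sub, map_one]
    have h4 : ((3 * c : 𝓞 K) : K) = 3 * (c : K) := by
      change algebraMap (𝓞 K) K (3 * c) = _
      rw [map_mul, map_ofNat]
    rw [h3, h4] at h2
    have h5 := congrArg embK h2
    rwa [map_sub, map_one, map_mul, map_ofNat] at h5
  have h2 : embK (β : K) * e - e = embK (c : K) * (3 * e) := by linear_combination e * h1
  rw [h2]
  exact mul_mem (embK_mem c) (diA_three he he0)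

private theorem diA_emb_sub (c d : 𝓞 K) : embK ((c - d : 𝓞 K) : K) =
    embK (c : K) - embK (d : K) := by
  change embK (algebraMap (𝓞 K) K (c - d)) = _
  rw [map_sub, map_sub]

private theorem diA_emb_mul (c d : 𝓞 K) : embK ((c * d : 𝓞 K) : K) =
    embK (c : K) * embK (d : K) := by
  change embK (algebraMap (𝓞 K) K (c * d)) = _
  rw [map_mul, map_mul]

private theorem diA_emb_zero : embK ((0 : 𝓞 K) : K) = 0 := by
  change embK (algebraMap (𝓞 K) K 0) = _
  rw [map_zero, map_zero]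

private theorem diA_dvd_iff {β : 𝓞 K} (h : β ≠ 0) (c : 𝓞 K) :
    embK (c : K) / embK (β : K) ∈ PP.lattice ↔ β ∣ c := by
  have hb := diA_b_ne h
  rw [mem_PP_iff]
  constructor
  · rintro ⟨d, hd⟩
    refine ⟨d, ?_⟩
    apply RingOfIntegers.ext
    apply embK.toRingHom.injective
    change embK (c : K) = embK ((β * d : 𝓞 K) : K)
    rw [diA_emb_mul, hd]
    field_simp
  · rintro ⟨d, rfl⟩
    refine ⟨d, ?_⟩
    rw [diA_emb_mul]
    field_simp

/-- complete residue systems -/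
private structure DiAFull (β : 𝓞 K) (T : Finset (𝓞 K)) : Prop where
  ex : ∀ c : 𝓞 K, ∃ a ∈ T, β ∣ c - a
  uniq : ∀ a ∈ T, ∀ b ∈ T, β ∣ a - b → a = b

/-- the classes -/
private theorem diA_class {β : 𝓞 K} (h : β ≠ 0) {T : Finset (𝓞 K)} (hT : DiAFull β T) {s : ℂ}
    (hs : embK (β : K) * s ∈ PP.lattice) :
    ∃ a ∈ T, s + embK (a : K) / embK (β : K) ∈ PP.lattice := by
  obtain ⟨c, hc⟩ := mem_PP_iff.1 hs
  obtain ⟨k, hk, d, hd⟩ := hT.ex (0 - c)
  refine ⟨k, hk, ?_⟩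
  have hb := diA_b_ne h
  have h1 : embK (((0 - c) - k : 𝓞 K) : K) = embK ((β * d : 𝓞 K) : K) := by rw [hd]
  rw [diA_emb_sub, diA_emb_sub, diA_emb_mul, diA_emb_zero, hc] at h1
  have h5 : s + embK (k : K) / embK (β : K) = -embK (d : K) := by
    field_simp
    linear_combination -h1
  rw [h5]
  exact neg_mem (embK_mem d)

private theorem diA_uniq {β : 𝓞 K} (h : β ≠ 0) {T : Finset (𝓞 K)} (hT : DiAFull β T)
    {a a' : 𝓞 K} (ha : a ∈ T) (ha' : a' ∈ T)
    (hm : embK (a : K) / embK (β : K) - embK (a' : K) / embK (β : K) ∈ PP.lattice) : a = a' := by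
  refine hT.uniq a ha a' ha' ?_
  rw [← diA_dvd_iff h, diA_emb_sub, sub_div]
  exact hm

private noncomputable def diA_F (b : ℂ) (T : Finset (𝓞 K)) (z : ℂ) : ℂ :=
  diA_y (b * z) * (∏ a ∈ T, diA_y (z + embK (a : K) / b))⁻¹

private theorem diA_fac {b s : ℂ} {a : 𝓞 K} (h1 : s + embK (a : K) / b ∉ PP.lattice) :
    Tendsto (fun z => diA_y (z + embK (a : K) / b)) (𝓝[≠] s) (𝓝 (diA_y (s + embK (a : K) / b))) := by
  have h2 : ContinuousAt (fun z => diA_y (z + embK (a : K) / b)) s := by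
    have h3 : ContinuousAt diA_y (s + embK (a : K) / b) := (diA_diff h1).continuousAt
    exact ContinuousAt.comp (f := fun z : ℂ => z + embK (a : K) / b) h3 (by fun_prop)
  exact h2.tendsto.mono_left nhdsWithin_le_nhds

private theorem diA_limA [DecidableEq (𝓞 K)] {β : 𝓞 K} (h : β ≠ 0) (hβ : (3 : 𝓞 K) ∣ β - 1)
    {T : Finset (𝓞 K)} (hT : DiAFull β T) {e : ℂ} (he : e ∉ PP.lattice)
    (he0 : Y e = 1) {s : ℂ} (hs : embK (β : K) * s ∈ PP.lattice) {a0 : 𝓞 K}
    (ha0 : a0 ∈ T) (hsa : s + embK (a0 : K) / embK (β : K) ∈ PP.lattice) :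
    Tendsto (diA_F (embK (β : K)) T) (𝓝[≠] s) (𝓝 ((embK (β : K) ^ 3)⁻¹ *
      (∏ a ∈ T.erase a0, diA_y (s + embK (a : K) / embK (β : K)))⁻¹)) := by
  have hb := diA_b_ne h
  have hbs := diA_b_sub hβ he he0
  set b := embK (β : K) with hbdef
  have hn1 : ∀ a ∈ T.erase a0, s + embK (a : K) / b ∉ PP.lattice := by
    intro a ha hm
    rw [Finset.mem_erase] at ha
    apply ha.1
    refine diA_uniq h hT ha.2 ha0 ?_
    have e1 := sub_mem hm hsa
    have e2 : s + embK (a : K) / b - (s + embK (a0 : K) / b) = embK (a : K) / b - embK (a0 : K) / b := by ring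
    rwa [e2] at e1
  have hn2 : ∀ a ∈ T.erase a0, diA_y (s + embK (a : K) / b) ≠ 0 := by
    intro a ha h0
    have e1 := diA_zero_iff he he0 (hn1 a ha) h0
    have e2 := mul_mem (embK_mem β) e1
    rw [← hbdef] at e2
    have e3 : b * (s + embK (a : K) / b - e) = b * s + embK (a : K) - (b * e - e) - e := by
      field_simp
      ring
    rw [e3] at e2
    apply he
    have e4 := sub_mem (sub_mem (add_mem hs (embK_mem a)) hbs) e2
    have e5 : b * s + embK (a : K) - (b * e - e) - (b * s + embK (a : K) - (b * e - e) - e) = e := by ring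
    rwa [e5] at e4
  have h1 := (tendsto_translate (l := s) (diA_ratio_pole hb)).mul
    ((tendsto_finsetProd (T.erase a0)
      (fun a ha => diA_fac (hn1 a ha))).inv₀ (Finset.prod_ne_zero_iff.2 hn2))
  refine h1.congr fun z => ?_
  have e1 : diA_y (b * z) = diA_y (b * (z - s)) := by
    have := diA_y_add hs (b * (z - s))
    rw [← this]
    congr 1
    ring
  have e2 : diA_y (z + embK (a0 : K) / b) = diA_y (z - s) := by
    have := diA_y_add hsa (z - s)
    rw [← this]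
    congr 1
    ring
  rw [diA_F, ← Finset.mul_prod_erase _ _ ha0, mul_inv, e1, e2, mul_assoc]

private theorem diA_limB [DecidableEq (𝓞 K)] {β : 𝓞 K} (h : β ≠ 0) (hβ : (3 : 𝓞 K) ∣ β - 1)
    {T : Finset (𝓞 K)} (hT : DiAFull β T) {e : ℂ} (he : e ∉ PP.lattice)
    (he0 : Y e = 1) {s : ℂ} (hs : embK (β : K) * s - e ∈ PP.lattice) {a0 : 𝓞 K}
    (ha0 : a0 ∈ T) (hsa : s - e + embK (a0 : K) / embK (β : K) ∈ PP.lattice) :
    Tendsto (diA_F (embK (β : K)) T) (𝓝[≠] s) (𝓝 ((embK (β : K) ^ 3) *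
      (∏ a ∈ T.erase a0, diA_y (s + embK (a : K) / embK (β : K)))⁻¹)) := by
  have hb := diA_b_ne h
  have hbs := diA_b_sub hβ he he0
  set b := embK (β : K) with hbdef
  have hn1 : ∀ a ∈ T.erase a0, s + embK (a : K) / b ∉ PP.lattice := by
    intro a ha hm
    have e2 := mul_mem (embK_mem β) hm
    rw [← hbdef] at e2
    have e3 : b * (s + embK (a : K) / b) = (b * s - e) + embK (a : K) + e := by
      field_simp
      ring
    rw [e3] at e2
    apply he
    have e4 := sub_mem e2 (add_mem hs (embK_mem a))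
    have e5 : (b * s - e) + embK (a : K) + e - ((b * s - e) + embK (a : K)) = e := by ring
    rwa [e5] at e4
  have hn2 : ∀ a ∈ T.erase a0, diA_y (s + embK (a : K) / b) ≠ 0 := by
    intro a ha h0
    have e1 := diA_zero_iff he he0 (hn1 a ha) h0
    rw [Finset.mem_erase] at ha
    apply ha.1
    refine diA_uniq h hT ha.2 ha0 ?_
    have e2 := sub_mem e1 hsa
    have e3 : s + embK (a : K) / b - e - (s - e + embK (a0 : K) / b) = embK (a : K) / b - embK (a0 : K) / b := by ring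
    rwa [e3] at e2
  have h1 := (tendsto_translate (l := s) (diA_ratio_zero he he0 hb)).mul
    ((tendsto_finsetProd (T.erase a0)
      (fun a ha => diA_fac (hn1 a ha))).inv₀ (Finset.prod_ne_zero_iff.2 hn2))
  refine h1.congr fun z => ?_
  have e1 : diA_y (b * z) = diA_y (b * (z - s) + e) := by
    have := diA_y_add hs (b * (z - s) + e)
    rw [← this]
    congr 1
    ring
  have e2 : diA_y (z + embK (a0 : K) / b) = diA_y (z - s + e) := by
    have := diA_y_add hsa (z - s + e)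
    rw [← this]
    congr 1
    ring
  rw [diA_F, ← Finset.mul_prod_erase _ _ ha0, mul_inv, e1, e2, mul_assoc]

private theorem diA_fun [DecidableEq (𝓞 K)] {β : 𝓞 K} (h : β ≠ 0) (hβ : (3 : 𝓞 K) ∣ β - 1)
    {T : Finset (𝓞 K)} (hT : DiAFull β T) (hT0 : (0 : 𝓞 K) ∈ T) {e : ℂ} (he : e ∉ PP.lattice)
    (he0 : Y e = 1) {z : ℂ} (hz : embK (β : K) * z ∉ PP.lattice)
    (hz0 : embK (β : K) * z - e ∉ PP.lattice) :
    diA_y (embK (β : K) * z) * (embK (β : K) ^ 3 *
      ∏ a ∈ T.erase 0, diA_y (embK (a : K) / embK (β : K))) =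
      ∏ a ∈ T, diA_y (z + embK (a : K) / embK (β : K)) := by
  have hb := diA_b_ne h
  have hbs := diA_b_sub hβ he he0
  set b := embK (β : K) with hbdef
  set S : Set ℂ := {z | b * z ∈ PP.lattice ∨ b * z - e ∈ PP.lattice} with hS
  have hSe : ∀ z, ∀ᶠ w in 𝓝[≠] z, w ∉ S := by
    intro z
    have h1 : Tendsto (fun w : ℂ => b * w) (𝓝[≠] z) (𝓝[≠] (b * z)) := by
      refine tendsto_nhdsWithin_iff.2 ⟨?_, ?_⟩
      · have h2 : ContinuousAt (fun w : ℂ => b * w) z := by fun_prop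
        exact h2.tendsto.mono_left nhdsWithin_le_nhds
      · filter_upwards [self_mem_nhdsWithin] with w hw h
        exact hw (mul_left_cancel₀ hb h)
    filter_upwards [eventually_mul_notMem hb z, h1.eventually
      (eventually_add_notMem (-e) (b * z))] with w hw1 hw2 hw3
    rcases hw3 with h3 | h3
    · exact hw1 h3
    · exact hw2 (by rw [← sub_eq_add_neg]; exact h3)
  have hlat : ∀ w ∉ S, ∀ a : 𝓞 K, w + embK (a : K) / b ∉ PP.lattice := by
    intro w hw a hm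
    apply hw
    left
    have e2 := mul_mem (embK_mem β) hm
    rw [← hbdef] at e2
    have e3 : b * (w + embK (a : K) / b) = b * w + embK (a : K) := by
      field_simp
    rw [e3] at e2
    have e4 := sub_mem e2 (embK_mem a)
    rwa [add_sub_cancel_right] at e4
  have hne : ∀ w ∉ S, ∀ a : 𝓞 K, diA_y (w + embK (a : K) / b) ≠ 0 := by
    intro w hw a h0
    have e1 := diA_zero_iff he he0 (hlat w hw a) h0
    apply hw
    right
    have e2 := mul_mem (embK_mem β) e1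
    rw [← hbdef] at e2
    have e3 : b * (w + embK (a : K) / b - e) = (b * w - e) + embK (a : K) - (b * e - e) := by
      field_simp
      ring
    rw [e3] at e2
    have e4 := sub_mem (add_mem e2 hbs) (embK_mem a)
    have e5 : (b * w - e) + embK (a : K) - (b * e - e) + (b * e - e) - embK (a : K) = b * w - e := by ring
    rwa [e5] at e4
  have hd : ∀ w ∉ S, DifferentiableAt ℂ (diA_F b T) w := by
    intro w hw
    have h1 : DifferentiableAt ℂ (fun z => diA_y (b * z)) w := by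
      have h2 : DifferentiableAt ℂ diA_y (b * w) := diA_diff fun hm => hw (Or.inl hm)
      exact DifferentiableAt.comp (f := fun z : ℂ => b * z) w h2 (by fun_prop)
    have h3 : DifferentiableAt ℂ (fun z => ∏ a ∈ T, diA_y (z + embK (a : K) / b)) w := by
      refine DifferentiableAt.fun_finsetProd fun a _ => ?_
      exact DifferentiableAt.comp (f := fun z : ℂ => z + embK (a : K) / b) w
        (diA_diff (hlat w hw a)) (by fun_prop)
    exact h1.mul (h3.inv (Finset.prod_ne_zero_iff.2 fun a _ => hne w hw a))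
  have hbd : ∀ s ∈ S, Tendsto (fun z => (z - s) * diA_F b T z) (𝓝[≠] s) (𝓝 0) := by
    intro s hs
    rcases hs with hs | hs
    · obtain ⟨a0, ha0, hsa⟩ := diA_class h hT hs
      exact tendsto_mul_zero (diA_limA h hβ hT he he0 hs ha0 hsa)
    · have hs' : embK (β : K) * (s - e) ∈ PP.lattice := by
        have e1 := sub_mem hs hbs
        have e2 : b * s - e - (b * e - e) = b * (s - e) := by ring
        rwa [e2] at e1
      obtain ⟨a0, ha0, hsa⟩ := diA_class h hT hs'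
      exact tendsto_mul_zero (diA_limB h hβ hT he he0 hs ha0 hsa)
  have hper : ∀ l ∈ PP.lattice, ∀ z, diA_F b T (z + l) = diA_F b T z := by
    intro l hl z
    have hbl : b * l ∈ PP.lattice := mul_mem (embK_mem β) hl
    rw [diA_F, diA_F, mul_add, diA_y_add hbl]
    congr 2
    refine Finset.prod_congr rfl fun a _ => ?_
    have e1 : z + l + embK (a : K) / b = z + embK (a : K) / b + l := by ring
    rw [e1, diA_y_add hl]
  have h0l : (0 : ℂ) ∈ PP.lattice := zero_mem _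
  have ha := diA_limA h hβ hT he he0 (s := 0) (by rw [mul_zero]; exact h0l) hT0
    (by rw [diA_emb_zero, zero_div, add_zero]; exact h0l)
  have key := liouville_eq hSe hd hbd hper ha z (by
    rintro (h1 | h1)
    · exact hz h1
    · exact hz0 h1)
  have hzS : z ∉ S := by
    rintro (h1 | h1)
    · exact hz h1
    · exact hz0 h1
  rw [← hbdef, diA_F] at key
  have hprod : ∏ a ∈ T, diA_y (z + embK (a : K) / b) ≠ 0 :=
    Finset.prod_ne_zero_iff.2 fun a _ => hne z hzS a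
  have hprod1 : ∏ a ∈ T.erase 0, diA_y (0 + embK (a : K) / b) ≠ 0 := by
    refine Finset.prod_ne_zero_iff.2 fun a ha h0 => ?_
    rw [Finset.mem_erase] at ha
    have hn1 : (0 : ℂ) + embK (a : K) / b ∉ PP.lattice := by
      intro hm
      refine ha.1 (diA_uniq h hT ha.2 hT0 ?_)
      rw [diA_emb_zero, zero_div, sub_zero, ← hbdef]
      rwa [zero_add] at hm
    have e1 := diA_zero_iff he he0 hn1 h0
    have e2 := mul_mem (embK_mem β) e1
    rw [← hbdef] at e2
    have e3 : b * (0 + embK (a : K) / b - e) = embK (a : K) - (b * e - e) - e := by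
      field_simp
      ring
    rw [e3] at e2
    apply he
    have e4 := sub_mem (sub_mem (embK_mem a) hbs) e2
    have e5 : embK (a : K) - (b * e - e) - (embK (a : K) - (b * e - e) - e) = e := by ring
    rwa [e5] at e4
  have hb3 : b ^ 3 ≠ 0 := pow_ne_zero 3 hb
  rw [← div_eq_mul_inv, div_eq_iff hprod] at key
  rw [key]
  simp only [zero_add] at hprod1 ⊢
  field_simp


end DiA

theorem dist_fun {β : 𝓞 K} (hβ0 : β ≠ 0) (hβ : (3 : 𝓞 K) ∣ β - 1) {T : Finset (𝓞 K)}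
    (hT : IsRes β T) {e : ℂ} (he : e ∉ PP.lattice) (he0 : Y e = 1) {z : ℂ}
    (hz : embK (β : K) * z ∉ PP.lattice) (hz0 : embK (β : K) * z - e ∉ PP.lattice) :
    (Y (embK (β : K) * z) - 1) / 2 * (embK (β : K) ^ 3 *
      ∏ a ∈ T, (Y (embK (a : K) / embK (β : K)) - 1) / 2) =
      (Y z - 1) / 2 * ∏ a ∈ T, (Y (z + embK (a : K) / embK (β : K)) - 1) / 2 := by
  classical
  have h0T : (0 : 𝓞 K) ∉ T := fun h => hT.nz 0 h (dvd_zero β)
  have hF : DiAFull β (insert 0 T) := by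
    refine ⟨fun c => ?_, fun a ha b hb hab => ?_⟩
    · by_cases hc : β ∣ c
      · exact ⟨0, Finset.mem_insert_self _ _, by rwa [sub_zero]⟩
      · obtain ⟨a, ha, hca⟩ := hT.ex c hc
        exact ⟨a, Finset.mem_insert_of_mem ha, hca⟩
    · rcases Finset.mem_insert.1 ha with rfl | ha'
      · rcases Finset.mem_insert.1 hb with rfl | hb'
        · rfl
        · rw [zero_sub] at hab
          exact absurd (by simpa using hab) (hT.nz b hb')
      · rcases Finset.mem_insert.1 hb with rfl | hb'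
        · rw [sub_zero] at hab
          exact absurd hab (hT.nz a ha')
        · exact hT.uniq a ha' b hb' hab
  have key := diA_fun hβ0 hβ hF (Finset.mem_insert_self _ _) he he0 hz hz0
  rw [Finset.prod_insert h0T, Finset.erase_insert h0T, diA_emb_zero, zero_div, add_zero] at key
  exact key

section DiB

private theorem diB_perm {β c : 𝓞 K} (hc : ∀ d : 𝓞 K, β ∣ d * c → β ∣ d) {T : Finset (𝓞 K)}
    (hT : IsRes β T) {g : 𝓞 K → ℂ} (hg : ∀ a b : 𝓞 K, β ∣ a - b → g a = g b) :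
    ∏ a ∈ T, g (a * c) = ∏ a ∈ T, g a := by
  classical
  have hex : ∀ a : 𝓞 K, ∃ b : 𝓞 K, a ∈ T → (b ∈ T ∧ β ∣ a * c - b) := by
    intro a
    by_cases ha : a ∈ T
    · obtain ⟨b, hb, hab⟩ := hT.ex (a * c) (fun hd => hT.nz a ha (hc a hd))
      exact ⟨b, fun _ => ⟨hb, hab⟩⟩
    · exact ⟨0, fun h => absurd h ha⟩
  choose σ hσ using hex
  have hmaps : Set.MapsTo σ (T : Set (𝓞 K)) (T : Set (𝓞 K)) := fun a ha => (hσ a ha).1
  have hinj : Set.InjOn σ (T : Set (𝓞 K)) := by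
    intro a ha a' ha' hh
    have h1 := (hσ a ha).2
    have h2 := (hσ a' ha').2
    rw [← hh] at h2
    have h3 := dvd_sub h1 h2
    have h4 : a * c - σ a - (a' * c - σ a) = (a - a') * c := by ring
    rw [h4] at h3
    exact hT.uniq a ha a' ha' (hc _ h3)
  have h5 : ∏ a ∈ T, g (a * c) = ∏ a ∈ T, g (σ a) :=
    Finset.prod_congr rfl fun a ha => hg _ _ (hσ a ha).2
  rw [h5]
  refine Finset.prod_nbij σ (fun a ha => hmaps ha) hinj ?_ (fun a _ => rfl)
  exact Finset.surjOn_of_injOn_of_card_le _ hmaps hinj le_rfl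

end DiB

theorem dist_C [DecidableEq ℂ] {β : 𝓞 K} (hβ0 : β ≠ 0) (hβ : (3 : 𝓞 K) ∣ β - 1)
    {T : Finset (𝓞 K)} (hT : IsRes β T) {R P : Pt ℂ} (hR : Ord β R)
    (hP : sm ℂ β P ≠ 0) (hP0 : yc (sm ℂ β P) ≠ 0) :
    yc (sm ℂ β P) * (embK (β : K) ^ 3 * ∏ a ∈ T, yc (sm ℂ a R)) =
      yc P * ∏ a ∈ T, yc (P + sm ℂ a R) := by
  obtain ⟨u, hus, hu0, hu1, -, hub⟩ := exists_uni
  have hb := diA_b_ne hβ0
  obtain ⟨r, rfl⟩ := hus R
  obtain ⟨z, rfl⟩ := hus P
  obtain ⟨e, hue⟩ := hus (ptZ ℂ)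
  have hr : embK (β : K) * r ∈ PP.lattice := by
    rw [← hu0, hub]
    exact (hR β).2 dvd_rfl
  obtain ⟨c, hc⟩ := mem_PP_iff.1 hr
  have hr' : r = embK (c : K) / embK (β : K) := by
    rw [hc]
    field_simp
  have hdc : ∀ d : 𝓞 K, β ∣ d * c → β ∣ d := by
    intro d hd
    rw [← hR d, ← hub, hu0, hr', ← mul_div_assoc, ← diA_emb_mul, diA_dvd_iff hβ0]
    exact hd
  have hsm : ∀ d : 𝓞 K, sm ℂ d (u r) = u (embK ((d * c : 𝓞 K) : K) / embK (β : K)) := by
    intro d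
    rw [← hub, hr', ← mul_div_assoc, ← diA_emb_mul]
  have hper : ∀ a b : 𝓞 K, β ∣ a - b → u (embK (a : K) / embK (β : K)) =
      u (embK (b : K) / embK (β : K)) := by
    intro a b hab
    rw [← sub_eq_zero, ← map_sub, hu0, ← sub_div, ← diA_emb_sub, diA_dvd_iff hβ0]
    exact hab
  have he : e ∉ PP.lattice := by
    intro hm
    rw [(hu0 e).2 hm] at hue
    exact Z_ne_zero hue.symm
  have he0 : Y e = 1 := by
    have h1 := (hu1 e he).2
    rw [hue] at h1
    have h2 : yc (ptZ ℂ) = 0 := rfl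
    rw [h2] at h1
    linear_combination -2 * h1
  rw [← hub] at hP hP0 ⊢
  have hz : embK (β : K) * z ∉ PP.lattice := fun hm => hP ((hu0 _).2 hm)
  have hz0 : embK (β : K) * z - e ∉ PP.lattice := by
    intro hm
    apply hP0
    have h1 := (hu0 _).2 hm
    rw [map_sub, hue, sub_eq_zero] at h1
    rw [h1]
    rfl
  have hzl : z ∉ PP.lattice := fun hm => hz (mul_mem (embK_mem β) hm)
  have key := dist_fun hβ0 hβ hT he he0 hz hz0
  have e1 : ∏ a ∈ T, yc (sm ℂ a (u r)) =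
      ∏ a ∈ T, (Y (embK (a : K) / embK (β : K)) - 1) / 2 := by
    rw [Finset.prod_congr rfl fun a _ => by rw [hsm a],
      diB_perm (g := fun a => yc (u (embK (a : K) / embK (β : K)))) hdc hT
        (fun a b hab => by rw [hper a b hab])]
    refine Finset.prod_congr rfl fun a ha => ?_
    exact (hu1 _ (fun hm => hT.nz a ha ((diA_dvd_iff hβ0 a).1 hm))).2
  have e2 : ∏ a ∈ T, yc (u z + sm ℂ a (u r)) =
      ∏ a ∈ T, (Y (z + embK (a : K) / embK (β : K)) - 1) / 2 := by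
    rw [Finset.prod_congr rfl fun a _ => by rw [hsm a],
      diB_perm (g := fun a => yc (u z + u (embK (a : K) / embK (β : K)))) hdc hT
        (fun a b hab => by rw [hper a b hab])]
    refine Finset.prod_congr rfl fun a ha => ?_
    rw [← map_add]
    refine (hu1 _ fun hm => ?_).2
    apply hz
    have e2 := mul_mem (embK_mem β) hm
    have e3 : embK (β : K) * (z + embK (a : K) / embK (β : K)) =
        embK (β : K) * z + embK (a : K) := by
      field_simp
    rw [e3] at e2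
    have e4 := sub_mem e2 (embK_mem a)
    rwa [add_sub_cancel_right] at e4
  rw [e1, e2, (hu1 _ hz).2, (hu1 _ hzl).2]
  exact key

private theorem diB_one_C [DecidableEq ℂ] {β : 𝓞 K} (hβ0 : β ≠ 0) (hβ : (3 : 𝓞 K) ∣ β - 1)
    {T : Finset (𝓞 K)} (hT : IsRes β T) {R : Pt ℂ} (hR : Ord β R) :
    embK (β : K) ^ 3 * ∏ a ∈ T, yc (sm ℂ a R) = ∏ a ∈ T, yc (ptS ℂ + sm ℂ a R) := by
  have hS := sm_S (F := ℂ) β hβ
  have hy : yc (ptS ℂ) = omF ℂ := rfl
  have hy0 : yc (ptS ℂ) ≠ 0 := by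
    rw [hy]
    exact omF_ne_zero ℂ
  have h1 := dist_C hβ0 hβ hT hR (P := ptS ℂ) (by rw [hS]; exact S_ne_zero)
    (by rw [hS]; exact hy0)
  rw [hS] at h1
  exact mul_left_cancel₀ hy0 h1

private theorem diB_two_C [DecidableEq ℂ] {β : 𝓞 K} (hβ0 : β ≠ 0) (hβ : (3 : 𝓞 K) ∣ β - 1)
    {T : Finset (𝓞 K)} (hT : IsRes β T) {R P : Pt ℂ} (hR : Ord β R)
    (hP : sm ℂ β P ≠ 0) (hP0 : yc (sm ℂ β P) ≠ 0) :
    yc (sm ℂ β P) * ∏ a ∈ T, yc (ptS ℂ + sm ℂ a R) = yc P * ∏ a ∈ T, yc (P + sm ℂ a R) := by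
  rw [← diB_one_C hβ0 hβ hT hR, dist_C hβ0 hβ hT hR hP hP0]

section
variable {F : Type*} [Field F] [Algebra K F] [DecidableEq F] (f : F →ₐ[K] ℂ) {β : 𝓞 K}
  (hβ0 : β ≠ 0) (hβ : (3 : 𝓞 K) ∣ β - 1) {T : Finset (𝓞 K)} (hT : IsRes β T) {R : Pt F}
  (hR : Ord β R)
include f hβ0 hβ hT hR

omit hβ0 hβ hT in
private theorem diB_ord [DecidableEq ℂ] : Ord β (pm f R) := by
  intro c
  rw [← hR c, ← pm_sm]
  constructor
  · intro h0
    rw [← map_zero (pm f)] at h0
    exact pm_inj f h0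
  · intro h0
    rw [h0, map_zero]

theorem dist_one : algebraMap K F (β : K) ^ 3 * ∏ a ∈ T, yc (sm F a R) =
    ∏ a ∈ T, yc (ptS F + sm F a R) := by
  classical
  have h1 := diB_one_C hβ0 hβ hT (diB_ord f hR)
  apply f.toRingHom.injective
  change f _ = f _
  rw [map_mul, map_pow, AlgHom.commutes, algebraMap_eq, map_prod, map_prod]
  have e1 : ∀ a : 𝓞 K, f (yc (sm F a R)) = yc (sm ℂ a (pm f R)) := by
    intro a
    rw [← yc_pm, pm_sm]
  have e2 : ∀ a : 𝓞 K, f (yc (ptS F + sm F a R)) = yc (ptS ℂ + sm ℂ a (pm f R)) := by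
    intro a
    rw [← yc_pm, map_add, pm_sm, pm_S]
  simp only [e1, e2]
  exact h1

theorem dist_two {P : Pt F} (hP : sm F β P ≠ 0) (hP0 : yc (sm F β P) ≠ 0) :
    yc (sm F β P) * ∏ a ∈ T, yc (ptS F + sm F a R) =
      yc P * ∏ a ∈ T, yc (P + sm F a R) := by
  classical
  have hP' : sm ℂ β (pm f P) ≠ 0 := by
    rw [← pm_sm]
    intro h0
    rw [← map_zero (pm f)] at h0
    exact hP (pm_inj f h0)
  have hP0' : yc (sm ℂ β (pm f P)) ≠ 0 := by
    rw [← pm_sm, yc_pm]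
    exact (map_ne_zero f).2 hP0
  have h1 := diB_two_C hβ0 hβ hT (diB_ord f hR) hP' hP0'
  apply f.toRingHom.injective
  change f _ = f _
  rw [map_mul, map_mul, map_prod, map_prod]
  have e2 : ∀ a : 𝓞 K, f (yc (ptS F + sm F a R)) = yc (ptS ℂ + sm ℂ a (pm f R)) := by
    intro a
    rw [← yc_pm, map_add, pm_sm, pm_S]
  have e3 : ∀ a : 𝓞 K, f (yc (P + sm F a R)) = yc (pm f P + sm ℂ a (pm f R)) := by
    intro a
    rw [← yc_pm, map_add, pm_sm]
  have e4 : f (yc (sm F β P)) = yc (sm ℂ β (pm f P)) := by rw [← yc_pm, pm_sm]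
  have e5 : f (yc P) = yc (pm f P) := by rw [← yc_pm]
  simp only [e2, e3, e4, e5]
  exact h1

end

end Pool.Agent.Lib.MP_1a91b9_ntT.DB
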