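import Pool.Agent.Lib.MP_1a91b9_ntT.DB.Ext

/-!
# DB: the multiplicative group modulo `ℓ`-th powers, isotypic elements, the group `V`

PROOF (complete; stream DB of helper55). Jobs ElA (first section: `el_*`, `nsmul_el`, `zsmul_el`,
`pow_coprime`), ElB (`PD.*`, `pow_loc`), ElC (`Full.*`, `Iso.*`, `IsoPl.*`).

`el_eq_zero`: `QuotientAddGroup.eq_zero_iff`, range of `nsmulAddMonoidHom`. The rest is formal.
`PD.q_pos` ..: the norm of the prime element is `ℓ` or `ℓ^2`. `PD.val`: at a place `w` over `ϖ` every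
integer divisible by `ϖ` is in `w`. `PD.od_ell`: `ℓ = ϖ ϖ'` with `ϖ ∤ ϖ'` (`sq`), so `ϖ, ϖ'` are coprime
and `ϖ'` is a unit at `w`.
`Iso.eq_zero` : the additive map `A` kills the multiples of `ϖ` if the Galois group acts on `P`
through all nonzero classes (`hall`): `c = 1 - (1 - c)` with `c` divisible by `ϖ`: there is `σ` with
`ga σ P = sm (1 - c) P = P = sm 1 P`, so `A (1 - c) = el (σ y) = A 1` (`Iso.congr`: if `ϖ ∣ c - c'`
and `¬ ϖ ∣ c` then `sm c P = sm c' P` and both `A c = A c' = el (σ y)`).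
`Iso.neg_one`: `A (-1) = - A 1`. `Iso.mul`, `Iso.inv`, `Iso.pow`, `Iso.of_pow`: products of additive maps.
`IsoPl.fix`: if `gpl σ w = w` with `ga σ P = sm c P`, `¬ ϖ ∣ c - 1`, then `h` is zero at all the
conjugates of `w`: for the map `H` of `w`, for `d` not divisible by `ϖ`, `H (d c) = h (gpl (σ_d σ) w) =
h (gpl σ_d w) = H d` so `H (d (c - 1)) = 0`, with `d = ` an inverse of `c - 1` modulo `ϖ` (`hall`, `congr`
as above): `H 1 = 0`, `h w = H 1`.
`pow_loc`: `z^ℓ - 1` has valuation `< 1`: `z` is integral, `(z - 1)^ℓ = z^ℓ - 1` modulo `ℓ`, so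
`w (z - 1) < 1`, `≤ exp (-1)`; `z^ℓ = (1 + (z - 1))^ℓ = 1 + ℓ (z - 1) (..) + (z - 1)^ℓ` (`ℓ ≥ 2`, `w ℓ <
1`): `w (z^ℓ - 1) ≤ exp (-2)`. (`Commute.add_pow`, `ℓ ∣ choose ℓ i`.)
-/

set_option autoImplicit false

namespace Pool.Agent.Lib.MP_1a91b9_ntT.DB

open NumberField IsDedekindDomain WeierstrassCurve

universe u

noncomputable section

/-- `Fˣ` modulo `ℓ`-th powers, written additively -/
abbrev El (ℓ : ℕ) (F : Type u) [Field F] : Type u :=
  Additive Fˣ ⧸ (nsmulAddMonoidHom (α := Additive Fˣ) ℓ).range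

/-- the class of `y` -/
def el (ℓ : ℕ) {F : Type u} [Field F] (y : Fˣ) : El ℓ F := QuotientAddGroup.mk (Additive.ofMul y)

section
variable {ℓ : ℕ} {F : Type u} [Field F]

theorem el_surj (x : El ℓ F) : ∃ y : Fˣ, el ℓ y = x := by
  obtain ⟨z, hz⟩ := QuotientAddGroup.mk_surjective x
  exact ⟨Additive.toMul z, hz⟩

theorem el_mul (a b : Fˣ) : el ℓ (a * b) = el ℓ a + el ℓ b := by
  unfold el
  rw [ofMul_mul, QuotientAddGroup.mk_add]

theorem el_one : el ℓ (1 : Fˣ) = 0 := by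
  unfold el
  rw [ofMul_one, QuotientAddGroup.mk_zero]

theorem el_inv (a : Fˣ) : el ℓ a⁻¹ = -el ℓ a := by
  unfold el
  rw [ofMul_inv, QuotientAddGroup.mk_neg]

theorem el_zpow (a : Fˣ) (n : ℤ) : el ℓ (a ^ n) = n • el ℓ a := by
  unfold el
  rw [ofMul_zpow, QuotientAddGroup.mk_zsmul]

theorem el_pow (a : Fˣ) (n : ℕ) : el ℓ (a ^ n) = n • el ℓ a := by
  unfold el
  rw [ofMul_pow, QuotientAddGroup.mk_nsmul]

theorem el_prod {ι : Type*} (s : Finset ι) (f : ι → Fˣ) :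
    el ℓ (∏ i ∈ s, f i) = ∑ i ∈ s, el ℓ (f i) := by
  classical
  induction s using Finset.induction_on with
  | empty => rw [Finset.prod_empty, Finset.sum_empty, el_one]
  | insert i s hi ih => rw [Finset.prod_insert hi, Finset.sum_insert hi, el_mul, ih]

theorem el_eq_zero {y : Fˣ} : el ℓ y = 0 ↔ ∃ z : Fˣ, y = z ^ ℓ := by
  unfold el
  rw [QuotientAddGroup.eq_zero_iff, AddMonoidHom.mem_range]
  constructor
  · rintro ⟨z, hz⟩
    refine ⟨Additive.toMul z, ?_⟩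
    have := congrArg Additive.toMul hz
    rw [toMul_ofMul, nsmulAddMonoidHom_apply, toMul_nsmul] at this
    exact this.symm
  · rintro ⟨z, hz⟩
    refine ⟨Additive.ofMul z, ?_⟩
    rw [nsmulAddMonoidHom_apply, ← ofMul_pow, hz]

theorem el_eq {a b : Fˣ} : el ℓ a = el ℓ b ↔ ∃ z : Fˣ, a = b * z ^ ℓ := by
  rw [← sub_eq_zero, sub_eq_add_neg, ← el_inv, ← el_mul, el_eq_zero]
  constructor
  · rintro ⟨z, hz⟩
    refine ⟨z, ?_⟩
    rw [← hz, mul_comm a, mul_inv_cancel_left]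
  · rintro ⟨z, hz⟩
    refine ⟨z, ?_⟩
    rw [hz, mul_comm b, mul_inv_cancel_right]

theorem nsmul_el (x : El ℓ F) : ℓ • x = 0 := by
  obtain ⟨y, rfl⟩ := el_surj x
  rw [← el_pow, el_eq_zero]
  exact ⟨y, rfl⟩

theorem zsmul_el {n : ℤ} (hn : (ℓ : ℤ) ∣ n) (x : El ℓ F) : n • x = 0 := by
  obtain ⟨m, rfl⟩ := hn
  obtain ⟨y, rfl⟩ := el_surj x
  rw [← el_zpow, el_eq_zero]
  exact ⟨y ^ m, by rw [← zpow_natCast, ← zpow_mul, mul_comm]⟩

/-- an integer prime to `ℓ` is invertible on the elements -/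
theorem el_coprime {n : ℤ} (hn : IsCoprime n (ℓ : ℤ)) {x : El ℓ F} (h : n • x = 0) : x = 0 := by
  obtain ⟨a, b, hab⟩ := hn
  obtain ⟨y, rfl⟩ := el_surj x
  rw [← el_zpow, el_eq_zero] at h
  obtain ⟨z, hz⟩ := h
  rw [el_eq_zero]
  refine ⟨z ^ a * y ^ b, ?_⟩
  calc y = y ^ (a * n + b * (ℓ : ℤ)) := by rw [hab, zpow_one]
    _ = (y ^ n) ^ a * (y ^ b) ^ ℓ := by
      rw [zpow_add, mul_comm a n, zpow_mul, zpow_mul, zpow_natCast]
    _ = (z ^ a * y ^ b) ^ ℓ := by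
      rw [hz, mul_pow, ← zpow_natCast, ← zpow_natCast (z ^ a), ← zpow_mul, ← zpow_mul, mul_comm a]

/-- `a` is an `ℓ`-th power if a power of exponent prime to `ℓ` is -/
theorem pow_coprime {n : ℕ} (hn : n.Coprime ℓ) {a : Fˣ} (h : ∃ z : Fˣ, a ^ n = z ^ ℓ) :
    ∃ z : Fˣ, a = z ^ ℓ := by
  rw [← el_eq_zero] at h ⊢
  rw [el_pow] at h
  refine el_coprime (n := (n : ℤ)) (Nat.isCoprime_iff_coprime.mpr hn) ?_
  rw [natCast_zsmul, h]

end

/-- the prime element `ϖ` above `ℓ` -/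
structure PD (ϖ : 𝓞 K) (ℓ q : ℕ) : Prop where
  hl : ℓ.Prime
  five : 5 ≤ ℓ
  prime : Prime ϖ
  one : (3 : 𝓞 K) ∣ ϖ - 1
  dvd : ϖ ∣ (ℓ : 𝓞 K)
  sq : ¬ ϖ ^ 2 ∣ (ℓ : 𝓞 K)
  norm : Ideal.absNorm (Ideal.span {ϖ}) = q
  alt : q = ℓ ∨ q = ℓ ^ 2

private theorem elb_le_one {F : Type u} [Field F] [NumberField F] [Algebra K F]
    (w : HeightOneSpectrum (𝓞 F)) (d : 𝓞 K) :
    w.valuation F (algebraMap K F (d : K)) ≤ 1 := by
  have h1 : algebraMap K F (d : K) = ((algebraMap (𝓞 K) (𝓞 F) d : 𝓞 F) : F) :=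
    IsScalarTower.algebraMap_apply K K F (d : K)
  rw [h1]
  exact w.valuation_le_one _

private theorem elb_mul {F : Type u} [Field F] [Algebra K F] (a b : 𝓞 K) :
    algebraMap K F ((a * b : 𝓞 K) : K) = algebraMap K F (a : K) * algebraMap K F (b : K) := by
  rw [← map_mul]
  rfl

private theorem elb_sub {F : Type u} [Field F] [Algebra K F] (a b : 𝓞 K) :
    algebraMap K F ((a - b : 𝓞 K) : K) = algebraMap K F (a : K) - algebraMap K F (b : K) := by
  rw [← map_sub]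
  rfl

private theorem elb_one {F : Type u} [Field F] [Algebra K F] :
    algebraMap K F ((1 : 𝓞 K) : K) = 1 := map_one (algebraMap K F)

private theorem elb_nat {F : Type u} [Field F] [Algebra K F] (n : ℕ) :
    algebraMap K F ((n : 𝓞 K) : K) = (n : F) := by
  have : ((n : 𝓞 K) : K) = (n : K) := map_natCast (algebraMap (𝓞 K) K) n
  rw [this, map_natCast]

private theorem elb_le (a : WithZero (Multiplicative ℤ)) (h : a < 1) :
    a ≤ WithZero.exp (-1 : ℤ) := by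
  rcases eq_or_ne a 0 with h0 | h0
  · rw [h0]
    exact zero_le
  · rw [← WithZero.exp_log h0] at h ⊢
    rw [← WithZero.exp_zero, WithZero.exp_lt_exp] at h
    rw [WithZero.exp_le_exp]
    omega

section
variable {ϖ : 𝓞 K} {ℓ q : ℕ} (h : PD ϖ ℓ q)
include h

theorem PD.dvd_int_iff (n : ℤ) : ϖ ∣ (n : 𝓞 K) ↔ (ℓ : ℤ) ∣ n := by
  constructor
  · intro hn
    by_contra hcon
    have hp : Prime (ℓ : ℤ) := Nat.prime_iff_prime_int.1 h.hl
    obtain ⟨a, b, hab⟩ := (hp.coprime_iff_not_dvd.2 hcon)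
    apply h.prime.not_isUnit
    apply isUnit_of_dvd_one
    have e : (1 : 𝓞 K) = (a : 𝓞 K) * (ℓ : 𝓞 K) + (b : 𝓞 K) * (n : 𝓞 K) := by
      have := congrArg (Int.cast : ℤ → 𝓞 K) hab
      push_cast at this
      exact this.symm
    rw [e]
    exact dvd_add (h.dvd.mul_left _) (hn.mul_left _)
  · rintro ⟨m, rfl⟩
    push_cast
    exact h.dvd.mul_right _

theorem PD.q_five : 5 ≤ q := by
  have h5 := h.five
  rcases h.alt with e | e
  · rw [e]
    exact h5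
  · rw [e]
    nlinarith

theorem PD.dvd_q : (ℓ - 1) ∣ (q - 1) := by
  rcases h.alt with e | e
  · rw [e]
  · rw [e]
    obtain ⟨m, hm⟩ : ∃ m, ℓ = m + 1 := ⟨ℓ - 1, by have := h.five; omega⟩
    rw [hm]
    refine ⟨m + 2, ?_⟩
    have : (m + 1) ^ 2 = m * (m + 2) + 1 := by ring
    rw [this, Nat.add_sub_cancel, Nat.add_sub_cancel]

theorem PD.coprime_q : Nat.Coprime (q - 1) ℓ := by
  apply Nat.Coprime.symm
  rw [h.hl.coprime_iff_not_dvd]
  intro hd
  have hq : ℓ ∣ q := by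
    rcases h.alt with e | e
    · rw [e]
    · rw [e]
      exact dvd_pow_self _ two_ne_zero
  have h1 : ℓ ∣ q - (q - 1) := Nat.dvd_sub hq hd
  have h2 := h.q_five
  have h3 : q - (q - 1) = 1 := by omega
  rw [h3, Nat.dvd_one] at h1
  exact h.hl.one_lt.ne' h1

/-- inverses modulo `ϖ` -/
theorem PD.inv {c : 𝓞 K} (hc : ¬ ϖ ∣ c) : ∃ d : 𝓞 K, ϖ ∣ c * d - 1 := by
  have h1 : (Ideal.span {ϖ}).IsPrime := (Ideal.span_singleton_prime h.prime.ne_zero).2 h.prime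
  have h2 : (Ideal.span {ϖ}).IsMaximal := h1.isMaximal (by
    rw [Ne, Ideal.span_singleton_eq_bot]
    exact h.prime.ne_zero)
  obtain ⟨d, i, hi, e⟩ := h2.exists_inv (x := c) (by
    rw [Ideal.mem_span_singleton]
    exact hc)
  rw [Ideal.mem_span_singleton] at hi
  refine ⟨d, ?_⟩
  have : c * d - 1 = -i := by linear_combination e
  rw [this]
  exact (dvd_neg).2 hi

variable {F : Type u} [Field F] [NumberField F] [Algebra K F] {w : HeightOneSpectrum (𝓞 F)}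
  (hw : w.valuation F (algebraMap K F (ϖ : K)) < 1)
include hw

theorem PD.val {c : 𝓞 K} (hc : ϖ ∣ c) : w.valuation F (algebraMap K F (c : K)) ≤
    w.valuation F (algebraMap K F (ϖ : K)) := by
  obtain ⟨d, rfl⟩ := hc
  rw [elb_mul, map_mul]
  exact mul_le_of_le_one_right' (elb_le_one w d)

theorem PD.val_iff (c : 𝓞 K) : w.valuation F (algebraMap K F (c : K)) < 1 ↔ ϖ ∣ c := by
  constructor
  · intro hv
    by_contra hc
    obtain ⟨d, e, he⟩ := h.inv hc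
    have h1 : w.valuation F (algebraMap K F ((c * d - 1 : 𝓞 K) : K)) < 1 :=
      (h.val hw ⟨e, he⟩).trans_lt hw
    have h2 : w.valuation F (algebraMap K F ((c * d : 𝓞 K) : K)) < 1 := by
      rw [elb_mul, map_mul]
      exact (mul_le_of_le_one_right' (elb_le_one w d)).trans_lt hv
    have h3 : (1 : F) = algebraMap K F ((c * d : 𝓞 K) : K)
        - algebraMap K F ((c * d - 1 : 𝓞 K) : K) := by
      rw [← elb_sub, sub_sub_cancel, elb_one]
    have h4 : w.valuation F (1 : F) < 1 := by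
      rw [h3]
      exact Valuation.map_sub_lt _ h2 h1
    rw [map_one] at h4
    exact lt_irrefl _ h4
  · intro hc
    exact (h.val hw hc).trans_lt hw

theorem PD.val_ell : w.valuation F (ℓ : F) = w.valuation F (algebraMap K F (ϖ : K)) := by
  obtain ⟨d, hd⟩ := h.dvd
  have hnd : ¬ ϖ ∣ d := by
    rintro ⟨e, rfl⟩
    exact h.sq ⟨e, by rw [hd]; ring⟩
  have h1 : w.valuation F (algebraMap K F (d : K)) = 1 := by
    rcases (elb_le_one w d).lt_or_eq with h2 | h2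
    · exact absurd ((h.val_iff hw d).1 h2) hnd
    · exact h2
  rw [← elb_nat (F := F) ℓ, hd, elb_mul, map_mul, h1, mul_one]

/-- an `ℓ`-th power which is `1` modulo `w` is `1` modulo `w ^ 2` -/
theorem pow_loc {z : F} (hz : w.valuation F (z ^ ℓ - 1) < 1) :
    w.valuation F (z ^ ℓ - 1) ≤ WithZero.exp (-2 : ℤ) := by
  have hℓ0 : ℓ ≠ 0 := h.hl.ne_zero
  have hℓv : w.valuation F (ℓ : F) < 1 := by
    rw [h.val_ell hw]
    exact hw
  -- `z` is integral
  have hz1 : w.valuation F z ≤ 1 := by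
    have h1 : w.valuation F (z ^ ℓ) ≤ 1 := by
      have e : z ^ ℓ = (z ^ ℓ - 1) + 1 := by ring
      rw [e]
      exact (Valuation.map_add _ _ _).trans (max_le hz.le (by rw [map_one]))
    rw [map_pow] at h1
    by_contra hcon
    exact absurd h1 (not_le.2 (one_lt_pow₀ (not_le.1 hcon) hℓ0))
  have hu1 : w.valuation F (z - 1) ≤ 1 :=
    (Valuation.map_sub _ _ _).trans (max_le hz1 (by rw [map_one]))
  obtain ⟨r, hr⟩ := exists_add_pow_prime_eq h.hl
    (⟨z - 1, hu1⟩ : (w.valuation F).integer) (1 : (w.valuation F).integer)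
  have hr' : z ^ ℓ - 1 = (z - 1) ^ ℓ + (ℓ : F) * (z - 1) * (r : F) := by
    have := congrArg (Subtype.val : (w.valuation F).integer → F) hr
    simp only [Subring.coe_add, Subring.coe_pow, Subring.coe_mul, Subring.coe_one,
      Subring.coe_natCast, one_pow, mul_one, sub_add_cancel] at this
    linear_combination this
  have hrv : w.valuation F (r : F) ≤ 1 := r.2
  have hlu : w.valuation F ((ℓ : F) * (z - 1) * (r : F)) ≤ w.valuation F (ℓ : F) := by
    rw [map_mul, map_mul, mul_assoc]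
    exact mul_le_of_le_one_right' (mul_le_one' hu1 hrv)
  have hu : w.valuation F (z - 1) < 1 := by
    have h1 : w.valuation F ((z - 1) ^ ℓ) < 1 := by
      have e : (z - 1) ^ ℓ = (z ^ ℓ - 1) - (ℓ : F) * (z - 1) * (r : F) := by
        rw [hr']
        ring
      rw [e]
      exact Valuation.map_sub_lt _ hz (hlu.trans_lt hℓv)
    rw [map_pow] at h1
    exact (pow_lt_one_iff_of_nonneg zero_le hℓ0).1 h1
  have hue := elb_le _ hu
  have hle := elb_le _ hℓv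
  rw [hr']
  refine (Valuation.map_add _ _ _).trans (max_le ?_ ?_)
  · rw [map_pow]
    calc w.valuation F (z - 1) ^ ℓ ≤ w.valuation F (z - 1) ^ 2 :=
          pow_le_pow_of_le_one zero_le hu.le (by have := h.five; omega)
      _ ≤ WithZero.exp (-1 : ℤ) ^ 2 := pow_le_pow_left₀ zero_le hue _
      _ = WithZero.exp (-2 : ℤ) := by
          rw [pow_two, ← WithZero.exp_add]
          norm_num
  · rw [map_mul, map_mul]
    calc w.valuation F (ℓ : F) * w.valuation F (z - 1) * w.valuation F (r : F)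
        ≤ w.valuation F (ℓ : F) * w.valuation F (z - 1) := mul_le_of_le_one_right' hrv
      _ ≤ WithZero.exp (-1 : ℤ) * WithZero.exp (-1 : ℤ) := mul_le_mul' hle hue
      _ = WithZero.exp (-2 : ℤ) := by
          rw [← WithZero.exp_add]
          norm_num

end

section
variable {k N : Type u} [Field k] [Field N] [Algebra k N]

/-- the image of a unit under an automorphism -/
def sg (σ : Gal(N/k)) (y : Nˣ) : Nˣ := Units.map (σ : N →* N) y

theorem sg_coe (σ : Gal(N/k)) (y : Nˣ) : ((sg σ y : Nˣ) : N) = σ (y : N) := rfl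

theorem sg_mul (σ : Gal(N/k)) (a b : Nˣ) : sg σ (a * b) = sg σ a * sg σ b := map_mul _ _ _

theorem sg_pow (σ : Gal(N/k)) (a : Nˣ) (n : ℕ) : sg σ (a ^ n) = sg σ a ^ n := map_pow _ _ _

theorem sg_inv (σ : Gal(N/k)) (a : Nˣ) : sg σ a⁻¹ = (sg σ a)⁻¹ := map_inv _ _

theorem sg_sg (σ τ : Gal(N/k)) (a : Nˣ) : sg (σ * τ) a = sg σ (sg τ a) := rfl

end

section
variable (k : Type u) {N : Type u} [Field k] [NumberField k] [Algebra K k] [Field N] [NumberField N]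
  [Algebra K N] [Algebra k N] [IsScalarTower K k N] [DecidableEq N]

/-- `y` is isotypic modulo `ℓ`-th powers: `c ↦ σ_c y` is additive -/
def Iso (ℓ : ℕ) (P : Pt N) (y : Nˣ) : Prop :=
  ∃ A : 𝓞 K →+ El ℓ N, ∀ (σ : Gal(N/k)) (c : 𝓞 K), ga σ P = sm N c P → el ℓ (sg σ y) = A c

/-- the function `h` on the places is isotypic -/
def IsoPl (ℓ : ℕ) (P : Pt N) (h : HeightOneSpectrum (𝓞 N) → ZMod ℓ) : Prop :=
  ∀ w : HeightOneSpectrum (𝓞 N), ∃ H : 𝓞 K →+ ZMod ℓ, ∀ (σ : Gal(N/k)) (c : 𝓞 K),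
    ga σ P = sm N c P → h (gpl σ w) = H c

/-- the local condition at `w` -/
def WLoc {N : Type u} [Field N] [NumberField N] (ℓ : ℕ) (w : HeightOneSpectrum (𝓞 N)) (y : N) :
    Prop :=
  ∃ b c : N, w.valuation N (y * b ^ ℓ) = 1 ∧
    w.valuation N (y * b ^ ℓ - c ^ ℓ) ≤ WithZero.exp (-2 : ℤ)

/-- the Selmer group in Kummer form -/
structure VV (ϖ : 𝓞 K) (ℓ : ℕ) (P : Pt N) (y : Nˣ) : Prop where
  od : ∀ w : HeightOneSpectrum (𝓞 N), (ℓ : ℤ) ∣ od w (y : N)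
  iso : Iso k ℓ P y
  loc : ∀ w : HeightOneSpectrum (𝓞 N), w.valuation N (algebraMap K N (ϖ : K)) < 1 →
    WLoc ℓ w (y : N)

/-- `N` is the field of the points killed by `ϖ` over `k`, with full Galois group -/
structure Full (ϖ : 𝓞 K) (P : Pt N) : Prop where
  ord : Ord ϖ P
  gen : ∀ σ : Gal(N/k), ga σ P = P → σ = 1
  all : ∀ c : 𝓞 K, ¬ ϖ ∣ c → ∃ σ : Gal(N/k), ga σ P = sm N c P

variable {k} {ϖ : 𝓞 K} {ℓ q : ℕ} (h : PD ϖ ℓ q) {P : Pt N} (hF : Full k ϖ P)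
include h hF

private theorem elc_mul {σ τ : Gal(N/k)} {c d : 𝓞 K} (hc : ga σ P = sm N c P)
    (hd : ga τ P = sm N d P) : ga (σ * τ) P = sm N (d * c) P := by
  rw [ga_mul, hd, ga_sm, hc, map_mul]
  rfl

private theorem elc_one : ga (1 : Gal(N/k)) P = sm N (1 : 𝓞 K) P := by
  rw [ga_one, map_one]
  rfl

private theorem elc_cong (c : 𝓞 K) (hc : ϖ ∣ c) : sm N (1 - c) P = sm N (1 : 𝓞 K) P := by
  rw [hF.ord.sm_eq_iff]
  have : (1 : 𝓞 K) - c - 1 = -c := by ring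
  rw [this]
  exact (dvd_neg).2 hc

theorem Full.c_ne {σ : Gal(N/k)} {c : 𝓞 K} (hc : ga σ P = sm N c P) : ¬ ϖ ∣ c := by
  intro hd
  rw [(hF.ord c).2 hd] at hc
  have hP : P = 0 := by
    have h1 : ga σ P = ga σ 0 := by rw [hc, map_zero]
    exact pm_inj _ h1
  have h2 : ϖ ∣ 1 := (hF.ord 1).1 (by rw [hP, map_zero])
  exact h.prime.not_isUnit (isUnit_of_dvd_one h2)

theorem Full.comm (σ τ : Gal(N/k)) : σ * τ = τ * σ := by
  obtain ⟨c, -, hc⟩ := gal_sm h.prime.ne_zero hF.ord σ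
  obtain ⟨d, -, hd⟩ := gal_sm h.prime.ne_zero hF.ord τ
  have h1 := elc_mul h hF hc hd
  have h2 := elc_mul h hF hd hc
  have h3 : ga ((τ * σ)⁻¹ * (σ * τ)) P = P := by
    rw [ga_mul, h1, mul_comm, ← h2, ← ga_mul, inv_mul_cancel, ga_one]
  have h4 := hF.gen _ h3
  exact (inv_mul_eq_one.1 h4).symm

theorem Full.card [IsGalois k N] : Module.finrank k N + 1 = q := by
  obtain ⟨T, hT, hcard⟩ := exists_isRes h.prime.ne_zero
  rw [← h.norm, ← hcard, ← IsGalois.card_aut_eq_finrank k N, add_left_inj]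
  have hex : ∀ a : T, ∃ σ : Gal(N/k), ga σ P = sm N (a : 𝓞 K) P := fun a =>
    hF.all a (hT.nz a a.2)
  choose f hf using hex
  have hbij : Function.Bijective f := by
    constructor
    · intro a b hab
      have h1 : sm N (a : 𝓞 K) P = sm N (b : 𝓞 K) P := by
        rw [← hf a, ← hf b, hab]
      exact Subtype.ext (hT.uniq a a.2 b b.2 ((hF.ord.sm_eq_iff _ _).1 h1))
    · intro σ
      obtain ⟨c, -, hc⟩ := gal_sm h.prime.ne_zero hF.ord σ
      obtain ⟨a, ha, hca⟩ := hT.ex c (Full.c_ne h hF hc)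
      refine ⟨⟨a, ha⟩, ?_⟩
      have h1 : ga (f ⟨a, ha⟩) P = ga σ P := by
        rw [hf, hc]
        exact ((hF.ord.sm_eq_iff _ _).2 hca).symm
      have h2 : ga (σ⁻¹ * f ⟨a, ha⟩) P = P := by
        rw [ga_mul, h1, ← ga_mul, inv_mul_cancel, ga_one]
      exact (inv_mul_eq_one.1 (hF.gen _ h2)).symm
  rw [← Nat.card_eq_of_bijective f hbij]
  simp

/-- additive maps which come from isotypic elements kill the multiples of `ϖ` -/
theorem Iso.map_dvd {y : Nˣ} {A : 𝓞 K →+ El ℓ N} (hA : ∀ (σ : Gal(N/k)) (c : 𝓞 K),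
    ga σ P = sm N c P → el ℓ (sg σ y) = A c) {c : 𝓞 K} (hc : ϖ ∣ c) : A c = 0 := by
  have h1 := hA 1 1 (elc_one h hF)
  have h2 := hA 1 (1 - c) (by rw [elc_cong h hF c hc]; exact elc_one h hF)
  rw [h1, map_sub, eq_comm, sub_eq_self] at h2
  exact h2

theorem Iso.one : Iso k ℓ P (1 : Nˣ) := by
  refine ⟨0, fun σ c _ => ?_⟩
  have : DB.sg σ (1 : Nˣ) = 1 := map_one _
  rw [this, el_one]
  rfl

theorem Iso.mul {a b : Nˣ} (ha : Iso k ℓ P a) (hb : Iso k ℓ P b) : Iso k ℓ P (a * b) := by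
  obtain ⟨A, hA⟩ := ha
  obtain ⟨B, hB⟩ := hb
  refine ⟨AddMonoidHom.mk' (fun c => A c + B c) (fun x y => ?_), fun σ c hc => ?_⟩
  · rw [map_add, map_add]
    exact add_add_add_comm _ _ _ _
  · rw [sg_mul, el_mul, hA σ c hc, hB σ c hc]
    rfl

theorem Iso.inv {a : Nˣ} (ha : Iso k ℓ P a) : Iso k ℓ P a⁻¹ := by
  obtain ⟨A, hA⟩ := ha
  refine ⟨AddMonoidHom.mk' (fun c => -A c) (fun x y => ?_), fun σ c hc => ?_⟩
  · rw [map_add]
    exact neg_add (α := El ℓ N) _ _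
  · rw [sg_inv, el_inv, hA σ c hc]
    rfl

theorem Iso.pow_ell (a : Nˣ) : Iso k ℓ P (a ^ ℓ) := by
  refine ⟨0, fun σ c _ => ?_⟩
  rw [sg_pow, el_pow, nsmul_el]
  rfl

theorem Iso.sg {a : Nˣ} (ha : Iso k ℓ P a) (σ : Gal(N/k)) : Iso k ℓ P (sg σ a) := by
  obtain ⟨A, hA⟩ := ha
  obtain ⟨d, -, hd⟩ := gal_sm h.prime.ne_zero hF.ord σ
  refine ⟨A.comp (AddMonoidHom.mulLeft d), fun τ c hc => ?_⟩
  rw [← sg_sg, hA (τ * σ) (d * c) (elc_mul h hF hc hd)]
  rfl

/-- the action of `σ_{-1}` -/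
theorem Iso.neg_one {a : Nˣ} (ha : Iso k ℓ P a) {σ : Gal(N/k)} (hσ : ga σ P = sm N (-1) P) :
    ∃ z : Nˣ, DB.sg σ a * a = z ^ ℓ := by
  obtain ⟨A, hA⟩ := ha
  rw [← el_eq_zero, el_mul, hA σ (-1) hσ]
  have h1 := hA 1 1 (elc_one h hF)
  have h2 : DB.sg (1 : Gal(N/k)) a = a := by
    apply Units.ext
    rfl
  rw [h2] at h1
  rw [h1, map_neg, neg_add_cancel]

theorem IsoPl.map_dvd {f : HeightOneSpectrum (𝓞 N) → ZMod ℓ} {w : HeightOneSpectrum (𝓞 N)}
    {H : 𝓞 K →+ ZMod ℓ} (hH : ∀ (σ : Gal(N/k)) (c : 𝓞 K), ga σ P = sm N c P →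
      f (gpl σ w) = H c) {c : 𝓞 K} (hc : ϖ ∣ c) : H c = 0 := by
  have h1 := hH 1 1 (elc_one h hF)
  have h2 := hH 1 (1 - c) (by rw [elc_cong h hF c hc]; exact elc_one h hF)
  rw [h1, map_sub, eq_comm, sub_eq_self] at h2
  exact h2

/-- if some place above is fixed by a nontrivial automorphism an isotypic function vanishes -/
theorem IsoPl.fix {f : HeightOneSpectrum (𝓞 N) → ZMod ℓ} (hf : IsoPl k ℓ P f)
    {w : HeightOneSpectrum (𝓞 N)} {σ : Gal(N/k)} (hσ : gpl σ w = w) (hσ1 : σ ≠ 1) : f w = 0 := by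
  obtain ⟨c, -, hc⟩ := gal_sm h.prime.ne_zero hF.ord σ
  obtain ⟨H, hH⟩ := hf w
  have hc1 : ¬ ϖ ∣ c - 1 := by
    intro hd
    apply hσ1
    apply hF.gen
    rw [hc, (hF.ord.sm_eq_iff c 1).2 hd, map_one]
    rfl
  obtain ⟨d, e, he⟩ := h.inv hc1
  have hd0 : ¬ ϖ ∣ d := by
    intro hd
    apply h.prime.not_isUnit
    apply isUnit_of_dvd_one
    have e1 : (1 : 𝓞 K) = (c - 1) * d - ϖ * e := by
      rw [← he]
      ring
    rw [e1]
    exact dvd_sub (hd.mul_left _) (dvd_mul_right _ _)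
  obtain ⟨τ, hτ⟩ := hF.all d hd0
  have h1 := hH τ d hτ
  have h2 := hH (τ * σ) (c * d) (elc_mul h hF hτ hc)
  rw [gpl_mul, hσ, h1] at h2
  have h3 : H ((c - 1) * d) = 0 := by
    have e1 : (c - 1) * d = c * d - d := by ring
    rw [e1, map_sub, ← h2, sub_self]
  have h4 : H (ϖ * e) = 0 := IsoPl.map_dvd h hF hH (dvd_mul_right _ _)
  have h5 : H 1 = 0 := by
    have e1 : (1 : 𝓞 K) = (c - 1) * d - ϖ * e := by
      rw [← he]
      ring
    rw [e1, map_sub, h3, h4, sub_self]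
  have h6 := hH 1 1 (elc_one h hF)
  rw [gpl_one, h5] at h6
  exact h6

/-- the orders of the conjugates of an isotypic element at a fixed place depend additively on `c` -/
theorem Iso.od_hom {a : Nˣ} (ha : Iso k ℓ P a) (w : HeightOneSpectrum (𝓞 N)) :
    ∃ H : 𝓞 K →+ ZMod ℓ, ∀ (σ : Gal(N/k)) (c : 𝓞 K), ga σ P = sm N c P →
      ((DB.od w ((DB.sg σ a : Nˣ) : N) : ℤ) : ZMod ℓ) = H c := by
  obtain ⟨A, hA⟩ := ha
  let O : Additive Nˣ →+ ZMod ℓ :=
    { toFun := fun y => ((DB.od w ((Additive.toMul y : Nˣ) : N) : ℤ) : ZMod ℓ)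
      map_zero' := by
        show ((DB.od w ((1 : Nˣ) : N) : ℤ) : ZMod ℓ) = 0
        rw [Units.val_one, od_one, Int.cast_zero]
      map_add' := fun x y => by
        show ((DB.od w (((Additive.toMul x * Additive.toMul y : Nˣ)) : N) : ℤ) : ZMod ℓ) = _
        rw [Units.val_mul, od_mul w (Units.ne_zero _) (Units.ne_zero _), Int.cast_add] }
  have hO : (nsmulAddMonoidHom (α := Additive Nˣ) ℓ).range ≤ O.ker := by
    rintro _ ⟨y, rfl⟩
    rw [AddMonoidHom.mem_ker]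
    show O (ℓ • y) = 0
    rw [map_nsmul, nsmul_eq_mul, ZMod.natCast_self, zero_mul]
  refine ⟨(QuotientAddGroup.lift _ O hO).comp A, fun σ c hc => ?_⟩
  rw [AddMonoidHom.comp_apply, ← hA σ c hc]
  rfl

/-- if a nontrivial automorphism fixes the place `w`, the order at `w` of an isotypic element is
divisible by `ℓ` -/
theorem Iso.od_fix {a : Nˣ} (ha : Iso k ℓ P a) {w : HeightOneSpectrum (𝓞 N)} {σ : Gal(N/k)}
    (hσ : gpl σ w = w) (hσ1 : σ ≠ 1) : (ℓ : ℤ) ∣ DB.od w (a : N) := by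
  obtain ⟨c, -, hc⟩ := gal_sm h.prime.ne_zero hF.ord σ
  obtain ⟨H, hH⟩ := Iso.od_hom h hF ha w
  have hone : ga (1 : Gal(N/k)) P = sm N 1 P := elc_one h hF
  have hdvd : ∀ x : 𝓞 K, ϖ ∣ x → H x = 0 := by
    intro x hx
    have e1 : sm N (1 - x) P = sm N 1 P := by
      refine (hF.ord.sm_eq_iff _ _).2 ?_
      have : (1 - x) - 1 = -x := by ring
      rw [this]
      exact (dvd_neg).2 hx
    have h1 := hH 1 1 hone
    have h2 := hH 1 (1 - x) (hone.trans e1.symm)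
    rw [map_sub] at h2
    rw [h1] at h2
    have h3 : H 1 = H 1 - H x := h2
    calc H x = H 1 - (H 1 - H x) := by ring
      _ = 0 := by rw [← h3, sub_self]
  have hc1 : ¬ ϖ ∣ c - 1 := by
    intro hd
    apply hσ1
    apply hF.gen
    rw [hc, (hF.ord.sm_eq_iff c 1).2 hd, map_one]
    rfl
  obtain ⟨d, e, he⟩ := h.inv hc1
  have hd0 : ¬ ϖ ∣ d := by
    intro hd
    apply h.prime.not_isUnit
    apply isUnit_of_dvd_one
    have e1 : (1 : 𝓞 K) = (c - 1) * d - ϖ * e := by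
      rw [← he]
      ring
    rw [e1]
    exact dvd_sub (hd.mul_left _) (dvd_mul_right _ _)
  obtain ⟨τ, hτ⟩ := hF.all d hd0
  have h1 := hH τ d hτ
  have h2 := hH (σ * τ) (d * c) (elc_mul h hF hc hτ)
  have h3 : DB.od w ((DB.sg (σ * τ) a : Nˣ) : N) = DB.od w ((DB.sg τ a : Nˣ) : N) := by
    rw [sg_sg, sg_coe]
    nth_rewrite 1 [← hσ]
    exact gpl_od σ w _
  rw [h3, h1] at h2
  have h4 : H ((c - 1) * d) = 0 := by
    have e1 : (c - 1) * d = d * c - d := by ring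
    rw [e1, map_sub, ← h2, sub_self]
  have h5 : H (ϖ * e) = 0 := hdvd _ (dvd_mul_right _ _)
  have h6 : H 1 = 0 := by
    have e1 : (1 : 𝓞 K) = (c - 1) * d - ϖ * e := by
      rw [← he]
      ring
    rw [e1, map_sub, h4, h5, sub_self]
  have h7 := hH 1 1 hone
  rw [h6] at h7
  exact (ZMod.intCast_zmod_eq_zero_iff_dvd _ _).1 h7

end

end

end Pool.Agent.Lib.MP_1a91b9_ntT.DB
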