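import Pool.Agent.Lib.MP_1a91b9_ntT.DB.Ram

/-!
# DB: existence of the field of the points killed by a prime element

PROOF (complete; stream DB of helper55). Jobs ExA (`mem_all_integral`, `alg_coord`, `ext_point`), ExB
(`exists_ext`).

`mem_all_integral`: an element of `ℂ` which lies in all the valuation subrings of `ℂ` is integral over
`ℤ`: copy of P/Integral.lean with the ideal `(2)` replaced by `⊥`: if `x` is not integral, `x⁻¹` is not
a unit of `B = ℤ[x⁻¹]` (an inverse is a polynomial in `x⁻¹`, multiply by a power of `x`), so there is a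
valuation subring `V` containing `B` with `x⁻¹` in its maximal ideal
(`Ideal.image_subset_nonunits_valuationSubring`), `x ∉ V`. (Mathlib may have it directly:
`bot_eq_iInf` .. of valuation subrings.)
`alg_coord`: `R : Pt ℂ`, `Ord β R`, `β` prime, `= 1` modulo `3`: `n • R = 0`, `n = absNorm` prime to `3`.
`T = S + R` is not in the kernel of any valuation (`not_ker_mix`), so its coordinates lie in every
valuation subring, so they are integral, algebraic. `R = T - S = T + (-S)` has coordinates which are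
rational expressions of those of `T` and `om` (`mk_add`, `neg_mk`; `T ≠ 0`, and if `xc T = -1`: `T = ± S`,
then `3 R = 0` or `3 R = 3 (-2) S..= 0`: `3 • R = 0`, `R = 0`, contradiction), hence algebraic over `ℚ`.
`ext_point`: let `Ω` be an algebraic closure of `k` (a `K`-algebra through `k`). `K' = ` the subfield
`IntermediateField.adjoin K {xc R, yc R}` of `ℂ` is algebraic over `K`, so there is a `K`-embedding
`K' → Ω` (`IsAlgClosed.lift`), and the image of the point `R` (`mkPt` with coordinates in `K'`) is a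
point `R'` of `Pt Ω` with `Ord β R'` (`Ord.map` twice).
`exists_ext`: `L0 = IntermediateField.adjoin k {xc R', yc R'}` in `Ω = AlgebraicClosure k`: finite over
`k`. Every `φ : Ω ≃ₐ[k0] Ω` (or `k0`-embedding of `L0` in `Ω`) maps `k` onto `k` (`IsGalois k0 k`) and `R'`
to a point killed by `β`, i.e. `sm c R'` (`ord_cases` needs an embedding `Ω → ℂ`, or: work in `L0`, a
number field: `exists_emb`; the image of `φ` lies in a number field `L1` containing both: apply
`ord_cases` in `L1`), whose coordinates are in `L0` (`sm c R'` is a point of `Pt L0`). So `φ(L0) ⊆ L0`: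
`L0/k0` is normal, hence Galois (characteristic zero), also over `k` (`k0 = k` case or restriction).
An automorphism over `k` which fixes the point fixes the generators. Take `L = L0`.
-/

set_option autoImplicit false

namespace Pool.Agent.Lib.MP_1a91b9_ntT.DB

open NumberField IsDedekindDomain WeierstrassCurve

universe u

theorem mem_all_integral {x : ℂ} (h : ∀ A : ValuationSubring ℂ, x ∈ A) : IsIntegral ℤ x := by
  rcases eq_or_ne x 0 with rfl | hx
  · exact isIntegral_zero
  have hx' : x⁻¹ ≠ 0 := inv_ne_zero hx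
  let _ := invertibleOfNonzero hx'
  set B := Algebra.adjoin ℤ {x⁻¹} with hB
  set xinv : B := ⟨x⁻¹, Algebra.subset_adjoin rfl⟩ with hxinv
  by_cases hI : (⊥ : Ideal ℤ).map (algebraMap ℤ B) ⊔ Ideal.span {xinv} = ⊤
  · obtain ⟨p, hp1, hp2⟩ := Algebra.exists_aeval_invOf_eq_zero_of_idealMap_adjoin_sup_span_eq_top
      x⁻¹ (⊥ : Ideal ℤ) bot_ne_top hI
    rw [invOf_eq_inv, inv_inv] at hp2
    refine ⟨p, ?_, ?_⟩
    · rw [Ideal.mem_bot] at hp1
      rw [Polynomial.Monic]
      linarith
    · rwa [← Polynomial.aeval_def]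
  · exfalso
    obtain ⟨V, hV1, hV2⟩ := Ideal.image_subset_nonunits_valuationSubring
      (A := B.toSubring) ((⊥ : Ideal ℤ).map (algebraMap ℤ B) ⊔ Ideal.span {xinv}) hI
    have h3 : x⁻¹ ∈ V.nonunits := hV2 ⟨xinv, le_sup_right (α := Ideal B)
      (Ideal.mem_span_singleton_self _), rfl⟩
    rcases V.mem_nonunits_iff_or.1 h3 with h4 | h4
    · exact hx' h4
    · rw [inv_inv] at h4
      exact h4 (h V)

/-- coprime orders -/
private theorem exa_cop {A : Type*} [AddCommGroup A] {m n : ℕ} (h : n.Coprime m) {x : A}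
    (h1 : n • x = 0) (h2 : m • x = 0) : x = 0 := by
  have h3 : addOrderOf x ∣ n := addOrderOf_dvd_iff_nsmul_eq_zero.2 h1
  have h4 : addOrderOf x ∣ m := addOrderOf_dvd_iff_nsmul_eq_zero.2 h2
  have h5 : addOrderOf x ∣ 1 := by
    rw [← h.gcd_eq_one]
    exact Nat.dvd_gcd h3 h4
  exact AddMonoid.addOrderOf_eq_one_iff.1 (Nat.dvd_one.1 h5)

/-- a natural number prime to `3` divisible by `β` -/
private theorem exa_nat {β : 𝓞 K} (hβ : Prime β) (hβ1 : (3 : 𝓞 K) ∣ β - 1) :
    ∃ n : ℕ, n.Coprime 3 ∧ β ∣ (n : 𝓞 K) := by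
  have h0 : Ideal.absNorm (Ideal.span {β}) ≠ 0 := by
    rw [Ne, Ideal.absNorm_eq_zero_iff, Ideal.span_singleton_eq_bot]
    exact hβ.ne_zero
  have h1 : β ∣ ((Ideal.absNorm (Ideal.span {β}) : ℕ) : 𝓞 K) :=
    Ideal.mem_span_singleton.1 (Ideal.absNorm_mem _)
  obtain ⟨a, m, hm, e⟩ := Nat.exists_eq_pow_mul_and_not_dvd h0 3 (by norm_num)
  refine ⟨m, ?_, ?_⟩
  · rw [Nat.coprime_comm]
    exact (Nat.Prime.coprime_iff_not_dvd Nat.prime_three).2 hm
  · rw [e, Nat.cast_mul, Nat.cast_pow] at h1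
    refine (hβ.dvd_or_dvd h1).resolve_left fun h2 => ?_
    have h3 : β ∣ (3 : 𝓞 K) := by
      have := hβ.dvd_of_dvd_pow h2
      exact_mod_cast this
    have h4 : β ∣ 1 := by
      have := dvd_sub (dvd_refl β) (h3.trans hβ1)
      simpa using this
    exact hβ.not_isUnit (isUnit_of_dvd_one h4)

theorem alg_coord [DecidableEq ℂ] {β : 𝓞 K} (hβ : Prime β) (hβ1 : (3 : 𝓞 K) ∣ β - 1)
    {R : Pt ℂ} (hR : Ord β R) : IsAlgebraic ℚ (xc R) ∧ IsAlgebraic ℚ (yc R) := by
  obtain ⟨n, hn, hβn⟩ := exa_nat hβ hβ1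
  have hnR : n • R = 0 := by
    rw [← sm_nat]
    exact (hR _).2 hβn
  have hR0 : R ≠ 0 := by
    intro e
    have h1 : β ∣ 1 := by
      rw [← hR, e, map_zero]
    exact hβ.not_isUnit (isUnit_of_dvd_one h1)
  have hT : ∀ A : ValuationSubring ℂ, ¬ Ker A.valuation (ptS ℂ + R) := fun A =>
    not_ker_mix A.valuation hn three_S S_ne_zero hnR hR0
  have hx : IsIntegral ℤ (xc (ptS ℂ + R)) := mem_all_integral fun A =>
    (A.valuation_le_one_iff _).1 (not_ker A.valuation (hT A)).2.1
  have hy : IsIntegral ℤ (yc (ptS ℂ + R)) := mem_all_integral fun A =>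
    (A.valuation_le_one_iff _).1 (not_ker A.valuation (hT A)).2.2
  have hom : IsIntegral ℤ (omF ℂ) := by
    refine IsIntegral.of_pow (n := 3) (by norm_num) ?_
    rw [omF_cube]
    exact isIntegral_one
  have hT0 : ptS ℂ + R ≠ 0 := (not_ker _ (hT ⊤)).1
  have key : ∀ z : ℂ, IsIntegral ℤ z → z ∈ algebraicClosure ℚ ℂ := fun z hz =>
    mem_algebraicClosure_iff.2 ((hz.tower_top (A := ℚ)).isAlgebraic)
  have kx := key _ hx
  have ky := key _ hy
  have ko := key _ hom
  obtain ⟨hc, hTe⟩ := exists_mk hT0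
  have hRe : R = (ptS ℂ + R) + (-ptS ℂ) := by abel
  set x := xc (ptS ℂ + R) with hxd
  set y := yc (ptS ℂ + R) with hyd
  have hx1 : x ≠ -1 := by
    intro e
    have h1 : (y - omF ℂ) * (y + omF ℂ + 1) = 0 := by
      rw [e] at hc
      linear_combination hc - omF_quad ℂ
    rcases mul_eq_zero.1 h1 with h2 | h2
    · have h3 : ptS ℂ + R = ptS ℂ := by
        rw [hTe]
        exact mk_inj.2 ⟨e, by linear_combination h2⟩
      exact hR0 (by simpa using h3)
    · have h3 : ptS ℂ + R = -ptS ℂ := by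
        rw [hTe]
        exact (mk_inj.2 ⟨e, by linear_combination h2⟩).trans (neg_mk _ _ _).symm
      refine hR0 (exa_cop hn hnR ?_)
      have h4 : R = -(ptS ℂ) - ptS ℂ := by
        rw [← h3]
        abel
      have h5 := three_S (F := ℂ)
      rw [h4, nsmul_sub, smul_neg, h5]
      simp
  have hS : -ptS ℂ = mkPt (-1) (-omF ℂ - 1) (by linear_combination omF_quad ℂ) := by
    rw [ptS, neg_mk]
  obtain ⟨h', e'⟩ := mk_add x y (-1) (-omF ℂ - 1) hc (by linear_combination omF_quad ℂ) hx1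
  rw [hTe, hS, e'] at hRe
  have k1 : (1 : ℂ) ∈ algebraicClosure ℚ ℂ := one_mem _
  have km : (y - (-omF ℂ - 1)) / (x - -1) ∈ algebraicClosure ℚ ℂ :=
    div_mem (sub_mem ky (sub_mem (neg_mem ko) k1)) (sub_mem kx (neg_mem k1))
  have kX : ((y - (-omF ℂ - 1)) / (x - -1)) ^ 2 - x - -1 ∈ algebraicClosure ℚ ℂ :=
    sub_mem (sub_mem (pow_mem km 2) kx) (neg_mem k1)
  constructor
  · rw [← mem_algebraicClosure_iff, hRe, xc_mk]
    exact kX
  · rw [← mem_algebraicClosure_iff, hRe, yc_mk]
    exact sub_mem (neg_mem (add_mem (mul_mem km (sub_mem kX kx)) ky)) k1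

theorem ext_point (Ω : Type u) [Field Ω] [Algebra K Ω] [IsAlgClosed Ω] [DecidableEq Ω]
    {β : 𝓞 K} (hβ : Prime β) (hβ1 : (3 : 𝓞 K) ∣ β - 1) : ∃ R : Pt Ω, Ord β R ∧
    IsAlgebraic K (xc R) ∧ IsAlgebraic K (yc R) := by
  classical
  obtain ⟨R, hR⟩ := exists_ord_C hβ.ne_zero
  obtain ⟨hx, hy⟩ := alg_coord hβ hβ1 hR
  have hR0 : R ≠ 0 := by
    intro e
    have h1 : β ∣ 1 := by
      rw [← hR, e, map_zero]
    exact hβ.not_isUnit (isUnit_of_dvd_one h1)
  obtain ⟨hc, hRe⟩ := exists_mk hR0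
  set K' : IntermediateField K ℂ := IntermediateField.adjoin K {xc R, yc R} with hK'
  have hx' : xc R ∈ K' := IntermediateField.subset_adjoin K _ (by simp)
  have hy' : yc R ∈ K' := IntermediateField.subset_adjoin K _ (by simp)
  have hst : IsScalarTower ℚ K ℂ := inferInstance
  have halg : Algebra.IsAlgebraic K K' := by
    refine IntermediateField.isAlgebraic_adjoin fun z hz => ?_
    rcases hz with rfl | rfl
    · exact (hx.tower_top K).isIntegral
    · exact (hy.tower_top K).isIntegral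
  let f : K' →ₐ[K] Ω := IsAlgClosed.lift
  have hc' : (⟨yc R, hy'⟩ : K') ^ 2 + ⟨yc R, hy'⟩ = (⟨xc R, hx'⟩ : K') ^ 3 := Subtype.ext hc
  let R0 : Pt K' := mkPt ⟨xc R, hx'⟩ ⟨yc R, hy'⟩ hc'
  have hR0' : pm K'.val R0 = R := by
    obtain ⟨h', e⟩ := pm_mk K'.val (⟨xc R, hx'⟩ : K') ⟨yc R, hy'⟩ hc'
    rw [hRe]
    exact e
  have h1 : Ord β R0 := (Ord.map K'.val).1 (by rw [hR0']; exact hR)
  refine ⟨pm f R0, (Ord.map f).2 h1, ?_, ?_⟩
  · rw [xc_pm]
    exact (Algebra.IsAlgebraic.isAlgebraic _).algHom f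
  · rw [yc_pm]
    exact (Algebra.IsAlgebraic.isAlgebraic _).algHom f

private theorem exb_tower {k Ω : Type u} [Field k] [Algebra K k] [Field Ω] [Algebra K Ω]
    [Algebra k Ω] [IsScalarTower K k Ω] (L : IntermediateField k Ω) : IsScalarTower K L Ω :=
  IsScalarTower.of_algebraMap_eq fun _ => rfl

/-- the subfield generated by the coordinates of a point -/
private theorem exb_mem {k Ω : Type u} [Field k] [Algebra K k] [Field Ω] [Algebra K Ω]
    [Algebra k Ω] [IsScalarTower K k Ω] [DecidableEq Ω] (L : IntermediateField k Ω)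
    {R : Pt Ω} (hx : xc R ∈ L) (hy : yc R ∈ L) (c : 𝓞 K) :
    xc (sm Ω c R) ∈ L ∧ yc (sm Ω c R) ∈ L := by
  classical
  have hsc : IsScalarTower K L Ω := exb_tower L
  let f : L →ₐ[K] Ω := IsScalarTower.toAlgHom K L Ω
  rcases cases_pt R with rfl | ⟨x, y, h, rfl⟩
  · rw [map_zero, xc_zero, yc_zero]
    exact ⟨L.zero_mem, L.zero_mem⟩
  · rw [xc_mk] at hx
    rw [yc_mk] at hy
    have h0 : (⟨y, hy⟩ : L) ^ 2 + ⟨y, hy⟩ = (⟨x, hx⟩ : L) ^ 3 := Subtype.ext h
    have e : pm f (mkPt (⟨x, hx⟩ : L) ⟨y, hy⟩ h0) = mkPt x y h := by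
      obtain ⟨h', e'⟩ := pm_mk f (⟨x, hx⟩ : L) ⟨y, hy⟩ h0
      rw [e', mk_inj]
      exact ⟨rfl, rfl⟩
    rw [← e, ← pm_sm, xc_pm, yc_pm]
    exact ⟨Subtype.property _, Subtype.property _⟩

/-- stability of the generated field under automorphisms over `k0` -/
private theorem exb_stable {k0 k Ω : Type u} [Field k0] [Algebra K k0] [Field k]
    [Algebra K k] [Algebra k0 k] [IsScalarTower K k0 k] [Normal k0 k] [Field Ω] [Algebra K Ω]
    [Algebra k Ω] [Algebra k0 Ω] [IsScalarTower K k Ω] [IsScalarTower K k0 Ω]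
    [IsScalarTower k0 k Ω] [DecidableEq Ω] (g : Ω →ₐ[K] ℂ) {β : 𝓞 K} (hβ : β ≠ 0)
    {R : Pt Ω} (hR : Ord β R) (σ : Ω ≃ₐ[k0] Ω) {z : Ω}
    (hz : z ∈ IntermediateField.adjoin k {xc R, yc R}) :
    σ z ∈ IntermediateField.adjoin k {xc R, yc R} := by
  have hxm : xc R ∈ IntermediateField.adjoin k {xc R, yc R} :=
    IntermediateField.subset_adjoin _ _ (by simp)
  have hym : yc R ∈ IntermediateField.adjoin k {xc R, yc R} :=
    IntermediateField.subset_adjoin _ _ (by simp)
  have hσR : sm Ω β (ga σ R) = 0 := ((Ord.ga σ hR) β).2 dvd_rfl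
  obtain ⟨c, hc⟩ := ord_cases g hβ hR hσR
  have hm := exb_mem (IntermediateField.adjoin k {xc R, yc R}) hxm hym c
  rw [← hc, xc_ga, yc_ga] at hm
  induction hz using IntermediateField.adjoin_induction with
  | mem z hz =>
    rcases hz with rfl | hz
    · exact hm.1
    · rw [Set.mem_singleton_iff] at hz
      rw [hz]
      exact hm.2
  | algebraMap x =>
    rw [← AlgEquiv.restrictNormal_commutes]
    exact IntermediateField.algebraMap_mem _ _
  | add x y hx hy h1 h2 => rw [map_add]; exact add_mem h1 h2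
  | inv x hx h1 => rw [map_inv₀]; exact inv_mem h1
  | mul x y hx hy h1 h2 => rw [map_mul]; exact mul_mem h1 h2

open scoped Classical in
/-- the field generated over `k` by a point with annihilator `(β)` -/
theorem exists_ext (k0 k : Type u) [Field k0] [NumberField k0] [Algebra K k0] [Field k]
    [NumberField k] [Algebra K k] [Algebra k0 k] [IsScalarTower K k0 k] [IsGalois k0 k]
    {β : 𝓞 K} (hβ : Prime β) (hβ1 : (3 : 𝓞 K) ∣ β - 1) :
    ∃ (L : Type u) (_ : Field L) (_ : NumberField L) (_ : Algebra K L) (_ : Algebra k0 L)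
      (_ : Algebra k L) (_ : IsScalarTower K k0 L) (_ : IsScalarTower K k L)
      (_ : IsScalarTower k0 k L), IsGalois k0 L ∧ IsGalois k L ∧
      ∃ R : Pt L, Ord β R ∧ ∀ σ : Gal(L/k), ga σ R = R → σ = 1 := by
  have hKk : Algebra.IsAlgebraic K k := by
    have : FiniteDimensional K k := Module.Finite.of_restrictScalars_finite ℚ K k
    exact Algebra.IsAlgebraic.of_finite K k
  have hk0k : Algebra.IsAlgebraic k0 k := by
    have h1 : Normal k0 k := IsGalois.to_normal
    exact h1.toIsAlgebraic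
  have hT : IsScalarTower K k0 (AlgebraicClosure k) := by
    refine IsScalarTower.of_algebraMap_eq fun x => ?_
    rw [IsScalarTower.algebraMap_apply K k (AlgebraicClosure k),
      IsScalarTower.algebraMap_apply k0 k (AlgebraicClosure k),
      IsScalarTower.algebraMap_apply K k0 k]
  have hKΩ : Algebra.IsAlgebraic K (AlgebraicClosure k) := Algebra.IsAlgebraic.trans K k _
  have hk0Ω : Algebra.IsAlgebraic k0 (AlgebraicClosure k) := Algebra.IsAlgebraic.trans k0 k _
  have hC : IsAlgClosure k0 (AlgebraicClosure k) := ⟨inferInstance, hk0Ω⟩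
  have hN : Normal k0 (AlgebraicClosure k) := IsAlgClosure.normal k0 _
  let g : AlgebraicClosure k →ₐ[K] ℂ := IsAlgClosed.lift
  obtain ⟨R, hR, -, -⟩ := ext_point (AlgebraicClosure k) hβ hβ1
  have hR0 : R ≠ 0 := by
    rintro rfl
    have h1 : β ∣ 1 := (hR 1).1 (map_zero _)
    exact hβ.not_isUnit (isUnit_of_dvd_one h1)
  obtain ⟨hE, hRe⟩ := exists_mk hR0
  set L0 : IntermediateField k (AlgebraicClosure k) :=
    IntermediateField.adjoin k {xc R, yc R} with hL0
  have hxm : xc R ∈ L0 := IntermediateField.subset_adjoin _ _ (by simp)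
  have hym : yc R ∈ L0 := IntermediateField.subset_adjoin _ _ (by simp)
  have hfin : FiniteDimensional k L0 := by
    refine IntermediateField.finiteDimensional_adjoin fun x _ => ?_
    exact (Algebra.IsAlgebraic.isAlgebraic (R := k) x).isIntegral
  have hNF : NumberField L0 := NumberField.of_module_finite k L0
  have t1 : IsScalarTower K k L0 := by
    refine IsScalarTower.of_algebraMap_eq fun x => Subtype.ext ?_
    exact IsScalarTower.algebraMap_apply K k (AlgebraicClosure k) x
  have t2 : IsScalarTower k0 k L0 := by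
    refine IsScalarTower.of_algebraMap_eq fun x => Subtype.ext ?_
    exact IsScalarTower.algebraMap_apply k0 k (AlgebraicClosure k) x
  have t3 : IsScalarTower K k0 L0 := by
    refine IsScalarTower.of_algebraMap_eq fun x => Subtype.ext ?_
    exact IsScalarTower.algebraMap_apply K k0 (AlgebraicClosure k) x
  have t4 : IsScalarTower K L0 (AlgebraicClosure k) := exb_tower L0
  have hNL : Normal k0 (L0.restrictScalars k0) := by
    rw [IntermediateField.normal_iff_forall_map_le']
    intro σ z hz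
    rw [IntermediateField.mem_map] at hz
    obtain ⟨w, hw, rfl⟩ := hz
    exact exb_stable g hβ.ne_zero hR σ hw
  have hNL' : Normal k0 L0 := hNL
  have hG0 : IsGalois k0 L0 := ⟨⟩
  have hG : IsGalois k L0 := IsGalois.tower_top_of_isGalois k0 k L0
  let dL : DecidableEq L0 := fun a b => Classical.propDecidable (a = b)
  refine ⟨L0, L0.toField, hNF, L0.algebra', L0.algebra', L0.algebra', t3, t1, t2, hG0, hG,
    ?_⟩
  have h0 : (⟨yc R, hym⟩ : L0) ^ 2 + ⟨yc R, hym⟩ = (⟨xc R, hxm⟩ : L0) ^ 3 := Subtype.ext hE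
  refine ⟨mkPt (⟨xc R, hxm⟩ : L0) ⟨yc R, hym⟩ h0, ?_, ?_⟩
  · rw [← Ord.map (IsScalarTower.toAlgHom K L0 (AlgebraicClosure k))]
    obtain ⟨h', e'⟩ := pm_mk (IsScalarTower.toAlgHom K L0 (AlgebraicClosure k))
      (⟨xc R, hxm⟩ : L0) ⟨yc R, hym⟩ h0
    rw [e']
    have e2 : mkPt ((IsScalarTower.toAlgHom K L0 (AlgebraicClosure k)) ⟨xc R, hxm⟩)
      ((IsScalarTower.toAlgHom K L0 (AlgebraicClosure k)) ⟨yc R, hym⟩) h' = R := by
      refine (mk_inj.2 ⟨rfl, rfl⟩ : _ = mkPt (xc R) (yc R) hE).trans hRe.symm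
    rw [e2]
    exact hR
  · intro σ hσ
    have hx := congrArg xc hσ
    have hy := congrArg yc hσ
    rw [xc_ga, xc_mk] at hx
    rw [yc_ga, yc_mk] at hy
    have key : (σ : L0 →ₐ[k] L0) = AlgHom.id k L0 := by
      refine IntermediateField.algHom_ext_of_eq_adjoin k hL0 ?_
      intro z hz
      rcases hz with rfl | hz
      · exact hx
      · rw [Set.mem_singleton_iff] at hz
        subst hz
        exact hy
    ext z
    exact congrArg Subtype.val (DFunLike.congr_fun key z)

end Pool.Agent.Lib.MP_1a91b9_ntT.DB
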