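import Pool.Agent.Lib.MP_1a91b9_ntT.DB.Ext

/-!
# DB: the Frobenius at a place of degree one acts on torsion as `sm β`

PROOF (complete; stream DB of helper55). Jobs FrA (`y_frob`), FrB (`frob_sm`).

Setting: `β`, `p` with `Deg1 β p`, `W` a place of the number field `N` containing `β`, `σ` an
automorphism with `σ x = x^p` modulo `W` for the integers `x` of `N`, `n` prime to `3` and to `W`.
`y_frob`: let `Q : Pt N` with `n3 • Q = 0`, `n3` a natural number prime to `W` (`W.valuation n3 = 1`),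
`yc Q ≠ 0`, `yc (sm β Q) ≠ 0`, `sm β Q ≠ 0`. Take `L/N` from `exists_ext` (`k0 = k = N`) with `R : Pt L`,
`Ord β R`, and a place `W'` of `L` above `W`. In `L`: `dist_deg1` for the image of `Q`:
`yc (sm β Q) Π_{0<a<p} yc (S + a R) = yc Q Π_{0<a<p} yc (Q + a R)`. `R`, `a • R` are in the kernel at `W'`
(`ker_of_val`, `ker_nsmul`), `Q`, `sm β Q` and `S` are not (`ker_tors`, `v n3 = 1`), so by `add_ker`
`yc (S + a R) = om`, `yc (Q + a R) = yc Q` modulo `W'`. So `yc (sm β Q) om^(p-1) = (yc Q)^p` modulo `W'`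
(all integral), `om^(p-1) = 1` as `p = 1` modulo `3` (`Deg1.mod_three`, `omF_cube`). The two sides are in
`N`: modulo `W` (`val_map_lt`). And `(yc Q)^p = σ (yc Q)` modulo `W` (`yc Q` is integral at `W`:
approximate by an integer, `exists_val_lt_of_int`; `σ` preserves `W`: if `x ∈ W` then `σ x ∈ W` as
`σ x - x^p ∈ W`). So `yc (sm β Q) = yc (ga σ Q)` modulo `W`.
`frob_sm`: `P = 0` trivial. `Q = S + P`: `(3 n) • Q = 0`, `v (3 n) = 1` (`v 3 = 1`: `p ≠ 3` is in `W`:
`p = β * conj`, Bezout), `v (yc Q) = 1` (`y_unit`), `sm β Q = S + sm β P` (`sm_S`) with `sm β P ≠ 0`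
(`β` is prime to `n`: `x β + y n = 1` as `p` is prime to `n`), so also `v (yc (sm β Q)) = 1`; `ga σ Q = S +
ga σ P`. `y_inj`: `S + sm β P - om^i (S + ga σ P)` is in the kernel at `W` for an `i ∈ {0,1,2}`, and it is
killed by `3 n`: it is `0`. So `S - om^i S = om^i ga σ P - sm β P`; the left side is killed by `3`, the
right side by `n`: both are `0`. `omH_S`: `i = 0`, so `sm β P = ga σ P`.
-/

set_option autoImplicit false

namespace Pool.Agent.Lib.MP_1a91b9_ntT.DB

open NumberField IsDedekindDomain WeierstrassCurve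

universe u

/-- a place above `W` -/
private theorem fra_over {N L : Type u} [Field N] [NumberField N] [Field L] [NumberField L]
    [Algebra N L] (W : HeightOneSpectrum (𝓞 N)) :
    ∃ W' : HeightOneSpectrum (𝓞 L), W'.under (𝓞 N) = W := by
  have i3 : W.asIdeal.IsPrime := W.isPrime
  obtain ⟨Q, hQ1, hQ2⟩ := (inferInstance : Nonempty (W.asIdeal.primesOver (𝓞 L)))
  have hb : Q ≠ ⊥ := Ideal.ne_bot_of_mem_primesOver W.ne_bot ⟨hQ1, hQ2⟩
  refine ⟨⟨Q, hQ1, hb⟩, ?_⟩
  apply HeightOneSpectrum.ext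
  exact hQ2.over.symm

/-- congruence of products -/
private theorem fra_prod {F : Type*} [Field F] {Γ : Type*} [LinearOrderedCommGroupWithZero Γ]
    (v : Valuation F Γ) {ι : Type*} (s : Finset ι) (f : ι → F) (c : F) (hc : v c ≤ 1)
    (h : ∀ a ∈ s, v (f a - c) < 1) : v (∏ a ∈ s, f a - c ^ s.card) < 1 := by
  classical
  have hle : ∀ t : Finset ι, t ⊆ s → v (∏ a ∈ t, f a) ≤ 1 := by
    intro t ht
    rw [map_prod]
    refine Finset.prod_le_one' fun a ha => ?_
    have h1 := h a (ht ha)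
    have h2 : f a = (f a - c) + c := by ring
    rw [h2]
    exact v.map_add_le h1.le hc
  induction s using Finset.induction_on with
  | empty => simp
  | insert a s ha ih =>
    rw [Finset.prod_insert ha, Finset.card_insert_of_notMem ha]
    have h1 := ih (fun b hb => h b (Finset.mem_insert_of_mem hb))
      (fun t ht => hle t (ht.trans (Finset.subset_insert a s)))
    have h2 := h a (Finset.mem_insert_self a s)
    have e : f a * ∏ x ∈ s, f x - c ^ (s.card + 1) =
        (f a - c) * ∏ x ∈ s, f x + c * (∏ x ∈ s, f x - c ^ s.card) := by ring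
    rw [e]
    refine v.map_add_lt ?_ ?_
    · rw [map_mul]
      exact (mul_le_of_le_one_right' (hle s (Finset.subset_insert a s))).trans_lt h2
    · rw [map_mul]
      exact (mul_le_of_le_one_left' hc).trans_lt h1
/-- coprime orders -/
private theorem frb_cop {A : Type*} [AddCommGroup A] {m n : ℕ} (h : n.Coprime m) {x : A}
    (h1 : n • x = 0) (h2 : m • x = 0) : x = 0 := by
  have h3 : addOrderOf x ∣ n := addOrderOf_dvd_iff_nsmul_eq_zero.2 h1
  have h4 : addOrderOf x ∣ m := addOrderOf_dvd_iff_nsmul_eq_zero.2 h2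
  have h5 : addOrderOf x ∣ 1 := by
    rw [← h.gcd_eq_one]
    exact Nat.dvd_gcd h3 h4
  exact AddMonoid.addOrderOf_eq_one_iff.1 (Nat.dvd_one.1 h5)

section
variable {k N : Type u} [Field k] [NumberField k] [Algebra K k] [Field N] [NumberField N]
  [Algebra K N] [Algebra k N] [IsScalarTower K k N] [DecidableEq N] {β : 𝓞 K} {p : ℕ}
  (h : Deg1 β p) (W : HeightOneSpectrum (𝓞 N))
  (hW : W.valuation N (algebraMap K N (β : K)) < 1) (σ : Gal(N/k))
  (hσ : ∀ x : 𝓞 N, σ • x - x ^ p ∈ W.asIdeal)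
include h hW hσ

theorem y_frob {n : ℕ} (hn : W.valuation N (n : N) = 1) {Q : Pt N} (hQ : n • Q = 0)
    (hQ0 : yc Q ≠ 0) (hQ1 : sm N β Q ≠ 0) (hQ2 : yc (sm N β Q) ≠ 0) :
    W.valuation N (yc (sm N β Q) - yc (ga σ Q)) < 1 := by
  classical
  obtain ⟨L, iF, iNF, iKL, _, iNL, _, iT, _, _, _, R, hR, _⟩ := exists_ext N N h.isPrime h.one
  obtain ⟨W', hW'⟩ := fra_over (L := L) W
  set v' := W'.valuation L with hv'
  have mlt : ∀ a : N, v' (algebraMap N L a) < 1 ↔ W.valuation N a < 1 := fun a => by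
    rw [hv', val_map_lt, hW']
  have mle : ∀ a : N, v' (algebraMap N L a) ≤ 1 ↔ W.valuation N a ≤ 1 := fun a => by
    rw [hv', val_map_le, hW']
  have meq : ∀ a : N, v' (algebraMap N L a) = 1 ↔ W.valuation N a = 1 := fun a => by
    rw [hv', val_map_eq, hW']
  let f : N →ₐ[K] L := IsScalarTower.toAlgHom K N L
  have hf : ∀ a : N, f a = algebraMap N L a := fun a => rfl
  obtain ⟨g⟩ := exists_emb L
  have hRβ : sm L β R = 0 := (hR β).2 dvd_rfl
  have hR0 : R ≠ 0 := by
    intro h0
    have h1 : sm L 1 R = 0 := by rw [h0, map_zero]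
    exact h.isPrime.not_isUnit (isUnit_of_dvd_one ((hR 1).1 h1))
  have hQn : n • pm f Q = 0 := by rw [← map_nsmul, hQ, map_zero]
  have hsmQ : sm L β (pm f Q) = pm f (sm N β Q) := (pm_sm f β Q).symm
  have hP : sm L β (pm f Q) ≠ 0 := by
    rw [hsmQ]
    intro h0
    exact hQ1 (pm_inj f (h0.trans (map_zero _).symm))
  have hP0 : yc (sm L β (pm f Q)) ≠ 0 := by
    rw [hsmQ, yc_pm]
    intro h0
    exact hQ2 (f.injective (h0.trans (map_zero _).symm))
  have hdist := dist_deg1 g h hRβ hR0 hP hP0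
  have hvβ : v' (algebraMap K L (β : K)) < 1 := by
    rw [IsScalarTower.algebraMap_apply K N L, mlt]
    exact hW
  have hKR : Ker v' R := ker_of_val v' h.isPrime h.one hR hvβ
  have hKa : ∀ a : ℕ, Ker v' (a • R) := fun a => (ker_nsmul v' hKR a).1
  have hvn : v' ((n : ℕ) : L) = 1 := by
    have h1 := (meq (n : N)).2 hn
    rwa [map_natCast] at h1
  have hKS : ¬ Ker v' (ptS L) := by
    rintro (h0 | h0)
    · exact S_ne_zero h0
    · rw [ptS, xc_mk, Valuation.map_neg, map_one] at h0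
      exact lt_irrefl _ h0
  have hKQ : ¬ Ker v' (pm f Q) := by
    intro h0
    have h1 := ker_tors v' h0 n hvn hQn
    rw [h1, map_zero] at hP
    exact hP rfl
  have hKQ' : ¬ Ker v' (sm L β (pm f Q)) := by
    intro h0
    refine hP (ker_tors v' h0 n hvn ?_)
    rw [← map_nsmul, hQn, map_zero]
  have hyQ := (not_ker v' hKQ).2.2
  have hyQ' := (not_ker v' hKQ').2.2
  have hA := fra_prod v' (Finset.Ico 1 p) (fun a => yc (ptS L + a • R)) (omF L) (v_om v').le
    (fun a _ => by
      have h1 := (add_ker v' hKS (hKa a)).2.2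
      rw [ptS, yc_mk] at h1
      exact h1.trans_lt (ker_tc_lt v' (hKa a)))
  have hB := fra_prod v' (Finset.Ico 1 p) (fun a => yc (pm f Q + a • R)) (yc (pm f Q)) hyQ
    (fun a _ => (add_ker v' hKQ (hKa a)).2.2.trans_lt (ker_tc_lt v' (hKa a)))
  rw [Nat.card_Ico] at hA hB
  have hp7 := h.seven_le
  have hp3 := h.mod_three
  have hom : omF L ^ (p - 1) = 1 := by
    obtain ⟨q, hq⟩ : ∃ q, p - 1 = 3 * q := ⟨p / 3, by omega⟩
    rw [hq, pow_mul, omF_cube, one_pow]
  rw [hom] at hA
  have hC : v' (yc (sm L β (pm f Q)) - yc (pm f Q) ^ p) < 1 := by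
    have e : yc (sm L β (pm f Q)) - yc (pm f Q) ^ p =
        yc (sm L β (pm f Q)) * -(∏ a ∈ Finset.Ico 1 p, yc (ptS L + a • R) - 1) +
        yc (pm f Q) * (∏ a ∈ Finset.Ico 1 p, yc (pm f Q + a • R) - yc (pm f Q) ^ (p - 1)) := by
      have e1 : yc (pm f Q) ^ p = yc (pm f Q) * yc (pm f Q) ^ (p - 1) := by
        rw [← pow_succ', Nat.sub_add_cancel (by omega)]
      rw [e1]
      linear_combination hdist
    rw [e]
    refine v'.map_add_lt ?_ ?_
    · rw [map_mul, Valuation.map_neg]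
      exact (mul_le_of_le_one_left' hyQ').trans_lt hA
    · rw [map_mul]
      exact (mul_le_of_le_one_left' hyQ).trans_lt hB
  have hD : W.valuation N (yc (sm N β Q) - yc Q ^ p) < 1 := by
    rw [← mlt, map_sub, map_pow]
    rw [hsmQ, yc_pm, yc_pm, hf, hf] at hC
    exact hC
  have hyQN : W.valuation N (yc Q) ≤ 1 := by
    rw [← mle]
    rw [yc_pm, hf] at hyQ
    exact hyQ
  obtain ⟨x, hx⟩ := exists_val_lt_of_int W hyQN 1
  have hx1 : W.valuation N (yc Q - (x : N)) < 1 := by
    refine hx.trans_lt ?_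
    rw [← WithZero.exp_zero, WithZero.exp_lt_exp]
    norm_num
  have hgp : gpl σ⁻¹ W = W := by
    apply HeightOneSpectrum.ext
    have hle : W.asIdeal ≤ (gpl σ⁻¹ W).asIdeal := by
      intro y hy
      change (σ⁻¹)⁻¹ • y ∈ W.asIdeal
      rw [inv_inv]
      have h1 := hσ y
      have h2 : y ^ p ∈ W.asIdeal := Ideal.pow_mem_of_mem _ hy p (by omega)
      have h3 := Ideal.add_mem _ h1 h2
      rwa [sub_add_cancel] at h3
    exact (W.isMaximal.eq_of_le (gpl σ⁻¹ W).isPrime.ne_top hle).symm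
  have hgp' : gpl σ W = W := by
    have h1 := gpl_mul σ σ⁻¹ W
    rw [mul_inv_cancel, gpl_one, hgp] at h1
    exact h1.symm
  have hvσ : ∀ y : N, W.valuation N (σ y) = W.valuation N y := by
    intro y
    have h1 := gpl_val σ W y
    rw [hgp'] at h1
    exact h1
  have hE : W.valuation N (((σ • x : 𝓞 N) : N) - (x : N) ^ p) < 1 := by
    have h1 := (W.valuation_lt_one_iff_mem (K := N) (σ • x - x ^ p)).2 (hσ x)
    exact h1
  have hx2 : ((σ • x : 𝓞 N) : N) = σ (x : N) := rfl
  have hG : W.valuation N ((x : N) ^ p - yc Q ^ p) < 1 := by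
    have h1 := fra_prod (W.valuation N) (Finset.range p) (fun _ => (x : N)) (yc Q) hyQN
      (fun _ _ => by rw [Valuation.map_sub_swap]; exact hx1)
    rwa [Finset.prod_const, Finset.card_range] at h1
  rw [yc_ga]
  have e : yc (sm N β Q) - σ (yc Q) = ((yc (sm N β Q) - yc Q ^ p) +
      -((x : N) ^ p - yc Q ^ p)) + (-(((σ • x : 𝓞 N) : N) - (x : N) ^ p) +
      -σ (yc Q - (x : N))) := by
    rw [map_sub, hx2]
    ring
  rw [e]
  have hI : W.valuation N (-σ (yc Q - (x : N))) < 1 := by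
    rw [Valuation.map_neg, hvσ]
    exact hx1
  rw [← Valuation.map_neg] at hE hG
  exact Valuation.map_add_lt _ (Valuation.map_add_lt _ hD hG) (Valuation.map_add_lt _ hE hI)

theorem frob_sm {n : ℕ} (hn3 : n.Coprime 3) (hn : W.valuation N (n : N) = 1) {P : Pt N}
    (hP : n • P = 0) : ga σ P = sm N β P := by
  rcases eq_or_ne P 0 with rfl | hP0
  · rw [map_zero, map_zero]
  set v := W.valuation N with hv
  -- the valuation of `p`
  obtain ⟨g, hg⟩ := (h.dvd_int_iff p).2 dvd_rfl
  have hvp : v ((p : ℕ) : N) < 1 := by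
    have e1 : ((p : ℕ) : N) = algebraMap K N (β : K) * algebraMap K N (g : K) := by
      have e2 := congrArg (fun z : 𝓞 K => algebraMap K N (z : K)) hg
      simpa using e2
    rw [e1, map_mul]
    calc v (algebraMap K N (β : K)) * v (algebraMap K N (g : K))
        ≤ v (algebraMap K N (β : K)) * 1 := by gcongr; exact v_alg_le v g
      _ < 1 := by rw [mul_one]; exact hW
  have cop : ∀ m : ℕ, v ((m : ℕ) : N) < 1 → m.Coprime p → False := by
    intro m hm hc
    have h1 : (1 : N) = (m : N) * ((Nat.gcdA m p : ℤ) : N) + (p : N) * ((Nat.gcdB m p : ℤ) : N) := by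
      have := Nat.gcd_eq_gcd_ab m p
      rw [hc.gcd_eq_one] at this
      exact_mod_cast this
    have h2 : v (1 : N) < 1 := by
      conv_lhs => rw [h1]
      refine Valuation.map_add_lt _ ?_ ?_
      · rw [map_mul]
        calc v (m : N) * v ((Nat.gcdA m p : ℤ) : N) ≤ v (m : N) * 1 := by
              gcongr; exact v_int_le v _
          _ < 1 := by rw [mul_one]; exact hm
      · rw [map_mul]
        calc v (p : N) * v ((Nat.gcdB m p : ℤ) : N) ≤ v (p : N) * 1 := by
              gcongr; exact v_int_le v _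
          _ < 1 := by rw [mul_one]; exact hvp
    rw [map_one] at h2
    exact lt_irrefl _ h2
  have hp3 : Nat.Coprime 3 p := by
    rw [Nat.Prime.coprime_iff_not_dvd Nat.prime_three, Nat.dvd_iff_mod_eq_zero, h.mod_three]
    norm_num
  have h3 : v (3 : N) = 1 := by
    refine le_antisymm (by exact_mod_cast v_nat_le v 3) (not_lt.1 fun h1 => ?_)
    exact cop 3 (by exact_mod_cast h1) hp3
  have hnp : n.Coprime p := by
    rw [Nat.coprime_comm, h.prime.coprime_iff_not_dvd]
    rintro ⟨m, rfl⟩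
    have h1 : v (((p * m : ℕ)) : N) < 1 := by
      rw [Nat.cast_mul, map_mul]
      calc v (p : N) * v (m : N) ≤ v (p : N) * 1 := by gcongr; exact v_nat_le v m
        _ < 1 := by rw [mul_one]; exact hvp
    rw [hn] at h1
    exact lt_irrefl _ h1
  have h3n : v (((3 * n : ℕ)) : N) = 1 := by
    rw [Nat.cast_mul, map_mul, hn, mul_one]
    exact_mod_cast h3
  -- the two points
  have hβP : n • sm N β P = 0 := by rw [← map_nsmul, hP, map_zero]
  have hβP0 : sm N β P ≠ 0 := fun e => hP0 (frb_cop hnp hP (p_smul h e))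
  have hGP : n • ga σ P = 0 := by rw [← map_nsmul, hP, map_zero]
  have hGP0 : ga σ P ≠ 0 := fun e => hP0 (pm_inj _ (by rw [e, map_zero]))
  have hS3 : ∀ X : Pt N, n • X = 0 → (3 * n) • (ptS N + X) = 0 := by
    intro X hX
    rw [nsmul_add, mul_comm 3 n, mul_nsmul' X, smul_comm n 3 X, hX, nsmul_zero, add_zero, mul_nsmul',
      three_S, nsmul_zero]
  have yu := y_unit v hn3 hP hP0
  have yu' := y_unit v hn3 hβP hβP0
  have hne : ∀ X : Pt N, v (yc X) = 1 → yc X ≠ 0 := by
    intro X hX e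
    rw [e, map_zero] at hX
    exact zero_ne_one hX
  have eβ : sm N β (ptS N + P) = ptS N + sm N β P := by rw [map_add, sm_S β h.one]
  have eG : ga σ (ptS N + P) = ptS N + ga σ P := by rw [map_add, ga_S]
  have hy := y_frob h W hW σ hσ (n := 3 * n) h3n (Q := ptS N + P) (hS3 _ hP) (hne _ yu)
    (by
      rw [eβ]
      intro e
      have h1 := hne _ yu'
      rw [e, yc_zero] at h1
      exact h1 rfl)
    (by rw [eβ]; exact hne _ yu')
  rw [eβ, eG] at hy
  have n1 := not_ker_mix v hn3 three_S S_ne_zero hβP hβP0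
  have n2 := not_ker_mix v hn3 three_S S_ne_zero hGP hGP0
  have t1 := hS3 _ hβP
  have t2 := hS3 _ hGP
  have t3 : (3 * n) • omH N (ptS N + ga σ P) = 0 := by rw [← map_nsmul, t2, map_zero]
  have t4 : (3 * n) • omH N (omH N (ptS N + ga σ P)) = 0 := by rw [← map_nsmul, t3, map_zero]
  have fin : ∀ X : Pt N, n • X = 0 → ∀ Y : Pt N, 3 • Y = 0 → ptS N + sm N β P = Y + X →
      ptS N = Y := by
    intro X hX Y hY e
    have e1 : ptS N - Y = X - sm N β P := by
      rw [sub_eq_sub_iff_add_eq_add, e, add_comm]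
    have e2 : ptS N - Y = 0 := by
      refine frb_cop hn3 ?_ (m := 3) ?_
      · rw [e1, nsmul_sub, hX, hβP, sub_zero]
      · rw [nsmul_sub, three_S, hY, sub_zero]
    exact sub_eq_zero.1 e2
  rcases y_inj v h3 n1 n2 hy with hk | hk | hk
  · have e := ker_tors v hk (3 * n) h3n (by rw [nsmul_sub, t1, t2, sub_zero])
    have e1 := sub_eq_zero.1 e
    exact (add_left_cancel e1).symm
  · have e := ker_tors v hk (3 * n) h3n (by rw [nsmul_sub, t1, t3, sub_zero])
    have e1 := sub_eq_zero.1 e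
    rw [map_add] at e1
    have e2 := fin (omH N (ga σ P)) (by rw [← map_nsmul, hGP, map_zero]) (omH N (ptS N))
      (by rw [← map_nsmul, three_S, map_zero]) e1
    exact absurd e2.symm omH_S.1
  · have e := ker_tors v hk (3 * n) h3n (by rw [nsmul_sub, t1, t4, sub_zero])
    have e1 := sub_eq_zero.1 e
    rw [map_add, map_add] at e1
    have e2 := fin (omH N (omH N (ga σ P))) (by rw [← map_nsmul, ← map_nsmul, hGP, map_zero, map_zero])
      (omH N (omH N (ptS N))) (by rw [← map_nsmul, ← map_nsmul, three_S, map_zero, map_zero]) e1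
    exact absurd e2.symm omH_S.2

end

end Pool.Agent.Lib.MP_1a91b9_ntT.DB
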