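import Pool.Agent.Lib.MP_1a91b9_ntT.DB.Frob

/-!
# DB: the Frobenius at a place of degree one, for points killed by an element prime to the place

Same proof as in `Frob`, with an element `γ` of `𝓞 K` in place of the natural number `n`.
-/

set_option autoImplicit false

namespace Pool.Agent.Lib.MP_1a91b9_ntT.DB

open NumberField IsDedekindDomain WeierstrassCurve

universe u

/-- a place above `W` -/
private theorem frg_over {N L : Type u} [Field N] [NumberField N] [Field L] [NumberField L]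
    [Algebra N L] (W : HeightOneSpectrum (𝓞 N)) :
    ∃ W' : HeightOneSpectrum (𝓞 L), W'.under (𝓞 N) = W := by
  have i3 : W.asIdeal.IsPrime := W.isPrime
  obtain ⟨Q, hQ1, hQ2⟩ := (inferInstance : Nonempty (W.asIdeal.primesOver (𝓞 L)))
  have hb : Q ≠ ⊥ := Ideal.ne_bot_of_mem_primesOver W.ne_bot ⟨hQ1, hQ2⟩
  refine ⟨⟨Q, hQ1, hb⟩, ?_⟩
  apply HeightOneSpectrum.ext
  exact hQ2.over.symm

/-- congruence of products -/
private theorem frg_prod {F : Type*} [Field F] {Γ : Type*} [LinearOrderedCommGroupWithZero Γ]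
    (v : Valuation F Γ) {ι : Type*} (s : Finset ι) (f : ι → F) (c : F) (hc : v c ≤ 1)
    (h : ∀ a ∈ s, v (f a - c) < 1) : v (∏ a ∈ s, f a - c ^ s.card) < 1 := by
  classical
  have hle : ∀ t : Finset ι, t ⊆ s → v (∏ a ∈ t, f a) ≤ 1 := by
    intro t ht
    rw [map_prod]
    refine Finset.prod_le_one' fun a ha => ?_
    have h1 := h a (ht ha)
    have h2 : f a = (f a - c) + c := by ring
    rw [h2]
    exact v.map_add_le h1.le hc
  induction s using Finset.induction_on with
  | empty => simp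
  | insert a s ha ih =>
    rw [Finset.prod_insert ha, Finset.card_insert_of_notMem ha]
    have h1 := ih (fun b hb => h b (Finset.mem_insert_of_mem hb))
      (fun t ht => hle t (ht.trans (Finset.subset_insert a s)))
    have h2 := h a (Finset.mem_insert_self a s)
    have e : f a * ∏ x ∈ s, f x - c ^ (s.card + 1) =
        (f a - c) * ∏ x ∈ s, f x + c * (∏ x ∈ s, f x - c ^ s.card) := by ring
    rw [e]
    refine v.map_add_lt ?_ ?_
    · rw [map_mul]
      exact (mul_le_of_le_one_right' (hle s (Finset.subset_insert a s))).trans_lt h2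
    · rw [map_mul]
      exact (mul_le_of_le_one_left' hc).trans_lt h1
/-- coprime orders -/
private theorem frh_cop {A : Type*} [AddCommGroup A] {m n : ℕ} (h : n.Coprime m) {x : A}
    (h1 : n • x = 0) (h2 : m • x = 0) : x = 0 := by
  have h3 : addOrderOf x ∣ n := addOrderOf_dvd_iff_nsmul_eq_zero.2 h1
  have h4 : addOrderOf x ∣ m := addOrderOf_dvd_iff_nsmul_eq_zero.2 h2
  have h5 : addOrderOf x ∣ 1 := by
    rw [← h.gcd_eq_one]
    exact Nat.dvd_gcd h3 h4
  exact AddMonoid.addOrderOf_eq_one_iff.1 (Nat.dvd_one.1 h5)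

private theorem frg_comm {F : Type*} [Field F] [Algebra K F] [DecidableEq F] (a b : 𝓞 K)
    (X : Pt F) : sm F a (sm F b X) = sm F b (sm F a X) := by
  have h1 : sm F (a * b) X = sm F (b * a) X := by rw [mul_comm]
  rw [map_mul, map_mul] at h1
  exact h1

/-- the kernel of reduction has no point killed by an element which is a unit at `v` -/
theorem ker_sm_tors {F : Type*} [Field F] [Algebra K F] [DecidableEq F] {Γ : Type*}
    [LinearOrderedCommGroupWithZero Γ] (v : Valuation F Γ) {X : Pt F} (hX : Ker v X) {γ : 𝓞 K}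
    (hγ : v (algebraMap K F (γ : K)) = 1) (h : sm F γ X = 0) : X = 0 := by
  by_contra hX0
  have h1 := ker_sm_t v hX γ
  rw [h, tc_zero, zero_sub, Valuation.map_neg, map_mul, hγ, one_mul] at h1
  have h2 := ker_tc_lt v hX
  have h3 : v (tc X) ≠ 0 := by
    intro h0
    rw [Valuation.zero_iff] at h0
    exact hX0 (ker_tc_zero v hX h0)
  have h4 : v (tc X) ^ 4 < v (tc X) := by
    have h5 : v (tc X) ^ 4 = v (tc X) ^ 3 * v (tc X) := by rw [← pow_succ]
    have h6 : v (tc X) ^ 3 < 1 := pow_lt_one₀ zero_le h2 (by norm_num)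
    rw [h5]
    calc v (tc X) ^ 3 * v (tc X) < 1 * v (tc X) := by
          exact (mul_lt_mul_iff_left₀ (zero_lt_iff.2 h3)).2 h6
      _ = v (tc X) := one_mul _
  exact absurd h1 (not_le.2 h4)

section
variable {k N : Type u} [Field k] [NumberField k] [Algebra K k] [Field N] [NumberField N]
  [Algebra K N] [Algebra k N] [IsScalarTower K k N] [DecidableEq N] {β : 𝓞 K} {p : ℕ}
  (h : Deg1 β p) (W : HeightOneSpectrum (𝓞 N))
  (hW : W.valuation N (algebraMap K N (β : K)) < 1) (σ : Gal(N/k))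
  (hσ : ∀ x : 𝓞 N, σ • x - x ^ p ∈ W.asIdeal)
include h hW hσ

theorem y_frobG {γ : 𝓞 K} (hn : W.valuation N (algebraMap K N (γ : K)) = 1) {Q : Pt N}
    (hQ : sm N γ Q = 0)
    (hQ0 : yc Q ≠ 0) (hQ1 : sm N β Q ≠ 0) (hQ2 : yc (sm N β Q) ≠ 0) :
    W.valuation N (yc (sm N β Q) - yc (ga σ Q)) < 1 := by
  classical
  obtain ⟨L, iF, iNF, iKL, _, iNL, _, iT, _, _, _, R, hR, _⟩ := exists_ext N N h.isPrime h.one
  obtain ⟨W', hW'⟩ := frg_over (L := L) W
  set v' := W'.valuation L with hv'
  have mlt : ∀ a : N, v' (algebraMap N L a) < 1 ↔ W.valuation N a < 1 := fun a => by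
    rw [hv', val_map_lt, hW']
  have mle : ∀ a : N, v' (algebraMap N L a) ≤ 1 ↔ W.valuation N a ≤ 1 := fun a => by
    rw [hv', val_map_le, hW']
  have meq : ∀ a : N, v' (algebraMap N L a) = 1 ↔ W.valuation N a = 1 := fun a => by
    rw [hv', val_map_eq, hW']
  let f : N →ₐ[K] L := IsScalarTower.toAlgHom K N L
  have hf : ∀ a : N, f a = algebraMap N L a := fun a => rfl
  obtain ⟨g⟩ := exists_emb L
  have hRβ : sm L β R = 0 := (hR β).2 dvd_rfl
  have hR0 : R ≠ 0 := by
    intro h0
    have h1 : sm L 1 R = 0 := by rw [h0, map_zero]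
    exact h.isPrime.not_isUnit (isUnit_of_dvd_one ((hR 1).1 h1))
  have hQn : sm L γ (pm f Q) = 0 := by rw [← pm_sm, hQ, map_zero]
  have hsmQ : sm L β (pm f Q) = pm f (sm N β Q) := (pm_sm f β Q).symm
  have hP : sm L β (pm f Q) ≠ 0 := by
    rw [hsmQ]
    intro h0
    exact hQ1 (pm_inj f (h0.trans (map_zero _).symm))
  have hP0 : yc (sm L β (pm f Q)) ≠ 0 := by
    rw [hsmQ, yc_pm]
    intro h0
    exact hQ2 (f.injective (h0.trans (map_zero _).symm))
  have hdist := dist_deg1 g h hRβ hR0 hP hP0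
  have hvβ : v' (algebraMap K L (β : K)) < 1 := by
    rw [IsScalarTower.algebraMap_apply K N L, mlt]
    exact hW
  have hKR : Ker v' R := ker_of_val v' h.isPrime h.one hR hvβ
  have hKa : ∀ a : ℕ, Ker v' (a • R) := fun a => (ker_nsmul v' hKR a).1
  have hvn : v' (algebraMap K L (γ : K)) = 1 := by
    have h1 := (meq (algebraMap K N (γ : K))).2 hn
    rwa [← IsScalarTower.algebraMap_apply] at h1
  have hKS : ¬ Ker v' (ptS L) := by
    rintro (h0 | h0)
    · exact S_ne_zero h0
    · rw [ptS, xc_mk, Valuation.map_neg, map_one] at h0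
      exact lt_irrefl _ h0
  have hKQ : ¬ Ker v' (pm f Q) := by
    intro h0
    have h1 := ker_sm_tors v' h0 hvn hQn
    rw [h1, map_zero] at hP
    exact hP rfl
  have hKQ' : ¬ Ker v' (sm L β (pm f Q)) := by
    intro h0
    refine hP (ker_sm_tors v' h0 hvn ?_)
    rw [frg_comm, hQn, map_zero]
  have hyQ := (not_ker v' hKQ).2.2
  have hyQ' := (not_ker v' hKQ').2.2
  have hA := frg_prod v' (Finset.Ico 1 p) (fun a => yc (ptS L + a • R)) (omF L) (v_om v').le
    (fun a _ => by
      have h1 := (add_ker v' hKS (hKa a)).2.2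
      rw [ptS, yc_mk] at h1
      exact h1.trans_lt (ker_tc_lt v' (hKa a)))
  have hB := frg_prod v' (Finset.Ico 1 p) (fun a => yc (pm f Q + a • R)) (yc (pm f Q)) hyQ
    (fun a _ => (add_ker v' hKQ (hKa a)).2.2.trans_lt (ker_tc_lt v' (hKa a)))
  rw [Nat.card_Ico] at hA hB
  have hp7 := h.seven_le
  have hp3 := h.mod_three
  have hom : omF L ^ (p - 1) = 1 := by
    obtain ⟨q, hq⟩ : ∃ q, p - 1 = 3 * q := ⟨p / 3, by omega⟩
    rw [hq, pow_mul, omF_cube, one_pow]
  rw [hom] at hA
  have hC : v' (yc (sm L β (pm f Q)) - yc (pm f Q) ^ p) < 1 := by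
    have e : yc (sm L β (pm f Q)) - yc (pm f Q) ^ p =
        yc (sm L β (pm f Q)) * -(∏ a ∈ Finset.Ico 1 p, yc (ptS L + a • R) - 1) +
        yc (pm f Q) * (∏ a ∈ Finset.Ico 1 p, yc (pm f Q + a • R) - yc (pm f Q) ^ (p - 1)) := by
      have e1 : yc (pm f Q) ^ p = yc (pm f Q) * yc (pm f Q) ^ (p - 1) := by
        rw [← pow_succ', Nat.sub_add_cancel (by omega)]
      rw [e1]
      linear_combination hdist
    rw [e]
    refine v'.map_add_lt ?_ ?_
    · rw [map_mul, Valuation.map_neg]
      exact (mul_le_of_le_one_left' hyQ').trans_lt hA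
    · rw [map_mul]
      exact (mul_le_of_le_one_left' hyQ).trans_lt hB
  have hD : W.valuation N (yc (sm N β Q) - yc Q ^ p) < 1 := by
    rw [← mlt, map_sub, map_pow]
    rw [hsmQ, yc_pm, yc_pm, hf, hf] at hC
    exact hC
  have hyQN : W.valuation N (yc Q) ≤ 1 := by
    rw [← mle]
    rw [yc_pm, hf] at hyQ
    exact hyQ
  obtain ⟨x, hx⟩ := exists_val_lt_of_int W hyQN 1
  have hx1 : W.valuation N (yc Q - (x : N)) < 1 := by
    refine hx.trans_lt ?_
    rw [← WithZero.exp_zero, WithZero.exp_lt_exp]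
    norm_num
  have hgp : gpl σ⁻¹ W = W := by
    apply HeightOneSpectrum.ext
    have hle : W.asIdeal ≤ (gpl σ⁻¹ W).asIdeal := by
      intro y hy
      change (σ⁻¹)⁻¹ • y ∈ W.asIdeal
      rw [inv_inv]
      have h1 := hσ y
      have h2 : y ^ p ∈ W.asIdeal := Ideal.pow_mem_of_mem _ hy p (by omega)
      have h3 := Ideal.add_mem _ h1 h2
      rwa [sub_add_cancel] at h3
    exact (W.isMaximal.eq_of_le (gpl σ⁻¹ W).isPrime.ne_top hle).symm
  have hgp' : gpl σ W = W := by
    have h1 := gpl_mul σ σ⁻¹ W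
    rw [mul_inv_cancel, gpl_one, hgp] at h1
    exact h1.symm
  have hvσ : ∀ y : N, W.valuation N (σ y) = W.valuation N y := by
    intro y
    have h1 := gpl_val σ W y
    rw [hgp'] at h1
    exact h1
  have hE : W.valuation N (((σ • x : 𝓞 N) : N) - (x : N) ^ p) < 1 := by
    have h1 := (W.valuation_lt_one_iff_mem (K := N) (σ • x - x ^ p)).2 (hσ x)
    exact h1
  have hx2 : ((σ • x : 𝓞 N) : N) = σ (x : N) := rfl
  have hG : W.valuation N ((x : N) ^ p - yc Q ^ p) < 1 := by
    have h1 := frg_prod (W.valuation N) (Finset.range p) (fun _ => (x : N)) (yc Q) hyQN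
      (fun _ _ => by rw [Valuation.map_sub_swap]; exact hx1)
    rwa [Finset.prod_const, Finset.card_range] at h1
  rw [yc_ga]
  have e : yc (sm N β Q) - σ (yc Q) = ((yc (sm N β Q) - yc Q ^ p) +
      -((x : N) ^ p - yc Q ^ p)) + (-(((σ • x : 𝓞 N) : N) - (x : N) ^ p) +
      -σ (yc Q - (x : N))) := by
    rw [map_sub, hx2]
    ring
  rw [e]
  have hI : W.valuation N (-σ (yc Q - (x : N))) < 1 := by
    rw [Valuation.map_neg, hvσ]
    exact hx1
  rw [← Valuation.map_neg] at hE hG
  exact Valuation.map_add_lt _ (Valuation.map_add_lt _ hD hG) (Valuation.map_add_lt _ hE hI)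

theorem frob_smG {n : ℕ} (hn3 : n.Coprime 3) {γ : 𝓞 K}
    (hn : W.valuation N (algebraMap K N (γ : K)) = 1) {P : Pt N} (hP : n • P = 0)
    (hPγ : sm N γ P = 0) : ga σ P = sm N β P := by
  rcases eq_or_ne P 0 with rfl | hP0
  · rw [map_zero, map_zero]
  set v := W.valuation N with hv
  -- the valuation of `p`
  obtain ⟨g, hg⟩ := (h.dvd_int_iff p).2 dvd_rfl
  have hvp : v ((p : ℕ) : N) < 1 := by
    have e1 : ((p : ℕ) : N) = algebraMap K N (β : K) * algebraMap K N (g : K) := by
      have e2 := congrArg (fun z : 𝓞 K => algebraMap K N (z : K)) hg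
      simpa using e2
    rw [e1, map_mul]
    calc v (algebraMap K N (β : K)) * v (algebraMap K N (g : K))
        ≤ v (algebraMap K N (β : K)) * 1 := by gcongr; exact v_alg_le v g
      _ < 1 := by rw [mul_one]; exact hW
  have cop : ∀ m : ℕ, v ((m : ℕ) : N) < 1 → m.Coprime p → False := by
    intro m hm hc
    have h1 : (1 : N) = (m : N) * ((Nat.gcdA m p : ℤ) : N) + (p : N) * ((Nat.gcdB m p : ℤ) : N) := by
      have := Nat.gcd_eq_gcd_ab m p
      rw [hc.gcd_eq_one] at this
      exact_mod_cast this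
    have h2 : v (1 : N) < 1 := by
      conv_lhs => rw [h1]
      refine Valuation.map_add_lt _ ?_ ?_
      · rw [map_mul]
        calc v (m : N) * v ((Nat.gcdA m p : ℤ) : N) ≤ v (m : N) * 1 := by
              gcongr; exact v_int_le v _
          _ < 1 := by rw [mul_one]; exact hm
      · rw [map_mul]
        calc v (p : N) * v ((Nat.gcdB m p : ℤ) : N) ≤ v (p : N) * 1 := by
              gcongr; exact v_int_le v _
          _ < 1 := by rw [mul_one]; exact hvp
    rw [map_one] at h2
    exact lt_irrefl _ h2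
  have hp3 : Nat.Coprime 3 p := by
    rw [Nat.Prime.coprime_iff_not_dvd Nat.prime_three, Nat.dvd_iff_mod_eq_zero, h.mod_three]
    norm_num
  have h3 : v (3 : N) = 1 := by
    refine le_antisymm (by exact_mod_cast v_nat_le v 3) (not_lt.1 fun h1 => ?_)
    exact cop 3 (by exact_mod_cast h1) hp3
  have h3K : algebraMap K N (((3 * γ : 𝓞 K)) : K) = 3 * algebraMap K N (γ : K) := by
    have e1 : (((3 * γ : 𝓞 K)) : K) = 3 * (γ : K) := by
      have h4 : ((3 : 𝓞 K) : K) = 3 := map_ofNat (algebraMap (𝓞 K) K) 3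
      have h5 : (((3 * γ : 𝓞 K)) : K) = ((3 : 𝓞 K) : K) * (γ : K) := map_mul (algebraMap (𝓞 K) K) 3 γ
      rw [h5, h4]
    rw [e1, map_mul, map_ofNat]
  have h3n : v (algebraMap K N (((3 * γ : 𝓞 K)) : K)) = 1 := by
    rw [h3K, map_mul, hn, mul_one, h3]
  have hβγ : IsCoprime β γ := by
    have hm : (Ideal.span {β} : Ideal (𝓞 K)).IsMaximal := by
      have h1 : (Ideal.span {β} : Ideal (𝓞 K)).IsPrime :=
        (Ideal.span_singleton_prime h.isPrime.ne_zero).2 h.isPrime
      exact h1.isMaximal (by rw [Ne, Ideal.span_singleton_eq_bot]; exact h.isPrime.ne_zero)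
    have hnd : ¬ β ∣ γ := by
      rintro ⟨m, rfl⟩
      have h1 : v (algebraMap K N (((β * m : 𝓞 K)) : K)) < 1 := by
        have e1 : (((β * m : 𝓞 K)) : K) = (β : K) * (m : K) := map_mul _ _ _
        rw [e1, map_mul, map_mul]
        calc v (algebraMap K N (β : K)) * v (algebraMap K N (m : K))
            ≤ v (algebraMap K N (β : K)) * 1 := by gcongr; exact v_alg_le v m
          _ < 1 := by rw [mul_one]; exact hW
      rw [hn] at h1
      exact lt_irrefl _ h1
    rw [← Ideal.isCoprime_span_singleton_iff, Ideal.isCoprime_iff_sup_eq]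
    have h2 : Ideal.span {β} < Ideal.span {β} ⊔ Ideal.span {γ} := by
      refine lt_of_le_of_ne le_sup_left fun e => hnd ?_
      have h3 : Ideal.span {γ} ≤ Ideal.span {β} := by
        rw [e]
        exact le_sup_right
      exact Ideal.span_singleton_le_span_singleton.1 h3
    exact hm.1.2 _ h2
  have kill : ∀ X : Pt N, sm N β X = 0 → sm N γ X = 0 → X = 0 := by
    intro X h1 h2
    obtain ⟨a, b, hab⟩ := hβγ
    have e1 : sm N (a * β + b * γ) X = X := by rw [hab, map_one]; rfl
    rw [map_add, map_mul, map_mul] at e1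
    have e2 : sm N a (sm N β X) + sm N b (sm N γ X) = X := e1
    rw [h1, h2, map_zero, map_zero, add_zero] at e2
    exact e2.symm
  -- the two points
  have hβP : n • sm N β P = 0 := by rw [← map_nsmul, hP, map_zero]
  have hβPγ : sm N γ (sm N β P) = 0 := by rw [frg_comm, hPγ, map_zero]
  have hβP0 : sm N β P ≠ 0 := fun e => hP0 (kill P e hPγ)
  have hGP : n • ga σ P = 0 := by rw [← map_nsmul, hP, map_zero]
  have hGPγ : sm N γ (ga σ P) = 0 := by rw [← ga_sm, hPγ, map_zero]
  have hGP0 : ga σ P ≠ 0 := fun e => hP0 (pm_inj _ (by rw [e, map_zero]))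
  have hS3 : ∀ X : Pt N, sm N γ X = 0 → sm N (3 * γ) (ptS N + X) = 0 := by
    intro X hX
    have e3 : ∀ Y : Pt N, sm N (3 * γ) Y = 3 • sm N γ Y := by
      intro Y
      have e4 : (3 * γ : 𝓞 K) = ((3 : ℕ) : 𝓞 K) * γ := by norm_num
      rw [e4, map_mul]
      exact sm_nat 3 (sm N γ Y)
    rw [e3, map_add, hX, add_zero, ← map_nsmul, three_S, map_zero]
  have yu := y_unit v hn3 hP hP0
  have yu' := y_unit v hn3 hβP hβP0
  have hne : ∀ X : Pt N, v (yc X) = 1 → yc X ≠ 0 := by
    intro X hX e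
    rw [e, map_zero] at hX
    exact zero_ne_one hX
  have eβ : sm N β (ptS N + P) = ptS N + sm N β P := by rw [map_add, sm_S β h.one]
  have eG : ga σ (ptS N + P) = ptS N + ga σ P := by rw [map_add, ga_S]
  have hy := y_frobG h W hW σ hσ (γ := 3 * γ) h3n (Q := ptS N + P) (hS3 _ hPγ) (hne _ yu)
    (by
      rw [eβ]
      intro e
      have h1 := hne _ yu'
      rw [e, yc_zero] at h1
      exact h1 rfl)
    (by rw [eβ]; exact hne _ yu')
  rw [eβ, eG] at hy
  have n1 := not_ker_mix v hn3 three_S S_ne_zero hβP hβP0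
  have n2 := not_ker_mix v hn3 three_S S_ne_zero hGP hGP0
  have t1 := hS3 _ hβPγ
  have t2 := hS3 _ hGPγ
  have om_sm : ∀ (a : 𝓞 K) (X : Pt N), sm N a (omH N X) = omH N (sm N a X) := by
    intro a X
    rw [← sm_om, ← sm_om, frg_comm]
  have t3 : sm N (3 * γ) (omH N (ptS N + ga σ P)) = 0 := by rw [om_sm, t2, map_zero]
  have t4 : sm N (3 * γ) (omH N (omH N (ptS N + ga σ P))) = 0 := by rw [om_sm, t3, map_zero]
  have fin : ∀ X : Pt N, n • X = 0 → ∀ Y : Pt N, 3 • Y = 0 → ptS N + sm N β P = Y + X →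
      ptS N = Y := by
    intro X hX Y hY e
    have e1 : ptS N - Y = X - sm N β P := by
      rw [sub_eq_sub_iff_add_eq_add, e, add_comm]
    have e2 : ptS N - Y = 0 := by
      refine frh_cop hn3 ?_ (m := 3) ?_
      · rw [e1, nsmul_sub, hX, hβP, sub_zero]
      · rw [nsmul_sub, three_S, hY, sub_zero]
    exact sub_eq_zero.1 e2
  rcases y_inj v h3 n1 n2 hy with hk | hk | hk
  · have e := ker_sm_tors v hk h3n (by rw [map_sub, t1, t2, sub_zero])
    have e1 := sub_eq_zero.1 e
    exact (add_left_cancel e1).symm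
  · have e := ker_sm_tors v hk h3n (by rw [map_sub, t1, t3, sub_zero])
    have e1 := sub_eq_zero.1 e
    rw [map_add] at e1
    have e2 := fin (omH N (ga σ P)) (by rw [← map_nsmul, hGP, map_zero]) (omH N (ptS N))
      (by rw [← map_nsmul, three_S, map_zero]) e1
    exact absurd e2.symm omH_S.1
  · have e := ker_sm_tors v hk h3n (by rw [map_sub, t1, t4, sub_zero])
    have e1 := sub_eq_zero.1 e
    rw [map_add, map_add] at e1
    have e2 := fin (omH N (omH N (ga σ P))) (by rw [← map_nsmul, ← map_nsmul, hGP, map_zero, map_zero])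
      (omH N (omH N (ptS N))) (by rw [← map_nsmul, ← map_nsmul, three_S, map_zero, map_zero]) e1
    exact absurd e2.symm omH_S.2

end

end Pool.Agent.Lib.MP_1a91b9_ntT.DB
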