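import Pool.Agent.Lib.MP_1a91b9_ntT.CF.HilbS

/-!
# DB: orders at places as integers, conjugate places

PROOF (complete; stream DB of helper55). Jobs OdA (first section), OdB (extensions), OdC (conjugate
places).

`od w a = - log (w.valuation a)` (`0` at `0`); `CF.ord` (file CF/Ord) is the same on units. Use
`WithZero.log_mul`, `log_pow`, `log_zpow`, `exp_log`, `Valuation.map_mul`. `od_eq_ord`:
`valuationOfNeZero_eq`. `exists_unit_of_od`: `CF.ord_nonneg_iff` for `a` and `a⁻¹`, or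
`HeightOneSpectrum.mem_integers_of_valuation_le_one`. `exists_od_one`: `CF.exists_ord_one` or
`HeightOneSpectrum.valuation_exists_uniformizer`. `exists_val_lt_of_int`: an element with `v a ≤ 1` is
congruent to an integer of `𝓞 F` modulo `w^n` (weak approximation: write `a = x/s`, `s ∉ w`
(`a` is in the localization at `w`: multiply by a suitable element), `s s' = 1` modulo `w^n`).
Extensions: `od_map` is `CF.ord_incA`, `od_norm` is `CF.ord_nmA` (`CF.Over`/finite sums as there).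
Conjugate places: `gpl σ W = σ(W)`: `x ∈ σ(W)` iff `σ⁻¹ x ∈ W`. `gpl_val`: the valuation of an integer `x`
at `W` is determined by the `n` with `x ∈ W^n` (`HeightOneSpectrum.intValuation_le_pow_iff_mem`), and
`comap` of an automorphism commutes with powers; for fractions divide. `gpl_trans`: the Galois group is
transitive on the places above `v` (`CF.ord_transport` or `Ideal.exists_smul_eq_of_isGaloisGroup` ..).
-/

set_option autoImplicit false

namespace Pool.Agent.Lib.MP_1a91b9_ntT.DB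

open NumberField IsDedekindDomain

universe u

noncomputable section

section
variable {F : Type u} [Field F] [NumberField F]

/-- the order of `a` at the place `w` (`0` for `a = 0`) -/
def od (w : HeightOneSpectrum (𝓞 F)) (a : F) : ℤ := -(WithZero.log (w.valuation F a))

variable (w : HeightOneSpectrum (𝓞 F))

private theorem oda_ne {a : F} (ha : a ≠ 0) : w.valuation F a ≠ 0 :=
  (Valuation.ne_zero_iff _).2 ha

theorem od_one : od w (1 : F) = 0 := by
  unfold od
  rw [map_one, WithZero.log_one, neg_zero]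

theorem od_mul {a b : F} (ha : a ≠ 0) (hb : b ≠ 0) : od w (a * b) = od w a + od w b := by
  unfold od
  rw [map_mul, WithZero.log_mul (oda_ne w ha) (oda_ne w hb), neg_add]

theorem od_inv (a : F) : od w a⁻¹ = -od w a := by
  unfold od
  rw [map_inv₀, WithZero.log_inv]

theorem od_pow (a : F) (n : ℕ) : od w (a ^ n) = n * od w a := by
  unfold od
  rw [map_pow, WithZero.log_pow, nsmul_eq_mul, mul_neg]

theorem od_zpow (a : F) (n : ℤ) : od w (a ^ n) = n * od w a := by
  unfold od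
  rw [map_zpow₀, WithZero.log_zpow, smul_eq_mul, mul_neg]

theorem od_prod {ι : Type*} (s : Finset ι) (f : ι → F) (hf : ∀ i ∈ s, f i ≠ 0) :
    od w (∏ i ∈ s, f i) = ∑ i ∈ s, od w (f i) := by
  classical
  induction s using Finset.induction_on with
  | empty => rw [Finset.prod_empty, Finset.sum_empty, od_one]
  | insert a s ha ih =>
    rw [Finset.prod_insert ha, Finset.sum_insert ha,
      od_mul w (hf a (Finset.mem_insert_self a s))
        (Finset.prod_ne_zero_iff.2 fun i hi => hf i (Finset.mem_insert_of_mem hi)),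
      ih fun i hi => hf i (Finset.mem_insert_of_mem hi)]

theorem val_eq {a : F} (ha : a ≠ 0) : w.valuation F a = WithZero.exp (-od w a) := by
  unfold od
  rw [neg_neg, WithZero.exp_log (oda_ne w ha)]

theorem val_lt_one_iff {a : F} (ha : a ≠ 0) : w.valuation F a < 1 ↔ 0 < od w a := by
  rw [val_eq w ha, ← WithZero.exp_zero, WithZero.exp_lt_exp]
  exact neg_lt_zero

theorem val_le_one_iff {a : F} (ha : a ≠ 0) : w.valuation F a ≤ 1 ↔ 0 ≤ od w a := by
  rw [val_eq w ha, ← WithZero.exp_zero, WithZero.exp_le_exp]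
  exact neg_nonpos

theorem val_eq_one_iff {a : F} (ha : a ≠ 0) : w.valuation F a = 1 ↔ od w a = 0 := by
  rw [val_eq w ha, ← WithZero.exp_zero, WithZero.exp_inj]
  exact neg_eq_zero

theorem val_le_val_iff {a b : F} (ha : a ≠ 0) (hb : b ≠ 0) :
    w.valuation F a ≤ w.valuation F b ↔ od w b ≤ od w a := by
  rw [val_eq w ha, val_eq w hb, WithZero.exp_le_exp]
  exact neg_le_neg_iff

theorem od_eq_ord (y : Fˣ) : od w (y : F) = CF.ord w (Additive.ofMul y) := by
  unfold od CF.ord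
  rw [← w.valuationOfNeZero_eq y]
  rfl

theorem od_finite {a : F} (ha : a ≠ 0) : {w : HeightOneSpectrum (𝓞 F) | od w a ≠ 0}.Finite := by
  refine (CF.ord_finite (Additive.ofMul (Units.mk0 a ha))).subset fun w hw => ?_
  intro h0
  refine hw ?_
  have h1 := od_eq_ord w (Units.mk0 a ha)
  rw [h0] at h1
  exact h1

theorem exists_od_one : ∃ z : F, od w z = 1 := by
  obtain ⟨z, y, -, h2⟩ := CF.exists_ord_one w
  exact ⟨y, by rw [od_eq_ord, h2]⟩

theorem exists_unit_of_od {a : F} (ha : a ≠ 0) (h : ∀ w : HeightOneSpectrum (𝓞 F), od w a = 0) :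
    ∃ x : (𝓞 F)ˣ, ((x : 𝓞 F) : F) = a := by
  have h1 : ∀ b : F, b ≠ 0 → (∀ w : HeightOneSpectrum (𝓞 F), od w b = 0) →
      ∃ z : 𝓞 F, (z : F) = b := by
    intro b hb hb0
    obtain ⟨z, hz⟩ := (CF.ord_nonneg_iff (Units.mk0 b hb)).1 fun w => by
      rw [← od_eq_ord]
      exact (hb0 w).ge
    exact ⟨z, hz.symm⟩
  obtain ⟨x, hx⟩ := h1 a ha h
  obtain ⟨y, hy⟩ := h1 a⁻¹ (inv_ne_zero ha) fun w => by rw [od_inv, h w, neg_zero]
  have hxy : x * y = 1 := by
    apply RingOfIntegers.ext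
    change (x : F) * (y : F) = 1
    rw [hx, hy, mul_inv_cancel₀ ha]
  exact ⟨Units.mkOfMulEqOne x y hxy, hx⟩

/-- an element of order at least `0` is congruent to an integer modulo a power of the place -/
theorem exists_val_lt_of_int {a : F} (ha : w.valuation F a ≤ 1) (n : ℕ) :
    ∃ x : 𝓞 F, w.valuation F (a - (x : F)) ≤ WithZero.exp (-(n : ℤ)) := by
  obtain ⟨x, hx⟩ := w.exists_valuation_sub_lt_of_integer ha
    (Units.mk0 (WithZero.exp (-(n : ℤ))) WithZero.exp_ne_zero)
  refine ⟨x, ?_⟩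
  rw [Valuation.map_sub_swap]
  exact hx.le

end

section
variable {k L : Type u} [Field k] [NumberField k] [Field L] [NumberField L] [Algebra k L]

theorem od_map (W : HeightOneSpectrum (𝓞 L)) (a : k) : od W (algebraMap k L a) =
    (W.asIdeal.ramificationIdx (𝓞 k) : ℤ) * od (W.under (𝓞 k)) a := by
  rcases eq_or_ne a 0 with rfl | ha
  · simp [od]
  · have h1 := CF.ord_incA (k := k) (L := L) W (Additive.ofMul (Units.mk0 a ha))
    have h2 : algebraMap k L a = ((Units.map (algebraMap k L : k →* L) (Units.mk0 a ha) : Lˣ) : L) := rfl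
    have h3 : od (W.under (𝓞 k)) a = CF.ord (W.under (𝓞 k)) (Additive.ofMul (Units.mk0 a ha)) := by
      rw [← od_eq_ord]
      rfl
    rw [h2, od_eq_ord, h3]
    exact h1

theorem ramIdx_pos (W : HeightOneSpectrum (𝓞 L)) : 0 < W.asIdeal.ramificationIdx (𝓞 k) := by
  have : W.asIdeal.IsPrime := W.isPrime
  exact Ideal.ramificationIdx_pos W.asIdeal (𝓞 k)

theorem val_map_lt (W : HeightOneSpectrum (𝓞 L)) (a : k) :
    W.valuation L (algebraMap k L a) < 1 ↔ (W.under (𝓞 k)).valuation k a < 1 := by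
  rcases eq_or_ne a 0 with rfl | ha
  · simp
  · rw [val_lt_one_iff W ((map_ne_zero (algebraMap k L)).mpr ha), val_lt_one_iff _ ha, od_map]
    have h0 : (0 : ℤ) < (W.asIdeal.ramificationIdx (𝓞 k) : ℤ) := by
      exact_mod_cast ramIdx_pos (k := k) W
    exact mul_pos_iff_of_pos_left h0

theorem val_map_le (W : HeightOneSpectrum (𝓞 L)) (a : k) :
    W.valuation L (algebraMap k L a) ≤ 1 ↔ (W.under (𝓞 k)).valuation k a ≤ 1 := by
  rcases eq_or_ne a 0 with rfl | ha
  · simp
  · rw [val_le_one_iff W ((map_ne_zero (algebraMap k L)).mpr ha), val_le_one_iff _ ha, od_map]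
    have h0 : (0 : ℤ) < (W.asIdeal.ramificationIdx (𝓞 k) : ℤ) := by
      exact_mod_cast ramIdx_pos (k := k) W
    exact mul_nonneg_iff_of_pos_left h0

theorem val_map_eq (W : HeightOneSpectrum (𝓞 L)) (a : k) :
    W.valuation L (algebraMap k L a) = 1 ↔ (W.under (𝓞 k)).valuation k a = 1 := by
  rcases eq_or_ne a 0 with rfl | ha
  · simp
  · rw [val_eq_one_iff W ((map_ne_zero (algebraMap k L)).mpr ha), val_eq_one_iff _ ha, od_map]
    have h0 : (W.asIdeal.ramificationIdx (𝓞 k) : ℤ) ≠ 0 := by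
      exact_mod_cast (ramIdx_pos (k := k) W).ne'
    exact mul_eq_zero_iff_left h0

/-- the place `σ(W)` -/
def gpl (σ : Gal(L/k)) (W : HeightOneSpectrum (𝓞 L)) : HeightOneSpectrum (𝓞 L) where
  asIdeal := W.asIdeal.comap (MulSemiringAction.toRingHom Gal(L/k) (𝓞 L) σ⁻¹)
  isPrime := Ideal.IsPrime.comap _
  ne_bot := by
    intro h
    obtain ⟨x, hx, hx0⟩ := Submodule.exists_mem_ne_zero_of_ne_bot W.ne_bot
    have h1 : σ • x ∈ W.asIdeal.comap (MulSemiringAction.toRingHom Gal(L/k) (𝓞 L) σ⁻¹) := by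
      rw [Ideal.mem_comap]
      change σ⁻¹ • (σ • x) ∈ W.asIdeal
      rwa [inv_smul_smul]
    rw [h, Ideal.mem_bot, smul_eq_zero_iff_eq] at h1
    exact hx0 h1

private theorem odc_mem (σ : Gal(L/k)) (W : HeightOneSpectrum (𝓞 L)) (x : 𝓞 L) :
    x ∈ (gpl σ W).asIdeal ↔ σ⁻¹ • x ∈ W.asIdeal := Iff.rfl

private theorem odc_mem_pow (σ : Gal(L/k)) (W : HeightOneSpectrum (𝓞 L)) (x : 𝓞 L) (n : ℕ) :
    σ • x ∈ (gpl σ W).asIdeal ^ n ↔ x ∈ W.asIdeal ^ n := by
  have h1 : (gpl σ W).asIdeal =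
      W.asIdeal.map (MulSemiringAction.toRingEquiv Gal(L/k) (𝓞 L) σ) := by
    rw [← Ideal.comap_symm]
    ext z
    rfl
  rw [h1, ← Ideal.map_pow, ← Ideal.comap_symm, Ideal.mem_comap]
  change σ⁻¹ • σ • x ∈ _ ↔ _
  rw [inv_smul_smul]

private theorem odc_int (σ : Gal(L/k)) (W : HeightOneSpectrum (𝓞 L)) (x : 𝓞 L) :
    (gpl σ W).intValuation (σ • x) = W.intValuation x := by
  rcases eq_or_ne x 0 with rfl | hx
  · rw [smul_zero, map_zero, map_zero]
  · have hx' : σ • x ≠ 0 := by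
      intro h0
      exact hx ((smul_eq_zero_iff_eq σ).1 h0)
    have h : ∀ n : ℕ, (gpl σ W).intValuation (σ • x) ≤ WithZero.exp (-(n : ℤ)) ↔
        W.intValuation x ≤ WithZero.exp (-(n : ℤ)) := by
      intro n
      rw [HeightOneSpectrum.intValuation_le_pow_iff_mem,
        HeightOneSpectrum.intValuation_le_pow_iff_mem, odc_mem_pow]
    apply le_antisymm
    · rw [W.intValuation_if_neg hx]
      exact (h _).2 (W.intValuation_if_neg hx).le
    · rw [(gpl σ W).intValuation_if_neg hx']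
      exact (h _).1 ((gpl σ W).intValuation_if_neg hx').le

theorem gpl_val (σ : Gal(L/k)) (W : HeightOneSpectrum (𝓞 L)) (y : L) :
    (gpl σ W).valuation L (σ y) = W.valuation L y := by
  obtain ⟨a, b, hb, rfl⟩ := IsFractionRing.div_surjective (A := 𝓞 L) y
  have h1 : ∀ x : 𝓞 L, σ (algebraMap (𝓞 L) L x) = algebraMap (𝓞 L) L (σ • x) := fun x => rfl
  rw [map_div₀, map_div₀, map_div₀, h1, h1]
  simp only [HeightOneSpectrum.valuation_of_algebraMap, odc_int]

theorem gpl_od (σ : Gal(L/k)) (W : HeightOneSpectrum (𝓞 L)) (y : L) :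
    od (gpl σ W) (σ y) = od W y := by
  unfold od
  rw [gpl_val]

theorem gpl_mul (σ τ : Gal(L/k)) (W : HeightOneSpectrum (𝓞 L)) :
    gpl (σ * τ) W = gpl σ (gpl τ W) := by
  apply HeightOneSpectrum.ext
  ext x
  rw [odc_mem, odc_mem, odc_mem, mul_inv_rev, mul_smul]

theorem gpl_one (W : HeightOneSpectrum (𝓞 L)) : gpl (1 : Gal(L/k)) W = W := by
  apply HeightOneSpectrum.ext
  ext x
  rw [odc_mem, inv_one, one_smul]

theorem gpl_under (σ : Gal(L/k)) (W : HeightOneSpectrum (𝓞 L)) :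
    (gpl σ W).under (𝓞 k) = W.under (𝓞 k) := by
  apply HeightOneSpectrum.ext
  ext x
  change algebraMap (𝓞 k) (𝓞 L) x ∈ (gpl σ W).asIdeal ↔ algebraMap (𝓞 k) (𝓞 L) x ∈ W.asIdeal
  have h1 : σ⁻¹ • algebraMap (𝓞 k) (𝓞 L) x = algebraMap (𝓞 k) (𝓞 L) x := by
    apply RingOfIntegers.ext
    exact AlgEquiv.commutes σ⁻¹ (x : k)
  rw [odc_mem, h1]

theorem gpl_trans [IsGalois k L] (W W' : HeightOneSpectrum (𝓞 L))
    (h : W.under (𝓞 k) = W'.under (𝓞 k)) : ∃ σ : Gal(L/k), gpl σ W = W' := by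
  obtain ⟨σ, hσ⟩ := CF.ord_transport W W' h
  refine ⟨σ, ?_⟩
  have h1 : ∀ y : Lˣ, CF.ord W' (Additive.ofMul y) = CF.ord (gpl σ W) (Additive.ofMul y) := by
    intro y
    have h2 := hσ (Additive.ofMul (Units.map ((σ⁻¹ : Gal(L/k)) : L →* L) y))
    have h3 : CF.autA σ (Additive.ofMul (Units.map ((σ⁻¹ : Gal(L/k)) : L →* L) y)) =
        Additive.ofMul y := by
      apply Additive.toMul.injective
      apply Units.ext
      change σ (σ⁻¹ (y : L)) = (y : L)
      exact AlgEquiv.apply_symm_apply σ (y : L)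
    have h4 := gpl_od σ W (σ⁻¹ (y : L))
    have h5 : σ (σ⁻¹ (y : L)) = (y : L) := AlgEquiv.apply_symm_apply σ (y : L)
    rw [h5] at h4
    rw [h3] at h2
    rw [h2, ← od_eq_ord, ← od_eq_ord, h4]
    rfl
  apply HeightOneSpectrum.ext
  ext x
  rcases eq_or_ne x 0 with rfl | hx
  · exact ⟨fun _ => zero_mem _, fun _ => zero_mem _⟩
  · have hx' : (x : L) ≠ 0 := by
      intro h0
      exact hx (RingOfIntegers.ext h0)
    rw [← CF.ord_pos_iff _ x (Units.mk0 (x : L) hx') rfl,
      ← CF.ord_pos_iff _ x (Units.mk0 (x : L) hx') rfl, h1]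

/-- orders of a norm -/
theorem od_norm [IsGalois k L] (v : HeightOneSpectrum (𝓞 k)) (y : L) (hy : y ≠ 0)
    (W : HeightOneSpectrum (𝓞 L)) (hW : W.under (𝓞 k) = v) :
    (W.asIdeal.ramificationIdx (𝓞 k) : ℤ) * od v (Algebra.norm k y) =
      ∑ σ : Gal(L/k), od (gpl σ W) y := by
  subst hW
  have hN : Algebra.norm k y ≠ 0 := Algebra.norm_ne_zero_iff.2 hy
  have h1 := CF.ord_incA (k := k) W (CF.nmA k L (Additive.ofMul (Units.mk0 y hy)))
  rw [CF.inc_nmA, map_sum] at h1
  have h2 : CF.ord (W.under (𝓞 k)) (CF.nmA k L (Additive.ofMul (Units.mk0 y hy))) =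
      od (W.under (𝓞 k)) (Algebra.norm k y) := by
    rw [show Algebra.norm k y = ((Units.mk0 (Algebra.norm k y) hN : kˣ) : k) from rfl, od_eq_ord]
    congr 1
    apply Additive.toMul.injective
    apply Units.ext
    rfl
  rw [h2] at h1
  rw [← h1, ← Equiv.sum_comp (Equiv.inv Gal(L/k))]
  refine Finset.sum_congr rfl fun σ _ => ?_
  have h3 := gpl_od σ W (σ⁻¹ y)
  have h4 : σ (σ⁻¹ y) = y := AlgEquiv.apply_symm_apply σ y
  rw [h4] at h3
  rw [h3]
  have hs : σ⁻¹ y ≠ 0 := by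
    intro h0
    rw [h0, map_zero] at h4
    exact hy h4.symm
  rw [show σ⁻¹ y = ((Units.mk0 (σ⁻¹ y) hs : Lˣ) : L) from rfl, od_eq_ord]
  congr 1
  apply Additive.toMul.injective
  apply Units.ext
  rfl

end

end

end Pool.Agent.Lib.MP_1a91b9_ntT.DB
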