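import Pool.Agent.Lib.MP_1a91b9_ntT.DB.Defs
import Pool.Agent.Lib.MP_1a91b9_ntT.S3.Ring

/-!
# DB: the action of `𝓞 K` on the points

PROOF (complete; stream DB of helper55). Jobs OmA (`omF_ne ... omH_quad`), OmB (`sm ...`).

All points are `0` or `mkPt x y h` (`cases_pt`); `mk_add`, `mk_dbl`, `mk_add_neg`, `neg_mk` of Defs.
* `omH`: `toFun (mkPt x y) = mkPt (om x) y` (`(om x)^3 = x^3`), `0 -> 0`. Additive: for
  `P = (x1, y1)`, `Q = (x2, y2)`: if `x1 ≠ x2` the slope `m` becomes `m / om = om^2 m`, and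
  `(om^2 m)^2 - om x1 - om x2 = om (m^2 - x1 - x2)`, the ordinate is the same. If `x1 = x2` then
  `y1 = y2` or `y2 = - y1 - 1` (`(y1 - y2)(y1 + y2 + 1) = 0`): in the second case both sides are `0`;
  in the first case with `2 y + 1 ≠ 0` the tangent slope `3 x^2/(2y+1)` becomes `om^2` times it, and
  `2 y + 1 = 0` is again the case `y = -y - 1`.
* `omH_quad`: `P + om P + om^2 P = 0`: for `x ≠ 0`: `x ≠ om x`, slope `0`, `P + om P = (om^2 x, -y-1)
  = - om^2 P` (as `-1 - om = om^2`). For `x = 0`: `om P = P`, and `P + P = -P` (slope `0`, `x = 0`,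
  ordinate `-y - 1`), here `y = 0` or `y = -1` so `2 y + 1 = ± 1 ≠ 0`.
* `sm`: every `a : 𝓞 K` is `m + n om` (`S3.exists_coords`) with unique integers `m, n` (`om` is not
  rational: `S3.latE`/`mem_PP`, or `1, om` linearly independent since the imaginary part of `embK om`
  is not `0`); `sm a P = m • P + n • omH P`. Multiplicativity from `omH_quad`:
  `(m + n om)(m' + n' om) = (m m' - n n') + (m n' + n m' - n n') om`. Construction suggestion:
  choose functions `m n : 𝓞 K → ℤ`, prove uniqueness, `map_one`, `map_mul`, `map_add` by uniqueness.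
* `pm_sm`: `f` commutes with `omH` (`f (om x) = om f x`, `AlgHom.commutes`), `map_nsmul/zsmul`.
* `three_S`: `S + S = -S`: slope `3/(2 om + 1)`, `(2 om + 1)^2 = -3`, so the square of the slope is
  `-3`, abscissa `-3 + 2 = -1`, ordinate `-(0 + om) - 1 = -om-1`. `three_Z`: slope `0`.
* `sm_S`: `β = 1 + 3 c`, `sm β S = S + sm c (3 • S) = S`.
-/

set_option autoImplicit false

namespace Pool.Agent.Lib.MP_1a91b9_ntT.DB

open NumberField IsDedekindDomain WeierstrassCurve

noncomputable section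

section
variable (F : Type*) [Field F] [Algebra K F]

theorem omF_ne_one : omF F ≠ 1 := by
  intro h
  have h1 := omF_quad F
  rw [h] at h1
  exact three_ne (F := F) (by linear_combination h1)

theorem omF_ne_zero : omF F ≠ 0 := by
  intro h
  have h1 := omF_quad F
  rw [h] at h1
  norm_num at h1

theorem sqrt_neg_three : (2 * omF F + 1) ^ 2 = -3 := by
  linear_combination 4 * omF_quad F

variable [DecidableEq F]

private theorem oma_add (f : Pt F → Pt F) (hf0 : f 0 = 0)
    (hf : ∀ (x y : F) (h : y ^ 2 + y = x ^ 3) (h' : y ^ 2 + y = (omF F * x) ^ 3),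
      f (mkPt x y h) = mkPt (omF F * x) y h') (P Q : Pt F) : f (P + Q) = f P + f Q := by
  have hc := omF_cube F
  have h0 := omF_ne_zero F
  have hcv : ∀ x y : F, y ^ 2 + y = x ^ 3 → y ^ 2 + y = (omF F * x) ^ 3 := by
    intro x y h
    linear_combination h - x ^ 3 * hc
  rcases cases_pt P with rfl | ⟨x₁, y₁, h₁, rfl⟩
  · rw [zero_add, hf0, zero_add]
  rcases cases_pt Q with rfl | ⟨x₂, y₂, h₂, rfl⟩
  · rw [add_zero, hf0, add_zero]
  rw [hf x₁ y₁ h₁ (hcv _ _ h₁), hf x₂ y₂ h₂ (hcv _ _ h₂)]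
  by_cases hx : x₁ = x₂
  · subst hx
    have hneg : y₂ = -y₁ - 1 → f (mkPt x₁ y₁ h₁ + mkPt x₁ y₂ h₂) =
        mkPt (omF F * x₁) y₁ (hcv _ _ h₁) + mkPt (omF F * x₁) y₂ (hcv _ _ h₂) := by
      intro e
      rw [mk_add_neg h₁ h₂ e, mk_add_neg _ _ e, hf0]
    have hy : (y₁ - y₂) * (y₁ + y₂ + 1) = 0 := by linear_combination h₁ - h₂
    rcases mul_eq_zero.1 hy with hy | hy
    · have hy' : y₁ = y₂ := sub_eq_zero.1 hy
      subst hy'
      by_cases h2y : 2 * y₁ + 1 = 0
      · exact hneg (by linear_combination h2y)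
      · obtain ⟨h', e⟩ := mk_dbl x₁ y₁ h₁ h2y
        obtain ⟨h'', e'⟩ := mk_dbl (omF F * x₁) y₁ (hcv _ _ h₁) h2y
        have hm : 3 * (omF F * x₁) ^ 2 / (2 * y₁ + 1)
            = omF F ^ 2 * (3 * x₁ ^ 2 / (2 * y₁ + 1)) := by ring
        rw [e, e', hf _ _ h' (hcv _ _ h'), mk_inj, hm]
        set m := 3 * x₁ ^ 2 / (2 * y₁ + 1)
        constructor
        · linear_combination (-omF F * m ^ 2) * hc
        · linear_combination (m ^ 3 * (omF F ^ 3 + 1) - 3 * m * x₁) * hc
    · exact hneg (by linear_combination hy)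
  · have hx' : omF F * x₁ ≠ omF F * x₂ := fun h => hx (mul_left_cancel₀ h0 h)
    have hd : x₁ - x₂ ≠ 0 := sub_ne_zero.2 hx
    obtain ⟨h', e⟩ := mk_add x₁ y₁ x₂ y₂ h₁ h₂ hx
    obtain ⟨h'', e'⟩ := mk_add (omF F * x₁) y₁ (omF F * x₂) y₂ (hcv _ _ h₁) (hcv _ _ h₂) hx'
    have hm : (y₁ - y₂) / (omF F * x₁ - omF F * x₂) = omF F ^ 2 * ((y₁ - y₂) / (x₁ - x₂)) := by
      have hd' : (y₁ - y₂) / (x₁ - x₂) * (x₁ - x₂) = y₁ - y₂ := div_mul_cancel₀ _ hd
      rw [← mul_sub, div_eq_iff (mul_ne_zero h0 hd)]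
      linear_combination (-omF F ^ 3) * hd' - (y₁ - y₂) * hc
    rw [e, e', hf _ _ h' (hcv _ _ h'), mk_inj, hm]
    set m := (y₁ - y₂) / (x₁ - x₂)
    constructor
    · linear_combination (-omF F * m ^ 2) * hc
    · linear_combination (m ^ 3 * (omF F ^ 3 + 1) - m * x₂ - 2 * m * x₁) * hc

/-- the automorphism `(x, y) ↦ (om x, y)` -/
def omH : Pt F →+ Pt F where
  toFun P := match P with
    | .zero => 0
    | .some x y h => mkPt (omF F * x) y (by
        have h1 := (nons_iff x y).1 h
        linear_combination h1 - x ^ 3 * omF_cube F)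
  map_zero' := rfl
  map_add' := by
    refine oma_add F (fun P => match P with
      | .zero => 0
      | .some x y h => mkPt (omF F * x) y (by
          have h1 := (nons_iff x y).1 h
          linear_combination h1 - x ^ 3 * omF_cube F)) ?_ ?_
    · rfl
    · intro x y h h'
      rfl

end

section
variable {F : Type*} [Field F] [Algebra K F] [DecidableEq F]

theorem xc_omH (P : Pt F) : xc (omH F P) = omF F * xc P := by
  rcases cases_pt P with rfl | ⟨x, y, h, rfl⟩
  · rw [map_zero, xc_zero, mul_zero]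
  · rfl

theorem yc_omH (P : Pt F) : yc (omH F P) = yc P := by
  rcases cases_pt P with rfl | ⟨x, y, h, rfl⟩
  · rw [map_zero]
  · rfl

theorem omH_quad (P : Pt F) : omH F (omH F P) + omH F P + P = 0 := by
  have hc := omF_cube F
  have hq := omF_quad F
  have h0 := omF_ne_zero F
  rcases cases_pt P with rfl | ⟨x, y, h, rfl⟩
  · rw [map_zero, map_zero, add_zero, add_zero]
  have h1 : y ^ 2 + y = (omF F * x) ^ 3 := by linear_combination h - x ^ 3 * hc
  have h2 : y ^ 2 + y = (omF F * (omF F * x)) ^ 3 := by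
    linear_combination h - x ^ 3 * (omF F ^ 3 + 1) * hc
  have e1 : omH F (mkPt x y h) = mkPt (omF F * x) y h1 := rfl
  have e2 : omH F (mkPt (omF F * x) y h1) = mkPt (omF F * (omF F * x)) y h2 := rfl
  rw [e1, e2]
  suffices hs : mkPt (omF F * (omF F * x)) y h2 + mkPt (omF F * x) y h1 = -mkPt x y h by
    rw [hs, neg_add_cancel]
  rw [neg_mk]
  by_cases hx : x = 0
  · subst hx
    have h2y : 2 * y + 1 ≠ 0 := by
      intro h3
      have h4 : (2 * y + 1) ^ 2 = 1 := by linear_combination 4 * h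
      rw [h3] at h4
      norm_num at h4
    have e3 : mkPt (omF F * (omF F * 0)) y h2 = mkPt 0 y h := by
      rw [mk_inj]
      exact ⟨by ring, rfl⟩
    have e4 : mkPt (omF F * 0) y h1 = mkPt 0 y h := by
      rw [mk_inj]
      exact ⟨by ring, rfl⟩
    obtain ⟨h', e⟩ := mk_dbl 0 y h h2y
    rw [e3, e4, e, mk_inj]
    constructor
    · simp
    · simp
  · have hne : omF F * (omF F * x) ≠ omF F * x := by
      intro h3
      have h4 := mul_left_cancel₀ h0 h3
      have h5 : (omF F - 1) * x = 0 := by linear_combination h4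
      rcases mul_eq_zero.1 h5 with h6 | h6
      · exact omF_ne_one F (sub_eq_zero.1 h6)
      · exact hx h6
    obtain ⟨h', e⟩ := mk_add (omF F * (omF F * x)) y (omF F * x) y h2 h1 hne
    rw [e, mk_inj, sub_self, zero_div]
    constructor
    · linear_combination (-x) * hq
    · ring

end

private theorem omb_unique (m n m' n' : ℤ) (h : (m : K) + n * om = m' + n' * om) :
    m = m' ∧ n = n' := by
  have hn : n = n' := by
    by_contra hne
    have h1 : ((n : K) - n') ≠ 0 := by
      intro h2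
      apply hne
      have h3 : (n : K) = n' := sub_eq_zero.1 h2
      exact_mod_cast h3
    have h2 : om = (((m' - m : ℚ) / (n - n') : ℚ) : K) := by
      push_cast
      rw [eq_div_iff h1]
      linear_combination h
    have h3 := S3.om_quad
    rw [h2] at h3
    have h4 : ((m' - m : ℚ) / (n - n')) ^ 2 + (m' - m : ℚ) / (n - n') + 1 = 0 := by
      exact_mod_cast h3
    nlinarith [sq_nonneg (2 * ((m' - m : ℚ) / (n - n')) + 1)]
  refine ⟨?_, hn⟩
  rw [hn] at h
  have h5 : (m : K) = m' := by linear_combination h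
  exact_mod_cast h5

/-- the first coordinate of an element of `𝓞 K` -/
def omb_m (a : 𝓞 K) : ℤ := (S3.exists_coords a).choose

/-- the second coordinate of an element of `𝓞 K` -/
def omb_n (a : 𝓞 K) : ℤ := (S3.exists_coords a).choose_spec.choose

private theorem omb_spec (a : 𝓞 K) : (a : K) = omb_m a + omb_n a * om :=
  (S3.exists_coords a).choose_spec.choose_spec

private theorem omb_eq (a : 𝓞 K) (m n : ℤ) (h : (a : K) = m + n * om) :
    omb_m a = m ∧ omb_n a = n :=
  omb_unique _ _ _ _ ((omb_spec a).symm.trans h)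

/-- the action of one element -/
def omb_fun (F : Type*) [Field F] [Algebra K F] [DecidableEq F] (a : 𝓞 K) :
    AddMonoid.End (Pt F) :=
  (omb_m a • (AddMonoidHom.id (Pt F)) + omb_n a • omH F : Pt F →+ Pt F)

private theorem omb_fun_apply (F : Type*) [Field F] [Algebra K F] [DecidableEq F] (a : 𝓞 K)
    (P : Pt F) : omb_fun F a P = omb_m a • P + omb_n a • omH F P := rfl

private theorem omb_fun_coords (F : Type*) [Field F] [Algebra K F] [DecidableEq F] (a : 𝓞 K)
    (m n : ℤ) (h : (a : K) = m + n * om) (P : Pt F) :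
    omb_fun F a P = m • P + n • omH F P := by
  obtain ⟨h1, h2⟩ := omb_eq a m n h
  rw [omb_fun_apply, h1, h2]

private theorem omb_coe_add (a b : 𝓞 K) : ((a + b : 𝓞 K) : K) = (a : K) + (b : K) :=
  map_add (algebraMap (𝓞 K) K) a b

private theorem omb_coe_mul (a b : 𝓞 K) : ((a * b : 𝓞 K) : K) = (a : K) * (b : K) :=
  map_mul (algebraMap (𝓞 K) K) a b

private theorem omb_fun_one (F : Type*) [Field F] [Algebra K F] [DecidableEq F] :
    omb_fun F 1 = 1 := by
  refine AddMonoidHom.ext fun P => ?_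
  have h : ((1 : 𝓞 K) : K) = ((1 : ℤ) : K) + ((0 : ℤ) : K) * om := by
    push_cast
    rw [zero_mul, add_zero]
  refine (omb_fun_coords F 1 1 0 h P).trans ?_
  rw [one_smul, zero_smul, add_zero]
  rfl

private theorem omb_fun_zero (F : Type*) [Field F] [Algebra K F] [DecidableEq F] :
    omb_fun F 0 = 0 := by
  refine AddMonoidHom.ext fun P => ?_
  have h : ((0 : 𝓞 K) : K) = ((0 : ℤ) : K) + ((0 : ℤ) : K) * om := by
    push_cast
    rw [zero_mul, add_zero]
  refine (omb_fun_coords F 0 0 0 h P).trans ?_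
  rw [zero_smul, zero_smul, add_zero]
  rfl

private theorem omb_fun_add (F : Type*) [Field F] [Algebra K F] [DecidableEq F] (a b : 𝓞 K) :
    omb_fun F (a + b) = omb_fun F a + omb_fun F b := by
  refine AddMonoidHom.ext fun P => ?_
  have h : ((a + b : 𝓞 K) : K) =
      ((omb_m a + omb_m b : ℤ) : K) + ((omb_n a + omb_n b : ℤ) : K) * om := by
    rw [omb_coe_add]
    push_cast
    linear_combination omb_spec a + omb_spec b
  refine (omb_fun_coords F (a + b) _ _ h P).trans ?_
  change _ = omb_fun F a P + omb_fun F b P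
  rw [omb_fun_apply, omb_fun_apply, add_smul, add_smul]
  abel

private theorem omb_fun_mul (F : Type*) [Field F] [Algebra K F] [DecidableEq F] (a b : 𝓞 K) :
    omb_fun F (a * b) = omb_fun F a * omb_fun F b := by
  refine AddMonoidHom.ext fun P => ?_
  have h : ((a * b : 𝓞 K) : K) =
      ((omb_m a * omb_m b - omb_n a * omb_n b : ℤ) : K) +
      ((omb_m a * omb_n b + omb_n a * omb_m b - omb_n a * omb_n b : ℤ) : K) * om := by
    rw [omb_coe_mul, omb_spec a, omb_spec b]
    push_cast
    linear_combination (omb_n a : K) * omb_n b * S3.om_quad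
  refine (omb_fun_coords F (a * b) _ _ h P).trans ?_
  change _ = omb_fun F a (omb_fun F b P)
  rw [omb_fun_apply, omb_fun_apply, map_add, map_zsmul, map_zsmul]
  have hq : omH F (omH F P) = -omH F P - P := by
    have h1 := omH_quad P
    rw [add_assoc] at h1
    rw [eq_neg_of_add_eq_zero_left h1]
    abel
  rw [hq]
  module

/-- the action of `𝓞 K` on the points -/
def sm (F : Type*) [Field F] [Algebra K F] [DecidableEq F] : 𝓞 K →+* AddMonoid.End (Pt F) where
  toFun := omb_fun F
  map_one' := omb_fun_one F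
  map_mul' := omb_fun_mul F
  map_zero' := omb_fun_zero F
  map_add' := omb_fun_add F

/-- the action in coordinates -/
theorem omb_apply {F : Type*} [Field F] [Algebra K F] [DecidableEq F] (a : 𝓞 K)
    (m n : ℤ) (h : (a : K) = m + n * om) (P : Pt F) :
    sm F a P = m • P + n • omH F P := omb_fun_coords F a m n h P

private theorem omb_pm_omH {F F' : Type*} [Field F] [Algebra K F] [DecidableEq F] [Field F']
    [Algebra K F'] [DecidableEq F'] (f : F →ₐ[K] F') (P : Pt F) :
    pm f (omH F P) = omH F' (pm f P) := by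
  have hom : f (omF F) = omF F' := by
    rw [omF, omF, AlgHom.commutes]
  rcases cases_pt P with rfl | ⟨x, y, h, rfl⟩
  · rw [map_zero, map_zero, map_zero]
  · have h1 : y ^ 2 + y = (omF F * x) ^ 3 := by linear_combination h - x ^ 3 * omF_cube F
    have e1 : omH F (mkPt x y h) = mkPt (omF F * x) y h1 := rfl
    obtain ⟨h2, e2⟩ := pm_mk f (omF F * x) y h1
    obtain ⟨h3, e3⟩ := pm_mk f x y h
    have h4 : f y ^ 2 + f y = (omF F' * f x) ^ 3 := by
      linear_combination h3 - (f x) ^ 3 * omF_cube F'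
    have e4 : omH F' (mkPt (f x) (f y) h3) = mkPt (omF F' * f x) (f y) h4 := rfl
    rw [e1, e2, e3, e4, mk_inj, map_mul, hom]
    exact ⟨rfl, rfl⟩

section
variable {F F' : Type*} [Field F] [Algebra K F] [DecidableEq F] [Field F'] [Algebra K F']
  [DecidableEq F']

theorem sm_om (P : Pt F) : sm F S3.omO P = omH F P := by
  have h : (S3.omO : K) = ((0 : ℤ) : K) + ((1 : ℤ) : K) * om := by
    rw [S3.coe_omO]
    push_cast
    ring
  rw [omb_apply _ 0 1 h, zero_smul, one_smul, zero_add]

theorem sm_int (n : ℤ) (P : Pt F) : sm F (n : 𝓞 K) P = n • P := by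
  have h : (((n : ℤ) : 𝓞 K) : K) = (n : K) + ((0 : ℤ) : K) * om := by
    push_cast
    rw [zero_mul, add_zero]
    exact map_intCast (algebraMap (𝓞 K) K) n
  rw [omb_apply _ n 0 h, zero_smul, add_zero]

theorem sm_nat (n : ℕ) (P : Pt F) : sm F (n : 𝓞 K) P = n • P := by
  have h := sm_int (F := F) (n : ℤ) P
  rw [natCast_zsmul] at h
  rw [← h]
  congr 2

theorem pm_sm (f : F →ₐ[K] F') (a : 𝓞 K) (P : Pt F) : pm f (sm F a P) = sm F' a (pm f P) := by
  obtain ⟨m, n, h⟩ := S3.exists_coords a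
  rw [omb_apply a m n h, omb_apply a m n h, map_add, map_zsmul, map_zsmul, omb_pm_omH]

theorem S_ne_zero : ptS F ≠ 0 := by
  exact mk_ne_zero _ _ _

theorem Z_ne_zero : ptZ F ≠ 0 := by
  exact mk_ne_zero _ _ _

theorem three_S : 3 • ptS F = 0 := by
  have hq := omF_quad F
  have hs := sqrt_neg_three F
  have hne : 2 * omF F + 1 ≠ 0 := by
    intro h
    rw [h] at hs
    exact three_ne (F := F) (by linear_combination hs)
  have hS : (omF F) ^ 2 + omF F = (-1) ^ 3 := by linear_combination hq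
  obtain ⟨h', e⟩ := mk_dbl (-1) (omF F) hS hne
  have hm : 3 * (-1 : F) ^ 2 / (2 * omF F + 1) * (2 * omF F + 1) = 3 := by
    rw [div_mul_cancel₀ _ hne]
    ring
  have hm2 : (3 * (-1 : F) ^ 2 / (2 * omF F + 1)) ^ 2 = -3 := by
    have h3 : (3 * (-1 : F) ^ 2 / (2 * omF F + 1)) ^ 2 * (-3) = 9 := by
      rw [← hs, ← mul_pow, hm]
      norm_num
    have h4 : (-3 : F) ≠ 0 := neg_ne_zero.2 three_ne
    refine mul_right_cancel₀ h4 ?_
    rw [h3]
    norm_num
  have hneg : ptS F + ptS F = -ptS F := by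
    change mkPt (-1) (omF F) hS + mkPt (-1) (omF F) hS = -mkPt (-1) (omF F) hS
    rw [e, neg_mk, mk_inj, hm2]
    constructor
    · ring
    · ring
  have h3 : 3 • ptS F = ptS F + ptS F + ptS F := by
    rw [succ_nsmul, two_nsmul]
  rw [h3, hneg, neg_add_cancel]

theorem three_Z : 3 • ptZ F = 0 := by
  have hZ : (0 : F) ^ 2 + 0 = 0 ^ 3 := by ring
  have hne : 2 * (0 : F) + 1 ≠ 0 := by
    rw [mul_zero, zero_add]
    exact one_ne_zero
  obtain ⟨h', e⟩ := mk_dbl (0 : F) 0 hZ hne
  have hneg : ptZ F + ptZ F = -ptZ F := by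
    change mkPt 0 0 hZ + mkPt 0 0 hZ = -mkPt 0 0 hZ
    rw [e, neg_mk, mk_inj]
    constructor
    · simp
    · simp
  have h3 : 3 • ptZ F = ptZ F + ptZ F + ptZ F := by
    rw [succ_nsmul, two_nsmul]
  rw [h3, hneg, neg_add_cancel]

theorem omH_S : omH F (ptS F) ≠ ptS F ∧ omH F (omH F (ptS F)) ≠ ptS F := by
  have hq := omF_quad F
  constructor
  · intro h
    have h1 := congrArg xc h
    rw [xc_omH] at h1
    have h2 : omF F * (-1) = -1 := h1
    exact omF_ne_one F (by linear_combination -h2)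
  · intro h
    have h1 := congrArg xc h
    rw [xc_omH, xc_omH] at h1
    have h2 : omF F * (omF F * (-1)) = -1 := h1
    exact three_ne (F := F) (by linear_combination (1 - omF F) * h2 + (2 - omF F) * hq)

theorem sm_S (β : 𝓞 K) (hβ : (3 : 𝓞 K) ∣ β - 1) : sm F β (ptS F) = ptS F := by
  obtain ⟨c, hc⟩ := hβ
  have h1 : β = 1 + c * ((3 : ℕ) : 𝓞 K) := by
    push_cast
    linear_combination hc
  rw [h1, map_add, map_mul, map_one]
  change ptS F + sm F c (sm F ((3 : ℕ) : 𝓞 K) (ptS F)) = ptS F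
  rw [sm_nat, three_S, map_zero, add_zero]

end

end

end Pool.Agent.Lib.MP_1a91b9_ntT.DB
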