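import Pool.Agent.Lib.MP_1a91b9_ntT.DB.Dist

/-!
# DB: points with annihilator `(β)`

PROOF (complete; stream DB of helper55). Jobs T2A (`ord_of_prime`, `Ord.*`, `ord_mul_iff`,
`exists_ord_C`, `ord_cases`), T2B (`exists_isRes`, `isRes_deg1`, `dist_deg1`).

`ord_of_prime`: the annihilator `{c | sm c R = 0}` is an ideal containing the maximal ideal `(β)` and not
`1`. `Ord.map`: `pm_sm`, `pm_inj`. `Ord.ga`: the same for an automorphism. `Ord.smul`: `c` coprime to `β`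
(`x c + y β = 1`). `exists_ord_C`: `u(1/β)`, `u(c/β) = 0` iff `c/β ∈ Λ` iff `β ∣ c` (`S3.mem_PP_iff`).
`ord_cases`: over `ℂ`: `R = u(c/β)`, `c` coprime to `β` (`Ord`; `𝓞 K` is a principal ideal domain; or:
the map `d ↦ sm d R` from `𝓞 K/(β)` to `{Q | sm β Q = 0} = {u(d/β)}` is injective between finite sets of
the same cardinality), `Q = u(d/β)`. Over `F`: the images under `pm f`.
`exists_isRes`: `𝓞 K/(β)` is finite with `absNorm` elements: choose representatives of the nonzero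
classes (`Ideal.Quotient.mk` surjective, `Ideal.absNorm_apply`, `Submodule.cardQuot_apply`).
`isRes_deg1`: `Deg1.exists_int`, `Deg1.dvd_int_iff`. `dist_deg1`: `dist_two` with this residue system,
`sm a R = a • R` for `a` a natural number (`sm_nat`), and `Finset.range p` = `0` and `Ico 1 p`.
-/

set_option autoImplicit false

namespace Pool.Agent.Lib.MP_1a91b9_ntT.DB

open NumberField IsDedekindDomain WeierstrassCurve S3

section
variable {F F' : Type*} [Field F] [Algebra K F] [DecidableEq F] [Field F'] [Algebra K F']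
  [DecidableEq F'] {β : 𝓞 K}

private theorem t2a_pid : IsPrincipalIdealRing (𝓞 K) := IsCyclotomicExtension.Rat.three_pid K

private theorem t2a_mul (a b : 𝓞 K) (R : Pt F) : sm F (a * b) R = sm F a (sm F b R) := by
  rw [map_mul]
  rfl

private theorem t2a_add (a b : 𝓞 K) (R : Pt F) : sm F (a + b) R = sm F a R + sm F b R := by
  rw [map_add]
  rfl

private theorem t2a_sub (a b : 𝓞 K) (R : Pt F) : sm F (a - b) R = sm F a R - sm F b R := by
  rw [map_sub]
  rfl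

private theorem t2a_one (R : Pt F) : sm F 1 R = R := by
  rw [map_one]
  rfl

/-- a combination which is `1` -/
private theorem t2a_comb {R : Pt F} {x c y : 𝓞 K} (h : x * c + y * β = 1)
    (hR : sm F β R = 0) : sm F x (sm F c R) = R := by
  have h1 := t2a_one R
  rw [← h, t2a_add, t2a_mul, t2a_mul, hR, map_zero, add_zero] at h1
  exact h1

theorem ord_of_prime (hβ : Prime β) {R : Pt F} (hR : sm F β R = 0) (hR0 : R ≠ 0) : Ord β R := by
  have := t2a_pid
  intro c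
  constructor
  · intro hc
    by_contra hd
    obtain ⟨x, y, hxy⟩ := (hβ.irreducible.coprime_iff_not_dvd.2 hd).symm
    have h1 := t2a_comb hxy hR
    rw [hc, map_zero] at h1
    exact hR0 h1.symm
  · rintro ⟨d, rfl⟩
    rw [mul_comm, t2a_mul, hR, map_zero]

theorem Ord.sm_eq_iff {R : Pt F} (hR : Ord β R) (c d : 𝓞 K) :
    sm F c R = sm F d R ↔ β ∣ c - d := by
  rw [← hR (c - d), t2a_sub, sub_eq_zero]

theorem Ord.map (f : F →ₐ[K] F') {R : Pt F} : Ord β (pm f R) ↔ Ord β R := by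
  refine forall_congr' fun c => ?_
  rw [← pm_sm, map_eq_zero_iff _ (pm_inj f)]

theorem Ord.ga {k : Type*} [Field k] [Algebra K k] [Algebra k F] [IsScalarTower K k F]
    (σ : F ≃ₐ[k] F) {R : Pt F} (hR : Ord β R) : Ord β (ga σ R) :=
  (Ord.map ((σ : F →ₐ[k] F).restrictScalars K)).2 hR

theorem Ord.smul {R : Pt F} (hR : Ord β R) {c : 𝓞 K} (hc : IsCoprime c β) :
    Ord β (sm F c R) := by
  intro d
  rw [← t2a_mul, hR]
  exact ⟨fun h => hc.symm.dvd_of_dvd_mul_right h, fun h => Dvd.dvd.mul_right h c⟩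

/-- the annihilator of a multiple -/
theorem Ord.coprime {R : Pt F} (hR : Ord β R) (hβ0 : β ≠ 0) {c : 𝓞 K} (hc : Ord β (sm F c R)) :
    IsCoprime c β := by
  have := t2a_pid
  obtain ⟨a, b, hab⟩ := IsBezout.gcd_eq_sum c β
  obtain ⟨c', hc'⟩ := IsBezout.gcd_dvd_left c β
  obtain ⟨β', hβ'⟩ := IsBezout.gcd_dvd_right c β
  set g := IsBezout.gcd c β
  have h1 : β ∣ β' := by
    rw [← hc β', ← t2a_mul, hR]
    refine ⟨c', ?_⟩
    calc β' * c = β' * (g * c') := by rw [← hc']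
      _ = g * β' * c' := by ring
      _ = β * c' := by rw [← hβ']
  obtain ⟨t, ht⟩ := h1
  have hβ'0 : β' ≠ 0 := by
    intro h0
    rw [h0, mul_zero] at hβ'
    exact hβ0 hβ'
  have h2 : g * t = 1 := by
    apply mul_left_cancel₀ hβ'0
    calc β' * (g * t) = g * β' * t := by ring
      _ = β * t := by rw [← hβ']
      _ = β' * 1 := by rw [← ht, mul_one]
  exact ⟨t * a, t * b, by linear_combination t * hab + h2⟩

end

private theorem t2a_emb {β : 𝓞 K} (hβ : β ≠ 0) : embK (β : K) ≠ 0 := by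
  intro h0
  apply hβ
  apply RingOfIntegers.ext
  apply embK.toRingHom.injective
  change embK (β : K) = embK 0
  rw [h0, map_zero]

/-- the point `u (1 / β)` -/
private theorem t2a_ord {β : 𝓞 K} (hβ : β ≠ 0) [DecidableEq ℂ] (u : ℂ →+ Pt ℂ)
    (h0 : ∀ z, u z = 0 ↔ z ∈ PP.lattice)
    (h1 : ∀ (a : 𝓞 K) (z : ℂ), u (embK (a : K) * z) = sm ℂ a (u z)) :
    Ord β (u (1 / embK (β : K))) := by
  have hb := t2a_emb hβ
  intro c
  rw [← h1, h0, mem_PP_iff]
  constructor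
  · rintro ⟨a, ha⟩
    refine ⟨a, ?_⟩
    apply RingOfIntegers.ext
    apply embK.toRingHom.injective
    change embK (c : K) = embK ((β : K) * (a : K))
    rw [map_mul, ha]
    field_simp
  · rintro ⟨a, rfl⟩
    refine ⟨a, ?_⟩
    change embK (a : K) = embK ((β : K) * (a : K)) * (1 / embK (β : K))
    rw [map_mul]
    field_simp

theorem exists_ord_C [DecidableEq ℂ] {β : 𝓞 K} (hβ : β ≠ 0) : ∃ R : Pt ℂ, Ord β R := by
  obtain ⟨u, -, h0, -, -, h1⟩ := exists_uni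
  exact ⟨_, t2a_ord hβ u h0 h1⟩

theorem ord_cases {F : Type*} [Field F] [Algebra K F] [DecidableEq F] (f : F →ₐ[K] ℂ)
    {β : 𝓞 K} (hβ : β ≠ 0) {R Q : Pt F} (hR : Ord β R) (hQ : sm F β Q = 0) :
    ∃ c : 𝓞 K, Q = sm F c R := by
  classical
  obtain ⟨u, hs, h0, -, -, h1⟩ := exists_uni
  have hb := t2a_emb hβ
  have hu := t2a_ord hβ u h0 h1
  set U : Pt ℂ := u (1 / embK (β : K)) with hU
  have key : ∀ P : Pt ℂ, sm ℂ β P = 0 → ∃ a : 𝓞 K, P = sm ℂ a U := by
    intro P hP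
    obtain ⟨z, rfl⟩ := hs P
    rw [← h1, h0, mem_PP_iff] at hP
    obtain ⟨a, ha⟩ := hP
    refine ⟨a, ?_⟩
    rw [hU, ← h1, ha]
    congr 1
    field_simp
  have hR' : Ord β (pm f R) := (Ord.map f).2 hR
  obtain ⟨a, ha⟩ := key (pm f R) ((hR' β).2 dvd_rfl)
  obtain ⟨b, hb'⟩ := key (pm f Q) (by rw [← pm_sm, hQ, map_zero])
  rw [ha] at hR'
  obtain ⟨x, y, hxy⟩ := hu.coprime hβ hR'
  have h2 := t2a_comb hxy ((hu β).2 dvd_rfl)
  refine ⟨b * x, pm_inj f ?_⟩
  rw [pm_sm, hb', ha, t2a_mul, h2]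

theorem exists_isRes {β : 𝓞 K} (hβ : β ≠ 0) :
    ∃ T : Finset (𝓞 K), IsRes β T ∧ T.card + 1 = Ideal.absNorm (Ideal.span {β}) := by
  classical
  have hI : Ideal.span {β} ≠ ⊥ := by
    rw [Ne, Ideal.span_singleton_eq_bot]
    exact hβ
  have hfin : Finite (𝓞 K ⧸ Ideal.span {β}) := Ideal.finiteQuotientOfFreeOfNeBot _ hI
  have : Fintype (𝓞 K ⧸ Ideal.span {β}) := Fintype.ofFinite _
  set r : 𝓞 K ⧸ Ideal.span {β} → 𝓞 K := Function.surjInv Ideal.Quotient.mk_surjective with hr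
  have hmk : ∀ q, Ideal.Quotient.mk (Ideal.span {β}) (r q) = q :=
    Function.surjInv_eq Ideal.Quotient.mk_surjective
  have hinj : Function.Injective r := by
    intro q q' h
    rw [← hmk q, h, hmk q']
  have hd : ∀ c : 𝓞 K, Ideal.Quotient.mk (Ideal.span {β}) c = 0 ↔ β ∣ c := by
    intro c
    rw [Ideal.Quotient.eq_zero_iff_mem, Ideal.mem_span_singleton]
  refine ⟨(Finset.univ.erase 0).image r, ⟨?_, ?_, ?_⟩, ?_⟩
  · intro a ha hb
    obtain ⟨q, hq, rfl⟩ := Finset.mem_image.1 ha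
    rw [← hd, hmk] at hb
    exact (Finset.mem_erase.1 hq).1 hb
  · intro c hc
    refine ⟨r (Ideal.Quotient.mk (Ideal.span {β}) c), Finset.mem_image.2
      ⟨_, Finset.mem_erase.2 ⟨fun h => hc ((hd c).1 h), Finset.mem_univ _⟩, rfl⟩, ?_⟩
    rw [← hd, map_sub, hmk, sub_self]
  · intro a ha b hb h
    obtain ⟨q, hq, rfl⟩ := Finset.mem_image.1 ha
    obtain ⟨q', hq', rfl⟩ := Finset.mem_image.1 hb
    rw [← hd, map_sub, hmk, hmk, sub_eq_zero] at h
    rw [h]
  · rw [Finset.card_image_of_injective _ hinj, Finset.card_erase_of_mem (Finset.mem_univ _),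
      Ideal.absNorm_apply, Submodule.cardQuot_apply, Nat.card_eq_fintype_card, Finset.card_univ]
    have : 0 < Fintype.card (𝓞 K ⧸ Ideal.span {β}) := Fintype.card_pos
    omega

theorem isRes_deg1 {β : 𝓞 K} {p : ℕ} (h : Deg1 β p) :
    ∃ T : Finset (𝓞 K), IsRes β T ∧ (∀ a ∈ T, ∃ n ∈ Finset.Ico 1 p, a = (n : 𝓞 K)) ∧
      ∀ n ∈ Finset.Ico 1 p, (n : 𝓞 K) ∈ T := by
  classical
  refine ⟨(Finset.Ico 1 p).image (fun n : ℕ => (n : 𝓞 K)), ⟨?_, ?_, ?_⟩, ?_, ?_⟩
  · intro a ha hb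
    obtain ⟨n, hn, rfl⟩ := Finset.mem_image.1 ha
    have h1 := (h.dvd_int_iff (n : ℤ)).1 (by simpa using hb)
    rw [Int.natCast_dvd_natCast] at h1
    obtain ⟨h2, h3⟩ := Finset.mem_Ico.1 hn
    have := Nat.le_of_dvd (by omega) h1
    omega
  · intro c hc
    obtain ⟨k, hk, hck⟩ := h.exists_int c
    refine ⟨(k : 𝓞 K), Finset.mem_image.2 ⟨k, Finset.mem_Ico.2 ⟨?_, hk⟩, rfl⟩, hck⟩
    rcases Nat.eq_zero_or_pos k with h0 | h0
    · exfalso
      rw [h0, Nat.cast_zero, sub_zero] at hck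
      exact hc hck
    · exact h0
  · intro a ha b hb hab
    obtain ⟨n, hn, rfl⟩ := Finset.mem_image.1 ha
    obtain ⟨m, hm, rfl⟩ := Finset.mem_image.1 hb
    have h1 := (h.dvd_int_iff ((n : ℤ) - m)).1 (by push_cast; exact hab)
    obtain ⟨h2, h3⟩ := Finset.mem_Ico.1 hn
    obtain ⟨h4, h5⟩ := Finset.mem_Ico.1 hm
    have h6 : (n : ℤ) - m = 0 := Int.eq_zero_of_abs_lt_dvd h1 (by rw [abs_lt]; omega)
    have h7 : n = m := by omega
    rw [h7]
  · intro a ha
    obtain ⟨n, hn, rfl⟩ := Finset.mem_image.1 ha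
    exact ⟨n, hn, rfl⟩
  · intro n hn
    exact Finset.mem_image.2 ⟨n, hn, rfl⟩

/-- the distribution relation for a prime element of degree one -/
theorem dist_deg1 {F : Type*} [Field F] [Algebra K F] [DecidableEq F] (f : F →ₐ[K] ℂ)
    {β : 𝓞 K} {p : ℕ} (h : Deg1 β p) {R P : Pt F} (hR : sm F β R = 0) (hR0 : R ≠ 0)
    (hP : sm F β P ≠ 0) (hP0 : yc (sm F β P) ≠ 0) :
    yc (sm F β P) * ∏ a ∈ Finset.Ico 1 p, yc (ptS F + a • R) =
      yc P * ∏ a ∈ Finset.Ico 1 p, yc (P + a • R) := by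
  classical
  obtain ⟨T, hT, hT1, hT2⟩ := isRes_deg1 h
  have hTe : T = (Finset.Ico 1 p).image (fun n : ℕ => (n : 𝓞 K)) := by
    ext a
    rw [Finset.mem_image]
    constructor
    · intro ha
      obtain ⟨n, hn, e⟩ := hT1 a ha
      exact ⟨n, hn, e.symm⟩
    · rintro ⟨n, hn, rfl⟩
      exact hT2 n hn
  have hprod : ∀ g : 𝓞 K → F, ∏ a ∈ T, g a = ∏ n ∈ Finset.Ico 1 p, g (n : 𝓞 K) := by
    intro g
    rw [hTe, Finset.prod_image]
    intro n _ m _ e
    exact Nat.cast_injective e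
  have key := dist_two f h.isPrime.ne_zero h.one hT (ord_of_prime h.isPrime hR hR0) hP hP0
  rw [hprod, hprod] at key
  simpa only [sm_nat] using key

end Pool.Agent.Lib.MP_1a91b9_ntT.DB
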