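import Pool.Agent.Lib.MP_1a91b9_ntT.DB.ValE
import Pool.Agent.Lib.MP_1a91b9_ntT.DB.Tor2
import Pool.Agent.Lib.MP_1a91b9_ntT.DB.Od

/-!
# DB: ramification in the field of the points killed by a prime element

PROOF (complete; stream DB of helper55). Jobs RaA (`ga_*`, `gal_sm`, `exists_emb`), RaB (`yS_unit`,
`ker_of_val`, `not_ker_of_val`, `v_tc`), RaC (`res_field`, `card_gal_le`, `ram`), RaD (`nos`, `unram`).

RaA. `ga_sm`, `ga_S`: `pm_sm`, `pm_S`. `yc_ga`, `xc_ga`: `xc_pm`. `ga_mul`: `Affine.Point.map_map` or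
`cases_pt`. `exists_emb`: `IsAlgClosed.lift` (`F` is algebraic over `K`: finite over `ℚ`). `gal_sm`:
`sm β (ga σ R) = 0`, `ord_cases` with an embedding, `Ord.ga`, `Ord.coprime`.

RaB. Let `q` be the norm of `β` and `n = q` as an integer: `β ∣ q` so `q • R = 0` (`Ideal.absNorm_mem`),
`q` is prime to `3` (`q = N(β) = 1` modulo `3`: `β = m + n om`, `3 ∣ m - 1`, `3 ∣ n`, `q = m^2 - m n + n^2`,
`S3.card_quot`). `yS_unit` is `y_unit` for `Q = sm c R ≠ 0`.
`dist_one`: `β^3 Π_{a ∈ T} y(sm a R) = Π y(S + sm a R)` has valuation `1`.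
`ker_of_val` (`v β < 1`): some factor has `v (y(sm a R)) > 1`, so `sm a R` is in the kernel
(`ker_iff_y`), and `R = sm b (sm a R)` with `b a = 1` modulo `β` (`β ∤ a`, `β` prime, `𝓞 K/(β)` a field)
is in the kernel by `ker_sm`.
`not_ker_of_val` (`v β = 1`): if `R` is in the kernel all `sm a R` (`a ∈ T`, nonzero) are, each
`v (y(sm a R)) > 1` and `T` is nonempty (`q ≥ 2`): the product has valuation `> 1`, contradiction.
`v_tc` (`v β < 1`): `v (t(sm a R)) ≤ v (t R)` (`ker_sm_le`), and `≥` because `R = sm b (sm a R)`. So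
`v (y(sm a R)) v(t R)^3 = 1` (`ker_tc`), `v β^3 = v (t R)^(3 (q - 1))`, `T.card + 1 = q`
(`exists_isRes`); cubes are injective in a linearly ordered group with zero (`pow_left_injective`-like).

RaC. `res_field`: inertia degree one: the residue field of `W` is that of the place below (`exists_val_
lt_of_int` for integers, `Ideal.inertiaDeg` = finrank of the residue extension = 1, surjectivity of the
algebra map). `card_gal_le`: `σ ↦ c mod β` is injective into the nonzero classes: `Gal(F/k)` embeds in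
`T` (`gal_sm`, `hgen`: if `ga σ R = ga τ R` then `τ⁻¹ σ` fixes `R`), so at most `q - 1` elements.
`ram`: let `W` be above `v`; `od W β = e * od v β = e` (`od_map`; `algebraMap K F = algebraMap k F ∘ ..`),
`(q - 1) od W (t R) = od W β = e` (`v_tc` in additive form, `val_eq`), `od W (t R) ≥ 1` (`ker_tc`), so
`e ≥ q - 1 ≥ card Gal = [F : k] ≥ e` (`ncard * e * f = [F:k]`,
`Ideal.ncard_primesOver_mul_ramificationIdxIn_mul_inertiaDegIn` as in CF/OrdExt). All equalities: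
`f = 1`, one place, `od W (t R) = 1`, and the injection `Gal → T` is bijective.

RaD. `nos`: `R` and `ga σ R` are not in the kernel (`not_ker_of_val`, `Ord.ga`); `gpl σ W = W` (`hσ`), for
`a` integral at `W` `v (σ a - a) < 1` (approximate by `x : 𝓞 F`, `exists_val_lt_of_int`, `gpl_val`). So the
coordinates of `R` and `ga σ R` are congruent, `red_inj`: `R - ga σ R = sm (1 - c) R` is in the kernel; if
it is not `0` it is again of annihilator `(β)` (`β` prime), contradiction with `not_ker_of_val`.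
`unram`: `Ideal.card_inertia_eq_ramificationIdxIn` (see CF/Frob header for the instances): the inertia
group is trivial by `nos` and `hgen`.
-/

set_option autoImplicit false

namespace Pool.Agent.Lib.MP_1a91b9_ntT.DB

open NumberField IsDedekindDomain WeierstrassCurve

universe u

section
variable {k F : Type u} [Field k] [Algebra K k] [Field F] [Algebra K F] [Algebra k F]
  [IsScalarTower K k F] [DecidableEq F] {β : 𝓞 K}

theorem ga_sm (σ : F ≃ₐ[k] F) (a : 𝓞 K) (P : Pt F) : ga σ (sm F a P) = sm F a (ga σ P) :=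
  pm_sm _ a P

theorem ga_S (σ : F ≃ₐ[k] F) : ga σ (ptS F) = ptS F :=
  pm_S _

theorem xc_ga (σ : F ≃ₐ[k] F) (P : Pt F) : xc (ga σ P) = σ (xc P) :=
  xc_pm _ P

theorem yc_ga (σ : F ≃ₐ[k] F) (P : Pt F) : yc (ga σ P) = σ (yc P) :=
  yc_pm _ P

theorem ga_mul (σ τ : F ≃ₐ[k] F) (P : Pt F) : ga (σ * τ) P = ga σ (ga τ P) := by
  rcases cases_pt P with rfl | ⟨x, y, h, rfl⟩
  · rw [map_zero, map_zero, map_zero]
  · rfl

theorem ga_one (P : Pt F) : ga (1 : F ≃ₐ[k] F) P = P := by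
  rcases cases_pt P with rfl | ⟨x, y, h, rfl⟩
  · rw [map_zero]
  · rfl

end

theorem exists_emb (F : Type u) [Field F] [NumberField F] [Algebra K F] :
    Nonempty (F →ₐ[K] ℂ) := by
  have h : Algebra.IsAlgebraic K F := Algebra.IsAlgebraic.tower_top (K := ℚ) K
  exact ⟨IsAlgClosed.lift⟩

section
variable {k F : Type u} [Field k] [NumberField k] [Algebra K k] [Field F] [NumberField F]
  [Algebra K F] [Algebra k F] [IsScalarTower K k F] [DecidableEq F] {β : 𝓞 K}

theorem gal_sm (hβ : β ≠ 0) {R : Pt F} (hR : Ord β R) (σ : Gal(F/k)) :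
    ∃ c : 𝓞 K, IsCoprime c β ∧ ga σ R = sm F c R := by
  obtain ⟨f⟩ := exists_emb F
  have h1 : sm F β (ga σ R) = 0 := by
    rw [← ga_sm, (hR β).2 dvd_rfl, map_zero]
  obtain ⟨c, hc⟩ := ord_cases f hβ hR h1
  refine ⟨c, hR.coprime hβ ?_, hc⟩
  rw [← hc]
  exact hR.ga σ

end

private theorem rab_coprime {β : 𝓞 K} (hβ1 : (3 : 𝓞 K) ∣ β - 1) :
    (Ideal.absNorm (Ideal.span {β})).Coprime 3 := by
  obtain ⟨d, hd⟩ := hβ1
  obtain ⟨m, n, hmn⟩ := S3.exists_coords d
  have h1 : (β : K) = ((1 + 3 * m : ℤ) : K) + ((3 * n : ℤ) : K) * om := by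
    have h2 : (β : K) - 1 = 3 * (d : K) := by
      have h3 := congrArg (algebraMap (𝓞 K) K) hd
      rw [map_sub, map_one, map_mul, map_ofNat] at h3
      exact h3
    rw [hmn] at h2
    push_cast
    linear_combination h2
  have h2 : embK (β : K) = ((1 + 3 * m : ℤ) : ℂ) + ((3 * n : ℤ) : ℂ) * zt := by
    rw [h1, map_add, map_mul, map_intCast, map_intCast, embK_om]
  have h3 := S3.card_quot β h2
  have h4 : Ideal.absNorm (Ideal.span {β}) = Nat.card (𝓞 K ⧸ Ideal.span {β}) := rfl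
  rw [← h4] at h3
  rw [Nat.coprime_comm, Nat.Prime.coprime_iff_not_dvd Nat.prime_three]
  intro h5
  have h6 : (3 : ℤ) ∣ ((Ideal.absNorm (Ideal.span {β}) : ℕ) : ℤ) := by exact_mod_cast h5
  rw [h3] at h6
  have h7 : (1 + 3 * m) ^ 2 - (1 + 3 * m) * (3 * n) + (3 * n) ^ 2 =
      3 * (2 * m + 3 * m ^ 2 - n - 3 * m * n + 3 * n ^ 2) + 1 := by ring
  rw [h7] at h6
  omega

private theorem rab_inv {F : Type u} [Field F] [Algebra K F] [DecidableEq F] {β : 𝓞 K}
    (hβ : Prime β) {R : Pt F} (hR : Ord β R) {a : 𝓞 K} (ha : ¬ β ∣ a) :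
    ∃ b : 𝓞 K, sm F b (sm F a R) = R := by
  have h1 : (Ideal.span {β}).IsPrime := (Ideal.span_singleton_prime hβ.ne_zero).2 hβ
  have h2 : (Ideal.span {β}).IsMaximal :=
    h1.isMaximal (by rw [Ne, Ideal.span_singleton_eq_bot]; exact hβ.ne_zero)
  obtain ⟨y, i, hi, hyi⟩ := h2.exists_inv (x := a) (by rwa [Ideal.mem_span_singleton])
  rw [Ideal.mem_span_singleton] at hi
  refine ⟨y, ?_⟩
  have h3 : sm F (y * a + i) R = sm F y (sm F a R) + sm F i R := by
    rw [map_add, map_mul]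
    rfl
  rw [hyi, map_one, (hR i).2 hi, add_zero] at h3
  exact h3.symm

private theorem rab_norm_smul {F : Type u} [Field F] [Algebra K F] [DecidableEq F] {β : 𝓞 K}
    {R : Pt F} (hR : Ord β R) (c : 𝓞 K) :
    Ideal.absNorm (Ideal.span {β}) • sm F c R = 0 := by
  have h1 : β ∣ ((Ideal.absNorm (Ideal.span {β}) : ℕ) : 𝓞 K) :=
    Ideal.mem_span_singleton.1 (Ideal.absNorm_mem _)
  rw [← sm_nat]
  have h2 : sm F ((Ideal.absNorm (Ideal.span {β}) : ℕ) : 𝓞 K) (sm F c R) =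
      sm F (((Ideal.absNorm (Ideal.span {β}) : ℕ) : 𝓞 K) * c) R := by
    rw [map_mul]
    rfl
  rw [h2]
  exact (hR _).2 (h1.mul_right c)

section
variable {F : Type u} [Field F] [NumberField F] [Algebra K F] [DecidableEq F] {β : 𝓞 K}
  {Γ : Type*} [LinearOrderedCommGroupWithZero Γ] (v : Valuation F Γ)
  (hβ : Prime β) (hβ1 : (3 : 𝓞 K) ∣ β - 1) {R : Pt F} (hR : Ord β R)
include hβ hβ1 hR

theorem yS_unit {c : 𝓞 K} (hc : ¬ β ∣ c) : v (yc (ptS F + sm F c R)) = 1 :=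
  y_unit v (rab_coprime hβ1) (rab_norm_smul hR c) (fun h => hc ((hR c).1 h))

private theorem rab_dist : ∃ T : Finset (𝓞 K), IsRes β T ∧
    T.card + 1 = Ideal.absNorm (Ideal.span {β}) ∧
    v (algebraMap K F (β : K)) ^ 3 * ∏ a ∈ T, v (yc (sm F a R)) = 1 := by
  obtain ⟨T, hT, hc⟩ := exists_isRes hβ.ne_zero
  obtain ⟨f⟩ := exists_emb F
  refine ⟨T, hT, hc, ?_⟩
  have h1 := congrArg v (dist_one f hβ.ne_zero hβ1 hT hR)
  rw [map_mul, map_pow, map_prod, map_prod] at h1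
  rw [h1]
  exact Finset.prod_eq_one fun a ha => yS_unit v hβ hβ1 hR (hT.nz a ha)

theorem ker_of_val (hv : v (algebraMap K F (β : K)) < 1) : Ker v R := by
  obtain ⟨T, hT, -, h1⟩ := rab_dist v hβ hβ1 hR
  have h2 : ∃ a ∈ T, 1 < v (yc (sm F a R)) := by
    by_contra hc
    push Not at hc
    have h3 : ∏ a ∈ T, v (yc (sm F a R)) ≤ 1 := Finset.prod_le_one' hc
    have h4 : v (algebraMap K F (β : K)) ^ 3 < 1 := pow_lt_one₀ zero_le hv (by norm_num)
    have h5 : v (algebraMap K F (β : K)) ^ 3 * ∏ a ∈ T, v (yc (sm F a R)) < 1 :=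
      lt_of_le_of_lt (mul_le_of_le_one_right' h3) h4
    exact absurd h1 h5.ne
  obtain ⟨a, ha, h3⟩ := h2
  have h4 : sm F a R ≠ 0 := fun h => hT.nz a ha ((hR a).1 h)
  have h5 : Ker v (sm F a R) := Or.inr ((ker_iff_y v h4).2 h3)
  obtain ⟨b, hb⟩ := rab_inv hβ hR (hT.nz a ha)
  rw [← hb]
  exact ker_sm v h5 b

theorem not_ker_of_val (hv : v (algebraMap K F (β : K)) = 1) : ¬ Ker v R := by
  intro hk
  obtain ⟨T, hT, -, h1⟩ := rab_dist v hβ hβ1 hR
  rw [hv, one_pow, one_mul] at h1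
  have h2 : ∀ a ∈ T, 1 < v (yc (sm F a R)) := by
    intro a ha
    have h4 : sm F a R ≠ 0 := fun h => hT.nz a ha ((hR a).1 h)
    have h5 : Ker v (sm F a R) := ker_sm v hk a
    exact (ker_iff_y v h4).1 (h5.resolve_left h4)
  obtain ⟨a, ha, -⟩ := hT.ex 1 (fun h => hβ.not_isUnit (isUnit_of_dvd_one h))
  classical
  have h3 : v (yc (sm F a R)) ≤ 1 := by
    have h4 : 1 ≤ ∏ b ∈ T.erase a, v (yc (sm F b R)) :=
      Finset.one_le_prod' fun b hb => (h2 b (Finset.mem_of_mem_erase hb)).le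
    calc v (yc (sm F a R)) ≤ v (yc (sm F a R)) * ∏ b ∈ T.erase a, v (yc (sm F b R)) :=
          le_mul_of_one_le_right' h4
      _ = 1 := by rw [Finset.mul_prod_erase T (fun b => v (yc (sm F b R))) ha, h1]
  exact absurd (h2 a ha) (not_lt.2 h3)

theorem v_tc (hv : v (algebraMap K F (β : K)) < 1) :
    v (tc R) ^ (Ideal.absNorm (Ideal.span {β}) - 1) = v (algebraMap K F (β : K)) := by
  have hk := ker_of_val v hβ hβ1 hR hv
  obtain ⟨T, hT, hc, h1⟩ := rab_dist v hβ hβ1 hR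
  have h2 : ∀ a ∈ T, v (yc (sm F a R)) * v (tc R) ^ 3 = 1 := by
    intro a ha
    have h4 : sm F a R ≠ 0 := fun h => hT.nz a ha ((hR a).1 h)
    have h5 : Ker v (sm F a R) := ker_sm v hk a
    have h6 : v (tc (sm F a R)) = v (tc R) := by
      apply le_antisymm (ker_sm_le v hk a)
      obtain ⟨b, hb⟩ := rab_inv hβ hR (hT.nz a ha)
      have h7 := ker_sm_le v h5 b
      rwa [hb] at h7
    rw [← h6]
    exact (ker_tc v h5 h4).2.2.2
  have h3 : (∏ a ∈ T, v (yc (sm F a R))) * (v (tc R) ^ 3) ^ T.card = 1 := by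
    rw [← Finset.prod_const, ← Finset.prod_mul_distrib]
    exact Finset.prod_eq_one h2
  have h4 : v (algebraMap K F (β : K)) ^ 3 = (v (tc R) ^ T.card) ^ 3 := by
    calc v (algebraMap K F (β : K)) ^ 3 = v (algebraMap K F (β : K)) ^ 3 *
          ((∏ a ∈ T, v (yc (sm F a R))) * (v (tc R) ^ 3) ^ T.card) := by rw [h3, mul_one]
      _ = (v (algebraMap K F (β : K)) ^ 3 * ∏ a ∈ T, v (yc (sm F a R))) *
          (v (tc R) ^ 3) ^ T.card := by rw [mul_assoc]
      _ = (v (tc R) ^ T.card) ^ 3 := by rw [h1, one_mul, ← pow_mul, ← pow_mul, mul_comm]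
  have h5 : Ideal.absNorm (Ideal.span {β}) - 1 = T.card := by omega
  rw [h5]
  exact ((pow_left_inj₀ zero_le zero_le (by norm_num)).1 h4).symm

end

section
variable {k F : Type u} [Field k] [NumberField k] [Field F] [NumberField F] [Algebra k F]
  [Algebra K k] [Algebra K F] [IsScalarTower K k F] [DecidableEq F] {β : 𝓞 K}

private theorem rac_inj (hβ : Prime β) {R : Pt F} (hR : Ord β R)
    (hgen : ∀ σ : Gal(F/k), ga σ R = R → σ = 1) : ∃ T : Finset (𝓞 K), IsRes β T ∧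
    T.card + 1 = Ideal.absNorm (Ideal.span {β}) ∧ ∃ f : Gal(F/k) → T, Function.Injective f ∧
      ∀ σ, ga σ R = sm F ((f σ : 𝓞 K)) R := by
  obtain ⟨T, hT, hcard⟩ := exists_isRes hβ.ne_zero
  have h1 : ∀ σ : Gal(F/k), ∃ a : T, ga σ R = sm F (a : 𝓞 K) R := by
    intro σ
    obtain ⟨c, hc, e⟩ := gal_sm hβ.ne_zero hR σ
    have hn : ¬ β ∣ c := fun h => hβ.not_isUnit (hc.isUnit_of_dvd' h dvd_rfl)
    obtain ⟨a, ha, hd⟩ := hT.ex c hn
    exact ⟨⟨a, ha⟩, e.trans ((hR.sm_eq_iff c a).2 hd)⟩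
  choose f hf using h1
  refine ⟨T, hT, hcard, f, ?_, hf⟩
  intro σ τ h
  have e : ga σ R = ga τ R := by rw [hf σ, hf τ, h]
  have e2 : ga (τ⁻¹ * σ) R = R := by
    rw [ga_mul, e, ← ga_mul, inv_mul_cancel, ga_one]
  exact (inv_mul_eq_one.1 (hgen _ e2)).symm

private theorem rac_W (hβ : Prime β) (hβ1 : (3 : 𝓞 K) ∣ β - 1) {R : Pt F} (hR : Ord β R)
    (W : HeightOneSpectrum (𝓞 F)) (hW : od (W.under (𝓞 k)) (algebraMap K k (β : K)) = 1) :
    ((Ideal.absNorm (Ideal.span {β}) - 1 : ℕ) : ℤ) * od W (tc R)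
      = (W.asIdeal.ramificationIdx (𝓞 k) : ℤ) ∧ 1 ≤ od W (tc R) ∧ Ker (W.valuation F) R := by
  have hbF : algebraMap K F (β : K) = algebraMap k F (algebraMap K k (β : K)) :=
    IsScalarTower.algebraMap_apply K k F (β : K)
  have hb0 : algebraMap K F (β : K) ≠ 0 := by
    rw [Ne, map_eq_zero_iff _ (algebraMap K F).injective]
    intro h
    exact hβ.ne_zero (RingOfIntegers.ext h)
  have h1 : od W (algebraMap K F (β : K)) = (W.asIdeal.ramificationIdx (𝓞 k) : ℤ) := by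
    rw [hbF, od_map (k := k) W, hW, mul_one]
  have h2 : W.valuation F (algebraMap K F (β : K)) < 1 := by
    rw [val_lt_one_iff W hb0, h1]
    exact_mod_cast ramIdx_pos (k := k) W
  have h3 := ker_of_val (W.valuation F) hβ hβ1 hR h2
  have hR0 : R ≠ 0 := by
    intro h
    have h4 : sm F (1 : 𝓞 K) R = 0 := by rw [h, map_zero]
    exact hβ.not_isUnit (isUnit_of_dvd_one ((hR 1).1 h4))
  obtain ⟨t1, t2, -, -⟩ := ker_tc (W.valuation F) h3 hR0
  have ht0 : tc R ≠ 0 := by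
    intro h
    rw [h, map_zero] at t2
    exact t2 rfl
  have h5 := v_tc (W.valuation F) hβ hβ1 hR h2
  refine ⟨?_, ?_, h3⟩
  · rw [← h1, ← od_pow]
    unfold od
    rw [map_pow, h5]
  · have := (val_lt_one_iff W ht0).1 t1
    omega

private theorem rac_num {m n g e f : ℕ} {t : ℤ} (h1 : (m : ℤ) * t = e) (ht : 1 ≤ t) (hn : 0 < n)
    (h2 : g * (e * f) = n) (h3 : n ≤ m) : e = n ∧ n = m ∧ t = 1 ∧ g = 1 ∧ f = 1 := by
  have hg : 0 < g := by
    rcases Nat.eq_zero_or_pos g with h | h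
    · rw [h, zero_mul] at h2
      omega
    · exact h
  have hf : 0 < f := by
    rcases Nat.eq_zero_or_pos f with h | h
    · rw [h, mul_zero, mul_zero] at h2
      omega
    · exact h
  have he : e ≤ n := by
    rw [← h2]
    calc e = 1 * (e * 1) := by ring
      _ ≤ g * (e * f) := Nat.mul_le_mul hg (Nat.mul_le_mul_left _ hf)
  have hm : (m : ℤ) ≤ e := by
    rw [← h1]
    nlinarith
  have hm' : m ≤ e := by exact_mod_cast hm
  have e1 : e = n := by omega
  have e2 : n = m := by omega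
  have e3 : g * f = 1 := by
    have h5 : n * (g * f) = n * 1 := by
      rw [e1] at h2
      calc n * (g * f) = g * (n * f) := by ring
        _ = n * 1 := by rw [h2, mul_one]
    exact Nat.eq_of_mul_eq_mul_left hn h5
  refine ⟨e1, e2, ?_, Nat.eq_one_of_mul_eq_one_right e3, Nat.eq_one_of_mul_eq_one_left e3⟩
  have hmp : (0 : ℤ) < m := by omega
  have h6 : (m : ℤ) * t = m * 1 := by
    rw [h1, e1, e2, mul_one]
  exact mul_left_cancel₀ hmp.ne' h6

end

section
variable {k F : Type u} [Field k] [NumberField k] [Field F] [NumberField F] [Algebra k F]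

private theorem rac_surj (W : HeightOneSpectrum (𝓞 F)) (hf : W.asIdeal.inertiaDeg (𝓞 k) = 1)
    (y : 𝓞 F) : ∃ x : 𝓞 k, y - algebraMap (𝓞 k) (𝓞 F) x ∈ W.asIdeal := by
  have hWm : W.asIdeal.IsMaximal := W.isMaximal
  have hvm : (W.under (𝓞 k)).asIdeal.IsMaximal := (W.under (𝓞 k)).isMaximal
  have hlo : W.asIdeal.LiesOver (W.under (𝓞 k)).asIdeal := ⟨rfl⟩
  have h1 := Ideal.inertiaDeg_eq_of_isMaximal (W.under (𝓞 k)).asIdeal W.asIdeal
  rw [hf] at h1
  let _ : Field (𝓞 k ⧸ (W.under (𝓞 k)).asIdeal) := Ideal.Quotient.field _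
  have h2 := Subalgebra.bot_eq_top_of_finrank_eq_one h1.symm
  have h3 : Ideal.Quotient.mk W.asIdeal y ∈
      (⊥ : Subalgebra (𝓞 k ⧸ (W.under (𝓞 k)).asIdeal) (𝓞 F ⧸ W.asIdeal)) := by
    rw [h2]
    exact Algebra.mem_top
  obtain ⟨z, hz⟩ := Algebra.mem_bot.1 h3
  obtain ⟨x, rfl⟩ := Ideal.Quotient.mk_surjective z
  refine ⟨x, ?_⟩
  rw [← Ideal.Quotient.eq, ← hz]
  rfl

/-- at a place of relative degree one every integral element is congruent to an element below -/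
theorem res_field (W : HeightOneSpectrum (𝓞 F)) (hf : W.asIdeal.inertiaDeg (𝓞 k) = 1) {a : F}
    (ha : W.valuation F a ≤ 1) : ∃ x : 𝓞 k, W.valuation F (a - algebraMap k F (x : k)) < 1 := by
  obtain ⟨y, hy⟩ := exists_val_lt_of_int W ha 1
  obtain ⟨x, hx⟩ := rac_surj W hf y
  refine ⟨x, ?_⟩
  have h1 : W.valuation F (a - (y : F)) < 1 := by
    refine lt_of_le_of_lt hy ?_
    rw [← WithZero.exp_zero, WithZero.exp_lt_exp]
    norm_num
  have h2 : W.valuation F ((y : F) - algebraMap k F (x : k)) < 1 := by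
    have h3 : ((y - algebraMap (𝓞 k) (𝓞 F) x : 𝓞 F) : F) = (y : F) - algebraMap k F (x : k) := by
      push_cast
      rfl
    rw [← h3]
    exact (W.valuation_lt_one_iff_mem (K := F) _).2 hx
  have h4 : a - algebraMap k F (x : k) = (a - (y : F)) + ((y : F) - algebraMap k F (x : k)) := by
    ring
  rw [h4]
  exact lt_of_le_of_lt ((W.valuation F).map_add _ _) (max_lt h1 h2)

omit [NumberField k] [NumberField F] in
/-- an automorphism which acts trivially modulo a place fixes the place -/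
theorem raD_gpl (W : HeightOneSpectrum (𝓞 F)) (σ : Gal(F/k))
    (hσ : ∀ x : 𝓞 F, σ • x - x ∈ W.asIdeal) : gpl σ W = W := by
  apply HeightOneSpectrum.ext
  ext y
  change σ⁻¹ • y ∈ W.asIdeal ↔ y ∈ W.asIdeal
  have h1 := hσ (σ⁻¹ • y)
  rw [smul_inv_smul] at h1
  constructor
  · intro h2
    have h3 := W.asIdeal.add_mem h1 h2
    rwa [sub_add_cancel] at h3
  · intro h2
    have h3 := W.asIdeal.sub_mem h2 h1
    rwa [sub_sub_cancel] at h3

/-- such an automorphism moves an element integral at the place by an element of valuation less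
than one -/
theorem raD_val (W : HeightOneSpectrum (𝓞 F)) (σ : Gal(F/k))
    (hσ : ∀ x : 𝓞 F, σ • x - x ∈ W.asIdeal) {a : F} (ha : W.valuation F a ≤ 1) :
    W.valuation F (a - σ a) < 1 := by
  obtain ⟨x, hx⟩ := exists_val_lt_of_int W ha 1
  have h1 : W.valuation F (a - (x : F)) < 1 := by
    refine lt_of_le_of_lt hx ?_
    rw [← WithZero.exp_zero, WithZero.exp_lt_exp]
    norm_num
  have h2 : W.valuation F (σ (a - (x : F))) < 1 := by
    have h3 := gpl_val σ W (a - (x : F))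
    rw [raD_gpl W σ hσ] at h3
    rwa [h3]
  have h4 : W.valuation F (σ (x : F) - (x : F)) < 1 := by
    have h5 : W.valuation F (algebraMap (𝓞 F) F (σ • x - x)) < 1 :=
      (W.valuation_lt_one_iff_mem (K := F) (σ • x - x)).2 (hσ x)
    rw [map_sub] at h5
    exact h5
  have e : a - σ a = (a - (x : F)) - σ (a - (x : F)) - (σ (x : F) - (x : F)) := by
    rw [map_sub]
    ring
  rw [e]
  refine lt_of_le_of_lt (Valuation.map_sub _ _ _) (max_lt ?_ h4)
  exact lt_of_le_of_lt (Valuation.map_sub _ _ _) (max_lt h1 h2)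

variable [Algebra K k] [Algebra K F] [IsScalarTower K k F] [DecidableEq F] {β : 𝓞 K}
  [IsGalois k F] (hβ : Prime β) (hβ1 : (3 : 𝓞 K) ∣ β - 1) {R : Pt F} (hR : Ord β R)
  (hgen : ∀ σ : Gal(F/k), ga σ R = R → σ = 1)
include hβ hβ1 hR hgen

theorem card_gal_le : Module.finrank k F + 1 ≤ Ideal.absNorm (Ideal.span {β}) := by
  obtain ⟨T, -, hc, f, hf, -⟩ := rac_inj hβ hR hgen
  have h1 : Nat.card Gal(F/k) ≤ Nat.card T := Nat.card_le_card_of_injective f hf
  rw [IsGalois.card_aut_eq_finrank, Nat.card_eq_fintype_card, Fintype.card_coe] at h1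
  omega

/-- total ramification -/
theorem ram (v : HeightOneSpectrum (𝓞 k)) (hv : od v (algebraMap K k (β : K)) = 1) :
    Module.finrank k F + 1 = Ideal.absNorm (Ideal.span {β}) ∧
    (∀ W : HeightOneSpectrum (𝓞 F), W.under (𝓞 k) = v →
      W.asIdeal.ramificationIdx (𝓞 k) = Module.finrank k F ∧
      W.asIdeal.inertiaDeg (𝓞 k) = 1 ∧ od W (tc R) = 1 ∧ Ker (W.valuation F) R ∧
      ∀ σ : Gal(F/k), gpl σ W = W) ∧
    ∀ c : 𝓞 K, ¬ β ∣ c → ∃ σ : Gal(F/k), ga σ R = sm F c R := by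
  have hle := card_gal_le hβ hβ1 hR hgen
  have hn : 0 < Module.finrank k F := Module.finrank_pos
  have hvm : v.asIdeal.IsMaximal := v.isMaximal
  have hfund := Ideal.ncard_primesOver_mul_ramificationIdxIn_mul_inertiaDegIn v.asIdeal (𝓞 F)
    Gal(F/k)
  rw [IsGalois.card_aut_eq_finrank] at hfund
  have key : ∀ W : HeightOneSpectrum (𝓞 F), W.under (𝓞 k) = v →
      (W.asIdeal.ramificationIdx (𝓞 k) = Module.finrank k F ∧
        Module.finrank k F = Ideal.absNorm (Ideal.span {β}) - 1 ∧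
        od W (tc R) = 1 ∧ (v.asIdeal.primesOver (𝓞 F)).ncard = 1 ∧
        W.asIdeal.inertiaDeg (𝓞 k) = 1) ∧ Ker (W.valuation F) R := by
    intro W hW
    have hlo : W.asIdeal.LiesOver v.asIdeal := ⟨by rw [← hW]; rfl⟩
    have hWp : W.asIdeal.IsPrime := W.isPrime
    obtain ⟨h1, h2, h3⟩ := rac_W (k := k) hβ hβ1 hR W (by rw [hW]; exact hv)
    rw [Ideal.ramificationIdxIn_eq_ramificationIdx v.asIdeal W.asIdeal Gal(F/k),
      Ideal.inertiaDegIn_eq_inertiaDeg v.asIdeal W.asIdeal Gal(F/k)] at hfund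
    refine ⟨?_, h3⟩
    exact rac_num h1 h2 hn hfund (by omega)
  obtain ⟨Q, hQ1, hQ2⟩ := (inferInstance : Nonempty (v.asIdeal.primesOver (𝓞 F)))
  have hQ0 : Q ≠ ⊥ := by
    intro h
    have h1 := hQ2.over
    rw [h] at h1
    exact v.ne_bot (h1.trans (Ideal.comap_bot_of_injective _
      (FaithfulSMul.algebraMap_injective (𝓞 k) (𝓞 F))))
  let W0 : HeightOneSpectrum (𝓞 F) := ⟨Q, hQ1, hQ0⟩
  have hW0 : W0.under (𝓞 k) = v := HeightOneSpectrum.ext hQ2.over.symm
  obtain ⟨⟨-, hq, -, hg, -⟩, -⟩ := key W0 hW0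
  have hq1 : Module.finrank k F + 1 = Ideal.absNorm (Ideal.span {β}) := by omega
  refine ⟨hq1, ?_, ?_⟩
  · intro W hW
    obtain ⟨⟨k1, -, k3, -, k5⟩, k6⟩ := key W hW
    refine ⟨k1, k5, k3, k6, fun σ => ?_⟩
    obtain ⟨P, hP⟩ := Set.ncard_eq_one.mp hg
    have hm : ∀ W' : HeightOneSpectrum (𝓞 F), W'.under (𝓞 k) = v → W'.asIdeal = P := by
      intro W' hW'
      have h1 : W'.asIdeal ∈ v.asIdeal.primesOver (𝓞 F) :=
        ⟨W'.isPrime, ⟨by rw [← hW']; rfl⟩⟩
      rw [hP] at h1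
      exact h1
    apply HeightOneSpectrum.ext
    rw [hm W hW, hm (gpl σ W) (by rw [gpl_under, hW])]
  · intro c hc
    obtain ⟨T, hT, hTc, f, hf, hfR⟩ := rac_inj hβ hR hgen
    have h1 : Nat.card Gal(F/k) = Nat.card T := by
      rw [IsGalois.card_aut_eq_finrank, Nat.card_eq_fintype_card, Fintype.card_coe]
      omega
    have hb : Function.Bijective f := by
      rw [Nat.bijective_iff_injective_and_card]
      exact ⟨hf, h1⟩
    obtain ⟨a, ha, hd⟩ := hT.ex c hc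
    obtain ⟨σ, hσ⟩ := hb.2 ⟨a, ha⟩
    refine ⟨σ, ?_⟩
    rw [hfR σ, hσ]
    exact ((hR.sm_eq_iff c a).2 hd).symm

/-- the inertia groups act trivially at the places prime to `3 β` -/
theorem nos (W : HeightOneSpectrum (𝓞 F)) (h3 : W.valuation F (3 : F) = 1)
    (hW : W.valuation F (algebraMap K F (β : K)) = 1) (σ : Gal(F/k))
    (hσ : ∀ x : 𝓞 F, σ • x - x ∈ W.asIdeal) : σ = 1 := by
  apply hgen
  by_contra hne
  have hQ : Ord β (ga σ R) := Ord.ga σ hR
  have hk1 := not_ker_of_val (W.valuation F) hβ hβ1 hR hW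
  have hk2 := not_ker_of_val (W.valuation F) hβ hβ1 hQ hW
  obtain ⟨_, hx, hy⟩ := not_ker (W.valuation F) hk1
  have hker : Ker (W.valuation F) (R - ga σ R) := by
    apply red_inj (W.valuation F) h3 hk1 hk2
    · rw [xc_ga]
      exact raD_val W σ hσ hx
    · rw [yc_ga]
      exact raD_val W σ hσ hy
  have h0 : sm F β (R - ga σ R) = 0 := by
    rw [map_sub, (hR β).2 dvd_rfl, (hQ β).2 dvd_rfl, sub_zero]
  have hO : Ord β (R - ga σ R) := ord_of_prime hβ h0 (fun h => hne (sub_eq_zero.1 h).symm)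
  exact not_ker_of_val (W.valuation F) hβ hβ1 hO hW hker

theorem unram (W : HeightOneSpectrum (𝓞 F)) (h3 : W.valuation F (3 : F) = 1)
    (hW : W.valuation F (algebraMap K F (β : K)) = 1) :
    W.asIdeal.ramificationIdx (𝓞 k) = 1 := by
  have h1 : W.asIdeal.inertia Gal(F/k) = ⊥ := by
    rw [eq_bot_iff]
    intro σ hσ
    rw [Subgroup.mem_bot]
    exact nos hβ hβ1 hR hgen W h3 hW σ (fun x => hσ x)
  have hp0 : W.asIdeal.under (𝓞 k) ≠ ⊥ := (W.under (𝓞 k)).ne_bot
  have hfin : Finite (𝓞 k ⧸ W.asIdeal.under (𝓞 k)) :=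
    Ring.HasFiniteQuotients.finiteQuotient hp0
  have h2 := Ideal.card_inertia_eq_ramificationIdxIn (G := Gal(F/k)) (W.asIdeal.under (𝓞 k))
    W.asIdeal
  rw [Ideal.ramificationIdxIn_eq_ramificationIdx _ W.asIdeal Gal(F/k)] at h2
  rw [← h2, h1]
  exact Nat.card_unique

end

end Pool.Agent.Lib.MP_1a91b9_ntT.DB
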