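import Pool.Agent.Lib.MP_1a91b9_ntT.DB.Uni

/-!
# DB: the torsion points killed by a prime element of degree one

PROOF (complete; stream DB of helper55). Jobs ToA (`Deg1.*`, `sm_eq_int`, `p_smul`, `smul_zero_iff`),
ToB (`exists_tors_C`, `tors_cases_C`, `tors_cases`).

`Deg1 β p`: `p` prime, `N(β) = p`, `β = 1 mod 3`. Then `𝓞 K / (β)` has `p` elements, so it is `ZMod p`
(`Ideal.absNorm` = Nat.card of the quotient; a ring with `p` elements, generated by `1`): every `c : 𝓞 K`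
is congruent to an integer `k`, `0 ≤ k < p`, modulo `β`; `β ∣ n` (integer `n`) iff `p ∣ n`; `β ∣ p`
(`Ideal.absNorm_mem`); `(β)` is maximal, `β` is prime; `p ≠ 2, 3`, `p = 1 mod 3`: `p = β * conj β`,
`β = 1 + 3 c`, `N β = 1 mod 3` (with `β = m + n om`: `m = 1, n = 0 mod 3`, `N = m^2 - m n + n^2`,
`S3.norm_coords`, `S3.card_quot`); `p ≠ 2` because `2` is not of the form `1 mod 3`.
`sm_eq_int`: `c - k = β d`, `sm (c - k) R = sm d (sm β R) = 0`. `p_smul`: `p = β d`. `smul_zero_iff`: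
if `p ∤ n`, `a n + b p = 1`, `R = a n R + b p R = 0`, contradiction.

`exists_tors_C`: `R = u (1/β)` with `exists_uni`: `sm β R = u 1 = 0`, `R ≠ 0`: `1/β` in the lattice
would make `β` a unit (`S3.mem_PP_iff`), `N β = p ≠ 1`.
`tors_cases_C`: `Q = u z`, `sm β Q = 0`: `β z = c` in the lattice, `c : 𝓞 K`; `c = k mod β`: `z = c/β =
k/β + d`, `Q = k • u(1/β)`. So every point killed by `β` is a multiple of `R0 = u(1/β)`; `R = j • R0` with
`p ∤ j` (`R ≠ 0`), so `R0 = j' • R` and `Q = (k j') • R`, reduce the coefficient modulo `p`.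
`tors_cases`: apply `tors_cases_C` to the images under `pm f` (injective, `pm_sm`, `map_nsmul`).
-/

set_option autoImplicit false

namespace Pool.Agent.Lib.MP_1a91b9_ntT.DB

open NumberField IsDedekindDomain WeierstrassCurve S3

/-- `β` is a prime element of norm the prime number `p`, congruent to `1` modulo `3` -/
structure Deg1 (β : 𝓞 K) (p : ℕ) : Prop where
  prime : p.Prime
  norm : Ideal.absNorm (Ideal.span {β}) = p
  one : (3 : 𝓞 K) ∣ β - 1

section
variable {β : 𝓞 K} {p : ℕ}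

private theorem toa_equiv (h : Deg1 β p) :
    Nonempty (ZMod p ≃+* (𝓞 K ⧸ Ideal.span {β})) := by
  have hp : Fact p.Prime := ⟨h.prime⟩
  have h1 : Nat.card (𝓞 K ⧸ Ideal.span {β}) = p := h.norm
  have hfin : Finite (𝓞 K ⧸ Ideal.span {β}) :=
    Nat.finite_of_card_ne_zero (by rw [h1]; exact h.prime.ne_zero)
  have hF : Fintype (𝓞 K ⧸ Ideal.span {β}) := Fintype.ofFinite _
  rw [Nat.card_eq_fintype_card] at h1
  exact ⟨ZMod.ringEquivOfPrime _ h.prime h1⟩

theorem Deg1.exists_int (h : Deg1 β p) (c : 𝓞 K) : ∃ k : ℕ, k < p ∧ β ∣ c - k := by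
  have hp : Fact p.Prime := ⟨h.prime⟩
  obtain ⟨e⟩ := toa_equiv h
  obtain ⟨z, hz⟩ := e.surjective (Ideal.Quotient.mk (Ideal.span {β}) c)
  refine ⟨z.val, ZMod.val_lt z, ?_⟩
  rw [← Ideal.mem_span_singleton, ← Ideal.Quotient.eq_zero_iff_mem, map_sub, ← hz, map_natCast,
    ← map_natCast e, ZMod.natCast_zmod_val, sub_self]

theorem Deg1.dvd_int_iff (h : Deg1 β p) (n : ℤ) : β ∣ (n : 𝓞 K) ↔ (p : ℤ) ∣ n := by
  obtain ⟨e⟩ := toa_equiv h
  rw [← Ideal.mem_span_singleton, ← Ideal.Quotient.eq_zero_iff_mem, map_intCast,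
    ← map_intCast e, map_eq_zero_iff e e.injective, ZMod.intCast_zmod_eq_zero_iff_dvd]

theorem Deg1.isPrime (h : Deg1 β p) : Prime β := by
  have h0 : β ≠ 0 := by
    rintro rfl
    have h1 := h.norm
    rw [Ideal.span_singleton_eq_bot.2 rfl, Ideal.absNorm_bot] at h1
    exact h.prime.ne_zero h1.symm
  rw [← Ideal.span_singleton_prime h0]
  apply Ideal.isPrime_of_irreducible_absNorm
  rw [h.norm]
  exact h.prime

theorem Deg1.mod_three (h : Deg1 β p) : p % 3 = 1 := by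
  obtain ⟨c, hc⟩ := h.one
  obtain ⟨m, n, hmn⟩ := S3.exists_coords c
  have h1 : (β : K) = ((1 + 3 * m : ℤ) : K) + ((3 * n : ℤ) : K) * om := by
    have h2 : β = 1 + 3 * c := by linear_combination hc
    have h3 : (β : K) = 1 + 3 * (c : K) := by
      rw [h2]
      change algebraMap (𝓞 K) K (1 + 3 * c) = _
      rw [map_add, map_mul, map_one, map_ofNat]
    rw [h3, hmn]
    push_cast
    ring
  have h4 : embK (β : K) = ((1 + 3 * m : ℤ) : ℂ) + ((3 * n : ℤ) : ℂ) * zt := by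
    rw [h1, map_add, map_mul, map_intCast, map_intCast, embK_om]
  have h5 := S3.card_quot β h4
  have h6 : Nat.card (𝓞 K ⧸ Ideal.span {β}) = p := h.norm
  rw [h6] at h5
  have h7 : (p : ℤ) = 3 * (2 * m + 3 * m ^ 2 - n - 3 * m * n + 3 * n ^ 2) + 1 := by
    rw [h5]
    ring
  omega

theorem Deg1.seven_le (h : Deg1 β p) : 7 ≤ p := by
  have h1 := h.mod_three
  have h2 := h.prime.two_le
  by_contra h3
  have h4 : p = 4 := by omega
  have h5 := h.prime
  rw [h4] at h5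
  exact absurd h5 (by norm_num)

end

section
variable {F : Type*} [Field F] [Algebra K F] [DecidableEq F] {β : 𝓞 K} {p : ℕ}

private theorem toa_dvd {R : Pt F} (hR : sm F β R = 0) {c : 𝓞 K} (hc : β ∣ c) :
    sm F c R = 0 := by
  obtain ⟨d, rfl⟩ := hc
  rw [mul_comm, map_mul]
  change sm F d (sm F β R) = 0
  rw [hR, map_zero]

theorem sm_eq_int {R : Pt F} (hR : sm F β R = 0) {c : 𝓞 K} {k : ℤ} (hc : β ∣ c - k) :
    sm F c R = k • R := by
  have h1 := toa_dvd hR hc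
  rw [map_sub] at h1
  have h2 : sm F c R - sm F (k : 𝓞 K) R = 0 := h1
  rw [sm_int] at h2
  exact sub_eq_zero.1 h2

theorem p_smul (h : Deg1 β p) {R : Pt F} (hR : sm F β R = 0) : p • R = 0 := by
  have h1 : β ∣ ((p : ℤ) : 𝓞 K) := (h.dvd_int_iff p).2 dvd_rfl
  have h2 := toa_dvd hR h1
  rw [sm_int, natCast_zsmul] at h2
  exact h2

theorem smul_zero_iff (h : Deg1 β p) {R : Pt F} (hR : sm F β R = 0) (hR0 : R ≠ 0) (n : ℤ) :
    n • R = 0 ↔ (p : ℤ) ∣ n := by
  constructor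
  · intro h1
    by_contra h2
    have hp : Prime (p : ℤ) := Nat.prime_iff_prime_int.1 h.prime
    have h3 : IsCoprime (p : ℤ) n := (hp.coprime_iff_not_dvd).2 h2
    obtain ⟨a, b, hab⟩ := h3
    apply hR0
    have h4 := p_smul h hR
    calc R = (1 : ℤ) • R := (one_zsmul R).symm
      _ = (a * p + b * n) • R := by rw [hab]
      _ = a • ((p : ℤ) • R) + b • (n • R) := by rw [add_zsmul, mul_zsmul, mul_zsmul]
      _ = 0 := by rw [h1, natCast_zsmul, h4, zsmul_zero, zsmul_zero, add_zero]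
  · rintro ⟨k, rfl⟩
    rw [mul_comm, mul_zsmul, natCast_zsmul, p_smul h hR, zsmul_zero]

end

private theorem tob_embK_inj {a b : 𝓞 K} (h : embK (a : K) = embK (b : K)) : a = b :=
  RingOfIntegers.ext (embK.toRingHom.injective h)

private theorem tob_embK_ne {β : 𝓞 K} {p : ℕ} (h : Deg1 β p) : embK (β : K) ≠ 0 := by
  intro h0
  apply h.isPrime.ne_zero
  apply tob_embK_inj
  rw [h0]
  exact (map_zero embK).symm

private theorem tob_aux [DecidableEq ℂ] {β : 𝓞 K} {p : ℕ} (h : Deg1 β p) :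
    ∃ R : Pt ℂ, R ≠ 0 ∧ sm ℂ β R = 0 ∧
      ∀ Q : Pt ℂ, sm ℂ β Q = 0 → ∃ k : ℕ, k < p ∧ Q = k • R := by
  obtain ⟨u, hsurj, hker, -, -, hsm⟩ := exists_uni
  have hβ := tob_embK_ne h
  have hone : (1 : ℂ) ∈ PP.lattice := S3.mem_PP_iff.2 ⟨1, map_one embK⟩
  refine ⟨u (1 / embK (β : K)), ?_, ?_, ?_⟩
  · intro h0
    rw [hker] at h0
    obtain ⟨b, hb⟩ := S3.mem_PP_iff.1 h0
    apply h.isPrime.not_isUnit
    refine IsUnit.of_mul_eq_one b (tob_embK_inj ?_)
    have e1 : ((β * b : 𝓞 K) : K) = (β : K) * (b : K) := rfl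
    rw [e1, map_mul, hb, mul_one_div_cancel hβ]
    exact (map_one embK).symm
  · rw [← hsm, mul_one_div_cancel hβ, hker]
    exact hone
  · intro Q hQ
    obtain ⟨z, rfl⟩ := hsurj Q
    rw [← hsm, hker] at hQ
    obtain ⟨c, hc⟩ := S3.mem_PP_iff.1 hQ
    obtain ⟨k, hk, d, hd⟩ := h.exists_int c
    refine ⟨k, hk, ?_⟩
    have e1 : embK (c : K) = k + embK (β : K) * embK (d : K) := by
      have e2 : c = k + β * d := by rw [← hd]; ring
      have e3 : (c : K) = (k : K) + (β : K) * (d : K) := by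
        rw [e2]
        change algebraMap (𝓞 K) K (k + β * d) = _
        rw [map_add, map_mul, map_natCast]
      rw [e3, map_add, map_mul, map_natCast]
    have e2 : z = k • (1 / embK (β : K)) + embK (d : K) := by
      rw [nsmul_eq_mul]
      apply mul_left_cancel₀ hβ
      rw [← hc, e1]
      field_simp
    have e3 : u (embK (d : K)) = 0 := (hker _).2 (S3.embK_mem d)
    conv_lhs => rw [e2]
    rw [map_add, map_nsmul, e3, add_zero]

theorem exists_tors_C [DecidableEq ℂ] {β : 𝓞 K} {p : ℕ} (h : Deg1 β p) :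
    ∃ R : Pt ℂ, R ≠ 0 ∧ sm ℂ β R = 0 := by
  obtain ⟨R, h0, h1, -⟩ := tob_aux h
  exact ⟨R, h0, h1⟩

theorem tors_cases_C [DecidableEq ℂ] {β : 𝓞 K} {p : ℕ} (h : Deg1 β p) {R Q : Pt ℂ}
    (hR : sm ℂ β R = 0) (hR0 : R ≠ 0) (hQ : sm ℂ β Q = 0) : ∃ a : ℕ, a < p ∧ Q = a • R := by
  obtain ⟨R0, -, h1, h2⟩ := tob_aux h
  obtain ⟨j, -, hj⟩ := h2 R hR
  obtain ⟨k, -, hk⟩ := h2 Q hQ
  have hpR0 : p • R0 = 0 := p_smul h h1
  have hpR : p • R = 0 := p_smul h hR
  have hcop : Nat.Coprime j p := by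
    rw [Nat.coprime_comm, Nat.Prime.coprime_iff_not_dvd h.prime]
    rintro ⟨i, rfl⟩
    apply hR0
    rw [hj, mul_comm, mul_nsmul', hpR0, nsmul_zero]
  obtain ⟨i, -, hi⟩ := Nat.exists_mul_mod_eq_one_of_coprime hcop h.prime.one_lt
  have h3 : R0 = i • R := by
    rw [hj, ← mul_nsmul, nsmul_eq_mod_nsmul _ hpR0, hi, one_nsmul]
  refine ⟨(i * k) % p, Nat.mod_lt _ h.prime.pos, ?_⟩
  rw [← nsmul_eq_mod_nsmul _ hpR, hk, h3, ← mul_nsmul]

/-- the points killed by `β` are the multiples of one of them -/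
theorem tors_cases {F : Type*} [Field F] [Algebra K F] [DecidableEq F] (f : F →ₐ[K] ℂ)
    {β : 𝓞 K} {p : ℕ} (h : Deg1 β p) {R Q : Pt F} (hR : sm F β R = 0) (hR0 : R ≠ 0)
    (hQ : sm F β Q = 0) : ∃ a : ℕ, a < p ∧ Q = a • R := by
  classical
  have h1 : sm ℂ β (pm f R) = 0 := by rw [← pm_sm, hR, map_zero]
  have h2 : sm ℂ β (pm f Q) = 0 := by rw [← pm_sm, hQ, map_zero]
  have h3 : pm f R ≠ 0 := by
    intro h0
    apply hR0
    apply pm_inj f
    rw [h0, map_zero]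
  obtain ⟨a, ha, hQa⟩ := tors_cases_C h h1 h3 h2
  refine ⟨a, ha, ?_⟩
  apply pm_inj f
  rw [hQa, map_nsmul]

end Pool.Agent.Lib.MP_1a91b9_ntT.DB
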