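import Pool.Agent.Lib.MP_1a91b9_ntT.DB.TrD

/-!
# DB: the number of isotypic classes in a lattice with a cyclic vector

PROOF (complete; stream DB of helper55). Jobs UaA (`charpoly_eq`, `det_quad`), UaB (`card_le_of_det`),
UaC (`count_abs`).

`charpoly_eq`: let `p = τ.charpoly`, monic of degree `n` (`LinearMap.charpoly_monic`, `charpoly_natDegree`),
`p(τ) = 0` (`LinearMap.aeval_self_charpoly`), and `Φ = ∑_{j ≤ n} X^j` is monic of degree `n`, `Φ(τ) = 0`. So
`p - Φ` has degree `< n` and `(p - Φ)(τ) u = 0`; by `hu` all the coefficients of `p - Φ` are `0`.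
`det_quad`: choose a `ℤ`-basis of `M`, `A` the matrix of `τ`, mapped to `ℂ`; `γ = embK g`, `γ'` its complex
conjugate. `γ + γ' = trace`, `γ γ' = norm` (the embeddings of `K` into `ℂ` are `embK` and its conjugate,
or by coordinates `g = m + n om`: `S3.exists_coords`, norm `m^2 - m n + n^2`, trace `2 m - n`), so
`A^2 - tr A + nm = (γ - A)(γ' - A)`, `det (γ - A) = (charpoly A).eval γ = embK (aeval g charpoly)`
(`Matrix.eval_charpoly` or `Matrix.eval_det`), and the other factor is its conjugate; the product is the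
image of the norm of `aeval g charpoly`. `LinearMap.det_toMatrix`, `LinearMap.charpoly_toMatrix`.
`card_le_of_det`: `d = det φ ≠ 0` (`ℓ q ∣ 0`), `φ` is injective, `M/φM` is finite with `|d|` elements
(`Submodule.natAbs_det_equiv` or `AddSubgroup.index_eq_natAbs_det`). `V = M/ℓM` is a finite `ℓ`-group with
the endomorphism `φ'` induced by `φ`; `card ker φ' = card (V/φ'V)` (finite group), and `V/φ'V` is a
quotient of `M/φM`, so its order divides `|d|`; it is a power of `ℓ` (killed by `ℓ`: `ℓ`-group); it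
divides `d` and `ℓ q = ℓ^(r+1)` does not, so it is at most `ℓ^r = q`. The elements of `Y` have different
images in `ker φ'`.
`count_abs`: `M = A ⧸ torsion` (`Submodule.torsion ℤ A`), free (finitely generated, torsion free over a
principal ideal domain), of the same rank; `τ` induces `τ'` on `M`. `hτ`: `∑_{j ≤ n} τ'^j = 0`. `hu`: the
image of `u` satisfies the hypothesis of `charpoly_eq`. `φ = τ'^2 - tr τ' + nm`: by `det_quad` and
`charpoly_eq` `det φ` is the norm of `∑ g^i`. The images of the elements of `Y` in `M` satisfy the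
hypotheses of `card_le_of_det` (also the map `Y → M` is injective by `hne`).
-/

set_option autoImplicit false

namespace Pool.Agent.Lib.MP_1a91b9_ntT.DB

open NumberField Polynomial

section
variable {M : Type*} [AddCommGroup M] [Module.Free ℤ M] [Module.Finite ℤ M]

private theorem uaa_trace (g : 𝓞 K) : ((Algebra.trace ℤ (𝓞 K) g : ℤ) : ℂ) =
    embK (g : K) + (starRingEnd ℂ) (embK (g : K)) := by
  classical
  have h := trace_eq_sum_embeddings (K := ℚ) (L := K) ℂ (x := (g : K))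
  have hcard : Fintype.card (K →ₐ[ℚ] ℂ) = 2 := by
    rw [AlgHom.card, S3.finrank_K]
  have huniv : (Finset.univ : Finset (K →ₐ[ℚ] ℂ)) = {embK, S3.embK'} := by
    symm
    apply Finset.eq_univ_of_card
    rw [Finset.card_pair S3.embK_ne, hcard]
  rw [huniv, Finset.sum_pair S3.embK_ne, ← Algebra.coe_trace_int] at h
  have h2 : ((Algebra.trace ℤ (𝓞 K) g : ℤ) : ℂ) =
      algebraMap ℚ ℂ ((Algebra.trace ℤ (𝓞 K) g : ℤ) : ℚ) := by simp
  rw [h2]
  exact h

private theorem uaa_eval {ι : Type*} [Fintype ι] [DecidableEq ι] (A : Matrix ι ι ℤ) (z : ℂ) :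
    (Matrix.scalar ι z - A.map (Int.castRingHom ℂ)).det = aeval z A.charpoly := by
  rw [← Matrix.eval_charpoly, Matrix.charpoly_map, Polynomial.eval_map, aeval_def]
  rfl

private theorem uaa_mat {ι : Type*} [Fintype ι] [DecidableEq ι] (A : Matrix ι ι ℤ) (g : 𝓞 K) :
    (A ^ 2 - Algebra.trace ℤ (𝓞 K) g • A + Algebra.norm ℤ g • (1 : Matrix ι ι ℤ)).det =
      Algebra.norm ℤ (aeval g A.charpoly) := by
  have hinj : Function.Injective (Int.castRingHom ℂ) := (Int.castRingHom ℂ).injective_int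
  apply hinj
  rw [RingHom.map_det, RingHom.mapMatrix_apply, eq_intCast, S3.norm_O]
  have e1 : embK ((aeval g A.charpoly : 𝓞 K) : K) = aeval (embK (g : K)) A.charpoly := by
    have h1 : ((aeval g A.charpoly : 𝓞 K) : K) = aeval (g : K) A.charpoly := by
      exact (aeval_algebraMap_apply K g A.charpoly).symm
    rw [h1, aeval_def, aeval_def, ← AlgHom.coe_toRingHom, hom_eval₂]
    congr 1
    exact RingHom.ext_int _ _
  have e2 : (starRingEnd ℂ) (aeval (embK (g : K)) A.charpoly) =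
      aeval ((starRingEnd ℂ) (embK (g : K))) A.charpoly := by
    rw [aeval_def, aeval_def, hom_eval₂]
    congr 1
    exact RingHom.ext_int _ _
  rw [e1, e2, ← uaa_eval, ← uaa_eval, ← Matrix.det_mul]
  congr 1
  have e3 : (A ^ 2 - Algebra.trace ℤ (𝓞 K) g • A + Algebra.norm ℤ g • (1 : Matrix ι ι ℤ)).map
      (Int.castRingHom ℂ) = (A.map (Int.castRingHom ℂ)) ^ 2 -
        ((Algebra.trace ℤ (𝓞 K) g : ℤ) : ℂ) • A.map (Int.castRingHom ℂ) +
        ((Algebra.norm ℤ g : ℤ) : ℂ) • (1 : Matrix ι ι ℂ) := by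
    rw [← RingHom.mapMatrix_apply, map_add, map_sub, map_pow, map_zsmul, map_zsmul, map_one,
      RingHom.mapMatrix_apply, Int.cast_smul_eq_zsmul, Int.cast_smul_eq_zsmul]
  rw [e3, uaa_trace, S3.norm_O]
  generalize (starRingEnd ℂ) (embK (g : K)) = z
  generalize embK (g : K) = y
  generalize A.map (Int.castRingHom ℂ) = B
  have hs : ∀ c : ℂ, Matrix.scalar ι c = c • (1 : Matrix ι ι ℂ) := by
    intro c
    rw [Matrix.scalar_apply, Matrix.smul_one_eq_diagonal]
  rw [hs, hs, sub_mul, mul_sub, mul_sub, smul_mul_assoc, one_mul, smul_mul_assoc, one_mul,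
    mul_smul_comm, mul_one, smul_smul, pow_two, add_smul]
  abel

theorem charpoly_eq (τ : Module.End ℤ M) {n : ℕ} (hn : Module.finrank ℤ M = n)
    (hΦ : ∑ j ∈ Finset.range (n + 1), τ ^ j = 0) {u : M}
    (hu : ∀ c : ℕ → ℤ, ∑ j ∈ Finset.range n, c j • (τ ^ j) u = 0 → ∀ j < n, c j = 0) :
    LinearMap.charpoly τ = ∑ j ∈ Finset.range (n + 1), (X : ℤ[X]) ^ j := by
  set q : ℤ[X] := LinearMap.charpoly τ - ∑ j ∈ Finset.range (n + 1), (X : ℤ[X]) ^ j with hq
  have hco : ∀ i, (∑ j ∈ Finset.range (n + 1), (X : ℤ[X]) ^ j).coeff i =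
      if i < n + 1 then 1 else 0 := by
    intro i
    rw [finsetSum_coeff]
    simp only [coeff_X_pow, Finset.sum_ite_eq, Finset.mem_range]
  have hmon := LinearMap.charpoly_monic τ
  have hdeg : (LinearMap.charpoly τ).natDegree = n := by rw [LinearMap.charpoly_natDegree, hn]
  have hcn : q.coeff n = 0 := by
    rw [hq, coeff_sub, hco, if_pos (Nat.lt_succ_self n), sub_eq_zero]
    have h := hmon.coeff_natDegree
    rwa [hdeg] at h
  have hbig : ∀ i, n < i → q.coeff i = 0 := by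
    intro i hi
    rw [hq, coeff_sub, hco, if_neg (by omega), coeff_eq_zero_of_natDegree_lt (by omega), sub_zero]
  have hnd : q.natDegree < n + 1 := by
    refine Nat.lt_succ_of_le ((natDegree_le_iff_coeff_eq_zero).2 fun i hi => hbig i hi)
  have hae : aeval τ q = 0 := by
    rw [hq, map_sub, LinearMap.aeval_self_charpoly, map_sum]
    simp only [map_pow, aeval_X]
    rw [hΦ, sub_zero]
  rw [aeval_eq_sum_range' hnd, Finset.sum_range_succ, hcn, zero_smul, add_zero] at hae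
  have hz := hu (fun j => q.coeff j) (by
    have h := congrArg (fun f : Module.End ℤ M => f u) hae
    simpa [LinearMap.sum_apply] using h)
  have hq0 : q = 0 := by
    ext i
    rw [coeff_zero]
    rcases lt_trichotomy i n with h | h | h
    · exact hz i h
    · rw [h, hcn]
    · exact hbig i h
  exact sub_eq_zero.1 (hq ▸ hq0)

theorem det_quad (τ : Module.End ℤ M) (g : 𝓞 K) :
    LinearMap.det (τ ^ 2 - Algebra.trace ℤ (𝓞 K) g • τ + Algebra.norm ℤ g • (1 : Module.End ℤ M)) =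
      Algebra.norm ℤ (aeval g (LinearMap.charpoly τ)) := by
  classical
  let b := Module.Free.chooseBasis ℤ M
  rw [← LinearMap.det_toMatrix b, ← LinearMap.charpoly_toMatrix τ b, ← uaa_mat]
  congr 1
  rw [map_add, map_sub, map_zsmul, map_zsmul, LinearMap.toMatrix_one, pow_two, pow_two,
    LinearMap.toMatrix_mul]

private theorem uab_index (φ : Module.End ℤ M) (h : LinearMap.det φ ≠ 0) :
    (φ.toAddMonoidHom.range).index = (LinearMap.det φ).natAbs := by
  have hk : LinearMap.ker φ = ⊥ := by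
    by_contra hne
    exact h (LinearMap.det_eq_zero_iff_ker_ne_bot.mpr hne)
  have hinj : Function.Injective φ := LinearMap.ker_eq_bot.mp hk
  have h1 := Submodule.natAbs_det_equiv (LinearMap.range φ) (LinearEquiv.ofInjective φ hinj)
  have h2 : ((LinearMap.range φ).subtype ∘ₗ AddMonoidHom.toIntLinearMap
      ((LinearEquiv.ofInjective φ hinj : M ≃ₗ[ℤ] LinearMap.range φ) : M →+ LinearMap.range φ)) =
      φ := by
    ext x
    rfl
  rw [h2] at h1
  rw [h1]
  rfl

theorem card_le_of_det (φ : Module.End ℤ M) {ℓ q r : ℕ} (hℓ : ℓ.Prime) (hq : q = ℓ ^ r)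
    (hdet : ¬ ((ℓ * q : ℕ) : ℤ) ∣ LinearMap.det φ) (Y : Finset M)
    (hY : ∀ y ∈ Y, ∃ z : M, φ y = (ℓ : ℤ) • z)
    (hne : ∀ y ∈ Y, ∀ y' ∈ Y, y ≠ y' → ¬ ∃ z : M, y - y' = (ℓ : ℤ) • z) : Y.card ≤ q := by
  classical
  have hd0 : LinearMap.det φ ≠ 0 := fun h => hdet (h ▸ dvd_zero _)
  -- the subgroups
  let R : AddSubgroup M := φ.toAddMonoidHom.range
  let lm : Module.End ℤ M := (ℓ : ℤ) • (1 : Module.End ℤ M)
  let L : AddSubgroup M := lm.toAddMonoidHom.range
  have hL : ∀ x : M, x ∈ L ↔ ∃ z : M, x = (ℓ : ℤ) • z := by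
    intro x
    constructor
    · rintro ⟨z, hz⟩
      exact ⟨z, hz.symm⟩
    · rintro ⟨z, hz⟩
      exact ⟨z, hz.symm⟩
  have hlm : LinearMap.det lm ≠ 0 := by
    have h1 : LinearMap.det lm = (ℓ : ℤ) ^ Module.finrank ℤ M := by
      have h2 := LinearMap.det_smul (ℓ : ℤ) (1 : Module.End ℤ M)
      rw [map_one, mul_one] at h2
      exact h2
    rw [h1]
    exact pow_ne_zero _ (by exact_mod_cast hℓ.ne_zero)
  have hLi : L.index ≠ 0 := by
    have h1 : L.index = (LinearMap.det lm).natAbs := uab_index lm hlm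
    rw [h1]
    exact Int.natAbs_ne_zero.mpr hlm
  have hRi : R.index = (LinearMap.det φ).natAbs := uab_index φ hd0
  have hRi0 : R.index ≠ 0 := by
    rw [hRi]
    exact Int.natAbs_ne_zero.mpr hd0
  have hRL : (R ⊔ L).index ∣ R.index := AddSubgroup.index_dvd_of_le le_sup_left
  have hRL0 : (R ⊔ L).index ≠ 0 := fun h => hRi0 (by
    rw [h] at hRL
    exact zero_dvd_iff.mp hRL)
  -- the index of `R ⊔ L` is a power of `ℓ`
  have hpow : ∃ k : ℕ, (R ⊔ L).index = ℓ ^ k := by
    refine ⟨(R ⊔ L).index.primeFactorsList.length, Nat.eq_prime_pow_of_unique_prime_dvd hRL0 ?_⟩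
    intro p hp hpd
    have hfact : Fact p.Prime := ⟨hp⟩
    have hfin : Finite (M ⧸ (R ⊔ L)) := by
      apply Nat.finite_of_card_ne_zero
      exact hRL0
    obtain ⟨x, hx⟩ := exists_prime_addOrderOf_dvd_card' (G := M ⧸ (R ⊔ L)) p hpd
    obtain ⟨y, rfl⟩ := QuotientAddGroup.mk_surjective x
    have h0 : ℓ • (QuotientAddGroup.mk y : M ⧸ (R ⊔ L)) = 0 := by
      rw [← QuotientAddGroup.mk_nsmul, QuotientAddGroup.eq_zero_iff]
      apply (le_sup_right : L ≤ R ⊔ L)
      rw [hL]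
      exact ⟨y, (natCast_zsmul y ℓ).symm⟩
    have h1 := addOrderOf_dvd_of_nsmul_eq_zero h0
    rw [hx] at h1
    exact (Nat.prime_dvd_prime_iff_eq hp hℓ).mp h1
  obtain ⟨k, hk⟩ := hpow
  have hkr : k ≤ r := by
    by_contra hlt
    push Not at hlt
    apply hdet
    have h1 : ℓ ^ (r + 1) ∣ (LinearMap.det φ).natAbs := by
      rw [← hRi]
      refine dvd_trans ?_ hRL
      rw [hk]
      exact pow_dvd_pow _ hlt
    have h2 : ((ℓ * q : ℕ) : ℤ) = ((ℓ ^ (r + 1) : ℕ) : ℤ) := by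
      rw [hq, pow_succ, mul_comm]
    rw [h2]
    exact Int.natCast_dvd.mpr h1
  -- the preimage of `L`
  let K : AddSubgroup M := L.comap φ.toAddMonoidHom
  have hLK : L ≤ K := by
    intro x hx
    obtain ⟨z, hz⟩ := (hL x).mp hx
    show φ x ∈ L
    rw [hL, hz]
    exact ⟨φ z, map_zsmul φ _ _⟩
  have e1 : L.relIndex K * K.index = L.index := AddSubgroup.relIndex_mul_index hLK
  have e2 : K.index = L.relIndex R := AddSubgroup.index_comap L φ.toAddMonoidHom
  have e3 : L.relIndex (R ⊔ L) = L.relIndex R := AddSubgroup.relIndex_sup_right R L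
  have e4 : L.relIndex (R ⊔ L) * (R ⊔ L).index = L.index :=
    AddSubgroup.relIndex_mul_index le_sup_right
  have hK0 : K.index ≠ 0 := fun h => hLi (by rw [← e1, h, mul_zero])
  have e5 : L.relIndex K = (R ⊔ L).index := by
    have : L.relIndex K * K.index = (R ⊔ L).index * K.index := by
      rw [e1, ← e4, e3, e2, mul_comm]
    exact Nat.eq_of_mul_eq_mul_right (Nat.pos_of_ne_zero hK0) this
  -- the elements of `Y` give different classes
  have hYK : ∀ y ∈ Y, y ∈ K := by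
    intro y hy
    show φ y ∈ L
    rw [hL]
    exact hY y hy
  have hc : Y.card ≤ L.relIndex K := by
    have hfin : Finite (K ⧸ L.addSubgroupOf K) := by
      apply Nat.finite_of_card_ne_zero
      show L.relIndex K ≠ 0
      rw [e5]
      exact hRL0
    let f : Y → K ⧸ L.addSubgroupOf K := fun y => QuotientAddGroup.mk (⟨y.1, hYK y.1 y.2⟩ : K)
    have hf : Function.Injective f := by
      intro a b hab
      by_contra hne'
      have h1 : a.1 ≠ b.1 := fun h => hne' (Subtype.ext h)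
      have h2 := QuotientAddGroup.eq.mp hab
      rw [AddSubgroup.mem_addSubgroupOf] at h2
      have h3 : -a.1 + b.1 ∈ L := h2
      obtain ⟨z, hz⟩ := (hL _).mp h3
      exact hne b.1 b.2 a.1 a.2 (Ne.symm h1) ⟨z, by rw [← hz]; abel⟩
    have h1 := Nat.card_le_card_of_injective f hf
    rw [Nat.card_eq_fintype_card, Fintype.card_coe] at h1
    exact h1
  calc Y.card ≤ L.relIndex K := hc
    _ = ℓ ^ k := by rw [e5, hk]
    _ ≤ ℓ ^ r := Nat.pow_le_pow_right hℓ.pos hkr
    _ = q := hq.symm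

end

private theorem uac_tors {A : Type*} [AddCommGroup A] {x : A} {m : ℤ} (hm : m ≠ 0)
    (h : m • x = 0) : (Submodule.torsion ℤ A).mkQ x = 0 := by
  rw [Submodule.mkQ_apply, Submodule.Quotient.mk_eq_zero]
  rw [Submodule.mem_torsion_iff]
  exact ⟨⟨m, mem_nonZeroDivisors_of_ne_zero hm⟩, h⟩

private theorem uac_exists {A : Type*} [AddCommGroup A] {x : A}
    (h : (Submodule.torsion ℤ A).mkQ x = 0) : ∃ m : ℤ, m ≠ 0 ∧ m • x = 0 := by
  rw [Submodule.mkQ_apply, Submodule.Quotient.mk_eq_zero, Submodule.mem_torsion_iff] at h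
  obtain ⟨⟨m, hm⟩, h⟩ := h
  exact ⟨m, nonZeroDivisors.ne_zero hm, h⟩

private theorem uac_end {A : Type*} [AddCommGroup A] (τ : Module.End ℤ A) :
    ∃ τ' : Module.End ℤ (A ⧸ Submodule.torsion ℤ A), ∀ (j : ℕ) (x : A),
      (τ' ^ j) ((Submodule.torsion ℤ A).mkQ x) = (Submodule.torsion ℤ A).mkQ ((τ ^ j) x) := by
  have hle : Submodule.torsion ℤ A ≤ (Submodule.torsion ℤ A).comap τ := by
    intro x hx
    rw [Submodule.mem_comap, Submodule.mem_torsion_iff]
    rw [Submodule.mem_torsion_iff] at hx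
    obtain ⟨a, ha⟩ := hx
    refine ⟨a, ?_⟩
    have h1 : τ (a • x) = a • τ x := by
      rw [Submonoid.smul_def, Submonoid.smul_def, map_smul]
    rw [← h1, ha, map_zero]
  refine ⟨(Submodule.torsion ℤ A).mapQ (Submodule.torsion ℤ A) τ hle, fun j => ?_⟩
  induction j with
  | zero => intro x; simp
  | succ j ih =>
    intro x
    rw [pow_succ', pow_succ', Module.End.mul_apply, Module.End.mul_apply, ih x]
    simp [Submodule.mkQ_apply, Submodule.mapQ_apply]

theorem count_abs {A : Type*} [AddCommGroup A] [Module.Finite ℤ A] (τ : Module.End ℤ A) {n : ℕ}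
    (hn : Module.finrank ℤ A = n)
    (hτ : ∀ x : A, ∃ m : ℤ, m ≠ 0 ∧ m • ∑ j ∈ Finset.range (n + 1), (τ ^ j) x = 0) {u : A}
    (hu : ∀ c : ℕ → ℤ, (∃ m : ℤ, m ≠ 0 ∧ m • ∑ j ∈ Finset.range n, c j • (τ ^ j) u = 0) →
      ∀ j < n, c j = 0) {ℓ q r : ℕ} (hℓ : ℓ.Prime) (hq : q = ℓ ^ r) {g : 𝓞 K}
    (hg : ¬ ((ℓ * q : ℕ) : ℤ) ∣ Algebra.norm ℤ (∑ i ∈ Finset.range (n + 1), g ^ i))
    (Y : Finset A) (hY : ∀ y ∈ Y, ∃ (z t : A) (m : ℤ), m ≠ 0 ∧ m • t = 0 ∧
      (τ ^ 2) y - Algebra.trace ℤ (𝓞 K) g • τ y + Algebra.norm ℤ g • y = (ℓ : ℤ) • z + t)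
    (hne : ∀ y ∈ Y, ∀ y' ∈ Y, y ≠ y' → ¬ ∃ (z t : A) (m : ℤ), m ≠ 0 ∧ m • t = 0 ∧
      y - y' = (ℓ : ℤ) • z + t) : Y.card ≤ q := by
  classical
  set T := Submodule.torsion ℤ A with hT
  obtain ⟨τ', hτ'⟩ := uac_end τ
  have hone : ∀ x : A, τ' (T.mkQ x) = T.mkQ (τ x) := by
    intro x
    have h := hτ' 1 x
    rwa [pow_one, pow_one] at h
  have hfin : Module.finrank ℤ (A ⧸ T) = n := by
    rw [finrank_quotient_eq_of_le_torsion le_rfl, hn]
  have hsum : ∀ (c : ℕ → ℤ) (k : ℕ) (x : A), ∑ j ∈ Finset.range k, c j • (τ' ^ j) (T.mkQ x) =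
      T.mkQ (∑ j ∈ Finset.range k, c j • (τ ^ j) x) := by
    intro c k x
    rw [map_sum]
    refine Finset.sum_congr rfl fun j _ => ?_
    rw [hτ' j x, map_smul]
  have hΦ : ∑ j ∈ Finset.range (n + 1), τ' ^ j = 0 := by
    refine LinearMap.ext fun y => ?_
    obtain ⟨x, rfl⟩ := T.mkQ_surjective y
    rw [LinearMap.sum_apply, LinearMap.zero_apply]
    obtain ⟨m, hm, h⟩ := hτ x
    have h1 : ∑ j ∈ Finset.range (n + 1), (τ' ^ j) (T.mkQ x) =
        T.mkQ (∑ j ∈ Finset.range (n + 1), (τ ^ j) x) := by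
      have h2 := hsum (fun _ => 1) (n + 1) x
      simpa using h2
    rw [h1]
    exact uac_tors hm h
  have hu' : ∀ c : ℕ → ℤ, ∑ j ∈ Finset.range n, c j • (τ' ^ j) (T.mkQ u) = 0 →
      ∀ j < n, c j = 0 := by
    intro c hc
    rw [hsum] at hc
    exact hu c (uac_exists hc)
  have hchar := charpoly_eq τ' hfin hΦ hu'
  have hdet := det_quad τ' g
  rw [hchar] at hdet
  have haev : aeval g (∑ j ∈ Finset.range (n + 1), (X : ℤ[X]) ^ j) =
      ∑ i ∈ Finset.range (n + 1), g ^ i := by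
    simp
  rw [haev] at hdet
  rw [← hdet] at hg
  have hinj : Set.InjOn T.mkQ (Y : Set A) := by
    intro y hy y' hy' hyy
    by_contra hcon
    have h0 : T.mkQ (y - y') = 0 := by rw [map_sub, hyy, sub_self]
    obtain ⟨m, hm, h⟩ := uac_exists h0
    exact hne y hy y' hy' hcon ⟨0, y - y', m, hm, h, by simp⟩
  rw [← Finset.card_image_of_injOn hinj]
  refine card_le_of_det _ hℓ hq hg (Y.image T.mkQ) ?_ ?_
  · intro y hy
    obtain ⟨x, hx, rfl⟩ := Finset.mem_image.mp hy
    obtain ⟨z, t, m, hm, ht, h⟩ := hY x hx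
    refine ⟨T.mkQ z, ?_⟩
    have h1 : T.mkQ ((τ ^ 2) x - Algebra.trace ℤ (𝓞 K) g • τ x + Algebra.norm ℤ g • x) =
        (ℓ : ℤ) • T.mkQ z := by
      rw [h, map_add T.mkQ ((ℓ : ℤ) • z) t, uac_tors hm ht, add_zero, map_smul]
    rw [map_add, map_sub, map_smul, map_smul, ← hτ' 2 x, ← hone x] at h1
    rw [← h1]
    simp [LinearMap.add_apply, LinearMap.sub_apply]
  · intro y hy y' hy' hyy
    obtain ⟨x, hx, rfl⟩ := Finset.mem_image.mp hy
    obtain ⟨x', hx', rfl⟩ := Finset.mem_image.mp hy'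
    rintro ⟨z, hz⟩
    obtain ⟨z, rfl⟩ := T.mkQ_surjective z
    have hxx : x ≠ x' := by
      rintro rfl
      exact hyy rfl
    have h0 : T.mkQ (x - x' - (ℓ : ℤ) • z) = 0 := by
      rw [map_sub, map_sub, map_smul, hz, sub_self]
    obtain ⟨m, hm, h⟩ := uac_exists h0
    exact hne x hx x' hx' hxx ⟨z, x - x' - (ℓ : ℤ) • z, m, hm, h, by abel⟩

end Pool.Agent.Lib.MP_1a91b9_ntT.DB
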