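import Pool.Agent.Lib.MP_1a91b9_ntT.DB.El
import Pool.Agent.Lib.MP_1a91b9_ntT.CF.SRank

/-!
# DB: Minkowski units of a cyclic extension of an imaginary quadratic field

PROOF (complete; stream DB of helper55). Jobs UmA (`inf_places`, `log_dom`), UmB (`minkowski`), UmC
(`unit_norm`, `unit_rank`).

`k` is isomorphic to `K` (`hk`), so it has one infinite place, complex; `N/k` is Galois, cyclic with
generator `τ`, `n = [N : k]`. All the infinite places of `N` are complex, `Gal(N/k)` acts simply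
transitively on them.
`inf_places`: `f : Gal(N/k) → InfinitePlace N`, `σ ↦ σ • w0` (`InfinitePlace` has the Galois action:
`(σ • w) x = w (σ⁻¹ x)`, `InfinitePlace.smul_apply`) is a bijection. Surjective: any two places have the
same (unique) restriction to `k` (`InfinitePlace.exists_smul_eq_of_comap_eq`); injective: `N/k` is
unramified at the infinite places (the place of `k` is complex), stabilizers are trivial
(`InfinitePlace.isUnramified_iff_card_stabilizer_eq_one`), or by counting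
(`card_infinitePlace`: `InfinitePlace.card_eq_...`).
`log_dom`: real numbers `a : ZMod n → ℝ` (or functions on the group) with `a s < 0` for `s ≠ 0`,
`∑ a s = 0`; if `∑_{j < n-1} c_j a (j - i) = 0` for all `i : ZMod n` then `c = 0`. Take `i < n - 1` with
`|c_i|` maximal, suppose `c_i ≠ 0`: `a 0 |c_i| = |∑_{j ≠ i, j < n-1} a (j - i) c_j| ≤ |c_i| ∑_{j ≠ i, j < n-1}
(- a (j - i)) = |c_i| (a 0 + a ((n-1) - i)) < |c_i| a 0`, as `(n - 1) - i ≠ 0`. Contradiction.
(`Matrix.det_ne_zero_of_sum_row_lt_diag` is an alternative.)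
`minkowski`: `dirichletUnitTheorem.exists_unit w0`: a unit `u` with `log (w u) < 0` for all `w ≠ w0`.
`a s = log |τ^s u|_{w0} = log ((τ^(-s) • w0) u)`, negative for `s ≠ 0` (then `τ^(-s) • w0 ≠ w0`), and
`∑ a s = 0` (product formula for units: all the places are complex; `Units.sum_mult_mul_log`).
If `(Π_{j < n-1} (τ^j u)^(c_j))^m = 1`, `m ≠ 0`, take `log |.|` at the place `τ^i • w0`:
`log |τ^j u|_{τ^i w0} = log |τ^(j-i) u|_{w0} = a (j - i)`. So `log_dom` applies. `u` as an element of `Nˣ`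
has all orders `0`.
`unit_norm`: `x` is a unit of `𝓞 N`; the product of its conjugates is the image of its norm in `k`
(`Algebra.norm_eq_prod_automorphisms`, `j ↦ τ^j` is a bijection of `range n` with the group), a unit of
`𝓞 k`; `Units.rank k = 0` (one infinite place) so it has finite order (the group `(𝓞 k)ˣ/torsion` is
free of rank `0`).
`unit_rank`: `CF.su_finrank` for `∅`: `finrank = Units.rank N`; `Units.rank N = card (InfinitePlace N) - 1`,
`card = n` (`inf_places`).
-/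

set_option autoImplicit false

namespace Pool.Agent.Lib.MP_1a91b9_ntT.DB

open NumberField IsDedekindDomain

universe u

section
variable {k N : Type u} [Field k] [NumberField k] [Algebra K k] [Field N] [NumberField N]
  [Algebra k N] [IsGalois k N] (hk : Function.Bijective (algebraMap K k))

private theorem uma_placeK : IsTotallyComplex K ∧ ∀ v w : InfinitePlace K, v = w := by
  have hre : InfinitePlace.nrRealPlaces K = 0 :=
    IsCyclotomicExtension.Rat.nrRealPlaces_eq_zero (n := 3) K (by decide)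
  have hco : InfinitePlace.nrComplexPlaces K = 1 := by
    rw [IsCyclotomicExtension.Rat.nrComplexPlaces_eq_totient_div_two 3]
    rfl
  have hcard : Fintype.card (InfinitePlace K) = 1 := by
    rw [InfinitePlace.card_eq_nrRealPlaces_add_nrComplexPlaces, hre, hco]
  obtain ⟨w0, hw0⟩ := Fintype.card_eq_one_iff.mp hcard
  exact ⟨NumberField.nrRealPlaces_eq_zero_iff.mp hre, fun v w => (hw0 v).trans (hw0 w).symm⟩

include hk in
private theorem uma_place_k : (∀ v : InfinitePlace k, v.IsComplex) ∧ ∀ v w : InfinitePlace k, v = w := by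
  obtain ⟨h1, h2⟩ := uma_placeK
  refine ⟨fun v => InfinitePlace.IsComplex.of_comap (algebraMap K k)
    (h1.isComplex (v.comap (algebraMap K k))), fun v w => ?_⟩
  refine DFunLike.ext v w fun x => ?_
  obtain ⟨y, rfl⟩ := hk.2 x
  have h3 := congrArg (fun u : InfinitePlace K => u y)
    (h2 (v.comap (algebraMap K k)) (w.comap (algebraMap K k)))
  exact h3

include hk in
theorem inf_places (w0 : InfinitePlace N) :
    Function.Bijective (fun σ : Gal(N/k) => σ • w0) ∧ ∀ w : InfinitePlace N, w.IsComplex := by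
  obtain ⟨h1, h2⟩ := uma_place_k hk
  have h3 : ∀ w : InfinitePlace N, w.IsComplex := fun w =>
    InfinitePlace.IsComplex.of_comap (algebraMap k N) (h1 (w.comap (algebraMap k N)))
  refine ⟨⟨?_, ?_⟩, h3⟩
  · intro σ ρ h
    have h4 : InfinitePlace.IsUnramified k w0 :=
      InfinitePlace.isUnramified_iff.2 (Or.inr (h1 (w0.comap (algebraMap k N))))
    have h5 := h4.stabilizer_eq_bot
    have h6 : ρ⁻¹ * σ ∈ MulAction.stabilizer Gal(N/k) w0 := by
      rw [MulAction.mem_stabilizer_iff, mul_smul]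
      have h7 : σ • w0 = ρ • w0 := h
      rw [h7, inv_smul_smul]
    rw [h5, Subgroup.mem_bot] at h6
    exact (inv_mul_eq_one.1 h6).symm
  · intro w
    exact InfinitePlace.exists_smul_eq_of_comap_eq (h2 (w0.comap (algebraMap k N)) (w.comap (algebraMap k N)))

private theorem uma_sum {n : ℕ} [NeZero n] (f : ZMod n → ℝ) :
    ∑ j ∈ Finset.range n, f (j : ZMod n) = ∑ s : ZMod n, f s := by
  refine Finset.sum_nbij' (fun j : ℕ => (j : ZMod n)) (fun s : ZMod n => s.val) ?_ ?_ ?_ ?_ ?_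
  · intro j _
    exact Finset.mem_univ _
  · intro s _
    exact Finset.mem_range.2 (ZMod.val_lt s)
  · intro j hj
    exact ZMod.val_cast_of_lt (Finset.mem_range.1 hj)
  · intro s _
    exact ZMod.natCast_zmod_val s
  · intro j _
    rfl

private theorem uma_ne {n i j : ℕ} (hi : i < n) (hj : j < n) (h : j ≠ i) :
    (j : ZMod n) - (i : ZMod n) ≠ 0 := by
  intro h1
  rw [sub_eq_zero, ZMod.natCast_eq_natCast_iff, Nat.ModEq, Nat.mod_eq_of_lt hj,
    Nat.mod_eq_of_lt hi] at h1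
  exact h h1

theorem log_dom {n : ℕ} (hn : 2 ≤ n) (a : ZMod n → ℝ) (h0 : ∀ s : ZMod n, s ≠ 0 → a s < 0)
    (hs : ∑ᶠ s : ZMod n, a s = 0) (c : ℕ → ℝ)
    (hc : ∀ i : ℕ, ∑ j ∈ Finset.range (n - 1), c j * a ((j : ZMod n) - (i : ZMod n)) = 0) :
    ∀ j < n - 1, c j = 0 := by
  have : NeZero n := ⟨by omega⟩
  rw [finsum_eq_sum_of_fintype] at hs
  have hne : (Finset.range (n - 1)).Nonempty := ⟨0, Finset.mem_range.2 (by omega)⟩
  obtain ⟨i, hi, hmax⟩ := Finset.exists_max_image (Finset.range (n - 1)) (fun j => |c j|) hne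
  have hi' : i < n - 1 := Finset.mem_range.1 hi
  by_cases hM : c i = 0
  · intro j hj
    have h1 := hmax j (Finset.mem_range.2 hj)
    rw [hM, abs_zero] at h1
    exact abs_eq_zero.1 (le_antisymm h1 (abs_nonneg _))
  exfalso
  have hMp : 0 < |c i| := abs_pos.2 hM
  -- the sum of all the translates
  have h2 : ∑ j ∈ Finset.range n, a ((j : ZMod n) - (i : ZMod n)) = 0 := by
    rw [uma_sum fun s : ZMod n => a (s - (i : ZMod n))]
    rw [← hs]
    exact Equiv.sum_comp (Equiv.subRight (i : ZMod n)) a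
  have hn1 : n = (n - 1) + 1 := by omega
  have h3 : ∑ j ∈ Finset.range (n - 1), a ((j : ZMod n) - (i : ZMod n)) +
      a (((n - 1 : ℕ) : ZMod n) - (i : ZMod n)) = 0 := by
    rw [← Finset.sum_range_succ, ← hn1]
    exact h2
  have h4 : a (((n - 1 : ℕ) : ZMod n) - (i : ZMod n)) < 0 :=
    h0 _ (uma_ne (by omega) (by omega) (by omega))
  have h5 := hc i
  rw [← Finset.add_sum_erase _ _ hi] at h5 h3
  rw [sub_self] at h5 h3
  have h6 : |c i * a 0| ≤ ∑ j ∈ (Finset.range (n - 1)).erase i,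
      |c i| * -a ((j : ZMod n) - (i : ZMod n)) := by
    have h7 : c i * a 0 = -∑ j ∈ (Finset.range (n - 1)).erase i,
        c j * a ((j : ZMod n) - (i : ZMod n)) := by linarith
    rw [h7, abs_neg]
    refine (Finset.abs_sum_le_sum_abs _ _).trans (Finset.sum_le_sum fun j hj => ?_)
    obtain ⟨hj1, hj2⟩ := Finset.mem_erase.1 hj
    have h8 : a ((j : ZMod n) - (i : ZMod n)) < 0 :=
      h0 _ (uma_ne (by omega) (by have := Finset.mem_range.1 hj2; omega) hj1)
    rw [abs_mul, abs_of_neg h8]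
    exact mul_le_mul_of_nonneg_right (hmax j hj2) (by linarith)
  rw [← Finset.mul_sum, Finset.sum_neg_distrib, abs_mul] at h6
  have h9 : |a 0| ≤ -∑ j ∈ (Finset.range (n - 1)).erase i, a ((j : ZMod n) - (i : ZMod n)) :=
    le_of_mul_le_mul_left h6 hMp
  have h10 := le_abs_self (a 0)
  linarith

include hk in
/-- the sum of the logarithms of the conjugates of a unit -/
private theorem um_logs (w0 : InfinitePlace N) (x : (𝓞 N)ˣ) :
    ∑ σ : Gal(N/k), Real.log (w0 (σ ((x : 𝓞 N) : N))) = 0 := by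
  obtain ⟨hb, hc⟩ := inf_places hk w0
  have h1 : ∑ σ : Gal(N/k), Real.log (w0 (σ ((x : 𝓞 N) : N))) =
      ∑ σ : Gal(N/k), Real.log ((σ • w0) ((x : 𝓞 N) : N)) := by
    rw [← Equiv.sum_comp (Equiv.inv Gal(N/k))]
    refine Finset.sum_congr rfl fun σ _ => ?_
    rfl
  have h2 : ∑ σ : Gal(N/k), Real.log ((σ • w0) ((x : 𝓞 N) : N)) =
      ∑ w : InfinitePlace N, Real.log (w ((x : 𝓞 N) : N)) :=
    Fintype.sum_bijective _ hb _ _ fun σ => rfl
  have h3 := Units.sum_mult_mul_log x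
  have h4 : ∀ w ∈ (Finset.univ : Finset (InfinitePlace N)),
      (w.mult : ℝ) * Real.log (w ((x : 𝓞 N) : N)) = 2 * Real.log (w ((x : 𝓞 N) : N)) := by
    intro w _
    have h5 : w.mult = 2 := by
      unfold InfinitePlace.mult
      rw [if_neg (InfinitePlace.not_isReal_iff_isComplex.2 (hc w))]
    rw [h5]
    norm_num
  rw [Finset.sum_congr rfl h4, ← Finset.mul_sum] at h3
  rw [h1, h2]
  linarith

private theorem um_od (x : (𝓞 N)ˣ) (w : HeightOneSpectrum (𝓞 N)) : od w ((x : 𝓞 N) : N) = 0 := by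
  have hx : ((x : 𝓞 N) : N) ≠ 0 := by
    intro h
    exact x.ne_zero (RingOfIntegers.ext h)
  have hx' : (((x⁻¹ : (𝓞 N)ˣ) : 𝓞 N) : N) ≠ 0 := by
    intro h
    exact (x⁻¹).ne_zero (RingOfIntegers.ext h)
  have h1 : 0 ≤ od w ((x : 𝓞 N) : N) := (val_le_one_iff w hx).1 (w.valuation_le_one (x : 𝓞 N))
  have h2 : 0 ≤ od w (((x⁻¹ : (𝓞 N)ˣ) : 𝓞 N) : N) :=
    (val_le_one_iff w hx').1 (w.valuation_le_one ((x⁻¹ : (𝓞 N)ˣ) : 𝓞 N))
  have h3 : (((x⁻¹ : (𝓞 N)ˣ) : 𝓞 N) : N) = (((x : 𝓞 N) : N))⁻¹ := by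
    apply eq_inv_of_mul_eq_one_left
    have h4 : ((x⁻¹ : (𝓞 N)ˣ) : 𝓞 N) * (x : 𝓞 N) = 1 := Units.inv_mul x
    have h5 := congrArg (fun z : 𝓞 N => (z : N)) h4
    simp only [map_mul, map_one] at h5
    exact h5
  rw [h3, od_inv] at h2
  omega

/-- logarithm at a conjugate place -/
private noncomputable def um_lg (w0 : InfinitePlace N) (σ : Gal(N/k)) : Additive Nˣ →+ ℝ :=
  AddMonoidHom.mk' (fun x => Real.log (w0 (σ ((Additive.toMul x : Nˣ) : N)))) (by
    intro x y
    have h1 : ∀ z : Nˣ, w0 (σ (z : N)) ≠ 0 := by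
      intro z h
      rw [map_eq_zero, map_eq_zero] at h
      exact z.ne_zero h
    rw [toMul_add, Units.val_mul, map_mul, map_mul, Real.log_mul (h1 _) (h1 _)])

omit [NumberField k] [Algebra K k] [NumberField N] [IsGalois k N] in
private theorem um_lg_apply (w0 : InfinitePlace N) (σ : Gal(N/k)) (x : Nˣ) :
    um_lg w0 σ (Additive.ofMul x) = Real.log (w0 (σ (x : N))) := rfl

variable {τ : Gal(N/k)} (hτ : ∀ σ : Gal(N/k), σ ∈ Subgroup.zpowers τ) {n : ℕ}
  (hn : Module.finrank k N = n)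
omit [NumberField k] [Algebra K k] [NumberField N] [IsGalois k N] in
private theorem um_pow {n : ℕ} (ho : orderOf τ = n) [NeZero n] (i j : ℕ) :
    τ ^ ((j : ZMod n) - (i : ZMod n)).val = (τ ^ i)⁻¹ * τ ^ j := by
  rw [eq_inv_mul_iff_mul_eq, ← pow_add, pow_eq_pow_iff_modEq, ho, ← ZMod.natCast_eq_natCast_iff]
  push_cast
  rw [ZMod.natCast_zmod_val]
  ring

omit [Algebra K k] in
include hτ hn in
private theorem um_order : orderOf τ = n := by
  rw [orderOf_eq_card_of_forall_mem_zpowers hτ, IsGalois.card_aut_eq_finrank, hn]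

omit [Algebra K k] in
include hτ hn in
private theorem um_sum (F : Gal(N/k) → ℝ) :
    ∑ j ∈ Finset.range n, F (τ ^ j) = ∑ σ : Gal(N/k), F σ := by
  classical
  have ho := um_order hτ hn
  refine Finset.sum_nbij (fun j => τ ^ j) (fun _ _ => Finset.mem_univ _) ?_ ?_ (fun _ _ => rfl)
  · intro i hi j hj h
    rw [Finset.mem_coe, Finset.mem_range, ← ho] at hi hj
    exact pow_injOn_Iio_orderOf hi hj h
  · intro σ _
    have h1 := (mem_zpowers_iff_mem_range_orderOf).1 (hτ σ)
    rw [Finset.mem_image, ho] at h1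
    obtain ⟨j, hj, hj2⟩ := h1
    exact ⟨j, hj, hj2⟩

include hk hτ hn

theorem minkowski (hn2 : 2 ≤ n) : ∃ u : Nˣ, (∀ w : HeightOneSpectrum (𝓞 N), od w (u : N) = 0) ∧
    ∀ c : ℕ → ℤ, (∃ m : ℤ, m ≠ 0 ∧
      (∏ j ∈ Finset.range (n - 1), (sg (τ ^ j) u) ^ c j) ^ m = 1) → ∀ j < n - 1, c j = 0 := by
  have ho := um_order hτ hn
  have : NeZero n := ⟨by omega⟩
  obtain ⟨w0⟩ := (inferInstance : Nonempty (InfinitePlace N))
  obtain ⟨u0, hu0⟩ := Units.dirichletUnitTheorem.exists_unit N w0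
  obtain ⟨hb, hcx⟩ := inf_places hk w0
  let u : Nˣ := Units.map (algebraMap (𝓞 N) N : 𝓞 N →* N) u0
  have hu : (u : N) = ((u0 : 𝓞 N) : N) := rfl
  refine ⟨u, fun w => um_od u0 w, ?_⟩
  intro c hc
  obtain ⟨m, hm, hP⟩ := hc
  have hneg : ∀ σ : Gal(N/k), σ ≠ 1 → Real.log (w0 (σ (u : N))) < 0 := by
    intro σ hσ
    have h1 : σ⁻¹ • w0 ≠ w0 := by
      intro h
      have h2 : (fun σ : Gal(N/k) => σ • w0) σ⁻¹ = (fun σ : Gal(N/k) => σ • w0) 1 := by
        simp only [one_smul, h]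
      have h3 := hb.1 h2
      exact hσ (inv_eq_one.1 h3)
    exact hu0 (σ⁻¹ • w0) h1
  have key := log_dom hn2 (fun s : ZMod n => Real.log (w0 ((τ ^ s.val) (u : N)))) ?_ ?_
    (fun j => (c j : ℝ)) ?_
  · intro j hj
    exact_mod_cast key j hj
  · intro s hs
    apply hneg
    intro h
    apply hs
    have h1 := orderOf_dvd_of_pow_eq_one h
    rw [ho] at h1
    have h2 := Nat.eq_zero_of_dvd_of_lt h1 (ZMod.val_lt s)
    exact (ZMod.val_eq_zero s).1 h2
  · rw [finsum_eq_sum_of_fintype]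
    have h1 : ∑ s : ZMod n, Real.log (w0 ((τ ^ s.val) (u : N))) =
        ∑ j ∈ Finset.range n, Real.log (w0 ((τ ^ j) (u : N))) := by
      refine Finset.sum_nbij (fun s => s.val) (fun s _ => Finset.mem_range.2 (ZMod.val_lt s)) ?_ ?_
        (fun _ _ => rfl)
      · intro s _ t _ h
        exact ZMod.val_injective n h
      · intro j hj
        exact ⟨(j : ZMod n), Finset.mem_coe.2 (Finset.mem_univ _),
          ZMod.val_cast_of_lt (Finset.mem_range.1 hj)⟩
    rw [h1, um_sum hτ hn (fun σ => Real.log (w0 (σ (u : N))))]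
    exact um_logs hk w0 u0
  · intro i
    have h1 := congrArg (fun x : Nˣ => um_lg w0 (τ ^ i)⁻¹ (Additive.ofMul x)) hP
    simp only [ofMul_zpow, ofMul_one, map_zsmul, map_zero, ofMul_prod, map_sum] at h1
    rw [smul_eq_zero] at h1
    have h2 := h1.resolve_left hm
    rw [← h2]
    refine Finset.sum_congr rfl fun j _ => ?_
    rw [zsmul_eq_mul, um_lg_apply, um_pow ho]
    rfl

theorem unit_norm {x : Nˣ} (hx : ∀ w : HeightOneSpectrum (𝓞 N), od w (x : N) = 0) :
    ∃ m : ℤ, m ≠ 0 ∧ (∏ j ∈ Finset.range n, sg (τ ^ j) x) ^ m = 1 := by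
  obtain ⟨x0, hx0⟩ := exists_unit_of_od x.ne_zero hx
  have hsg : ∀ (σ : Gal(N/k)) (w : HeightOneSpectrum (𝓞 N)), od w (σ (x : N)) = 0 := by
    intro σ w
    have h1 := gpl_od σ (gpl σ⁻¹ w) (x : N)
    rw [← gpl_mul, mul_inv_cancel, gpl_one] at h1
    rw [h1, hx]
  have hP : ∀ w : HeightOneSpectrum (𝓞 N),
      od w (((∏ j ∈ Finset.range n, sg (τ ^ j) x : Nˣ)) : N) = 0 := by
    intro w
    rw [Units.coe_prod, od_prod w _ _ (fun j _ => Units.ne_zero _)]
    exact Finset.sum_eq_zero fun j _ => hsg (τ ^ j) w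
  obtain ⟨P0, hP0⟩ := exists_unit_of_od (Units.ne_zero _) hP
  have ht : P0 ∈ Units.torsion N := by
    rw [Units.mem_torsion]
    intro w
    have h1 : Real.log (w ((P0 : 𝓞 N) : N)) = 0 := by
      rw [hP0]
      have h2 : um_lg w (1 : Gal(N/k)) (Additive.ofMul (∏ j ∈ Finset.range n, sg (τ ^ j) x)) =
          ∑ j ∈ Finset.range n, Real.log (w ((τ ^ j) (x : N))) := by
        rw [ofMul_prod, map_sum]
        rfl
      have h3 : Real.log (w (((∏ j ∈ Finset.range n, sg (τ ^ j) x : Nˣ)) : N)) =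
          ∑ j ∈ Finset.range n, Real.log (w ((τ ^ j) (x : N))) := by
        rw [← h2]
        rfl
      rw [h3, um_sum hτ hn (fun σ => Real.log (w (σ (x : N)))), ← hx0]
      exact um_logs hk w x0
    have h4 : 0 < w ((P0 : 𝓞 N) : N) := by
      rw [InfinitePlace.pos_iff]
      intro h
      exact P0.ne_zero (RingOfIntegers.ext h)
    exact Real.eq_one_of_pos_of_log_eq_zero h4 h1
  have hf : IsOfFinOrder P0 := (CommGroup.mem_torsion P0).1 ht
  obtain ⟨m, hm, hm1⟩ := isOfFinOrder_iff_pow_eq_one.1 hf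
  refine ⟨(m : ℤ), by exact_mod_cast hm.ne', ?_⟩
  rw [zpow_natCast]
  apply Units.ext
  rw [Units.val_pow_eq_pow_val, ← hP0]
  have h5 := congrArg (fun z : (𝓞 N)ˣ => ((z : 𝓞 N) : N)) hm1
  simpa using h5

omit hτ in
theorem unit_rank :
    Module.finrank ℤ (CF.SU (∅ : Set (HeightOneSpectrum (𝓞 N)))) + 1 = n := by
  obtain ⟨w0⟩ := (inferInstance : Nonempty (InfinitePlace N))
  have hb := (inf_places hk w0).1
  have h1 : Nat.card Gal(N/k) = Nat.card (InfinitePlace N) := Nat.card_eq_of_bijective _ hb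
  rw [IsGalois.card_aut_eq_finrank, hn, Nat.card_eq_fintype_card] at h1
  rw [CF.su_finrank _ Set.finite_empty, Set.ncard_empty, add_zero]
  have h2 : 0 < n := by
    rw [← hn]
    exact Module.finrank_pos
  unfold Units.rank
  omega

end

end Pool.Agent.Lib.MP_1a91b9_ntT.DB
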