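import Pool.Agent.Lib.MP_1a91b9_ntT.DB.Xi
import Pool.Agent.Lib.MP_1a91b9_ntT.DB.UnAlg
import Pool.Agent.Lib.MP_1a91b9_ntT.DB.UnMin

/-!
# DB: isotypic units are elliptic units modulo `ℓ`-th powers

PROOF (complete; stream DB of helper55). Jobs UiA (`root_even`), UiB (`exists_w`, `xi_ne_pow`,
`iso_quad`), UiC (`iso_unit`).

`root_even`: `ζ` a root of unity of `N`, `σ` with `ga σ P = sm (-1) P`; then `σ ζ = ζ z^ℓ`.
If there is no primitive `ℓ`-th root of unity in `N`: the order `m` of `ζ` is prime to `ℓ`, so `ζ` is an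
`ℓ`-th power, `σ ζ/ζ` too. Otherwise let `ζ1` be a primitive `ℓ`-th root of unity.
Case `q = ℓ`: impossible. Let `ℓ = ϖ ϖ'` (`PD.dvd`); `ϖ'` has norm `ℓ` (`q = ℓ`, norms multiply), it is not
divisible by `ϖ` (`PD.sq`), it is a prime element. Let `w` be a place of `N` over `ϖ'` (lying over):
`w ϖ = 1` (`ϖ`, `ϖ'` coprime), `w 3 = 1`, so `unram`: `e = 1` over `k`, and `od w ϖ' = 1` (`od_map`, `hk`),
`od w ℓ = 1`. But `ℓ = Π_{0<i<ℓ} (1 - ζ1^i)` (`IsPrimitiveRoot` evaluation of the cyclotomic polynomial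
at `1`), all the factors have the same order `o ≥ 0` at `w` (they are associated integers:
`(1 - ζ1^i)/(1 - ζ1)` is a unit): `1 = (ℓ - 1) o`, contradiction with `ℓ ≥ 5`.
Case `q = ℓ^2`: the roots of unity of `N` form a finite cyclic group `μ` (`torsion`), `μ/μ^ℓ` has order
`ℓ` or `1`, the Galois group acts on it through a homomorphism to the units of `ZMod ℓ`, so every
`(ℓ - 1)`-th power acts trivially: for `ρ` there is `i` with `ρ ζ = ζ^i z^ℓ` for all `ζ ∈ μ`
(`ζ0` a generator: `ρ ζ0 = ζ0^i`), `ℓ ∤ i` (`i` prime to the order, which is divisible by `ℓ`), so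
`ρ^(ℓ-1) ζ = ζ^(i^(ℓ-1))`, and `ℓ ∣ i^(ℓ-1) - 1`. Now `-1` is an `(ℓ-1)`-th power modulo `ϖ`: with
`g` a generator modulo `ϖ` (`exists_primgen`) `g^((q-1)/2) = -1` and `(q-1)/2 = (ℓ-1)(ℓ+1)/2`: let `ρ` with
`ga ρ P = sm (g^((ℓ+1)/2)) P` (`Full.all`), then `ga (ρ^(ℓ-1)) P = sm (-1) P`, so `σ = ρ^(ℓ-1)` (`gen`).
`exists_w`: a place `w` of `N` above the place of `k` generated by `ϖ` (`hk`); `ram` with
`od v ϖ = 1`: `od w (tc P) = 1`. `xi_ne_pow`: `xi_pow` with `hz : w 0 ≤ ..`.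
`iso_quad`: `A` the additive map of `y`; `g^2 - tr g + nm = 0` (Cayley-Hamilton, `Algebra.trace`, `norm`
of an element of a quadratic ring, coordinates), so `A (g^2) - tr A g + nm A 1 = 0`, and
`el (sg (τ^2) y) = A (g^2)`, etc.
`iso_unit`: `g` from `exists_primgen`, `τ` with `ga τ P = sm g P`; `τ` generates. `A = CF.SU ∅` (units; a
subgroup of `Additive Nˣ`, `od_eq_ord`), with the endomorphism induced by `sg τ` (`CF.su_finite` for
`Module.Finite`). `n = [N : k] - 1 = q - 2` (`Full.card`), `unit_rank`, `unit_norm`, `minkowski`: the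
hypotheses of `count_abs`. Suppose `ε` is not congruent to any `xi c`, `c ∈ T ∪ {0}`, modulo `ℓ A` and
torsion. The `q` elements `xi c` are incongruent: `xi c / xi d = z^ℓ t`, `t` torsion, gives
`xi (c - d) = z'^ℓ t` (`xi_add`, `xi_neg`), apply `σ` (`σ_{-1}`): `xi (c - d)⁻¹ = xi (-(c - d)) = (σ z')^ℓ
t z''^ℓ` (`xi_ga`, `root_even`), so `xi (c-d)^2` is an `ℓ`-th power, `xi (c - d)` too (`pow_coprime`),
`ϖ ∣ c - d` (`xi_ne_pow`). `Y = {ε} ∪ {xi c}` has `q + 1` elements and `hY` holds by `iso_quad` (`xi_iso`):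
contradiction (`T.card + 1 = q`: `exists_isRes`, any two systems have the same cardinality; or count
classes). So `ε = xi c z^ℓ t` with `t` a root of unity. `t` is isotypic (`Iso.mul`, `Iso.inv`,
`Iso.pow_ell`), `sg σ t * t` is an `ℓ`-th power (`Iso.neg_one`) and `sg σ t = t z^ℓ` (`root_even`), so `t^2`
is an `ℓ`-th power, `t` too.
-/

set_option autoImplicit false

namespace Pool.Agent.Lib.MP_1a91b9_ntT.DB

open NumberField IsDedekindDomain WeierstrassCurve

universe u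

noncomputable section

private theorem uia_mem {F : Type u} [Field F] [NumberField F] (v : HeightOneSpectrum (𝓞 F)) (x : 𝓞 F) :
    v.valuation F (x : F) < 1 ↔ x ∈ v.asIdeal := v.valuation_lt_one_iff_mem x

private theorem uia_one_notMem {F : Type u} [Field F] [NumberField F] (v : HeightOneSpectrum (𝓞 F)) :
    (1 : 𝓞 F) ∉ v.asIdeal := fun h => v.isPrime.ne_top ((Ideal.eq_top_iff_one _).2 h)

private theorem uia_val_one {F : Type u} [Field F] [NumberField F] (v : HeightOneSpectrum (𝓞 F)) {x : 𝓞 F}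
    (hx : x ∉ v.asIdeal) : v.valuation F (x : F) = 1 := by
  refine le_antisymm (v.valuation_le_one x) ?_
  rw [← not_lt, uia_mem]
  exact hx

private theorem uia_dvd {F : Type u} [Field F] [NumberField F] [Algebra K F] (v : HeightOneSpectrum (𝓞 F))
    {x y : 𝓞 K} (h : x ∣ y) (hx : algebraMap (𝓞 K) (𝓞 F) x ∈ v.asIdeal) :
    algebraMap (𝓞 K) (𝓞 F) y ∈ v.asIdeal := by
  obtain ⟨c, rfl⟩ := h
  rw [map_mul]
  exact Ideal.mul_mem_right _ _ hx

/-- a place does not contain two coprime elements -/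
private theorem uia_coprime {F : Type u} [Field F] [NumberField F] [Algebra K F]
    (v : HeightOneSpectrum (𝓞 F)) {a b : 𝓞 K} (hab : IsCoprime a b)
    (ha : algebraMap (𝓞 K) (𝓞 F) a ∈ v.asIdeal) (hb : algebraMap (𝓞 K) (𝓞 F) b ∈ v.asIdeal) : False := by
  obtain ⟨x, y, hxy⟩ := hab
  apply uia_one_notMem v
  have h1 : (1 : 𝓞 F) = algebraMap (𝓞 K) (𝓞 F) x * algebraMap (𝓞 K) (𝓞 F) a +
      algebraMap (𝓞 K) (𝓞 F) y * algebraMap (𝓞 K) (𝓞 F) b := by
    rw [← map_mul, ← map_mul, ← map_add, hxy, map_one]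
  rw [h1]
  exact Ideal.add_mem _ (Ideal.mul_mem_left _ _ ha) (Ideal.mul_mem_left _ _ hb)

private theorem uia_sub {F : Type u} [Field F] {Γ : Type*} [LinearOrderedCommGroupWithZero Γ]
    (V : Valuation F Γ) {z : F} (hz : V z ≤ 1) (i : ℕ) : V (1 - z ^ i) ≤ V (1 - z) := by
  rw [← geom_sum_mul_neg, map_mul]
  refine mul_le_of_le_one_left' ?_
  refine V.map_sum_le fun j _ => ?_
  rw [map_pow]
  exact pow_le_one₀ zero_le hz

/-- the order of `ℓ` is a multiple of `ℓ - 1` if there is a primitive `ℓ`-th root of unity -/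
private theorem uia_od {F : Type u} [Field F] [NumberField F] (w : HeightOneSpectrum (𝓞 F)) {ℓ : ℕ}
    (hℓ : ℓ.Prime) {ζ : F} (hζ : IsPrimitiveRoot ζ ℓ) :
    od w (ℓ : F) = ((ℓ - 1 : ℕ) : ℤ) * od w (1 - ζ) := by
  have hℓ1 : ℓ = (ℓ - 1) + 1 := by have := hℓ.one_lt; omega
  have hz1 : w.valuation F ζ ≤ 1 := by
    have h1 : w.valuation F ζ ^ ℓ = 1 := by rw [← map_pow, hζ.pow_eq_one, map_one]
    exact le_of_eq ((pow_eq_one_iff.1 h1).resolve_right hℓ.ne_zero)
  have hprod : ∏ j ∈ Finset.range (ℓ - 1), (1 - ζ ^ (j + 1)) = (ℓ : F) := by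
    have h2 := (hℓ1 ▸ hζ : IsPrimitiveRoot ζ ((ℓ - 1) + 1)).prod_one_sub_pow_eq_order
    rw [h2, ← Nat.cast_add_one, ← hℓ1]
  have hne : ∀ j ∈ Finset.range (ℓ - 1), (1 - ζ ^ (j + 1)) ≠ 0 := by
    intro j hj h0
    rw [Finset.mem_range] at hj
    have h3 : ζ ^ (j + 1) = 1 := (sub_eq_zero.1 h0).symm
    have h4 := hζ.dvd_of_pow_eq_one _ h3
    have h5 := Nat.le_of_dvd (by omega) h4
    omega
  have hval : ∀ j ∈ Finset.range (ℓ - 1), od w (1 - ζ ^ (j + 1)) = od w (1 - ζ) := by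
    intro j hj
    rw [Finset.mem_range] at hj
    have hco : (j + 1).Coprime ℓ := by
      rw [Nat.coprime_comm, hℓ.coprime_iff_not_dvd]
      intro h4
      have h5 := Nat.le_of_dvd (by omega) h4
      omega
    have hord : orderOf ζ = ℓ := hζ.eq_orderOf.symm
    obtain ⟨m, hm⟩ := exists_pow_eq_self_of_coprime (x := ζ) (n := j + 1) (by rw [hord]; exact hco)
    have h1 : w.valuation F (1 - ζ ^ (j + 1)) ≤ w.valuation F (1 - ζ) := uia_sub _ hz1 _
    have h2 : w.valuation F (1 - ζ) ≤ w.valuation F (1 - ζ ^ (j + 1)) := by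
      have h3 := uia_sub (w.valuation F) (z := ζ ^ (j + 1)) (by
        rw [map_pow]; exact pow_le_one₀ zero_le hz1) m
      rwa [hm] at h3
    unfold od
    rw [le_antisymm h1 h2]
  rw [← hprod, od_prod w _ _ hne, Finset.sum_congr rfl hval, Finset.sum_const, Finset.card_range,
    nsmul_eq_mul]

/-- an element whose `(ℓ - 1)`-th power is `-1` -/
private theorem uia_neg_one {ϖ : 𝓞 K} {ℓ q : ℕ} (h : PD ϖ ℓ q) (hq : q = ℓ ^ 2) :
    ∃ c : 𝓞 K, ¬ ϖ ∣ c ∧ ϖ ∣ c ^ (ℓ - 1) - (-1) := by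
  classical
  have hℓ : Fact ℓ.Prime := ⟨h.hl⟩
  set I : Ideal (𝓞 K) := Ideal.span {ϖ} with hI
  have hIp : I.IsPrime := (Ideal.span_singleton_prime h.prime.ne_zero).2 h.prime
  have hI0 : I ≠ ⊥ := by
    rw [hI, Ne, Ideal.span_singleton_eq_bot]
    exact h.prime.ne_zero
  have hmax : I.IsMaximal := hIp.isMaximal hI0
  let _ : Field (𝓞 K ⧸ I) := Ideal.Quotient.field I
  have hfin : Finite (𝓞 K ⧸ I) := I.finiteQuotientOfFreeOfNeBot hI0
  have := Fintype.ofFinite (𝓞 K ⧸ I)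
  have hcard : Fintype.card (𝓞 K ⧸ I) = q := by
    rw [← Nat.card_eq_fintype_card]
    exact h.norm
  have hl0 : ((ℓ : ℕ) : 𝓞 K ⧸ I) = 0 := by
    have h1 : Ideal.Quotient.mk I (ℓ : 𝓞 K) = 0 :=
      Ideal.Quotient.eq_zero_iff_mem.2 (Ideal.mem_span_singleton.2 h.dvd)
    rwa [map_natCast] at h1
  have hchar : CharP (𝓞 K ⧸ I) ℓ := (CharP.charP_iff_prime_eq_zero h.hl).2 hl0
  -- an element which is not fixed by Frobenius
  have hy : ∃ y : 𝓞 K ⧸ I, y ^ ℓ ≠ y := by
    by_contra hc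
    push Not at hc
    have h2 : (Finset.univ : Finset (𝓞 K ⧸ I)).card ≤
        ((Polynomial.X ^ ℓ - Polynomial.X : Polynomial (𝓞 K ⧸ I))).natDegree := by
      refine Polynomial.card_le_degree_of_subset_roots fun y _ => ?_
      rw [Polynomial.mem_roots (FiniteField.X_pow_card_sub_X_ne_zero _ h.hl.one_lt)]
      simp [hc y]
    rw [FiniteField.X_pow_card_sub_X_natDegree_eq _ h.hl.one_lt, Finset.card_univ, hcard, hq] at h2
    have h3 := h.hl.one_lt
    nlinarith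
  obtain ⟨y, hy⟩ := hy
  have hx0 : y - y ^ ℓ ≠ 0 := fun h1 => hy (sub_eq_zero.1 h1).symm
  have hx1 : (y - y ^ ℓ) ^ ℓ = -(y - y ^ ℓ) := by
    rw [sub_pow_char, ← pow_mul, ← sq, ← hq, ← hcard, FiniteField.pow_card]
    ring
  obtain ⟨c, hc⟩ := Ideal.Quotient.mk_surjective (y - y ^ ℓ)
  refine ⟨c, fun hd => ?_, ?_⟩
  · apply hx0
    rw [← hc]
    exact Ideal.Quotient.eq_zero_iff_mem.2 (Ideal.mem_span_singleton.2 hd)
  · rw [← Ideal.mem_span_singleton, ← hI, ← Ideal.Quotient.eq, map_pow, hc, map_neg, map_one]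
    have h1 : (y - y ^ ℓ) ^ (ℓ - 1) * (y - y ^ ℓ) = -1 * (y - y ^ ℓ) := by
      rw [← pow_succ, Nat.sub_add_cancel h.hl.one_lt.le, hx1]
      ring
    exact mul_right_cancel₀ hx0 h1

section
variable {k N : Type u} [Field k] [NumberField k] [Field N] [NumberField N] [Algebra k N]

/-- the place of `k` generated by a prime element of `𝓞 K` -/
private theorem uib_place [Algebra K k] (hk : Function.Bijective (algebraMap K k)) {ϖ : 𝓞 K} (hϖ : Prime ϖ) :
    ∃ v : HeightOneSpectrum (𝓞 k), od v (algebraMap K k (ϖ : K)) = 1 := by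
  have hinj : Function.Injective (algebraMap (𝓞 K) (𝓞 k)) := by
    intro x y hxy
    apply RingOfIntegers.ext
    apply (algebraMap K k).injective
    exact congrArg (fun z : 𝓞 k => (z : k)) hxy
  have hsurj : Function.Surjective (algebraMap (𝓞 K) (𝓞 k)) := by
    intro x
    obtain ⟨a, ha⟩ := hk.2 (x : k)
    have hint : IsIntegral ℤ a := by
      have h1 : IsIntegral ℤ (algebraMap K k a) := by
        rw [ha]
        exact x.isIntegral_coe
      exact (isIntegral_algebraMap_iff (algebraMap K k).injective).1 h1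
    refine ⟨⟨a, hint⟩, ?_⟩
    apply RingOfIntegers.ext
    exact ha
  let e : 𝓞 K ≃+* 𝓞 k := RingEquiv.ofBijective (algebraMap (𝓞 K) (𝓞 k)) ⟨hinj, hsurj⟩
  have hp : Prime (e ϖ) := (MulEquiv.prime_iff e.toMulEquiv).2 hϖ
  let v : HeightOneSpectrum (𝓞 k) :=
    { asIdeal := Ideal.span {e ϖ}
      isPrime := (Ideal.span_singleton_prime hp.ne_zero).2 hp
      ne_bot := by
        rw [Ne, Ideal.span_singleton_eq_bot]
        exact hp.ne_zero }
  refine ⟨v, ?_⟩
  have h1 : v.valuation k (algebraMap K k (ϖ : K)) = WithZero.exp (-1 : ℤ) := by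
    have h2 : algebraMap K k (ϖ : K) = algebraMap (𝓞 k) k (e ϖ) := rfl
    rw [h2, HeightOneSpectrum.valuation_of_algebraMap]
    exact HeightOneSpectrum.intValuation_singleton v hp.ne_zero rfl
  unfold od
  rw [h1, WithZero.log_exp]
  rfl

omit [NumberField N] in
private theorem uib_over (v : HeightOneSpectrum (𝓞 k)) :
    ∃ W : HeightOneSpectrum (𝓞 N), W.under (𝓞 k) = v := by
  obtain ⟨P, hPm, hP⟩ := Ideal.exists_maximal_ideal_liesOver_of_isIntegral (S := 𝓞 N) v.asIdeal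
  refine ⟨⟨P, hPm.isPrime, ?_⟩, ?_⟩
  · intro hb
    apply v.ne_bot
    rw [hP.over, hb]
    exact Ideal.comap_bot_of_injective _ (FaithfulSMul.algebraMap_injective (𝓞 k) (𝓞 N))
  · apply HeightOneSpectrum.ext
    exact hP.over.symm

end

/-- the quadratic equation of an element of `𝓞 K` -/
private theorem uib_quad (g : 𝓞 K) : g ^ 2 - ((Algebra.trace ℤ (𝓞 K) g : ℤ) : 𝓞 K) * g +
    ((Algebra.norm ℤ g : ℤ) : 𝓞 K) = 0 := by
  have hfr : Module.finrank ℤ (𝓞 K) = 2 := by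
    rw [RingOfIntegers.rank, S3.finrank_K]
  let b : Module.Basis (Fin 2) ℤ (𝓞 K) := Module.finBasisOfFinrankEq ℤ (𝓞 K) hfr
  have h1 := Matrix.aeval_self_charpoly (Algebra.leftMulMatrix b g)
  rw [Polynomial.aeval_algHom_apply] at h1
  have h2 : Polynomial.aeval g (Algebra.leftMulMatrix b g).charpoly = 0 :=
    Algebra.leftMulMatrix_injective b (by rw [h1, map_zero])
  rw [Matrix.charpoly_fin_two] at h2
  rw [Algebra.trace_eq_matrix_trace b, Algebra.norm_eq_matrix_det b]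
  simpa using h2

section
variable {k N : Type u} [Field k] [NumberField k] [Field N] [NumberField N] [Algebra k N]

private def uic_val (x : CF.SU (∅ : Set (HeightOneSpectrum (𝓞 N)))) : Nˣ :=
  Additive.toMul (x : Additive Nˣ)

private theorem uic_val_inj {x y : CF.SU (∅ : Set (HeightOneSpectrum (𝓞 N)))}
    (h : uic_val x = uic_val y) : x = y :=
  Subtype.ext (Additive.toMul.injective h)

private theorem uic_val_add (x y : CF.SU (∅ : Set (HeightOneSpectrum (𝓞 N)))) :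
    uic_val (x + y) = uic_val x * uic_val y := rfl

private theorem uic_val_sub (x y : CF.SU (∅ : Set (HeightOneSpectrum (𝓞 N)))) :
    uic_val (x - y) = uic_val x / uic_val y := rfl

private theorem uic_val_zsmul (m : ℤ) (x : CF.SU (∅ : Set (HeightOneSpectrum (𝓞 N)))) :
    uic_val (m • x) = uic_val x ^ m := rfl

private theorem uic_val_zero : uic_val (0 : CF.SU (∅ : Set (HeightOneSpectrum (𝓞 N)))) = 1 := rfl

private theorem uic_val_sum {ι : Type*} (s : Finset ι)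
    (f : ι → CF.SU (∅ : Set (HeightOneSpectrum (𝓞 N)))) :
    uic_val (∑ i ∈ s, f i) = ∏ i ∈ s, uic_val (f i) := by
  classical
  induction s using Finset.induction_on with
  | empty => rfl
  | insert a s ha ih =>
    rw [Finset.sum_insert ha, Finset.prod_insert ha, ← ih]
    rfl

private theorem uic_od (x : CF.SU (∅ : Set (HeightOneSpectrum (𝓞 N))))
    (w : HeightOneSpectrum (𝓞 N)) : od w (uic_val x : N) = 0 := by
  rw [od_eq_ord]
  exact x.2 w (Set.notMem_empty w)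

private def uic_mk (y : Nˣ) (hy : ∀ w : HeightOneSpectrum (𝓞 N), od w (y : N) = 0) :
    CF.SU (∅ : Set (HeightOneSpectrum (𝓞 N))) :=
  ⟨Additive.ofMul y, fun w _ => by rw [← od_eq_ord]; exact hy w⟩

private theorem uic_val_mk (y : Nˣ) (hy : ∀ w : HeightOneSpectrum (𝓞 N), od w (y : N) = 0) :
    uic_val (uic_mk y hy) = y := rfl

private theorem uic_od_sg (σ : Gal(N/k)) (y : Nˣ)
    (hy : ∀ w : HeightOneSpectrum (𝓞 N), od w (y : N) = 0) (w : HeightOneSpectrum (𝓞 N)) :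
    od w ((sg σ y : Nˣ) : N) = 0 := by
  have h1 : gpl σ (gpl σ⁻¹ w) = w := by rw [← gpl_mul, mul_inv_cancel, gpl_one]
  rw [← h1, sg_coe, gpl_od]
  exact hy _

/-- the automorphism of the group of the units -/
private def uic_tau (τ : Gal(N/k)) :
    Module.End ℤ (CF.SU (∅ : Set (HeightOneSpectrum (𝓞 N)))) :=
  AddMonoidHom.toIntLinearMap (AddMonoidHom.mk'
    (fun x => uic_mk (sg τ (uic_val x)) (uic_od_sg τ _ (uic_od x))) (by
      intro x y
      apply uic_val_inj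
      exact sg_mul τ (uic_val x) (uic_val y)))

private theorem uic_val_tau (τ : Gal(N/k)) (x : CF.SU (∅ : Set (HeightOneSpectrum (𝓞 N)))) :
    uic_val (uic_tau τ x) = sg τ (uic_val x) := rfl

private theorem uic_val_pow (τ : Gal(N/k)) (j : ℕ)
    (x : CF.SU (∅ : Set (HeightOneSpectrum (𝓞 N)))) :
    uic_val ((uic_tau τ ^ j) x) = sg (τ ^ j) (uic_val x) := by
  induction j with
  | zero =>
    rw [pow_zero, pow_zero]
    exact Units.ext rfl
  | succ j ih => rw [pow_succ', pow_succ', Module.End.mul_apply, uic_val_tau, ih, sg_sg]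

private theorem uic_nat {t : Nˣ} {m : ℤ} (hm : m ≠ 0) (ht : t ^ m = 1) :
    ∃ m' : ℕ, m' ≠ 0 ∧ t ^ m' = 1 := by
  refine ⟨m.natAbs, Int.natAbs_ne_zero.2 hm, ?_⟩
  rcases Int.natAbs_eq m with h | h
  · rw [h, zpow_natCast] at ht
    exact ht
  · rw [h, zpow_neg, zpow_natCast, inv_eq_one] at ht
    exact ht

end

section
variable {k N : Type u} [Field k] [NumberField k] [Algebra K k] [Field N] [NumberField N]
  [Algebra K N] [Algebra k N] [IsScalarTower K k N] [DecidableEq N] [IsGalois k N]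
  {ϖ : 𝓞 K} {ℓ q : ℕ} (h : PD ϖ ℓ q) {P : Pt N} (hF : Full k ϖ P)
include h hF

private theorem uic_gen {g : 𝓞 K} (hg : ∀ c : 𝓞 K, ¬ ϖ ∣ c → ∃ i : ℕ, ϖ ∣ c - g ^ i)
    {τ : Gal(N/k)} (hτ : ga τ P = sm N g P) (σ : Gal(N/k)) : σ ∈ Subgroup.zpowers τ := by
  obtain ⟨c, _, hσ⟩ := gal_sm h.prime.ne_zero hF.ord σ
  obtain ⟨i, hi⟩ := hg c (Full.c_ne h hF hσ)
  have h1 : ∀ i : ℕ, ga (τ ^ i) P = sm N (g ^ i) P := by
    intro i
    induction i with
    | zero =>
      rw [pow_zero, pow_zero, ga_one, map_one]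
      rfl
    | succ i ih =>
      rw [pow_succ, ga_mul, hτ, ga_sm, ih, pow_succ', map_mul]
      rfl
  have h2 : ga σ P = ga (τ ^ i) P := by
    rw [hσ, h1]
    exact (hF.ord.sm_eq_iff c (g ^ i)).2 hi
  have h3 : ga ((τ ^ i)⁻¹ * σ) P = P := by
    rw [ga_mul, h2, ← ga_mul, inv_mul_cancel, ga_one]
  have h4 := hF.gen _ h3
  refine ⟨i, ?_⟩
  show τ ^ (i : ℤ) = σ
  rw [zpow_natCast]
  exact inv_mul_eq_one.1 h4

end

private theorem uic_card {ϖ : 𝓞 K} {T T' : Finset (𝓞 K)} (hT : IsRes ϖ T) (hT' : IsRes ϖ T') :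
    T.card ≤ T'.card := by
  classical
  have key : ∀ a ∈ T, ∃ b ∈ T', ϖ ∣ a - b := fun a ha => hT'.ex a (hT.nz a ha)
  choose! f hf hf' using key
  apply Finset.card_le_card_of_injOn f hf
  intro a ha b hb hab
  apply hT.uniq a ha b hb
  have h1 := hf' a ha
  have h2 := hf' b hb
  rw [← hab] at h2
  have h3 : a - b = (a - f a) - (b - f a) := by ring
  rw [h3]
  exact dvd_sub h1 h2

private theorem uic_card_T {ϖ : 𝓞 K} {ℓ q : ℕ} (h : PD ϖ ℓ q) {T : Finset (𝓞 K)}
    (hT : IsRes ϖ T) : T.card + 1 = q := by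
  obtain ⟨T', hT', hc⟩ := exists_isRes h.prime.ne_zero
  rw [h.norm] at hc
  have h1 := uic_card hT hT'
  have h2 := uic_card hT' hT
  omega

section
variable {k N : Type u} [Field k] [NumberField k] [Algebra K k] [Field N] [NumberField N]
  [Algebra K N] [Algebra k N] [IsScalarTower K k N] [DecidableEq N] [IsGalois k N]
  {ϖ : 𝓞 K} {ℓ q : ℕ} (h : PD ϖ ℓ q) {P : Pt N} (hF : Full k ϖ P)
  (hk : Function.Bijective (algebraMap K k))
include h hF

theorem iso_quad {g : 𝓞 K} {τ : Gal(N/k)} (hτ : ga τ P = sm N g P) {y : Nˣ}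
    (hy : Iso k ℓ P y) : ∃ z : Nˣ, sg (τ ^ 2) y * (sg τ y) ^ (-Algebra.trace ℤ (𝓞 K) g) *
      y ^ (Algebra.norm ℤ g) = z ^ ℓ := by
  obtain ⟨A, hA⟩ := hy
  have e2 : el ℓ (sg (τ ^ 2) y) = A (g ^ 2) := hA (τ ^ 2) (g ^ 2) (by
    rw [pow_two, ga_mul, hτ, ga_sm, hτ, pow_two, map_mul]
    rfl)
  have e1 : el ℓ (sg τ y) = A g := hA τ g hτ
  have e0 : el ℓ y = A 1 := by
    have h1 := hA 1 1 (by
      rw [ga_one, map_one]
      rfl)
    rw [← h1]
    congr 1
  have hm : ∀ (t : ℤ) (x : 𝓞 K), t • A x = A (t • x) := fun t x => (map_zsmul A t x).symm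
  rw [← el_eq_zero, el_mul, el_mul, el_zpow, el_zpow, e2, e1, e0, hm, hm, ← map_add, ← map_add]
  have h3 : g ^ 2 + (-Algebra.trace ℤ (𝓞 K) g) • g + (Algebra.norm ℤ g) • (1 : 𝓞 K) = 0 := by
    rw [zsmul_eq_mul, zsmul_eq_mul]
    push_cast
    linear_combination uib_quad g
  rw [h3, map_zero]

include hk

/-- if `q = ℓ` there is no primitive `ℓ`-th root of unity -/
private theorem uia_no_root (hq : q = ℓ) {ζ : N} (hζ : IsPrimitiveRoot ζ ℓ) : False := by
  obtain ⟨ϖ', hϖ'⟩ := h.dvd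
  have hpid : IsPrincipalIdealRing (𝓞 K) := IsCyclotomicExtension.Rat.three_pid K
  have hn : Ideal.absNorm (Ideal.span {ϖ'}) = ℓ := by
    have h1 : Ideal.absNorm (Ideal.span {ϖ}) * Ideal.absNorm (Ideal.span {ϖ'}) = ℓ ^ 2 := by
      rw [← map_mul, Ideal.span_singleton_mul_span_singleton, ← hϖ']
      exact S4.u4_absNorm_p ℓ
    rw [h.norm, hq, sq] at h1
    exact Nat.eq_of_mul_eq_mul_left h.hl.pos h1
  have hϖ0 : ϖ' ≠ 0 := by
    intro h0
    rw [h0, mul_zero] at hϖ'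
    have : (ℓ : 𝓞 K) ≠ 0 := Nat.cast_ne_zero.2 h.hl.ne_zero
    exact this hϖ'
  have hpr : Prime ϖ' := by
    rw [← Ideal.span_singleton_prime hϖ0]
    refine Ideal.isPrime_of_irreducible_absNorm ?_
    rw [hn]
    exact h.hl
  have hnd : ¬ ϖ ∣ ϖ' := by
    rintro ⟨c, hc⟩
    apply h.sq
    refine ⟨c, ?_⟩
    rw [hϖ', hc]
    ring
  have hco : IsCoprime ϖ ϖ' := h.prime.irreducible.coprime_iff_not_dvd.2 hnd
  -- the place of `k`
  let e : K ≃+* k := RingEquiv.ofBijective (algebraMap K k) hk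
  set b : 𝓞 k := RingOfIntegers.mapRingEquiv e ϖ' with hb
  have hbk : ((b : 𝓞 k) : k) = algebraMap K k (ϖ' : K) := rfl
  have hbp : Prime b := (MulEquiv.prime_iff (RingOfIntegers.mapRingEquiv e)).2 hpr
  have hsp : (Ideal.span {b}).IsPrime := (Ideal.span_singleton_prime hbp.ne_zero).2 hbp
  have hb0 : Ideal.span {b} ≠ ⊥ := by
    rw [Ne, Ideal.span_singleton_eq_bot]
    exact hbp.ne_zero
  have hsm : (Ideal.span {b}).IsMaximal := hsp.isMaximal hb0
  obtain ⟨Q, hQm, hQ⟩ := Ideal.exists_ideal_over_maximal_of_isIntegral (S := 𝓞 N) (Ideal.span {b}) (by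
    rw [(RingHom.injective_iff_ker_eq_bot _).1 (FaithfulSMul.algebraMap_injective (𝓞 k) (𝓞 N))]
    exact bot_le)
  have hQ0 : Q ≠ ⊥ := by
    intro h0
    rw [h0, ← RingHom.ker_eq_comap_bot,
      (RingHom.injective_iff_ker_eq_bot _).1 (FaithfulSMul.algebraMap_injective (𝓞 k) (𝓞 N))] at hQ
    exact hb0 hQ.symm
  let w : HeightOneSpectrum (𝓞 N) := ⟨Q, hQm.isPrime, hQ0⟩
  have hwu : (w.under (𝓞 k)).asIdeal = Ideal.span {b} := hQ
  have hwb : algebraMap (𝓞 k) (𝓞 N) b ∈ w.asIdeal := by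
    have h1 : b ∈ Q.comap (algebraMap (𝓞 k) (𝓞 N)) := by
      rw [hQ]
      exact Ideal.mem_span_singleton_self _
    exact h1
  have e0 : algebraMap (𝓞 k) (𝓞 N) b = algebraMap (𝓞 K) (𝓞 N) ϖ' := by
    apply RingOfIntegers.ext
    show algebraMap k N (algebraMap K k (ϖ' : K)) = algebraMap K N (ϖ' : K)
    rw [← IsScalarTower.algebraMap_apply]
  have hwϖ' : algebraMap (𝓞 K) (𝓞 N) ϖ' ∈ w.asIdeal := by rw [← e0]; exact hwb
  have hwϖ : w.valuation N (algebraMap K N (ϖ : K)) = 1 :=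
    uia_val_one w (x := algebraMap (𝓞 K) (𝓞 N) ϖ) fun h1 => uia_coprime w hco h1 hwϖ'
  have h3 : w.valuation N (3 : N) = 1 := by
    have h4 : IsCoprime (3 : 𝓞 K) (ℓ : 𝓞 K) := by
      have h5 : IsCoprime ((3 : ℕ) : ℤ) (ℓ : ℤ) := by
        rw [Nat.isCoprime_iff_coprime, Nat.coprime_primes Nat.prime_three h.hl]
        have := h.five
        omega
      have h6 := h5.map (Int.castRingHom (𝓞 K))
      simpa using h6
    have h7 : algebraMap (𝓞 K) (𝓞 N) 3 ∉ w.asIdeal := fun h1 =>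
      uia_coprime w h4 h1 (uia_dvd w ⟨ϖ, by rw [hϖ']; ring⟩ hwϖ')
    have h8 := uia_val_one w h7
    rw [map_ofNat] at h8
    have h9 : ((3 : 𝓞 N) : N) = 3 := map_ofNat (algebraMap (𝓞 N) N) 3
    rwa [h9] at h8
  have hram : w.asIdeal.ramificationIdx (𝓞 k) = 1 :=
    unram h.prime h.one hF.ord hF.gen w h3 hwϖ
  -- the order of `ℓ`
  have hod' : od w (algebraMap K N (ϖ' : K)) = 1 := by
    have e1 : algebraMap K N (ϖ' : K) = algebraMap k N (algebraMap K k (ϖ' : K)) :=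
      IsScalarTower.algebraMap_apply K k N _
    rw [e1, od_map, hram, Nat.cast_one, one_mul, ← hbk]
    have h4 : (w.under (𝓞 k)).valuation k ((b : 𝓞 k) : k) = WithZero.exp (-1 : ℤ) := by
      rw [HeightOneSpectrum.valuation_of_algebraMap]
      exact (w.under (𝓞 k)).intValuation_singleton hbp.ne_zero hwu
    unfold od
    rw [h4, WithZero.log_exp, neg_neg]
  have hne : ∀ x : 𝓞 K, x ≠ 0 → algebraMap K N (x : K) ≠ 0 := by
    intro x hx h0
    apply hx
    apply RingOfIntegers.ext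
    have h1 := (algebraMap K N).injective (h0.trans (map_zero _).symm)
    exact h1
  have hodl : od w (ℓ : N) = 1 := by
    have e2 : (ℓ : N) = algebraMap K N (ϖ : K) * algebraMap K N (ϖ' : K) := by
      have h1 : ((ℓ : 𝓞 K) : K) = (ϖ : K) * (ϖ' : K) := by rw [hϖ']; rfl
      rw [← map_mul, ← h1]
      simp
    rw [e2, od_mul w (hne _ h.prime.ne_zero) (hne _ hϖ0), hod',
      (val_eq_one_iff w (hne _ h.prime.ne_zero)).1 hwϖ, zero_add]
  have hk1 := uia_od w h.hl hζ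
  rw [hodl] at hk1
  have h5 : (((ℓ - 1 : ℕ) : ℤ)) ∣ 1 := ⟨_, hk1⟩
  have h6 := Int.le_of_dvd one_pos h5
  have h7 := h.five
  omega

theorem root_even {ζ : Nˣ} {m : ℕ} (hm : m ≠ 0) (hζ : ζ ^ m = 1) {σ : Gal(N/k)}
    (hσ : ga σ P = sm N (-1) P) : ∃ z : Nˣ, sg σ ζ = ζ * z ^ ℓ := by
  have hn0 : 0 < orderOf ζ :=
    orderOf_pos_iff.2 (isOfFinOrder_iff_pow_eq_one.2 ⟨m, Nat.pos_of_ne_zero hm, hζ⟩)
  by_cases hln : ℓ ∣ orderOf ζ
  · -- the interesting case
    have hprim : IsPrimitiveRoot ζ (orderOf ζ) := IsPrimitiveRoot.orderOf ζ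
    rcases h.alt with hq | hq
    · exfalso
      obtain ⟨a, ha⟩ := hln
      have h1 : IsPrimitiveRoot (ζ ^ a) ℓ := hprim.pow hn0 (by rw [ha]; ring)
      exact uia_no_root h hF hk hq (IsPrimitiveRoot.coe_units_iff.2 h1)
    · obtain ⟨c, hc0, hc1⟩ := uia_neg_one h hq
      obtain ⟨ρ, hρ⟩ := hF.all c hc0
      -- powers of `ρ`
      have hpow : ∀ j : ℕ, ga (ρ ^ j) P = sm N (c ^ j) P := by
        intro j
        induction j with
        | zero =>
          rw [pow_zero, pow_zero, ga_one, map_one]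
          rfl
        | succ j ih =>
          rw [pow_succ', ga_mul, ih, ga_sm, hρ, pow_succ, map_mul]
          rfl
      have h2 : ga (ρ ^ (ℓ - 1)) P = ga σ P := by
        rw [hpow, hσ]
        exact (hF.ord.sm_eq_iff _ _).2 hc1
      have h3 : σ = ρ ^ (ℓ - 1) := by
        have h4 : σ⁻¹ * ρ ^ (ℓ - 1) = 1 := by
          apply hF.gen
          rw [ga_mul, h2, ← ga_mul, inv_mul_cancel, ga_one]
        rw [inv_mul_eq_one] at h4
        exact h4
      -- the action on `ζ`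
      have hne0 : NeZero (orderOf ζ) := ⟨hn0.ne'⟩
      have hprimN : IsPrimitiveRoot (ζ : N) (orderOf ζ) := IsPrimitiveRoot.coe_units_iff.2 hprim
      have hρζ : IsPrimitiveRoot (ρ (ζ : N)) (orderOf ζ) := hprimN.map_of_injective ρ.injective
      obtain ⟨i, -, hi⟩ := hprimN.eq_pow_of_pow_eq_one hρζ.pow_eq_one
      have hico : i.Coprime (orderOf ζ) := by
        rw [← hi] at hρζ
        exact (hprimN.pow_iff_coprime hn0 i).1 hρζ
      have hil : i.Coprime ℓ := Nat.Coprime.coprime_dvd_right hln hico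
      have hsg : sg ρ ζ = ζ ^ i := by
        apply Units.ext
        rw [sg_coe, Units.val_pow_eq_pow_val]
        exact hi.symm
      have hsgp : ∀ j : ℕ, sg (ρ ^ j) ζ = ζ ^ (i ^ j) := by
        intro j
        induction j with
        | zero =>
          rw [pow_zero, pow_zero, pow_one]
          apply Units.ext
          rfl
        | succ j ih =>
          rw [pow_succ', sg_sg, ih, sg_pow, hsg, ← pow_mul, pow_succ']
      have hi0 : 0 < i := by
        rcases Nat.eq_zero_or_pos i with h0 | h0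
        · rw [h0, Nat.coprime_zero_left] at hil
          exact absurd hil h.hl.one_lt.ne'
        · exact h0
      have hmod : ℓ ∣ i ^ (ℓ - 1) - 1 := by
        have h5 := Int.ModEq.pow_card_sub_one_eq_one h.hl (n := (i : ℤ)) (Nat.isCoprime_iff_coprime.2 hil)
        have h6 : ((1 : ℕ) : ℤ) ≡ ((i ^ (ℓ - 1) : ℕ) : ℤ) [ZMOD (ℓ : ℤ)] := by
          push_cast
          exact h5.symm
        exact (Nat.modEq_iff_dvd' (Nat.one_le_pow _ _ hi0)).1 ((Int.natCast_modEq_iff).1 h6)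
      obtain ⟨j, hj⟩ := hmod
      refine ⟨ζ ^ j, ?_⟩
      have hi1 : 1 ≤ i ^ (ℓ - 1) := Nat.one_le_pow _ _ hi0
      have h7 : i ^ (ℓ - 1) = 1 + j * ℓ := by
        rw [mul_comm j ℓ, ← hj]
        omega
      rw [h3, hsgp, h7, pow_add, pow_one, pow_mul]
  · -- `ζ` is an `ℓ`-th power
    obtain ⟨a, ha⟩ := exists_pow_eq_self_of_coprime (x := ζ) (n := ℓ)
      ((h.hl.coprime_iff_not_dvd).2 hln)
    refine ⟨sg σ (ζ ^ a) * (ζ ^ a)⁻¹, ?_⟩
    have h1 : (ζ ^ a) ^ ℓ = ζ := by rw [← pow_mul, mul_comm, pow_mul, ha]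
    rw [mul_pow, ← sg_pow, inv_pow, h1, mul_comm, mul_assoc, inv_mul_cancel, mul_one]

theorem exists_w : ∃ w : HeightOneSpectrum (𝓞 N),
    w.valuation N (algebraMap K N (ϖ : K)) < 1 ∧ od w (tc P) = 1 := by
  obtain ⟨v, hv⟩ := uib_place (k := k) hk h.prime
  obtain ⟨w, hw⟩ := uib_over (N := N) v
  have hr := ram h.prime h.one hF.ord hF.gen v hv
  refine ⟨w, ?_, (hr.2.1 w hw).2.2.1⟩
  have hne : algebraMap K k (ϖ : K) ≠ 0 := by
    intro h0
    rw [map_eq_zero] at h0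
    exact h.prime.ne_zero (RingOfIntegers.ext h0)
  rw [IsScalarTower.algebraMap_apply K k N, val_map_lt, hw, val_lt_one_iff v hne, hv]
  exact one_pos

private theorem uic_neg : ∃ σ : Gal(N/k), ga σ P = sm N (-1) P :=
  hF.all (-1) (by rw [dvd_neg]; exact h.prime.not_dvd_one)

private theorem uic_pow2 {a y : Nˣ} (ha : a ^ 2 = y ^ ℓ) : ∃ z : Nˣ, a = z ^ ℓ := by
  refine pow_coprime (n := 2) ?_ ⟨y, ha⟩
  have h5 := h.five
  rw [Nat.coprime_comm, Nat.Prime.coprime_iff_not_dvd h.hl]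
  intro h2
  have := Nat.le_of_dvd (by norm_num) h2
  omega

private theorem uic_root {t : Nˣ} {m : ℕ} (hm : m ≠ 0) (ht : t ^ m = 1) (hiso : Iso k ℓ P t) :
    ∃ z : Nˣ, t = z ^ ℓ := by
  obtain ⟨σ, hσ⟩ := uic_neg h hF hk
  obtain ⟨z1, h1⟩ := Iso.neg_one h hF hiso hσ
  obtain ⟨z2, h2⟩ := root_even h hF hk hm ht hσ
  refine uic_pow2 h hF hk (y := z1 / z2) ?_
  rw [h2] at h1
  rw [div_pow, ← h1, eq_div_iff_mul_eq', sq]
  ac_rfl

variable {T : Finset (𝓞 K)} {iv : 𝓞 K → 𝓞 K} {n : 𝓞 K → ℤ} (hT : TrD ϖ ℓ T iv n)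

theorem xi_ne_pow {c : 𝓞 K} (hc : ∃ z : Nˣ, xiU h hT hF.ord c = z ^ ℓ) : ϖ ∣ c := by
  obtain ⟨w, hw, ht⟩ := exists_w h hF hk
  obtain ⟨z, hz⟩ := hc
  have h1 : xi T iv n P c = (z : N) ^ ℓ := by
    have h2 := congrArg (fun u : Nˣ => (u : N)) hz
    exact h2
  refine xi_pow h hT hF.ord w hw ht (z := (z : N)) ?_
  rw [h1, sub_self, map_zero]
  exact zero_le

private theorem uic_xi {e : 𝓞 K} {y t : Nˣ} {m : ℕ} (hm : m ≠ 0) (ht : t ^ m = 1)
    (he : xiU h hT hF.ord e = y ^ ℓ * t) : ϖ ∣ e := by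
  obtain ⟨σ, hσ⟩ := uic_neg h hF hk
  obtain ⟨z2, h2⟩ := root_even h hF hk hm ht hσ
  have h1 : sg σ (xiU h hT hF.ord e) = (xiU h hT hF.ord e)⁻¹ := by
    apply Units.ext
    rw [sg_coe, Units.val_inv_eq_inv_val]
    show σ (xi T iv n P e) = (xi T iv n P e)⁻¹
    rw [xi_ga h hT hF.ord (Full.c_ne h hF hσ) hσ, mul_neg, mul_one, xi_neg h hT hF.ord]
  have h3 : (xiU h hT hF.ord e)⁻¹ = (sg σ y) ^ ℓ * (t * z2 ^ ℓ) := by
    rw [← h1, he, sg_mul, sg_pow, h2]
  have h4 : (xiU h hT hF.ord e) ^ 2 = (y / (sg σ y * z2)) ^ ℓ := by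
    have h5 : (xiU h hT hF.ord e) ^ 2 = (xiU h hT hF.ord e) / (xiU h hT hF.ord e)⁻¹ := by
      rw [div_inv_eq_mul, sq]
    rw [h5, h3, he, div_pow, mul_pow, div_eq_div_iff_mul_eq_mul, mul_assoc, mul_left_comm t]
  exact xi_ne_pow h hF hk hT (uic_pow2 h hF hk h4)

private theorem uic_diff {c d : 𝓞 K} {z t : Nˣ} {m : ℕ} (hm : m ≠ 0) (ht : t ^ m = 1)
    (he : xiU h hT hF.ord c / xiU h hT hF.ord d = z ^ ℓ * t) : ϖ ∣ c - d := by
  obtain ⟨z1, hz1, _, hcd⟩ := xi_add h hT hF.ord c (-d)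
  refine uic_xi h hF hk hT (y := z * Units.mk0 z1 hz1) hm ht ?_
  have h1 : xiU h hT hF.ord (c - d) =
      xiU h hT hF.ord c * (xiU h hT hF.ord d)⁻¹ * (Units.mk0 z1 hz1) ^ ℓ := by
    apply Units.ext
    rw [Units.val_mul, Units.val_mul, Units.val_inv_eq_inv_val, Units.val_pow_eq_pow_val,
      Units.val_mk0]
    show xi T iv n P (c - d) = xi T iv n P c * (xi T iv n P d)⁻¹ * z1 ^ ℓ
    rw [sub_eq_add_neg, hcd, xi_neg h hT hF.ord]
  rw [h1, ← div_eq_mul_inv, he, mul_pow]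
  exact mul_right_comm _ _ _

theorem iso_unit {ε : Nˣ} (hε : ∀ w : HeightOneSpectrum (𝓞 N), od w (ε : N) = 0)
    (hiso : Iso k ℓ P ε) : ∃ (c : 𝓞 K) (z : Nˣ), ε = xiU h hT hF.ord c * z ^ ℓ := by
  classical
  -- the endomorphism
  obtain ⟨g, hg1, hg2, hg3⟩ := exists_primgen h
  obtain ⟨τ, hτ⟩ := hF.all g hg2
  have hgen := uic_gen h hF hg1 hτ
  have hcard := Full.card h hF
  have hq5 := PD.q_five h
  have hfin : Module.finrank k N = q - 1 := by omega
  have hrank : Module.finrank ℤ (CF.SU (∅ : Set (HeightOneSpectrum (𝓞 N)))) = q - 2 := by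
    have := unit_rank (N := N) hk hfin
    omega
  have : Module.Finite ℤ (CF.SU (∅ : Set (HeightOneSpectrum (𝓞 N)))) :=
    CF.su_finite ∅ Set.finite_empty
  have h21 : q - 2 + 1 = q - 1 := by omega
  obtain ⟨u, hu1, hu2⟩ := minkowski hk hgen hfin (by omega)
  have hqr : ∃ r : ℕ, q = ℓ ^ r := by
    rcases h.alt with h1 | h1
    · exact ⟨1, by rw [pow_one]; exact h1⟩
    · exact ⟨2, h1⟩
  obtain ⟨r, hr⟩ := hqr
  -- the elements
  have hxi : ∀ (c : 𝓞 K) (w : HeightOneSpectrum (𝓞 N)),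
      od w ((xiU h hT hF.ord c : Nˣ) : N) = 0 := by
    intro c w
    exact (val_eq_one_iff w (Units.ne_zero _)).1 (xi_val h hT hF.ord _ c)
  let f : 𝓞 K → CF.SU (∅ : Set (HeightOneSpectrum (𝓞 N))) := fun c => uic_mk _ (hxi c)
  let D : Finset (𝓞 K) := insert 0 T
  have h0T : (0 : 𝓞 K) ∉ T := fun h0 => hT.res.nz 0 h0 (dvd_zero ϖ)
  have hDcard : D.card = q := by
    rw [Finset.card_insert_of_notMem h0T]
    exact uic_card_T h hT.res
  have hDuniq : ∀ c ∈ D, ∀ d ∈ D, ϖ ∣ c - d → c = d := by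
    intro c hc d hd hcd
    rw [Finset.mem_insert] at hc hd
    rcases hc with hc | hc
    · rcases hd with hd | hd
      · rw [hc, hd]
      · rw [hc, zero_sub, dvd_neg] at hcd
        exact absurd hcd (hT.res.nz d hd)
    · rcases hd with hd | hd
      · rw [hd, sub_zero] at hcd
        exact absurd hcd (hT.res.nz c hc)
      · exact hT.res.uniq c hc d hd hcd
  have hff : ∀ c ∈ D, ∀ d ∈ D, c ≠ d →
      ¬ ∃ (z t : CF.SU (∅ : Set (HeightOneSpectrum (𝓞 N)))) (m : ℤ), m ≠ 0 ∧ m • t = 0 ∧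
        f c - f d = (ℓ : ℤ) • z + t := by
    rintro c hc d hd hcd ⟨z, t, m, hm, ht, he⟩
    apply hcd
    apply hDuniq c hc d hd
    have h1 : (uic_val t) ^ m = 1 := by rw [← uic_val_zsmul, ht, uic_val_zero]
    obtain ⟨m', hm', ht'⟩ := uic_nat hm h1
    refine uic_diff h hF hk hT (z := uic_val z) hm' ht' ?_
    have h2 := congrArg uic_val he
    rw [uic_val_sub, uic_val_add, uic_val_zsmul, zpow_natCast, uic_val_mk, uic_val_mk] at h2
    exact h2
  by_cases hε' : ∃ c ∈ D, ∃ (z t : CF.SU (∅ : Set (HeightOneSpectrum (𝓞 N)))) (m : ℤ),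
      m ≠ 0 ∧ m • t = 0 ∧ uic_mk ε hε - f c = (ℓ : ℤ) • z + t
  · obtain ⟨c, -, z, t, m, hm, ht, he⟩ := hε'
    have h1 : (uic_val t) ^ m = 1 := by rw [← uic_val_zsmul, ht, uic_val_zero]
    obtain ⟨m', hm', ht'⟩ := uic_nat hm h1
    have h2 := congrArg uic_val he
    rw [uic_val_sub, uic_val_add, uic_val_zsmul, zpow_natCast, uic_val_mk, uic_val_mk] at h2
    have h3 : ε = xiU h hT hF.ord c * (uic_val z) ^ ℓ * uic_val t := by
      rw [div_eq_iff_eq_mul'] at h2
      rw [h2, mul_assoc]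
    have h4 : uic_val t = ε * (xiU h hT hF.ord c)⁻¹ * ((uic_val z) ^ ℓ)⁻¹ := by
      rw [eq_mul_inv_iff_mul_eq, eq_mul_inv_iff_mul_eq, h3]
      ac_rfl
    have h5 : Iso k ℓ P (uic_val t) := by
      rw [h4]
      exact Iso.mul h hF (Iso.mul h hF hiso (Iso.inv h hF (xi_iso h hT hF.ord k c)))
        (Iso.inv h hF (Iso.pow_ell h hF _))
    obtain ⟨z', hz'⟩ := uic_root h hF hk hm' ht' h5
    refine ⟨c, uic_val z * z', ?_⟩
    rw [h3, hz', mul_pow, mul_assoc]
  · exfalso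
    push Not at hε'
    have hYcard : (insert (uic_mk ε hε) (D.image f)).card ≤ q := by
      refine count_abs (uic_tau τ) hrank ?_ (u := uic_mk u hu1) ?_ h.hl hr (g := g) ?_ _ ?_ ?_
      · intro x
        obtain ⟨m, hm, hx⟩ := unit_norm hk hgen hfin (uic_od x)
        refine ⟨m, hm, ?_⟩
        apply uic_val_inj
        rw [uic_val_zsmul, uic_val_sum, uic_val_zero, h21, ← hx]
        congr 1
        exact Finset.prod_congr rfl fun j _ => uic_val_pow τ j x
      · rintro c ⟨m, hm, hc⟩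
        have h22 : q - 1 - 1 = q - 2 := by omega
        have h1 := hu2 c ⟨m, hm, ?_⟩
        · rw [h22] at h1
          exact h1
        · have h2 := congrArg uic_val hc
          rw [uic_val_zsmul, uic_val_sum, uic_val_zero] at h2
          rw [h22, ← h2]
          congr 1
          refine Finset.prod_congr rfl fun j _ => ?_
          rw [uic_val_zsmul, uic_val_pow, uic_val_mk]
      · rw [h21]
        exact hg3
      · intro y hy
        have hyiso : Iso k ℓ P (uic_val y) := by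
          rw [Finset.mem_insert, Finset.mem_image] at hy
          rcases hy with hy | ⟨c, -, hy⟩
          · rw [hy]
            exact hiso
          · rw [← hy]
            exact xi_iso h hT hF.ord k c
        obtain ⟨z, hz⟩ := iso_quad h hF hτ hyiso
        have hzod : ∀ w : HeightOneSpectrum (𝓞 N), od w (z : N) = 0 := by
          have h1 : ∀ w : HeightOneSpectrum (𝓞 N), od w ((z ^ ℓ : Nˣ) : N) = 0 := by
            intro w
            rw [← hz]
            have h2 := uic_od ((uic_tau τ ^ 2) y + (-Algebra.trace ℤ (𝓞 K) g) • uic_tau τ y +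
              Algebra.norm ℤ g • y) w
            rw [uic_val_add, uic_val_add, uic_val_zsmul, uic_val_zsmul, uic_val_pow,
              uic_val_tau] at h2
            exact h2
          intro w
          have h2 := h1 w
          rw [Units.val_pow_eq_pow_val, od_pow] at h2
          rcases mul_eq_zero.1 h2 with h3 | h3
          · exact absurd (Nat.cast_eq_zero.1 h3) h.hl.ne_zero
          · exact h3
        refine ⟨uic_mk z hzod, 0, 1, one_ne_zero, smul_zero _, ?_⟩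
        apply uic_val_inj
        rw [uic_val_add, uic_val_add, uic_val_sub, uic_val_zsmul, uic_val_zsmul, uic_val_zsmul,
          uic_val_pow, uic_val_tau, uic_val_zero, mul_one, uic_val_mk, zpow_natCast, ← hz,
          div_eq_mul_inv, ← zpow_neg]
      · intro y hy y' hy' hne
        rw [Finset.mem_insert, Finset.mem_image] at hy hy'
        rcases hy with hy | ⟨c, hc, hy⟩
        · rcases hy' with hy' | ⟨d, hd, hy'⟩
          · exact absurd (hy.trans hy'.symm) hne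
          · rintro ⟨z, t, m, hm, ht, he⟩
            rw [hy, ← hy'] at he
            exact hε' d hd z t m hm ht he
        · rcases hy' with hy' | ⟨d, hd, hy'⟩
          · rintro ⟨z, t, m, hm, ht, he⟩
            rw [← hy, hy'] at he
            refine hε' c hc (-z) (-t) m hm (by rw [zsmul_neg, ht, neg_zero]) ?_
            rw [← neg_sub, he, neg_add, zsmul_neg]
          · rw [← hy, ← hy']
            refine hff c hc d hd ?_
            intro hcd
            apply hne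
            rw [← hy, ← hy', hcd]
    have hinj : Set.InjOn f (D : Set (𝓞 K)) := by
      intro c hc d hd hcd
      by_contra hne
      refine hff c hc d hd hne ⟨0, 0, 1, one_ne_zero, smul_zero _, ?_⟩
      rw [hcd, sub_self, smul_zero, add_zero]
    have hnot : uic_mk ε hε ∉ D.image f := by
      intro hmem
      obtain ⟨c, hc, hce⟩ := Finset.mem_image.1 hmem
      refine hε' c hc 0 0 1 one_ne_zero (smul_zero _) ?_
      rw [hce, sub_self, smul_zero, add_zero]
    rw [Finset.card_insert_of_notMem hnot, Finset.card_image_of_injOn hinj, hDcard] at hYcard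
    omega

end

end

end Pool.Agent.Lib.MP_1a91b9_ntT.DB
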