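import Pool.Agent.Lib.MP_1a91b9_ntT.DB.Om

/-!
# DB: the kernel of reduction at a valuation, basic facts

PROOF (complete; stream DB of helper55). One job VaA.
`v` is any valuation of the field `F` (`K`-algebra), written multiplicatively. `v n ≤ 1` for integers.
`v om = 1` (`om^3 = 1`). For an affine point `y^2 + y = x^3`: if `v x > 1` then `v y > 1` (otherwise
`v (y^2 + y) ≤ 1 < v x^3`), `v (y^2 + y) = v y^2` (`y + 1` has the valuation of `y`:
`Valuation.map_add_eq_of_lt_left`), so `v y^2 = v x^3`; conversely `v y > 1` gives `v x^3 = v y^2 > 1`.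
With `t = - x / y`: `v t^2 = v x^2 / v y^2 = 1 / v x`, `v t^3 = v x^3 / v y^3 = 1 / v y`.
-/

set_option autoImplicit false

namespace Pool.Agent.Lib.MP_1a91b9_ntT.DB

open NumberField IsDedekindDomain WeierstrassCurve

section
variable {F : Type*} [Field F] [Algebra K F] {Γ : Type*} [LinearOrderedCommGroupWithZero Γ]
  (v : Valuation F Γ)

theorem v_int_le (n : ℤ) : v (n : F) ≤ 1 := by
  have hn : ∀ m : ℕ, v (m : F) ≤ 1 := by
    intro m
    induction m with
    | zero => simp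
    | succ m ih =>
      rw [Nat.cast_succ]
      exact (v.map_add _ _).trans (max_le ih (by rw [map_one]))
  rcases n with m | m
  · rw [Int.ofNat_eq_natCast, Int.cast_natCast]
    exact hn m
  · rw [Int.cast_negSucc, v.map_neg]
    exact hn (m + 1)

theorem v_nat_le (n : ℕ) : v (n : F) ≤ 1 := by
  have h := v_int_le v (n : ℤ)
  rwa [Int.cast_natCast] at h

theorem v_om : v (omF F) = 1 := by
  have h1 : v (omF F) ^ 3 = 1 := by
    rw [← map_pow, omF_cube, map_one]
  rcases lt_trichotomy (v (omF F)) 1 with h | h | h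
  · exact absurd h1 (pow_lt_one₀ zero_le h (by norm_num)).ne
  · exact h
  · exact absurd h1 (one_lt_pow₀ h (by norm_num)).ne'

/-- the valuations of the coordinates of a point of the kernel of reduction -/
theorem ker_val {x y : F} (h : y ^ 2 + y = x ^ 3) (hx : 1 < v x) :
    1 < v y ∧ v y ^ 2 = v x ^ 3 := by
  have hx3 : 1 < v x ^ 3 := one_lt_pow₀ hx (by norm_num)
  have hy : 1 < v y := by
    by_contra hc
    rw [not_lt] at hc
    have h1 : v (y ^ 2 + y) ≤ 1 := by
      refine (v.map_add _ _).trans (max_le ?_ hc)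
      rw [map_pow]
      exact pow_le_one₀ zero_le hc
    rw [h, map_pow] at h1
    exact absurd hx3 (not_lt.mpr h1)
  refine ⟨hy, ?_⟩
  have h2 : v (y + 1) = v y := v.map_add_eq_of_lt_left (by rw [map_one]; exact hy)
  have h3 : y ^ 2 + y = y * (y + 1) := by ring
  rw [← map_pow v x, ← h, h3, map_mul, h2, sq]

theorem ker_iff_y {P : Pt F} (hP : P ≠ 0) : 1 < v (xc P) ↔ 1 < v (yc P) := by
  obtain ⟨h, -⟩ := exists_mk hP
  refine ⟨fun hx => (ker_val v h hx).1, fun hy => ?_⟩
  by_contra hc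
  rw [not_lt] at hc
  have h2 : v (yc P + 1) = v (yc P) := v.map_add_eq_of_lt_left (by rw [map_one]; exact hy)
  have h3 : yc P ^ 2 + yc P = yc P * (yc P + 1) := by ring
  have h4 : v (yc P) ^ 2 = v (xc P) ^ 3 := by
    rw [← map_pow v (xc P), ← h, h3, map_mul, h2, sq]
  have h5 : 1 < v (yc P) ^ 2 := one_lt_pow₀ hy (by norm_num)
  rw [h4] at h5
  exact absurd h5 (not_lt.mpr (pow_le_one₀ zero_le hc))

theorem not_ker {P : Pt F} (hP : ¬ Ker v P) : P ≠ 0 ∧ v (xc P) ≤ 1 ∧ v (yc P) ≤ 1 := by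
  have h0 : P ≠ 0 := fun h => hP (Or.inl h)
  have h1 : ¬ 1 < v (xc P) := fun h => hP (Or.inr h)
  have h2 : ¬ 1 < v (yc P) := fun h => h1 ((ker_iff_y v h0).mpr h)
  exact ⟨h0, not_lt.mp h1, not_lt.mp h2⟩

theorem ker_tc {P : Pt F} (h : Ker v P) (hP : P ≠ 0) : v (tc P) < 1 ∧ v (tc P) ≠ 0 ∧
    v (xc P) * v (tc P) ^ 2 = 1 ∧ v (yc P) * v (tc P) ^ 3 = 1 := by
  have hx : 1 < v (xc P) := h.resolve_left hP
  obtain ⟨he, -⟩ := exists_mk hP
  obtain ⟨hy, hxy⟩ := ker_val v he hx
  have hx0 : v (xc P) ≠ 0 := (lt_trans zero_lt_one hx).ne'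
  have hy0 : v (yc P) ≠ 0 := (lt_trans zero_lt_one hy).ne'
  have ht : v (tc P) = v (xc P) / v (yc P) := by
    unfold tc
    rw [map_div₀, v.map_neg]
  have h1 : v (xc P) * v (tc P) ^ 2 = 1 := by
    rw [ht, div_pow, hxy, mul_div_assoc', ← pow_succ', div_self (pow_ne_zero 3 hx0)]
  have h2 : v (yc P) * v (tc P) ^ 3 = 1 := by
    rw [ht, div_pow, ← hxy, mul_div_assoc', ← pow_succ', div_self (pow_ne_zero 3 hy0)]
  have h3 : v (tc P) ≠ 0 := by
    rw [ht]
    exact div_ne_zero hx0 hy0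
  refine ⟨?_, h3, h1, h2⟩
  by_contra hc
  rw [not_lt] at hc
  have h4 : 1 ≤ v (tc P) ^ 2 := one_le_pow₀ hc
  have h5 : 1 < v (xc P) * v (tc P) ^ 2 := lt_of_lt_of_le hx (le_mul_of_one_le_right zero_le h4)
  exact absurd h1 h5.ne'

theorem ker_tc_lt {P : Pt F} (h : Ker v P) : v (tc P) < 1 := by
  by_cases hP : P = 0
  · rw [hP, tc_zero, map_zero]
    exact zero_lt_one
  · exact (ker_tc v h hP).1

theorem ker_tc_zero {P : Pt F} (h : Ker v P) (h0 : tc P = 0) : P = 0 := by
  by_contra hP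
  have h1 := (ker_tc v h hP).2.1
  rw [h0, map_zero] at h1
  exact h1 rfl

/-- the second coordinate `w = - 1 / y` satisfies `w = t ^ 3 + w ^ 2` -/
theorem ker_w {P : Pt F} (h : Ker v P) (hP : P ≠ 0) :
    -1 / yc P = tc P ^ 3 + (-1 / yc P) ^ 2 ∧ v (-1 / yc P) = v (tc P) ^ 3 ∧
      xc P = tc P / (-1 / yc P) := by
  have hx : 1 < v (xc P) := h.resolve_left hP
  obtain ⟨he, -⟩ := exists_mk hP
  obtain ⟨hy, hxy⟩ := ker_val v he hx
  have hy0 : yc P ≠ 0 := by
    intro h0
    rw [h0, map_zero] at hy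
    exact absurd hy (not_lt.mpr zero_le_one)
  obtain ⟨-, h3, h1, h2⟩ := ker_tc v h hP
  refine ⟨?_, ?_, ?_⟩
  · unfold tc
    field_simp
    linear_combination -he
  · rw [map_div₀, v.map_neg, map_one]
    exact (eq_one_div_of_mul_eq_one_right h2).symm
  · unfold tc
    field_simp

theorem ker_neg {P : Pt F} (h : Ker v P) : Ker v (-P) := by
  rcases cases_pt P with rfl | ⟨x, y, he, rfl⟩
  · left
    exact Affine.Point.neg_zero
  · right
    rw [neg_mk, xc_mk]
    exact h.resolve_left (mk_ne_zero x y he)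

variable [DecidableEq F]

theorem ker_omH {P : Pt F} : Ker v (omH F P) ↔ Ker v P := by
  have h1 : omH F P = 0 ↔ P = 0 := by
    constructor
    · intro h
      rcases cases_pt P with rfl | ⟨x, y, he, rfl⟩
      · rfl
      · exact absurd h (mk_ne_zero (omF F * x) y (by linear_combination he - x ^ 3 * omF_cube F))
    · rintro rfl
      exact map_zero _
  unfold Ker
  rw [h1, xc_omH, map_mul, v_om, one_mul]

end

end Pool.Agent.Lib.MP_1a91b9_ntT.DB
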