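import Pool.Agent.Lib.MP_1a91b9_ntT.DB.ValA

/-!
# DB: addition in the kernel of reduction

PROOF (complete; stream DB of helper55). Jobs VaB1 (`ker_add`), VaB2 (the rest, from `ker_add`).

`ker_add`. If one of the points is `0` trivial. Let `P, Q ≠ 0`, `t_i = -x_i/y_i`, `w_i = -1/y_i`,
`w_i = t_i^3 + w_i^2`, `v w_i = v t_i^3`, `r = max (v t_1) (v t_2) < 1`.
(a) `P + Q = 0`: `Q = -P = (x, -y-1)`, `t_2 = x/(y+1) = - t_1/(1 - w_1)` (as `w_1 = -1/y`), so
`t_1 + t_2 = - t_1 w_1/(1 - w_1)`, `v ≤ r^4`, `tc 0 = 0`.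
(b) `x_1 ≠ x_2`. From `w_1 - w_2 = t_1^3 - t_2^3 + w_1^2 - w_2^2`:
`(w_1 - w_2)(1 - w_1 - w_2) = (t_1 - t_2)(t_1^2 + t_1 t_2 + t_2^2)`. `1 - w_1 - w_2 ≠ 0` has valuation
`1`. If `t_1 = t_2` then `w_1 = w_2`, so `x_1 = t_1/w_1 = x_2`, excluded. Put `α = (t_1^2 + t_1 t_2 +
t_2^2)/(1 - w_1 - w_2) = (w_1 - w_2)/(t_1 - t_2)`, `v α ≤ r^2`, and `γ = w_1 - α t_1 = w_2 - α t_2`,
`v γ ≤ r^3`. The line through `P, Q` is `w = α t + γ`, i.e. `-1/y = - α x/y + γ`, `γ y = α x - 1`.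
`γ ≠ 0` (else `α x_1 = 1 = α x_2`, `x_1 = x_2`). So `y = (α/γ) x - 1/γ`: slope `m = α/γ = (y_1 - y_2)/
(x_1 - x_2)`. The third intersection `R = (x_3, y_3')` with `x_3 = m^2 - x_1 - x_2`, `y_3' = m x_3 -
1/γ`; `P + Q = (x_3, -y_3' - 1)`. In the `(t, w)` coordinates: `w = t^3 + w^2` with `w = α t + γ` is
`t^3 + α^2 t^2 + (2 α γ - α) t + γ^2 - γ = 0` with roots `t_1, t_2` and `t_3 = - α^2 - t_1 - t_2`; put
`w_3 = α t_3 + γ`; then `w_3 = t_3^3 + w_3^2` (identity), `v t_3 ≤ r`, `v w_3 ≤ r^3`. If `w_3 = 0` then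
`t_3^3 = 0`, `t_3 = 0`, `γ = 0`, excluded; so `w_3 ≠ 0`, `w_3 (1 - w_3) = t_3^3` so `t_3 ≠ 0` and
`v w_3 = v t_3^3`. The affine point `(t_3/w_3, -1/w_3)` is on the curve and on the line `y = m x - 1/γ`,
and `t_3/w_3 = x_3`: to see it verify `x_3 = m^2 - x_1 - x_2` from the cubic `(m x - 1/γ)^2 + (m x - 1/γ)
= x^3` satisfied by the three numbers `t_i/w_i` (`x_1 ≠ x_2`; if `t_3/w_3` equals one of them use the
explicit identity instead: all is a rational identity; clean way: `γ ≠ 0`, `w_i = α t_i + γ`,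
`x_i = t_i/(α t_i + γ)` and the three elementary symmetric functions of `t_1, t_2, t_3` are known
(`σ1 = -α^2`, `σ2 = 2 α γ - α`, `σ3 = γ - γ^2`; `σ2`, `σ3` follow since `t_1 ≠ t_2` are roots), so
`x_1 + x_2 + x_3 = m^2` is an identity in `σ1, σ2, σ3`: `Π (α t_i + γ) = α^3 σ3 + α^2 γ σ2 + α γ^2 σ1 +
γ^3 = γ^3`, and `Σ t_1 (α t_2 + γ)(α t_3 + γ) = 3 α^2 σ3 + 2 α γ σ2 + γ^2 σ1 = α^2 γ` — so the sum is
`α^2 γ/γ^3 = m^2`.) So `R = (t_3/w_3, -1/w_3)`, in the kernel since `v (t_3/w_3) = v t_3^(-2) > 1`, and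
`P + Q = -R` has local parameter `x_3/(y_3' + 1) = - t_3/(1 - w_3) = t_1 + t_2 + α^2 - t_3 w_3/(1 - w_3)`
with error of valuation `≤ r^4`.
(c) `x_1 = x_2`, `y_1 = y_2` (`P = Q`, `2 y + 1 ≠ 0` because `v y > 1 ≥ v 2`... if `2 y + 1 = 0` then
`y = -y-1` and `P + Q = 0`, case (a)). The same with `t_1 = t_2 = t`, `α = 3 t^2/(1 - 2 w)` (slope of the
tangent in the `(t, w)` plane), `γ = w - α t`; `v (1 - 2 w) = 1`; `m = α/γ = 3 x^2/(2 y + 1)`: check
`γ = w - 3 t^3/(1 - 2w) = (w - 2 w^2 - 3 w + 3 w^2)/(1 - 2 w) = w (w - 2)/(1 - 2w)`; `γ = 0` would give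
`w = 2` or `w = 0`; `w = 2`, `y = -1/2`, excluded as `2 y + 1 ≠ 0`. `3 x^2/(2 y + 1) = 3 (t/w)^2/(1 - 2/w)
= 3 t^2/(w (w - 2))` OK. The symmetric functions with the double root: `f(T) = T^3 + α^2 T^2 +
(2 α γ - α) T + γ^2 - γ` has `f(t) = 0` and `f'(t) = 3 t^2 + 2 α^2 t + 2 α γ - α = 3 t^2 - α (1 - 2 w) = 0`.
(helper9 has the same computation for `Y^2 = 4 X^3 + 1` at odd places in D3/Est.lean.)

`ker_nsmul`: induction, `v (tc (n • P)) ≤ v (tc P) =: r` from the estimate at `n` (`v n ≤ 1`), then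
`ker_add` with `max ≤ r`. `ker_tors`: `0 = n • P`, so `v (n t) ≤ r^4`, `v n = 1`: `r ≤ r^4`, so `r = 0`
(as `r < 1`), `t = 0`, `P = 0` by `ker_tc_zero`. `ker_sm`: `a = m + n om`, `sm_int`, `sm_om`, `ker_omH`,
zsmul = ± nsmul (`ker_neg`).
-/

set_option autoImplicit false

namespace Pool.Agent.Lib.MP_1a91b9_ntT.DB

open NumberField IsDedekindDomain WeierstrassCurve

section
variable {F : Type*} [Field F] [Algebra K F] [DecidableEq F] {Γ : Type*}
  [LinearOrderedCommGroupWithZero Γ] (v : Valuation F Γ)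

omit [DecidableEq F] in
/-- the core computation: a point whose negative is the third point of the line `w = α t + γ` -/
private theorem vab1_core (t₁ t₂ w₁ w₂ α γ : F) {r : Γ} (hr : r < 1)
    (h1 : v t₁ ≤ r) (h2 : v t₂ ≤ r) (hα : v α ≤ r ^ 2) (hγ : v γ ≤ r ^ 3) (hγ0 : γ ≠ 0)
    (e1 : w₁ = α * t₁ + γ) (e2 : w₂ = α * t₂ + γ) (hw1 : w₁ ≠ 0) (hw2 : w₂ ≠ 0)
    (s2 : t₁ * t₂ + (t₁ + t₂) * (-α ^ 2 - t₁ - t₂) = 2 * α * γ - α)
    (s3 : t₁ * t₂ * (-α ^ 2 - t₁ - t₂) = γ - γ ^ 2)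
    (S : Pt F) (m x₃ y₃ : F) (hm : m = α / γ) (hx3 : x₃ = m ^ 2 - t₁ / w₁ - t₂ / w₂)
    (hy3 : y₃ = -(m * (x₃ - t₁ / w₁) + -1 / w₁) - 1) (h3 : y₃ ^ 2 + y₃ = x₃ ^ 3)
    (hS : S = mkPt x₃ y₃ h3) :
    Ker v S ∧ v (tc S - t₁ - t₂) ≤ r ^ 4 := by
  obtain ⟨t₃, ht₃⟩ : ∃ t, t = -α ^ 2 - t₁ - t₂ := ⟨_, rfl⟩
  obtain ⟨w₃, hw₃⟩ : ∃ w, w = α * t₃ + γ := ⟨_, rfl⟩
  rw [← ht₃] at s2 s3
  have σ1 : t₁ + t₂ + t₃ = -α ^ 2 := by rw [ht₃]; ring
  have prod : w₁ * w₂ * w₃ = γ ^ 3 := by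
    rw [e1, e2, hw₃]
    linear_combination α ^ 3 * s3 + α ^ 2 * γ * s2 + α * γ ^ 2 * σ1
  have hw30 : w₃ ≠ 0 := by
    intro h
    rw [h, mul_zero] at prod
    exact hγ0 (pow_eq_zero_iff (by norm_num)|>.1 prod.symm)
  have sum : t₁ * w₂ * w₃ + t₂ * w₁ * w₃ + t₃ * w₁ * w₂ = α ^ 2 * γ := by
    rw [e1, e2, hw₃]
    linear_combination 3 * α ^ 2 * s3 + 2 * α * γ * s2 + γ ^ 2 * σ1
  have curve : w₃ = t₃ ^ 3 + w₃ ^ 2 := by
    rw [hw₃]
    linear_combination -s3 + t₃ * s2 - t₃ ^ 2 * σ1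
  have ex : x₃ = t₃ / w₃ := by
    have hm2 : m ^ 2 = (t₁ * w₂ * w₃ + t₂ * w₁ * w₃ + t₃ * w₁ * w₂) / (w₁ * w₂ * w₃) := by
      rw [sum, prod, hm]
      field_simp
    rw [hx3, hm2]
    field_simp
    ring
  have ey : y₃ = 1 / w₃ - 1 := by
    have hmx : γ * (m * (x₃ - t₁ / w₁) + -1 / w₁) = γ * (-1 / w₃) := by
      have : γ * m = α := by rw [hm]; field_simp
      have hA : α * (t₁ / w₁) + γ / w₁ = 1 := by
        field_simp
        exact e1.symm
      have hB : α * (t₃ / w₃) + γ / w₃ = 1 := by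
        field_simp
        exact hw₃.symm
      rw [ex]
      have hC : γ * (-1 / w₁) = -(γ / w₁) := by ring
      have hD : γ * (-1 / w₃) = -(γ / w₃) := by ring
      rw [mul_add, hC, hD]
      linear_combination (t₃ / w₃ - t₁ / w₁) * this - hA + hB
    have := mul_left_cancel₀ hγ0 hmx
    rw [hy3, this]
    ring
  -- valuations
  have r1 : r ≤ 1 := hr.le
  have hα2 : v (α ^ 2) ≤ r ^ 4 := by
    rw [map_pow]
    calc v α ^ 2 ≤ (r ^ 2) ^ 2 := pow_le_pow_left₀ zero_le hα 2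
      _ = r ^ 4 := by rw [← pow_mul]
  have r4 : r ^ 4 ≤ r := by
    calc r ^ 4 ≤ r ^ 1 := pow_le_pow_of_le_one zero_le r1 (by norm_num)
      _ = r := pow_one r
  have vt3 : v t₃ ≤ r := by
    rw [ht₃]
    refine v.map_sub_le (v.map_sub_le ?_ h1) h2
    rw [Valuation.map_neg]
    exact hα2.trans r4
  have vw3 : v w₃ ≤ r ^ 3 := by
    rw [hw₃]
    refine v.map_add_le ?_ hγ
    rw [map_mul]
    calc v α * v t₃ ≤ r ^ 2 * r := mul_le_mul' hα vt3
      _ = r ^ 3 := by rw [← pow_succ]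
  have vw3' : v w₃ < 1 := lt_of_le_of_lt vw3 (pow_lt_one₀ zero_le hr (by norm_num))
  have v1w : v (1 - w₃) = 1 := v.map_one_sub_of_lt vw3'
  have h1w : 1 - w₃ ≠ 0 := by
    intro h
    rw [h, map_zero] at v1w
    exact zero_ne_one v1w
  have vw3t : v w₃ = v t₃ ^ 3 := by
    have : w₃ * (1 - w₃) = t₃ ^ 3 := by linear_combination curve
    have := congrArg v this
    rwa [map_mul, v1w, mul_one, map_pow] at this
  have vw30 : v w₃ ≠ 0 := (Valuation.ne_zero_iff v).2 hw30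
  have vt30 : v t₃ ≠ 0 := by
    intro h
    rw [vw3t, h] at vw30
    exact vw30 (by simp)
  have vt31 : v t₃ < 1 := lt_of_le_of_lt vt3 hr
  refine ⟨Or.inr ?_, ?_⟩
  · rw [hS, xc_mk, ex, map_div₀, vw3t]
    have hp : 0 < v t₃ := zero_lt_iff.2 vt30
    rw [one_lt_div₀ (pow_pos hp 3)]
    exact pow_lt_self_of_lt_one₀ hp vt31 (by norm_num)
  · have htc : tc S = -t₃ / (1 - w₃) := by
      rw [hS, tc, xc_mk, yc_mk, ex, ey]
      have : (1 : F) / w₃ - 1 = (1 - w₃) / w₃ := by field_simp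
      rw [this]
      field_simp
    have hdiff : tc S - t₁ - t₂ = α ^ 2 - t₃ * w₃ / (1 - w₃) := by
      rw [htc]
      have : t₁ + t₂ = -α ^ 2 - t₃ := by linear_combination σ1
      field_simp
      linear_combination -(1 - w₃) * this
    rw [hdiff]
    refine v.map_sub_le hα2 ?_
    rw [map_div₀, v1w, div_one, map_mul]
    calc v t₃ * v w₃ ≤ r * r ^ 3 := mul_le_mul' vt3 vw3
      _ = r ^ 4 := by rw [← pow_succ']

/-- the kernel of reduction is stable under addition and the local parameter is almost additive -/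
theorem ker_add {P Q : Pt F} (hP : Ker v P) (hQ : Ker v Q) : Ker v (P + Q) ∧
    v (tc (P + Q) - tc P - tc Q) ≤ (max (v (tc P)) (v (tc Q))) ^ 4 := by
  by_cases hP0 : P = 0
  · subst hP0
    rw [zero_add, tc_zero, sub_zero, sub_self, map_zero]
    exact ⟨hQ, zero_le⟩
  by_cases hQ0 : Q = 0
  · subst hQ0
    rw [add_zero, tc_zero, sub_self, sub_zero, map_zero]
    exact ⟨hP, zero_le⟩
  obtain ⟨q1, eP⟩ := exists_mk hP0
  obtain ⟨q2, eQ⟩ := exists_mk hQ0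
  obtain ⟨c1, vw1, ex1⟩ := ker_w v hP hP0
  obtain ⟨c2, vw2, ex2⟩ := ker_w v hQ hQ0
  have yP0 : yc P ≠ 0 := by
    obtain ⟨-, hn, -, h⟩ := ker_tc v hP hP0
    intro h0
    rw [h0, map_zero, zero_mul] at h
    exact zero_ne_one h
  have yQ0 : yc Q ≠ 0 := by
    obtain ⟨-, hn, -, h⟩ := ker_tc v hQ hQ0
    intro h0
    rw [h0, map_zero, zero_mul] at h
    exact zero_ne_one h
  have ey1 : yc P = -1 / (-1 / yc P) := by field_simp
  have ey2 : yc Q = -1 / (-1 / yc Q) := by field_simp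
  have hw1 : -1 / yc P ≠ 0 := div_ne_zero (by norm_num) yP0
  have hw2 : -1 / yc Q ≠ 0 := div_ne_zero (by norm_num) yQ0
  obtain ⟨w₁, hw₁⟩ : ∃ w, w = -1 / yc P := ⟨_, rfl⟩
  obtain ⟨w₂, hw₂⟩ : ∃ w, w = -1 / yc Q := ⟨_, rfl⟩
  rw [← hw₁] at c1 vw1 ex1 ey1 hw1
  rw [← hw₂] at c2 vw2 ex2 ey2 hw2
  have vt1 : v (tc P) ≤ max (v (tc P)) (v (tc Q)) := le_max_left _ _
  have vt2 : v (tc Q) ≤ max (v (tc P)) (v (tc Q)) := le_max_right _ _
  have hr : max (v (tc P)) (v (tc Q)) < 1 := max_lt (ker_tc_lt v hP) (ker_tc_lt v hQ)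
  obtain ⟨t₁, ht₁⟩ : ∃ t, t = tc P := ⟨_, rfl⟩
  obtain ⟨t₂, ht₂⟩ : ∃ t, t = tc Q := ⟨_, rfl⟩
  rw [← ht₁] at c1 vw1 ex1
  rw [← ht₂] at c2 vw2 ex2
  rw [← ht₁, ← ht₂] at vt1 vt2 hr ⊢
  obtain ⟨r, hr'⟩ : ∃ r, r = max (v t₁) (v t₂) := ⟨_, rfl⟩
  rw [← hr'] at vt1 vt2 hr ⊢
  have vw1r : v w₁ ≤ r ^ 3 := by
    rw [vw1]
    exact pow_le_pow_left₀ zero_le vt1 3
  have vw2r : v w₂ ≤ r ^ 3 := by
    rw [vw2]
    exact pow_le_pow_left₀ zero_le vt2 3
  have r31 : r ^ 3 < 1 := pow_lt_one₀ zero_le hr (by norm_num)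
  have vw11 : v w₁ < 1 := lt_of_le_of_lt vw1r r31
  have vw21 : v w₂ < 1 := lt_of_le_of_lt vw2r r31
  by_cases hx : xc P = xc Q
  · by_cases hy : yc Q = -yc P - 1
    · -- case (a)
      have hsum : P + Q = 0 := by
        obtain ⟨q2', eQ'⟩ : ∃ h, Q = mkPt (xc P) (yc Q) h := by
          rw [hx]
          exact ⟨q2, eQ⟩
        rw [eP, eQ']
        exact mk_add_neg _ _ hy
      rw [hsum]
      refine ⟨Or.inl rfl, ?_⟩
      have v1w : v (1 - w₁) = 1 := v.map_one_sub_of_lt vw11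
      have h1w : 1 - w₁ ≠ 0 := by
        intro h
        rw [h, map_zero] at v1w
        exact zero_ne_one v1w
      have e2 : t₂ = -t₁ / (1 - w₁) := by
        rw [ht₂, tc, hy, ← hx, ex1, ey1]
        have : -(-1 / w₁) - 1 = (1 - w₁) / w₁ := by field_simp
        rw [this]
        field_simp
      have : tc (0 : Pt F) - t₁ - t₂ = t₁ * w₁ / (1 - w₁) := by
        rw [tc_zero, e2]
        field_simp
        ring
      rw [this, map_div₀, v1w, div_one, map_mul]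
      calc v t₁ * v w₁ ≤ r * r ^ 3 := mul_le_mul' vt1 vw1r
        _ = r ^ 4 := by rw [← pow_succ']
    · -- case (c)
      have hyy : yc P = yc Q := by
        have h0 : (yc P - yc Q) * (yc P + yc Q + 1) = 0 := by
          rw [← hx] at q2
          linear_combination q1 - q2
        rcases mul_eq_zero.1 h0 with h | h
        · exact sub_eq_zero.1 h
        · exact absurd (by linear_combination h) hy
      have hPQ : Q = P := pt_ext hQ0 hP0 hx.symm hyy.symm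
      have hy2 : 2 * yc P + 1 ≠ 0 := by
        intro h
        exact hy (by rw [← hyy]; linear_combination h)
      have hw12 : w₂ = w₁ := by rw [hw₁, hw₂, hyy]
      have ht12 : t₂ = t₁ := by rw [ht₁, ht₂, hPQ]
      rw [hPQ, ht12]
      have v2w : v (2 * w₁) < 1 := by
        rw [two_mul]
        exact v.map_add_lt vw11 vw11
      have v12 : v (1 - 2 * w₁) = 1 := v.map_one_sub_of_lt v2w
      have h12 : 1 - 2 * w₁ ≠ 0 := by
        intro h
        rw [h, map_zero] at v12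
        exact zero_ne_one v12
      obtain ⟨α, hα⟩ : ∃ α, α = 3 * t₁ ^ 2 / (1 - 2 * w₁) := ⟨_, rfl⟩
      obtain ⟨γ, hγ⟩ : ∃ γ, γ = w₁ - α * t₁ := ⟨_, rfl⟩
      have eα : α * (1 - 2 * w₁) = 3 * t₁ ^ 2 := by
        rw [hα]
        field_simp
      have eγ : γ * (1 - 2 * w₁) = w₁ * (w₁ - 2) := by
        rw [hγ]
        linear_combination -t₁ * eα + 3 * c1
      have hw2' : w₁ - 2 ≠ 0 := by
        intro h
        apply hy2
        rw [ey1]
        have h2 : w₁ = 2 := by linear_combination h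
        rw [h2]
        have := two_ne (F := F)
        field_simp
        ring
      have hγ0 : γ ≠ 0 := by
        intro h
        rw [h, zero_mul] at eγ
        exact mul_ne_zero hw1 hw2' eγ.symm
      have v3 : v (3 : F) ≤ 1 := by
        have := v_nat_le v 3
        simpa using this
      have vα : v α ≤ r ^ 2 := by
        rw [hα, map_div₀, v12, div_one, map_mul, map_pow]
        calc v 3 * v t₁ ^ 2 ≤ 1 * r ^ 2 := mul_le_mul' v3 (pow_le_pow_left₀ zero_le vt1 2)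
          _ = r ^ 2 := one_mul _
      have vγ : v γ ≤ r ^ 3 := by
        rw [hγ]
        refine v.map_sub_le vw1r ?_
        rw [map_mul]
        calc v α * v t₁ ≤ r ^ 2 * r := mul_le_mul' vα vt1
          _ = r ^ 3 := by rw [← pow_succ]
      obtain ⟨h', e'⟩ := mk_dbl (xc P) (yc P) q1 hy2
      rw [← eP] at e'
      have hm : 3 * xc P ^ 2 / (2 * yc P + 1) = α / γ := by
        rw [div_eq_div_iff hy2 hγ0, ex1, ey1]
        have h6 : (3 * (t₁ / w₁) ^ 2 * γ) * (1 - 2 * w₁) =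
            (α * (2 * (-1 / w₁) + 1)) * (1 - 2 * w₁) := by
          have a1 : (3 * (t₁ / w₁) ^ 2 * γ) * (1 - 2 * w₁) =
              3 * (t₁ / w₁) ^ 2 * (w₁ * (w₁ - 2)) := by
            rw [← eγ]; ring
          have a2 : (α * (2 * (-1 / w₁) + 1)) * (1 - 2 * w₁) =
              (3 * t₁ ^ 2) * (2 * (-1 / w₁) + 1) := by
            rw [← eα]; ring
          rw [a1, a2]
          field_simp
          ring
        exact mul_right_cancel₀ h12 h6
      refine vab1_core v t₁ t₁ w₁ w₁ α γ hr vt1 vt1 vα vγ hγ0 (by rw [hγ]; ring)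
        (by rw [hγ]; ring) hw1 hw1 ?_ ?_ (P + P) (α / γ) _ _ rfl ?_ ?_ h' e'
      · rw [hγ]
        linear_combination eα
      · rw [hγ]
        linear_combination t₁ * eα - c1
      · rw [hm, ex1]
      · rw [hm, ex1, ey1]
  · -- case (b)
    have v12 : v (1 - (w₁ + w₂)) = 1 := v.map_one_sub_of_lt (v.map_add_lt vw11 vw21)
    have h12 : 1 - (w₁ + w₂) ≠ 0 := by
      intro h
      rw [h, map_zero] at v12
      exact zero_ne_one v12
    have key : (w₁ - w₂) * (1 - (w₁ + w₂)) = (t₁ - t₂) * (t₁ ^ 2 + t₁ * t₂ + t₂ ^ 2) := by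
      linear_combination c1 - c2
    have hne : t₁ - t₂ ≠ 0 := by
      intro h
      rw [h, zero_mul] at key
      have h1 := (mul_eq_zero.1 key).resolve_right h12
      apply hx
      rw [ex1, ex2, sub_eq_zero.1 h1, sub_eq_zero.1 h]
    obtain ⟨α, hα⟩ : ∃ α, α = (t₁ ^ 2 + t₁ * t₂ + t₂ ^ 2) / (1 - (w₁ + w₂)) := ⟨_, rfl⟩
    obtain ⟨γ, hγ⟩ : ∃ γ, γ = w₁ - α * t₁ := ⟨_, rfl⟩
    have eα : α * (1 - (w₁ + w₂)) = t₁ ^ 2 + t₁ * t₂ + t₂ ^ 2 := by
      rw [hα]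
      field_simp
    have eα' : α * (t₁ - t₂) = w₁ - w₂ := by
      apply mul_right_cancel₀ h12
      linear_combination (t₁ - t₂) * eα - key
    have e1 : w₁ = α * t₁ + γ := by rw [hγ]; ring
    have e2 : w₂ = α * t₂ + γ := by rw [hγ]; linear_combination eα'
    have hγ0 : γ ≠ 0 := by
      intro h
      rw [h, add_zero] at e1 e2
      have ha : α ≠ 0 := by
        intro h0
        rw [h0, zero_mul] at e1
        exact hw1 e1
      have ht1 : t₁ ≠ 0 := by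
        intro h0
        rw [h0, mul_zero] at e1
        exact hw1 e1
      have ht2 : t₂ ≠ 0 := by
        intro h0
        rw [h0, mul_zero] at e2
        exact hw2 e2
      apply hx
      rw [ex1, ex2, e1, e2]
      field_simp
    have vα : v α ≤ r ^ 2 := by
      rw [hα, map_div₀, v12, div_one]
      refine v.map_add_le (v.map_add_le ?_ ?_) ?_
      · rw [map_pow]
        exact pow_le_pow_left₀ zero_le vt1 2
      · rw [map_mul, pow_two]
        exact mul_le_mul' vt1 vt2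
      · rw [map_pow]
        exact pow_le_pow_left₀ zero_le vt2 2
    have vγ : v γ ≤ r ^ 3 := by
      rw [hγ]
      refine v.map_sub_le vw1r ?_
      rw [map_mul]
      calc v α * v t₁ ≤ r ^ 2 * r := mul_le_mul' vα vt1
        _ = r ^ 3 := by rw [← pow_succ]
    obtain ⟨h', e'⟩ := mk_add (xc P) (yc P) (xc Q) (yc Q) q1 q2 hx
    rw [← eP, ← eQ] at e'
    have hm : (yc P - yc Q) / (xc P - xc Q) = α / γ := by
      rw [div_eq_div_iff (sub_ne_zero.2 hx) hγ0, ex1, ex2, ey1, ey2]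
      have a1 : -1 / w₁ - -1 / w₂ = (w₁ - w₂) / (w₁ * w₂) := by
        field_simp
        ring
      have a2 : t₁ / w₁ - t₂ / w₂ = (t₁ * w₂ - t₂ * w₁) / (w₁ * w₂) := by
        field_simp
      rw [a1, a2, div_mul_eq_mul_div, mul_div_assoc']
      congr 1
      rw [e1, e2]
      ring
    have s : t₁ ^ 2 + t₁ * t₂ + t₂ ^ 2 + α ^ 2 * (t₁ + t₂) + 2 * α * γ - α = 0 := by
      apply mul_left_cancel₀ hne
      rw [e1] at c1
      rw [e2] at c2
      linear_combination c2 - c1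
    refine vab1_core v t₁ t₂ w₁ w₂ α γ hr vt1 vt2 vα vγ hγ0 e1 e2 hw1 hw2 ?_ ?_ (P + Q)
      (α / γ) _ _ rfl ?_ ?_ h' e'
    · linear_combination -s
    · rw [e1] at c1
      linear_combination -t₁ * s - c1
    · rw [hm, ex1, ex2]
    · rw [hm, ex1, ey1]

theorem ker_nsmul {P : Pt F} (hP : Ker v P) (n : ℕ) : Ker v (n • P) ∧
    v (tc (n • P) - n * tc P) ≤ v (tc P) ^ 4 := by
  have hr : v (tc P) < 1 := ker_tc_lt v hP
  have hr4 : v (tc P) ^ 4 ≤ v (tc P) := by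
    calc v (tc P) ^ 4 = v (tc P) * v (tc P) ^ 3 := pow_succ' _ _
      _ ≤ v (tc P) * 1 := mul_le_mul_right (pow_le_one' hr.le 3) _
      _ = v (tc P) := mul_one _
  induction n with
  | zero =>
    refine ⟨Or.inl (zero_nsmul P), ?_⟩
    rw [zero_nsmul, tc_zero, Nat.cast_zero, zero_mul, sub_zero, map_zero]
    exact zero_le
  | succ n ih =>
    obtain ⟨ih1, ih2⟩ := ih
    have hn : v (tc (n • P)) ≤ v (tc P) := by
      have e : tc (n • P) = (tc (n • P) - n * tc P) + n * tc P := by ring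
      rw [e]
      refine (v.map_add _ _).trans (max_le (ih2.trans hr4) ?_)
      rw [map_mul]
      calc v (n : F) * v (tc P) ≤ 1 * v (tc P) := mul_le_mul_left (v_nat_le v n) _
        _ = v (tc P) := one_mul _
    obtain ⟨h1, h2⟩ := ker_add v ih1 hP
    rw [← succ_nsmul] at h1 h2
    refine ⟨h1, ?_⟩
    rw [max_eq_right hn] at h2
    have e : tc ((n + 1) • P) - ((n + 1 : ℕ) : F) * tc P =
        (tc ((n + 1) • P) - tc (n • P) - tc P) + (tc (n • P) - n * tc P) := by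
      push_cast
      ring
    rw [e]
    exact (v.map_add _ _).trans (max_le h2 ih2)

/-- the kernel of reduction has no torsion of order prime to the residue characteristic -/
theorem ker_tors {P : Pt F} (hP : Ker v P) (n : ℕ) (hn : v (n : F) = 1) (h : n • P = 0) :
    P = 0 := by
  have h2 := (ker_nsmul v hP n).2
  rw [h, tc_zero, zero_sub, Valuation.map_neg, map_mul, hn, one_mul] at h2
  refine ker_tc_zero v hP ?_
  by_contra hc
  have h0 : v (tc P) ≠ 0 := (Valuation.ne_zero_iff v).2 hc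
  have hpos : 0 < v (tc P) := zero_lt_iff.2 h0
  have hr : v (tc P) < 1 := ker_tc_lt v hP
  have h3 : v (tc P) ^ 4 < v (tc P) := by
    calc v (tc P) ^ 4 = v (tc P) * v (tc P) ^ 3 := pow_succ' _ _
      _ < v (tc P) * 1 := mul_lt_mul_of_pos_left (pow_lt_one₀ zero_le hr (by norm_num)) hpos
      _ = v (tc P) := mul_one _
  exact absurd h2 (not_le.2 h3)

theorem ker_sub {P Q : Pt F} (hP : Ker v P) (hQ : Ker v Q) : Ker v (P - Q) := by
  rw [sub_eq_add_neg]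
  exact (ker_add v hP (ker_neg v hQ)).1

private theorem vaB2_zsmul {P : Pt F} (hP : Ker v P) (n : ℤ) : Ker v (n • P) := by
  obtain ⟨m, rfl | rfl⟩ := n.eq_nat_or_neg
  · rw [natCast_zsmul]
    exact (ker_nsmul v hP m).1
  · rw [neg_zsmul, natCast_zsmul]
    exact ker_neg v (ker_nsmul v hP m).1

theorem ker_sm {P : Pt F} (hP : Ker v P) (a : 𝓞 K) : Ker v (sm F a P) := by
  obtain ⟨m, n, hmn⟩ := S3.exists_coords a
  have ha : a = (m : 𝓞 K) + (n : 𝓞 K) * S3.omO := by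
    apply RingOfIntegers.coe_injective
    rw [map_add, map_mul, map_intCast, map_intCast]
    exact hmn
  rw [ha]
  have e : sm F ((m : 𝓞 K) + (n : 𝓞 K) * S3.omO) P = m • P + n • omH F P := by
    rw [map_add, map_mul]
    change sm F (m : 𝓞 K) P + sm F (n : 𝓞 K) (sm F S3.omO P) = _
    rw [sm_int, sm_int, sm_om]
  rw [e]
  exact (ker_add v (vaB2_zsmul v hP m) (vaB2_zsmul v ((ker_omH v).2 hP) n)).1

end

end Pool.Agent.Lib.MP_1a91b9_ntT.DB
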