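import Pool.Agent.Lib.MP_1a91b9_ntT.DB.ValB

/-!
# DB: adding a point of the kernel of reduction, injectivity of the reduction

PROOF (complete; stream DB of helper55). Jobs VaC1 (`add_ker`), VaC2 (`S_add_ker`), VaC3 (`red_inj`,
`y_inj`).

`add_ker`. `R = 0` trivial. `P = (x, y)` with `v x, v y ≤ 1`, `R = (x_R, y_R)`, `t = -x_R/y_R`,
`w = -1/y_R`, `w (1 - w) = t^3`, `v w = v t^3`, `x_R = t/w ≠ x` (`v x_R > 1`). Slope
`m = (y_R - y)/(x_R - x) = - (1 + y w)/(t - x w)`. `w/t = t^2/(1 - w)`, so with `q = t^2/(1 - w)`: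
`t - x w = t (1 - x q)`, `v (1 - x q) = 1`. `x_3 = m^2 - x - x_R` and `x_R = (1 - w)/t^2`. So
`t^2 (x_3 + x) = (1 + y w)^2/(1 - x q)^2 - (1 - w)`,
`t^2 (x_3 + x)(1 - x q)^2 = (1 + y w)^2 - (1 - w)(1 - x q)^2
 = 2 y w + y^2 w^2 + w + (1 - w)(2 x q - x^2 q^2)`, and `(1 - w) q = t^2`, `w = t q`:
`= t q (2 y + 1) + y^2 t^2 q^2 + 2 x t^2 - x^2 t^2 q`. Divide by `t^2` (`q = t^2/(1 - w)`):
`(x_3 + x)(1 - x q)^2 = t (2 y + 1)/(1 - w) + y^2 q^2 + 2 x - x^2 q`.
So `(x_3 - x)(1 - x q)^2 = t (2 y + 1)/(1 - w) + y^2 q^2 + 2 x - x^2 q - 2 x (1 - x q)^2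
 = t (2 y + 1)/(1 - w) + y^2 q^2 + 3 x^2 q - 2 x^3 q^2`, of valuation `≤ v t` (`v q = v t^2`).
Precisely (used in `S_add_ker`): `v (x_3 - x - (2 y + 1) t) ≤ v t^2`.
`y_3 = -(m (x_3 - x) + y) - 1`, `m (x_3 - x) = - (1 + y w)(x_3 - x)/(t (1 - x q))`, which is
`-(2 y + 1)` modulo elements of valuation `≤ v t`; so `v (y_3 - y) ≤ v t`.
`P + R ≠ 0` as `P = -R` is impossible (`v x_R > 1`).

`S_add_ker`. `x = -1, y = om`: `v (x_3 + 1 - (2 om + 1) t) ≤ v t^2`, `v (y_3 - om) ≤ v t`.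
`(y_3 - om)(y_3 + om + 1) = y_3^2 + y_3 - (om^2 + om) = x_3^3 + 1 = (x_3 + 1)(x_3^2 - x_3 + 1)`.
Modulo `v ≤ v t^2`: `(x_3 + 1) = (2 om + 1) t`, `x_3^2 - x_3 + 1 = 3` modulo `v ≤ v t`,
`y_3 + om + 1 = 2 om + 1` modulo `v ≤ v t`, a unit (`(2 om + 1)^2 = -3`, `v 3 = 1`). So
`(y_3 - om)(y_3 + om + 1) - 3 t (2 om + 1)` has `v ≤ v t^2`, and
`(y_3 - om - 3 t)(y_3 + om + 1) = ... - 3 t (y_3 - om)` has `v ≤ v t^2`; divide by the unit.

`red_inj`. Put `P - Q = P + (-Q)`, `-Q = (x', -y' - 1)`. If `P = Q` it is `0`. Let `P ≠ Q`.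
Case `x ≠ x'`: slope `m = (y + y' + 1)/(x - x')`, also `m (y - y') = (x^2 + x x' + x'^2)` because
`(y - y')(y + y' + 1) = x^3 - x'^3`. If `v m ≤ 1`: then `v (y + y' + 1) < 1` and `v (x^2 + x x' + x'^2) <
1`, i.e. `v (2 y + 1) < 1` and `v (3 x^2) < 1`, so `v x < 1` (`v 3 = 1`) and `v (4 x^3 + 1) = v ((2y+1)^2)
< 1`: contradiction with `v 1 = 1`. So `v m > 1` and `v (m^2 - x - x') > 1`.
Case `x = x'`: `y ≠ y'`, `y' = - y - 1`, `-Q = P`, `v (2 y + 1) = v (y - y') < 1`, `2 y + 1 ≠ 0`; `v (3 x^2)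
= 1` (else `v x < 1` and contradiction as before), slope `3 x^2/(2 y + 1)` has `v > 1`, same end.

`y_inj`. `x^3 - x'^3 = (y - y')(y + y' + 1)` has `v < 1`; `x^3 - x'^3 = Π_{i<3} (x - om^i x')`; some
factor has `v < 1`; `om^i` acts by `omH` (`xc_omH`, `yc_omH`), apply `red_inj` to `P` and `omH^i Q`.
-/

set_option autoImplicit false

namespace Pool.Agent.Lib.MP_1a91b9_ntT.DB

open NumberField IsDedekindDomain WeierstrassCurve

section
variable {F : Type*} [Field F] [Algebra K F] [DecidableEq F] {Γ : Type*}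
  [LinearOrderedCommGroupWithZero Γ] (v : Valuation F Γ)

/-- adding a point of the kernel of reduction does not change the reduction -/
theorem add_ker {P R : Pt F} (hP : ¬ Ker v P) (hR : Ker v R) : ¬ Ker v (P + R) ∧
    v (xc (P + R) - xc P - (2 * yc P + 1) * tc R) ≤ v (tc R) ^ 2 ∧
    v (yc (P + R) - yc P) ≤ v (tc R) := by
  obtain ⟨hne, hx, hy⟩ := not_ker v hP
  rcases eq_or_ne R 0 with rfl | hR0
  · rw [add_zero, tc_zero]
    refine ⟨hP, ?_, ?_⟩ <;> simp
  obtain ⟨hw1, hw2, hw3⟩ := ker_w v hR hR0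
  obtain ⟨ht1, ht2, ht3, ht4⟩ := ker_tc v hR hR0
  have hxR : 1 < v (xc R) := hR.resolve_left hR0
  obtain ⟨eP, hPe⟩ := exists_mk hne
  obtain ⟨eR, hRe⟩ := exists_mk hR0
  have hxne : xc P ≠ xc R := by
    intro h
    rw [h] at hx
    exact absurd hxR (not_lt.2 hx)
  obtain ⟨h', hadd⟩ := mk_add (xc P) (yc P) (xc R) (yc R) eP eR hxne
  rw [← hPe, ← hRe] at hadd
  rw [hadd, xc_mk, yc_mk]
  have hyR : yc R ≠ 0 := by
    intro h
    rw [h, map_zero, zero_mul] at ht4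
    exact zero_ne_one ht4
  have hKer : ∀ {X Y : F} (h : Y ^ 2 + Y = X ^ 3), v X ≤ 1 → ¬ Ker v (mkPt X Y h) := by
    rintro X Y h hX (h0 | h0)
    · exact mk_ne_zero _ _ _ h0
    · rw [xc_mk] at h0
      exact absurd h0 (not_lt.2 hX)
  obtain ⟨x, hxd⟩ : ∃ x, x = xc P := ⟨_, rfl⟩
  obtain ⟨y, hyd⟩ : ∃ y, y = yc P := ⟨_, rfl⟩
  obtain ⟨X, hXd⟩ : ∃ X, X = xc R := ⟨_, rfl⟩
  obtain ⟨Y, hYd⟩ : ∃ Y, Y = yc R := ⟨_, rfl⟩
  obtain ⟨t, htd⟩ : ∃ t, t = tc R := ⟨_, rfl⟩
  obtain ⟨m, hmd⟩ : ∃ m, m = (yc P - yc R) / (xc P - xc R) := ⟨_, rfl⟩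
  obtain ⟨x3, hx3⟩ : ∃ x3, x3 = m ^ 2 - xc P - xc R := ⟨_, rfl⟩
  have hv3 : v x3 ≤ 1 ∧ v (x3 - xc P - (2 * yc P + 1) * tc R) ≤ v (tc R) ^ 2 ∧
      v (-(m * (x3 - xc P) + yc P) - 1 - yc P) ≤ v (tc R) := by
    have hm : m * (x - X) = y - Y := by
      rw [hmd, hxd, hyd, hXd, hYd]
      exact div_mul_cancel₀ _ (sub_ne_zero.2 hxne)
    rw [← hxd, ← hXd] at hx3
    rw [← hxd] at hx
    rw [← hyd] at hy
    rw [← htd, ← hYd] at hw1 hw2
    rw [← htd, ← hYd, ← hXd] at hw3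
    rw [← htd] at ht1 ht2
    rw [← hYd] at hyR
    rw [← hxd, ← hyd, ← htd]
    have ht0 : t ≠ 0 := fun h => ht2 (by rw [h, map_zero])
    obtain ⟨w, hwd⟩ : ∃ w, w = -1 / Y := ⟨_, rfl⟩
    rw [← hwd] at hw1 hw2 hw3
    have hwY : w * Y = -1 := by
      rw [hwd]
      exact div_mul_cancel₀ _ hyR
    have hw0 : w ≠ 0 := by
      intro h
      rw [h, zero_mul] at hwY
      exact (neg_ne_zero.2 one_ne_zero) hwY.symm
    obtain ⟨q, hqd⟩ : ∃ q, q = w / t := ⟨_, rfl⟩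
    have hwq : w = t * q := by
      rw [hqd, mul_div_cancel₀ _ ht0]
    have hq0 : q ≠ 0 := by
      rw [hqd]
      exact div_ne_zero hw0 ht0
    have hvq : v q = v t ^ 2 := by
      have h1 : v t * v q = v t * v t ^ 2 := by
        rw [← map_mul, ← hwq, hw2, pow_succ' (v t) 2]
      exact mul_left_cancel₀ ht2 h1
    have hrel : q - t ^ 2 - t * q ^ 2 = 0 := by
      have h1 : t * (q - t ^ 2 - t * q ^ 2) = 0 := by
        rw [hwq] at hw1
        linear_combination hw1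
      exact (mul_eq_zero.1 h1).resolve_left ht0
    have hXq : X * q = 1 := by
      rw [hw3, hwq]
      field_simp
    have hYq : Y * (t * q) = -1 := by
      rw [← hwq, mul_comm]
      exact hwY
    have hXt : t ^ 2 * X = 1 - t * q := by
      linear_combination (1 - t * q) * hXq - X * hrel
    have H1 : m * t * (1 - x * q) + (1 + y * (t * q)) = 0 := by
      linear_combination (-(t * q)) * hm + (-(m * t)) * hXq + hYq
    have key : (x3 - x - (2 * y + 1) * t) * (1 - x * q) ^ 2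
        = (2 * y + 1) * (q ^ 2 + 2 * x * q * t - x ^ 2 * q ^ 2 * t) + y ^ 2 * q ^ 2
          + 3 * x ^ 2 * q - 2 * x ^ 3 * q ^ 2 := by
      have h1 : t ^ 2 * ((x3 - x - (2 * y + 1) * t) * (1 - x * q) ^ 2)
        = t ^ 2 * ((2 * y + 1) * (q ^ 2 + 2 * x * q * t - x ^ 2 * q ^ 2 * t) + y ^ 2 * q ^ 2
          + 3 * x ^ 2 * q - 2 * x ^ 3 * q ^ 2) := by
        rw [hx3]
        linear_combination (m * t * (1 - x * q) - (1 + y * (t * q))) * H1
          - (1 - x * q) ^ 2 * hXt + ((2 * y + 1) * t + 2 * x - x ^ 2 * q) * hrel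
      exact mul_left_cancel₀ (pow_ne_zero 2 ht0) h1
    -- valuations
    have ht2le : v t ^ 2 ≤ v t := by
      rw [pow_two]
      exact mul_le_of_le_one_right zero_le ht1.le
    have ht2lt : v t ^ 2 < 1 := lt_of_le_of_lt ht2le ht1
    have hq1 : v q ≤ 1 := by rw [hvq]; exact ht2lt.le
    have hmul : ∀ {a b : F}, v a ≤ 1 → v b ≤ v t ^ 2 → v (a * b) ≤ v t ^ 2 := by
      intro a b ha hb
      rw [map_mul]
      calc v a * v b ≤ 1 * v t ^ 2 := mul_le_mul' ha hb
        _ = v t ^ 2 := one_mul _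
    have hone : ∀ {a b : F}, v a ≤ 1 → v b ≤ 1 → v (a * b) ≤ 1 := by
      intro a b ha hb
      rw [map_mul]
      exact mul_le_one' ha hb
    have hadd2 : ∀ {a b : F}, v a ≤ v t ^ 2 → v b ≤ v t ^ 2 → v (a + b) ≤ v t ^ 2 :=
      fun ha hb => (Valuation.map_add v _ _).trans (max_le ha hb)
    have hnat : ∀ n : ℕ, v (n : F) ≤ 1 := fun n => v_nat_le v n
    have v2 : v (2 : F) ≤ 1 := by simpa using hnat 2
    have v3 : v (3 : F) ≤ 1 := by simpa using hnat 3
    have h2y : v (2 * y + 1) ≤ 1 :=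
      (Valuation.map_add v _ _).trans (max_le (hone v2 hy) (by rw [map_one]))
    have hD : v (1 - x * q) = 1 := by
      have h1 : v (x * q) < v (1 : F) := by
        rw [map_one, map_mul, hvq]
        exact lt_of_le_of_lt (mul_le_of_le_one_left zero_le hx) ht2lt
      rw [Valuation.map_sub_eq_of_lt_left v h1, map_one]
    have hq2 : v q ≤ v t ^ 2 := hvq.le
    have hE : v ((2 * y + 1) * (q ^ 2 + 2 * x * q * t - x ^ 2 * q ^ 2 * t) + y ^ 2 * q ^ 2
          + 3 * x ^ 2 * q - 2 * x ^ 3 * q ^ 2) ≤ v t ^ 2 := by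
      have h1 : (2 * y + 1) * (q ^ 2 + 2 * x * q * t - x ^ 2 * q ^ 2 * t) + y ^ 2 * q ^ 2
          + 3 * x ^ 2 * q - 2 * x ^ 3 * q ^ 2
          = ((2 * y + 1) * (q + 2 * x * t - x * x * q * t) + y * y * q + 3 * (x * x)
            - 2 * (x * (x * x)) * q) * q := by ring
      rw [h1]
      refine hmul ?_ hq2
      have hxx := hone hx hx
      refine (Valuation.map_sub v _ _).trans (max_le ?_ ?_)
      · refine (Valuation.map_add v _ _).trans (max_le ?_ ?_)
        · refine (Valuation.map_add v _ _).trans (max_le ?_ ?_)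
          · refine hone h2y ?_
            refine (Valuation.map_sub v _ _).trans (max_le ?_ ?_)
            · refine (Valuation.map_add v _ _).trans (max_le hq1 ?_)
              exact hone (hone v2 hx) ht1.le
            · exact hone (hone hxx hq1) ht1.le
          · exact hone (hone hy hy) hq1
        · exact hone v3 hxx
      · exact hone (hone v2 (hone hx hxx)) hq1
    have hδ : v (x3 - x - (2 * y + 1) * t) ≤ v t ^ 2 := by
      have h1 := hE
      rw [← key, map_mul, map_pow, hD, one_pow, mul_one] at h1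
      exact h1
    refine ⟨?_, hδ, ?_⟩
    · have h1 : x3 = (x3 - x - (2 * y + 1) * t) + (x + (2 * y + 1) * t) := by ring
      rw [h1]
      refine (Valuation.map_add v _ _).trans (max_le (hδ.trans ht2lt.le) ?_)
      exact (Valuation.map_add v _ _).trans (max_le hx (hone h2y ht1.le))
    · have h1 : t * (1 - x * q) * (-(m * (x3 - x) + y) - 1 - y)
          = (x3 - x - (2 * y + 1) * t) * (1 + y * (t * q))
            + (2 * y + 1) * t * (y * t + x) * q := by
        linear_combination (-(x3 - x)) * H1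
      have h2 : v (t * (1 - x * q) * (-(m * (x3 - x) + y) - 1 - y)) ≤ v t ^ 2 := by
        rw [h1]
        refine hadd2 ?_ ?_
        · rw [mul_comm]
          refine hmul ?_ hδ
          refine (Valuation.map_add v _ _).trans (max_le (by rw [map_one]) ?_)
          exact hone hy (hone ht1.le hq1)
        · refine hmul ?_ hq2
          refine hone (hone h2y ht1.le) ?_
          exact (Valuation.map_add v _ _).trans (max_le (hone hy ht1.le) hx)
      rw [map_mul, map_mul, hD, mul_one, pow_two] at h2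
      exact le_of_mul_le_mul_left h2 (zero_lt_iff.2 ht2)
  subst hx3
  subst hmd
  exact ⟨hKer _ hv3.1, hv3.2.1, hv3.2.2⟩

/-- first order expansion of the ordinate at the point `S` -/
theorem S_add_ker (h3 : v (3 : F) = 1) {R : Pt F} (hR : Ker v R) :
    v (yc (ptS F + R) - (omF F + 3 * tc R)) ≤ v (tc R) ^ 2 := by
  have hS : ¬ Ker v (ptS F) := by
    rintro (h | h)
    · exact mk_ne_zero _ _ _ h
    · rw [ptS, xc_mk, Valuation.map_neg, map_one] at h
      exact lt_irrefl _ h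
  obtain ⟨h1, h2, h4⟩ := add_ker v hS hR
  rw [ptS, xc_mk, yc_mk, ← ptS] at h2
  rw [ptS, yc_mk, ← ptS] at h4
  have hr1 : v (tc R) < 1 := ker_tc_lt v hR
  obtain ⟨hne, hx, hy⟩ := not_ker v h1
  obtain ⟨heq, -⟩ := exists_mk hne
  obtain ⟨x, hxd⟩ : ∃ x, x = xc (ptS F + R) := ⟨_, rfl⟩
  obtain ⟨y, hyd⟩ : ∃ y, y = yc (ptS F + R) := ⟨_, rfl⟩
  obtain ⟨t, htd⟩ : ∃ t, t = tc R := ⟨_, rfl⟩
  obtain ⟨c, hc⟩ : ∃ c : F, c = 2 * omF F + 1 := ⟨_, rfl⟩
  rw [← hxd, ← hyd] at heq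
  rw [← hxd, ← htd, ← hc] at h2
  rw [← hyd, ← htd] at h4
  rw [← htd] at hr1
  rw [← hyd, ← htd]
  have hq := omF_quad F
  have hc2 : c ^ 2 = -3 := by
    rw [hc]
    linear_combination 4 * hq
  have hvc : v c = 1 := by
    have h5 : v c ^ 2 = 1 := by
      rw [← map_pow, hc2, Valuation.map_neg, h3]
    rcases lt_trichotomy (v c) 1 with h6 | h6 | h6
    · exact absurd h5 (pow_lt_one₀ zero_le h6 two_ne_zero).ne
    · exact h6
    · exact absurd h5 (one_lt_pow₀ h6 two_ne_zero).ne'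
  have hrr : v t ^ 2 ≤ v t := by
    rw [pow_two]
    exact mul_le_of_le_one_right zero_le hr1.le
  -- `a = x + 1`
  have hE : v (x + 1 - c * t) ≤ v t ^ 2 := by
    have : x + 1 - c * t = x - -1 - c * t := by ring
    rw [this]
    exact h2
  have ha : v (x + 1) ≤ v t := by
    have h5 : x + 1 = (x + 1 - c * t) + c * t := by ring
    rw [h5]
    refine (Valuation.map_add v _ _).trans (max_le (hE.trans hrr) ?_)
    rw [map_mul, hvc, one_mul]
  have ha3 : v (x + 1 - 3) ≤ 1 := by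
    refine (Valuation.map_sub v _ _).trans (max_le (ha.trans hr1.le) ?_)
    rw [h3]
  have key : (y - (omF F + 3 * t)) * (y - omF F + c)
      = 3 * (x + 1 - c * t) + (x + 1) ^ 2 * (x + 1 - 3) - 3 * (t * (y - omF F)) := by
    rw [hc]
    linear_combination heq - hq
  have hu : v (y - omF F + c) = 1 := by
    rw [← hvc]
    refine Valuation.map_add_eq_of_lt_right v ?_
    rw [hvc]
    exact lt_of_le_of_lt h4 hr1
  have hle : v ((y - (omF F + 3 * t)) * (y - omF F + c)) ≤ v t ^ 2 := by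
    rw [key]
    refine (Valuation.map_sub v _ _).trans (max_le ?_ ?_)
    · refine (Valuation.map_add v _ _).trans (max_le ?_ ?_)
      · rw [map_mul, h3, one_mul]
        exact hE
      · rw [map_mul, map_pow]
        calc v (x + 1) ^ 2 * v (x + 1 - 3) ≤ v (x + 1) ^ 2 * 1 :=
              mul_le_mul_of_nonneg_left ha3 zero_le
          _ = v (x + 1) ^ 2 := mul_one _
          _ ≤ v t ^ 2 := pow_le_pow_left₀ zero_le ha 2
    · rw [map_mul, h3, one_mul, map_mul, pow_two]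
      exact mul_le_mul_of_nonneg_left h4 zero_le
  rw [map_mul, hu, mul_one] at hle
  exact hle

private theorem vac3_le_add {a b : F} (ha : v a ≤ 1) (hb : v b ≤ 1) : v (a + b) ≤ 1 :=
  (Valuation.map_add v a b).trans (max_le ha hb)

private theorem vac3_le_sub {a b : F} (ha : v a ≤ 1) (hb : v b ≤ 1) : v (a - b) ≤ 1 :=
  (Valuation.map_sub v a b).trans (max_le ha hb)

private theorem vac3_le_mul {a b : F} (ha : v a ≤ 1) (hb : v b ≤ 1) : v (a * b) ≤ 1 := by
  rw [map_mul]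
  exact mul_le_one' ha hb

private theorem vac3_lt_add {a b : F} (ha : v a < 1) (hb : v b < 1) : v (a + b) < 1 :=
  lt_of_le_of_lt (Valuation.map_add v a b) (max_lt ha hb)

private theorem vac3_lt_sub {a b : F} (ha : v a < 1) (hb : v b < 1) : v (a - b) < 1 :=
  lt_of_le_of_lt (Valuation.map_sub v a b) (max_lt ha hb)

private theorem vac3_lt_mul {a b : F} (ha : v a < 1) (hb : v b ≤ 1) : v (a * b) < 1 := by
  rw [map_mul]
  exact mul_lt_one_of_lt_of_le ha hb

private theorem vac3_lt_mul' {a b : F} (ha : v a ≤ 1) (hb : v b < 1) : v (a * b) < 1 := by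
  rw [mul_comm]
  exact vac3_lt_mul v hb ha

private theorem vac3_two_le : v (2 : F) ≤ 1 := by
  have h := v_nat_le v 2
  simpa using h

private theorem vac3_four_le : v (4 : F) ≤ 1 := by
  have h := v_nat_le v 4
  simpa using h

/-- the reduced curve is smooth -/
private theorem vac3_smooth (h3 : v (3 : F) = 1) {x y : F} (h : y ^ 2 + y = x ^ 3)
    (h1 : v (2 * y + 1) < 1) (h2 : v (3 * x ^ 2) < 1) : False := by
  have hx : v x < 1 := by
    rw [map_mul, h3, one_mul, map_pow] at h2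
    by_contra hc
    push Not at hc
    exact absurd (one_le_pow₀ hc) (not_le.2 h2)
  have e : (1 : F) = (2 * y + 1) * (2 * y + 1) - 4 * (x * (x * x)) := by
    linear_combination (-4) * h
  have h5 : v ((1 : F)) < 1 := by
    rw [e]
    refine vac3_lt_sub v (vac3_lt_mul v h1 h1.le) (vac3_lt_mul' v (vac3_four_le v) ?_)
    exact vac3_lt_mul v hx (vac3_le_mul v hx.le hx.le)
  rw [map_one] at h5
  exact lt_irrefl _ h5

/-- the abscissa of a sum with slope of large valuation -/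
private theorem vac3_big {m x x' : F} (hm : 1 < v m) (hx : v x ≤ 1) (hx' : v x' ≤ 1) :
    1 < v (m ^ 2 - x - x') := by
  by_contra hc
  push Not at hc
  have e : m ^ 2 = (m ^ 2 - x - x') + x + x' := by ring
  have h1 : v (m ^ 2) ≤ 1 := by
    rw [e]
    exact vac3_le_add v (vac3_le_add v hc hx) hx'
  rw [map_pow] at h1
  exact absurd (one_lt_pow₀ hm (two_ne_zero)) (not_lt.2 h1)

/-- injectivity of the reduction at a place prime to `3` -/
theorem red_inj (h3 : v (3 : F) = 1) {P Q : Pt F} (hP : ¬ Ker v P) (hQ : ¬ Ker v Q)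
    (hx : v (xc P - xc Q) < 1) (hy : v (yc P - yc Q) < 1) : Ker v (P - Q) := by
  obtain ⟨hP0, hPx, hPy⟩ := not_ker v hP
  obtain ⟨hQ0, hQx, hQy⟩ := not_ker v hQ
  by_cases hPQ : P = Q
  · rw [hPQ, sub_self]
    exact Or.inl rfl
  obtain ⟨h, eP⟩ := exists_mk hP0
  obtain ⟨h', eQ⟩ := exists_mk hQ0
  obtain ⟨x, hxx⟩ : ∃ x, x = xc P := ⟨_, rfl⟩
  obtain ⟨y, hyy⟩ : ∃ y, y = yc P := ⟨_, rfl⟩
  obtain ⟨x', hxx'⟩ : ∃ x', x' = xc Q := ⟨_, rfl⟩
  obtain ⟨y', hyy'⟩ : ∃ y', y' = yc Q := ⟨_, rfl⟩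
  rw [← hxx] at hx hPx
  rw [← hxx'] at hx hQx
  rw [← hyy] at hy hPy
  rw [← hyy'] at hy hQy
  have hh : y ^ 2 + y = x ^ 3 := by rw [hxx, hyy]; exact h
  have hh' : y' ^ 2 + y' = x' ^ 3 := by rw [hxx', hyy']; exact h'
  have eP' : P = mkPt x y hh := by
    rw [eP, mk_inj]
    exact ⟨by rw [hxx], by rw [hyy]⟩
  have eQ' : Q = mkPt x' y' hh' := by
    rw [eQ, mk_inj]
    exact ⟨by rw [hxx'], by rw [hyy']⟩
  have key : (y - y') * (y + y' + 1) = (x - x') * (x ^ 2 + x * x' + x' ^ 2) := by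
    linear_combination hh - hh'
  rw [sub_eq_add_neg, eP', eQ', neg_mk]
  by_cases hne : x = x'
  · -- the case of a tangent
    have hyne : y - y' ≠ 0 := by
      intro h0
      apply hPQ
      rw [eP', eQ', mk_inj]
      exact ⟨hne, sub_eq_zero.1 h0⟩
    have hy' : y' = -y - 1 := by
      have h1 : (y - y') * (y + y' + 1) = 0 := by rw [key, hne]; ring
      have h2 := (mul_eq_zero.1 h1).resolve_left hyne
      linear_combination h2
    have h2y : 2 * y + 1 = y - y' := by rw [hy']; ring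
    have h2y0 : 2 * y + 1 ≠ 0 := by rw [h2y]; exact hyne
    have e2 : mkPt x' (-y' - 1) (by linear_combination hh') = mkPt x y hh := by
      rw [mk_inj]
      exact ⟨hne.symm, by rw [hy']; ring⟩
    rw [e2]
    obtain ⟨h'', e3⟩ := mk_dbl x y hh h2y0
    rw [e3]
    refine Or.inr ?_
    rw [xc_mk]
    refine vac3_big v ?_ hPx hPx
    have h4 : v (2 * y + 1) < 1 := by rw [h2y]; exact hy
    have h5 : 1 ≤ v (3 * x ^ 2) := by
      by_contra hc
      push Not at hc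
      exact vac3_smooth v h3 hh h4 hc
    have h6 : v (2 * y + 1) ≠ 0 := (Valuation.ne_zero_iff v).2 h2y0
    rw [map_div₀]
    by_contra hc
    push Not at hc
    have h7 : v (3 * x ^ 2) ≤ v (2 * y + 1) := by
      have h8 := mul_le_mul_left hc (v (2 * y + 1))
      rwa [div_mul_cancel₀ _ h6, one_mul] at h8
    exact absurd (lt_of_le_of_lt (h5.trans h7) h4) (lt_irrefl _)
  · obtain ⟨h'', e3⟩ := mk_add x y x' (-y' - 1) hh (by linear_combination hh') hne
    rw [e3]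
    refine Or.inr ?_
    rw [xc_mk]
    refine vac3_big v ?_ hPx hQx
    by_contra hc
    push Not at hc
    obtain ⟨m, hm⟩ : ∃ m, m = (y - (-y' - 1)) / (x - x') := ⟨_, rfl⟩
    rw [← hm] at hc
    have hxne : x - x' ≠ 0 := sub_ne_zero.2 hne
    have hm1 : y + y' + 1 = m * (x - x') := by
      rw [hm, div_mul_cancel₀ _ hxne]
      ring
    have hm2 : x ^ 2 + x * x' + x' ^ 2 = m * (y - y') := by
      apply mul_left_cancel₀ hxne
      rw [← key, hm1]
      ring
    have h1 : v (y + y' + 1) < 1 := by rw [hm1]; exact vac3_lt_mul' v hc hx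
    have h2 : v (x ^ 2 + x * x' + x' ^ 2) < 1 := by rw [hm2]; exact vac3_lt_mul' v hc hy
    refine vac3_smooth v h3 hh ?_ ?_
    · have e : 2 * y + 1 = (y + y' + 1) + (y - y') := by ring
      rw [e]
      exact vac3_lt_add v h1 hy
    · have e : 3 * x ^ 2 = (x ^ 2 + x * x' + x' ^ 2) + (x - x') * (2 * x + x') := by ring
      rw [e]
      exact vac3_lt_add v h2 (vac3_lt_mul v hx
        (vac3_le_add v (vac3_le_mul v (vac3_two_le v) hPx) hQx))

theorem y_inj (h3 : v (3 : F) = 1) {P Q : Pt F} (hP : ¬ Ker v P) (hQ : ¬ Ker v Q)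
    (hy : v (yc P - yc Q) < 1) : Ker v (P - Q) ∨ Ker v (P - omH F Q) ∨
      Ker v (P - omH F (omH F Q)) := by
  obtain ⟨hP0, hPx, hPy⟩ := not_ker v hP
  obtain ⟨hQ0, hQx, hQy⟩ := not_ker v hQ
  obtain ⟨h, -⟩ := exists_mk hP0
  obtain ⟨h', -⟩ := exists_mk hQ0
  have hQ1 : ¬ Ker v (omH F Q) := fun hk => hQ ((ker_omH v).1 hk)
  have hQ2 : ¬ Ker v (omH F (omH F Q)) := fun hk => hQ1 ((ker_omH v).1 hk)
  have key : (yc P - yc Q) * (yc P + yc Q + 1) =
      (xc P - xc Q) * ((xc P - omF F * xc Q) * (xc P - omF F * (omF F * xc Q))) := by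
    linear_combination h - h' + (xc P ^ 2 * xc Q - omF F * xc P * xc Q ^ 2) * omF_quad F +
      xc Q ^ 3 * omF_cube F
  have hlt : v ((xc P - xc Q) * ((xc P - omF F * xc Q) * (xc P - omF F * (omF F * xc Q)))) < 1 := by
    rw [← key]
    refine vac3_lt_mul v hy (vac3_le_add v (vac3_le_add v hPy hQy) ?_)
    rw [map_one]
  by_contra hc
  push Not at hc
  obtain ⟨hc0, hc1, hc2⟩ := hc
  have h0 : 1 ≤ v (xc P - xc Q) := by
    by_contra hcc
    push Not at hcc
    exact hc0 (red_inj v h3 hP hQ hcc hy)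
  have h1 : 1 ≤ v (xc P - omF F * xc Q) := by
    by_contra hcc
    push Not at hcc
    refine hc1 (red_inj v h3 hP hQ1 ?_ ?_)
    · rw [xc_omH]
      exact hcc
    · rw [yc_omH]
      exact hy
  have h2 : 1 ≤ v (xc P - omF F * (omF F * xc Q)) := by
    by_contra hcc
    push Not at hcc
    refine hc2 (red_inj v h3 hP hQ2 ?_ ?_)
    · rw [xc_omH, xc_omH]
      exact hcc
    · rw [yc_omH, yc_omH]
      exact hy
  rw [map_mul, map_mul] at hlt
  exact absurd (one_le_mul h0 (one_le_mul h1 h2)) (not_le.2 hlt)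

end

end Pool.Agent.Lib.MP_1a91b9_ntT.DB
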