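import Pool.Agent.Lib.MP_1a91b9_ntT.DB.ValC

/-!
# DB: torsion points of mixed order, places above `3`

PROOF (complete; stream DB of helper55). Jobs VaD1 (`not_ker_mix`, `y_unit`), VaD2 (`cusp`,
`no_tors_three`).

`not_ker_mix`. Suppose `T = S' + Q` is in the kernel. If `v 3 = 1`: `n • T = n • S'` is in the kernel,
`3 • (n • S') = 0`, so `n • S' = 0` by `ker_tors`; with `3 • S' = 0` and `n` prime to `3`: `S' = 0`.
If `v 3 < 1` (`v 3 ≤ 1` always): `3 • T = 3 • Q` is in the kernel, `n • (3 • Q) = 0` and `v n = 1`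
(Bezout `1 = a n + b 3` with `v 3 < 1`), so `3 • Q = 0`, with `n • Q = 0`: `Q = 0`.

`y_unit`. `T = S + Q` is not in the kernel, so `v y(T) ≤ 1`. `y(T) ≠ 0`... Identity: for an affine
`T = (x, y)`, `x ≠ 0`: `T + Z = (-y/x^2, -1/(1 + y))` (`mk_add` with `(0,0)`: slope `y/x`). Apply it to
`-T = (x, -y-1)`: `yc (Z - T) = 1/y(T)`. Here `Z - T = (Z - S) + (-Q)` with `Z - S ≠ 0`,
`3 • (Z - S) = 0`, `n • (-Q) = 0`: not in the kernel, so `v (1/y) ≤ 1`. (`x(T) ≠ 0`, equivalently `y(T)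
(y(T) + 1) ≠ 0`: if `x(T) = 0` then `T = ± Z`, `3 • T = 0`, so `3 • Q = 0` and `Q = 0`.)

`cusp`. Put `P1 = P - omH P` (`= sm (1 - om) P`). For `x = xc P ≠ 0`: `P1 = (x, y) + (om x, -y-1)`,
slope `(2 y + 1)/((1 - om) x)`, `(1 - om)^2 = -3 om`, `(2 y + 1)^2 = 4 x^3 + 1`, so
`xc P1 = - om^2 (x^3 + 1)/(3 x^2)`. `P ≠ 0`, `n • P = 0`, `v n = 1`: `P` is not in the kernel, `v x ≤ 1`.
`x ≠ 0` (else `P = ± Z`, `3 • P = 0`, and `n`, `3` coprime because `v n = 1`, `v 3 < 1`: `P = 0`).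
`P1 ≠ 0` (else `omH P = P`, `om x = x`, `x = 0`), `n • P1 = 0`, so `v (xc P1) ≤ 1`:
`v (x^3 + 1) ≤ v 3 * v x^2 < 1`. `(x + 1)^3 = x^3 + 1 + 3 (x^2 + x)`, so `v (x + 1)^3 < 1`.

`no_tors_three`. Suppose `P ≠ 0`. `s = 1 - om`, `s^2 = -3 om`, `v s < 1`. By `cusp` `v (x + 1) < 1`, so
`v (x + 1) ≤ v s`, `x = -1 + s u`, `v u ≤ 1` (`s ≠ 0`). `x^3 + 1 = s^3 u^3 - 3 s^2 u^2 + 3 s u` and
`s^3 = -3 om s`, `s^2 = -3 om`: `(x^3 + 1)/3 = - om s u^3 + 3 om u^2 + s u = s (u - u^3) + s^2 u^3 +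
3 om u^2` (using `1 - om = s`). All terms have `v < 1`... so `v (xc P1) < 1` (`v x = 1`) where
`xc P1 = - om^2 (x^3+1)/(3 x^2)`; but `cusp` for `P1` gives `v (xc P1 + 1) < 1`, so `v 1 < 1`,
contradiction.
-/

set_option autoImplicit false

namespace Pool.Agent.Lib.MP_1a91b9_ntT.DB

open NumberField IsDedekindDomain WeierstrassCurve

section
variable {F : Type*} [Field F] [Algebra K F] [DecidableEq F] {Γ : Type*}
  [LinearOrderedCommGroupWithZero Γ] (v : Valuation F Γ)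

private theorem vad1_zero {A : Type*} [AddCommGroup A] {n : ℕ} (hn : n.Coprime 3) {P : A}
    (h1 : n • P = 0) (h2 : 3 • P = 0) : P = 0 := by
  have h3 := addOrderOf_dvd_of_nsmul_eq_zero h1
  have h4 := addOrderOf_dvd_of_nsmul_eq_zero h2
  have h5 : addOrderOf P ∣ 1 := by
    rw [← hn]
    exact Nat.dvd_gcd h3 h4
  rw [← one_nsmul P]
  exact addOrderOf_dvd_iff_nsmul_eq_zero.1 h5

omit [DecidableEq F] in
private theorem vad1_n {n : ℕ} (hn : n.Coprime 3) (h3 : v (3 : F) < 1) : v (n : F) = 1 := by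
  have hb := Nat.gcd_eq_gcd_ab n 3
  rw [hn] at hb
  have h1 : (1 : F) = (n : F) * ((Nat.gcdA n 3 : ℤ) : F) + 3 * ((Nat.gcdB n 3 : ℤ) : F) := by
    exact_mod_cast congrArg (fun z : ℤ => (z : F)) hb
  refine le_antisymm (v_nat_le v n) ?_
  by_contra hc
  have hc' : v (n : F) < 1 := not_le.1 hc
  have h2 : v (1 : F) < 1 := by
    rw [h1]
    refine v.map_add_lt ?_ ?_
    · rw [map_mul]
      exact mul_lt_one_of_lt_of_le hc' (v_int_le v _)
    · rw [map_mul]
      exact mul_lt_one_of_lt_of_le h3 (v_int_le v _)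
  rw [map_one] at h2
  exact lt_irrefl _ h2

theorem not_ker_mix {n : ℕ} (hn : n.Coprime 3) {S' Q : Pt F} (hS : 3 • S' = 0) (hS0 : S' ≠ 0)
    (hQ : n • Q = 0) (hQ0 : Q ≠ 0) : ¬ Ker v (S' + Q) := by
  intro hT
  have h3le : v (3 : F) ≤ 1 := by exact_mod_cast v_nat_le v 3
  rcases h3le.lt_or_eq with h3 | h3
  · have h1 := (ker_nsmul v hT 3).1
    rw [nsmul_add, hS, zero_add] at h1
    have h2 : n • (3 • Q) = 0 := by rw [smul_comm, hQ, nsmul_zero]
    exact hQ0 (vad1_zero hn hQ (ker_tors v h1 n (vad1_n v hn h3) h2))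
  · have h1 := (ker_nsmul v hT n).1
    rw [nsmul_add, hQ, add_zero] at h1
    have h2 : 3 • (n • S') = 0 := by rw [smul_comm, hS, nsmul_zero]
    exact hS0 (vad1_zero hn (ker_tors v h1 3 (by exact_mod_cast h3) h2) hS)

private theorem vad1_Z {T : Pt F} (hT : T ≠ 0) (hx : xc T ≠ 0) :
    yc (ptZ F - T) = (yc T)⁻¹ := by
  obtain ⟨h, e⟩ := exists_mk hT
  set x := xc T with hx'
  set y := yc T with hy'
  have hyy : y * (y + 1) = x ^ 3 := by linear_combination h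
  have hy : y ≠ 0 := by
    rintro h0
    rw [h0, zero_mul] at hyy
    exact hx (pow_eq_zero_iff three_ne_zero |>.1 hyy.symm)
  have hy1 : y + 1 ≠ 0 := by
    rintro h0
    rw [h0, mul_zero] at hyy
    exact hx (pow_eq_zero_iff three_ne_zero |>.1 hyy.symm)
  obtain ⟨h', e'⟩ := mk_add 0 0 x (-y - 1) (by ring) (by linear_combination h) (Ne.symm hx)
  have e1 : ptZ F - T = mkPt 0 0 (by ring) + mkPt x (-y - 1) (by linear_combination h) := by
    rw [sub_eq_add_neg, e, neg_mk]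
    rfl
  rw [e1, e', yc_mk]
  have hx3 : x ^ 3 ≠ 0 := pow_ne_zero 3 hx
  have e2 : (0 - (-y - 1)) / (0 - x) = -((y + 1) / x) := by
    field_simp
    ring
  rw [e2]
  have e3 : (-((-((y + 1) / x)) * (((-((y + 1) / x)) ^ 2 - 0 - x) - 0) + 0) - 1) =
      ((y + 1) ^ 3 - (y + 1) * x ^ 3) / x ^ 3 - 1 := by
    field_simp
    ring
  rw [e3, ← hyy]
  field_simp
  ring

/-- the ordinate of `S + Q` is a unit at every place -/
theorem y_unit {n : ℕ} (hn : n.Coprime 3) {Q : Pt F} (hQ : n • Q = 0) (hQ0 : Q ≠ 0) :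
    v (yc (ptS F + Q)) = 1 := by
  have h1 := not_ker_mix v hn three_S S_ne_zero hQ hQ0
  obtain ⟨hT0, -, hy1⟩ := not_ker v h1
  have hx : xc (ptS F + Q) ≠ 0 := by
    intro hx
    obtain ⟨h, e⟩ := exists_mk hT0
    have h3T : 3 • (ptS F + Q) = 0 := by
      have hyy : yc (ptS F + Q) * (yc (ptS F + Q) + 1) = 0 := by
        rw [hx] at h
        linear_combination h
      rcases mul_eq_zero.1 hyy with h0 | h0
      · have : ptS F + Q = ptZ F := pt_ext hT0 Z_ne_zero hx h0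
        rw [this, three_Z]
      · have h2 : ptS F + Q = -ptZ F := by
          rw [ptZ, neg_mk]
          refine pt_ext hT0 (mk_ne_zero _ _ _) hx ?_
          rw [yc_mk]
          linear_combination h0
        rw [h2, smul_neg, three_Z, neg_zero]
    rw [nsmul_add, three_S, zero_add] at h3T
    exact hQ0 (vad1_zero hn hQ h3T)
  have hZS : ptZ F - ptS F ≠ 0 := by
    intro h0
    have h2 := congrArg xc (sub_eq_zero.1 h0)
    rw [ptZ, ptS, xc_mk, xc_mk] at h2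
    exact one_ne_zero (neg_eq_zero.1 h2.symm)
  have h2 := not_ker_mix v hn (S' := ptZ F - ptS F) (Q := -Q)
    (by rw [nsmul_sub, three_Z, three_S, sub_zero]) hZS (by rw [smul_neg, hQ, neg_zero])
    (neg_ne_zero.2 hQ0)
  obtain ⟨-, -, hy2⟩ := not_ker v h2
  have h3 : ptZ F - ptS F + -Q = ptZ F - (ptS F + Q) := by abel
  rw [h3, vad1_Z hT0 hx, map_inv₀] at hy2
  refine le_antisymm hy1 ?_
  by_contra hc
  have hc' := not_le.1 hc
  have hy0 : yc (ptS F + Q) ≠ 0 := by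
    intro h0
    obtain ⟨h, e⟩ := exists_mk hT0
    rw [h0] at h
    exact hx (pow_eq_zero_iff three_ne_zero |>.1 (by rw [← h]; ring))
  have hv0 : 0 < v (yc (ptS F + Q)) := zero_lt_iff.2 ((Valuation.ne_zero_iff v).2 hy0)
  exact absurd hy2 (not_le.2 ((one_lt_inv₀ hv0).2 hc'))

private theorem vad2_cop (h3 : v (3 : F) < 1) {n : ℕ} (hn : v (n : F) = 1) : n.Coprime 3 := by
  rw [Nat.coprime_comm, Nat.Prime.coprime_iff_not_dvd Nat.prime_three]
  rintro ⟨k, rfl⟩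
  have h1 := v_nat_le v k
  rw [Nat.cast_mul, map_mul] at hn
  have h2 : v ((3 : ℕ) : F) < 1 := by exact_mod_cast h3
  have h4 : v ((3 : ℕ) : F) * v (k : F) ≤ v ((3 : ℕ) : F) * 1 := mul_le_mul' le_rfl h1
  rw [hn, mul_one] at h4
  exact absurd (lt_of_le_of_lt h4 h2) (lt_irrefl _)

private theorem vad2_tors {n : ℕ} (h : n.Coprime 3) {P : Pt F} (hP : n • P = 0)
    (h3 : 3 • P = 0) : P = 0 := by
  have h1 := addOrderOf_dvd_of_nsmul_eq_zero hP
  have h2 := addOrderOf_dvd_of_nsmul_eq_zero h3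
  have h4 : addOrderOf P ∣ Nat.gcd n 3 := Nat.dvd_gcd h1 h2
  rw [Nat.Coprime.gcd_eq_one h] at h4
  exact AddMonoid.addOrderOf_eq_one_iff.mp (Nat.dvd_one.mp h4)

private theorem vad2_sub {P : Pt F} (hP : P ≠ 0) (hx : xc P ≠ 0) :
    P - omH F P ≠ 0 ∧ xc (P - omH F P) * (3 * xc P ^ 2) = -(omF F ^ 2 * (xc P ^ 3 + 1)) := by
  obtain ⟨x, y, h, rfl⟩ := (cases_pt P).resolve_left hP
  rw [xc_mk] at hx
  have hh : y ^ 2 + y = (omF F * x) ^ 3 := by linear_combination h - x ^ 3 * omF_cube F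
  have e1 : omH F (mkPt x y h) = mkPt (omF F * x) y hh := rfl
  have hne : x ≠ omF F * x := by
    intro e
    have h0 : (1 - omF F) * x = 0 := by linear_combination e
    rcases mul_eq_zero.mp h0 with h1 | h1
    · exact omF_ne_one F (by linear_combination -h1)
    · exact hx h1
  rw [e1, sub_eq_add_neg, neg_mk]
  obtain ⟨h', e2⟩ := mk_add x y (omF F * x) (-y - 1) h (by linear_combination hh) hne
  rw [e2, xc_mk, xc_mk]
  refine ⟨mk_ne_zero _ _ _, ?_⟩
  have hD : x - omF F * x ≠ 0 := sub_ne_zero.mpr hne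
  obtain ⟨A, hA⟩ : ∃ A : F, A = ((y - (-y - 1)) / (x - omF F * x)) ^ 2 - x - omF F * x := ⟨_, rfl⟩
  rw [← hA]
  have hAD : A * (x - omF F * x) ^ 2 =
      (2 * y + 1) ^ 2 - (x + omF F * x) * (x - omF F * x) ^ 2 := by
    rw [hA]
    generalize x - omF F * x = D at hD
    field_simp
    ring
  have hD2 : (x - omF F * x) ^ 2 = -3 * omF F * x ^ 2 := by
    linear_combination x ^ 2 * omF_quad F
  rw [hD2] at hAD
  have hy : (2 * y + 1) ^ 2 = 4 * x ^ 3 + 1 := by linear_combination 4 * h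
  linear_combination (-omF F ^ 2) * hAD - omF F ^ 2 * hy - 3 * A * x ^ 2 * omF_cube F -
    3 * x ^ 3 * omF F ^ 2 * omF_quad F

private theorem vad2_sm {n : ℕ} {P : Pt F} (hP : n • P = 0) : n • (P - omH F P) = 0 := by
  rw [nsmul_sub, hP, ← map_nsmul, hP, map_zero, sub_zero]

private theorem vad2_x (h3 : v (3 : F) < 1) {n : ℕ} (hn : v (n : F) = 1) {P : Pt F}
    (hP : n • P = 0) (hP0 : P ≠ 0) : xc P ≠ 0 ∧ v (xc P) ≤ 1 := by
  refine ⟨fun hx => hP0 ?_, (not_ker v (fun hk => hP0 (ker_tors v hk n hn hP))).2.1⟩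
  have h1 : omH F P = P := by
    refine pt_ext ?_ hP0 ?_ (yc_omH P)
    · intro h0
      have h5 := omH_quad P
      rw [h0, map_zero, zero_add, zero_add] at h5
      exact hP0 h5
    · rw [xc_omH, hx, mul_zero]
  have h2 : 3 • P = 0 := by
    have h4 := omH_quad P
    rw [h1, h1] at h4
    rw [← h4]
    abel
  exact vad2_tors (vad2_cop v h3 hn) hP h2

/-- at a place above `3` the torsion points of order prime to `3` reduce to the cusp -/
theorem cusp (h3 : v (3 : F) < 1) {n : ℕ} (hn : v (n : F) = 1) {P : Pt F} (hP : n • P = 0)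
    (hP0 : P ≠ 0) : v (xc P + 1) < 1 := by
  obtain ⟨hx, hvx⟩ := vad2_x v h3 hn hP hP0
  obtain ⟨hs0, hs⟩ := vad2_sub hP0 hx
  have hk : ¬ Ker v (P - omH F P) := fun hk => hs0 (ker_tors v hk n hn (vad2_sm hP))
  have h1 := (not_ker v hk).2.1
  have hvo : v (omF F) = 1 := v_om v
  have h2 : v (xc P ^ 3 + 1) < 1 := by
    have h4 := congrArg v hs
    rw [Valuation.map_neg, map_mul, map_mul, map_mul, map_pow, map_pow, hvo, one_pow, one_mul]
      at h4
    rw [← h4]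
    have h5 : v (3 : F) * v (xc P) ^ 2 ≤ v (3 : F) * 1 := mul_le_mul' le_rfl (pow_le_one' hvx 2)
    have h6 : v (xc (P - omH F P)) * (v (3 : F) * v (xc P) ^ 2) ≤ 1 * (v (3 : F) * 1) :=
      mul_le_mul' h1 h5
    rw [one_mul, mul_one] at h6
    exact lt_of_le_of_lt h6 h3
  have h7 : v ((xc P + 1) ^ 3) < 1 := by
    have h8 : (xc P + 1) ^ 3 = (xc P ^ 3 + 1) + 3 * (xc P ^ 2 + xc P) := by ring
    rw [h8]
    refine Valuation.map_add_lt v h2 ?_
    have h9 : v (xc P ^ 2 + xc P) ≤ 1 := by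
      refine Valuation.map_add_le v ?_ hvx
      rw [map_pow]
      exact pow_le_one' hvx 2
    rw [map_mul]
    have h10 : v (3 : F) * v (xc P ^ 2 + xc P) ≤ v (3 : F) * 1 := mul_le_mul' le_rfl h9
    rw [mul_one] at h10
    exact lt_of_le_of_lt h10 h3
  by_contra h11
  have h12 : 1 ≤ v (xc P + 1) := not_lt.mp h11
  rw [map_pow] at h7
  exact absurd (lt_of_le_of_lt (one_le_pow_of_one_le' h12 3) h7) (lt_irrefl _)

/-- if `1 - om` is a uniformiser and the residue field has three elements there is no torsion of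
order prime to `3` -/
theorem no_tors_three (h3 : v (3 : F) < 1) (hun : ∀ z : F, v z < 1 → v z ≤ v (1 - omF F))
    (hres : ∀ z : F, v z ≤ 1 → v (z ^ 3 - z) < 1) {n : ℕ} (hn : v (n : F) = 1) {P : Pt F}
    (hP : n • P = 0) : P = 0 := by
  by_contra hP0
  obtain ⟨hx, hvx⟩ := vad2_x v h3 hn hP hP0
  obtain ⟨hs0, hs⟩ := vad2_sub hP0 hx
  have hc := cusp v h3 hn hP hP0
  have hc1 := cusp v h3 hn (vad2_sm hP) hs0
  have hvo : v (omF F) = 1 := v_om v
  obtain ⟨s, hsd⟩ : ∃ s : F, s = 1 - omF F := ⟨_, rfl⟩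
  rw [← hsd] at hun
  have hs2 : s ^ 2 = -3 * omF F := by
    rw [hsd]
    linear_combination omF_quad F
  have hsne : s ≠ 0 := by
    intro h0
    exact omF_ne_one F (by rw [hsd] at h0; linear_combination -h0)
  have hvs2 : v s ^ 2 = v (3 : F) := by
    rw [← map_pow, hs2, map_mul, hvo, mul_one, Valuation.map_neg]
  have hvs : v s < 1 := by
    by_contra h0
    have h1 : 1 ≤ v s ^ 2 := one_le_pow_of_one_le' (not_lt.mp h0) 2
    rw [hvs2] at h1
    exact absurd (lt_of_le_of_lt h1 h3) (lt_irrefl _)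
  obtain ⟨u, hu⟩ : ∃ u : F, u = (xc P + 1) / s := ⟨_, rfl⟩
  have hxu : xc P = -1 + s * u := by
    rw [hu, mul_div_cancel₀ _ hsne]
    ring
  have hvu : v u ≤ 1 := by
    have h1 := hun _ hc
    have h2 : v s ≠ 0 := (Valuation.ne_zero_iff v).mpr hsne
    rw [hu, map_div₀]
    exact div_le_one_of_le₀ h1 zero_le
  have hlt : ∀ a b : F, v a < 1 → v b ≤ 1 → v (a * b) < 1 := fun a b ha hb => by
    rw [map_mul]
    have h1 : v a * v b ≤ v a * 1 := mul_le_mul' le_rfl hb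
    rw [mul_one] at h1
    exact lt_of_le_of_lt h1 ha
  have hpow : ∀ k : ℕ, v (u ^ k) ≤ 1 := fun k => by
    rw [map_pow]
    exact pow_le_one' hvu k
  obtain ⟨B, hB⟩ : ∃ B : F, B = s * (u - omF F * u ^ 3) + 3 * (omF F * u ^ 2) := ⟨_, rfl⟩
  have hvB : v B < 1 := by
    rw [hB]
    refine Valuation.map_add_lt v (hlt _ _ hvs ?_) (hlt _ _ h3 ?_)
    · refine Valuation.map_sub_le v hvu ?_
      rw [map_mul, hvo, one_mul]
      exact hpow 3
    · rw [map_mul, hvo, one_mul]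
      exact hpow 2
  have hBx : xc P ^ 3 + 1 = 3 * B := by
    rw [hxu, hB]
    linear_combination (s * u ^ 3 - 3 * u ^ 2) * hs2
  have hkey : xc (P - omH F P) * xc P ^ 2 = -(omF F ^ 2 * B) := by
    have h1 : (3 : F) * (xc (P - omH F P) * xc P ^ 2) = 3 * (-(omF F ^ 2 * B)) := by
      linear_combination hs - omF F ^ 2 * hBx
    exact mul_left_cancel₀ three_ne h1
  have hvx1 : v (xc P) = 1 := by
    have h1 : xc P = (xc P + 1) - 1 := by ring
    rw [h1, Valuation.map_sub_eq_of_lt_right v (by rw [map_one]; exact hc), map_one]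
  have hvk : v (xc (P - omH F P)) < 1 := by
    have h1 := congrArg v hkey
    rw [map_mul, map_pow, hvx1, one_pow, mul_one, Valuation.map_neg, map_mul, map_pow, hvo, one_pow,
      one_mul] at h1
    rw [h1]
    exact hvB
  have hfin : v (1 : F) < 1 := by
    have h1 : (1 : F) = (xc (P - omH F P) + 1) - xc (P - omH F P) := by ring
    rw [h1]
    exact Valuation.map_sub_lt v hc1 hvk
  rw [map_one] at hfin
  exact lt_irrefl _ hfin

end

end Pool.Agent.Lib.MP_1a91b9_ntT.DB
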