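import Pool.Agent.Lib.MP_1a91b9_ntT.DB.ValD

/-!
# DB: the local parameter of the multiples `sm a P`

PROOF (complete; stream DB of helper55). One job VaE.
`t(omH P) = om t(P)` exactly (`xc_omH`, `yc_omH`). `t(-P) = - t/(1 - w)` with `w = -1/y`, `v w = v t^3`
(`ker_w`), so `v (t(-P) + t(P)) ≤ v t^4`. For `a = m + n om` (`S3.exists_coords`), `sm a P = m • P + n •
omH P` (`sm_int`, `sm_om`, `map_add`, `map_mul`): for a natural number `m` `ker_nsmul` gives
`v (t(m • P) - m t) ≤ v t^4`, for negative `m` use `-P`; all the local parameters have `v ≤ v t`; combine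
with `ker_add` (error `≤ v t^4`) and the ultrametric inequality. `a` in `F` is `m + n om`.
`ker_t_unit`: `v a = 1` (the image of `a`): `v (t(sm a P)) = v (a t)` because `v t^4 < v t` if `t ≠ 0`.
-/

set_option autoImplicit false

namespace Pool.Agent.Lib.MP_1a91b9_ntT.DB

open NumberField IsDedekindDomain WeierstrassCurve

section
variable {F : Type*} [Field F] [Algebra K F] [DecidableEq F] {Γ : Type*}
  [LinearOrderedCommGroupWithZero Γ] (v : Valuation F Γ)

private theorem vae_coords (a : 𝓞 K) : ∃ m n : ℤ, a = (m : 𝓞 K) + n * S3.omO ∧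
    algebraMap K F (a : K) = m + n * omF F := by
  obtain ⟨m, n, h⟩ := S3.exists_coords a
  refine ⟨m, n, ?_, ?_⟩
  · apply RingOfIntegers.coe_injective
    refine h.trans ?_
    change _ = algebraMap (𝓞 K) K ((m : 𝓞 K) + n * S3.omO)
    rw [map_add, map_mul, map_intCast, map_intCast]
    rfl
  · rw [h, map_add, map_mul, map_intCast, map_intCast]
    rfl

private theorem vae_tc_omH (P : Pt F) : tc (omH F P) = omF F * tc P := by
  unfold tc
  rw [xc_omH, yc_omH]
  ring

private theorem vae_pow_le {a : Γ} (ha : a ≤ 1) : a ^ 4 ≤ a := by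
  calc a ^ 4 ≤ a ^ 1 := pow_le_pow_right_of_le_one' ha (by norm_num)
    _ = a := pow_one a

private theorem vae_neg {P : Pt F} (hP : Ker v P) : v (tc (-P) + tc P) ≤ v (tc P) ^ 4 := by
  by_cases h0 : P = 0
  · have h1 : -(0 : Pt F) = 0 := Affine.Point.neg_zero
    rw [h0, h1, tc_zero, add_zero, map_zero]
    exact zero_le
  · have hx : 1 < v (xc P) := hP.resolve_left h0
    obtain ⟨he, hm⟩ := exists_mk h0
    obtain ⟨hy, -⟩ := ker_val v he hx
    obtain ⟨-, ht0, h1, h2⟩ := ker_tc v hP h0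
    have hy0 : yc P ≠ 0 := by
      intro h
      rw [h, map_zero] at hy
      exact absurd hy (not_lt.mpr zero_le)
    have hy1 : v (yc P + 1) = v (yc P) := v.map_add_eq_of_lt_left (by rw [map_one]; exact hy)
    have hy2 : yc P + 1 ≠ 0 := by
      intro h
      rw [h, map_zero] at hy1
      rw [← hy1] at hy
      exact absurd hy (not_lt.mpr zero_le)
    have e1 : tc (-P) = xc P / (yc P + 1) := by
      have e2 : -P = mkPt (xc P) (-yc P - 1) (by linear_combination he) := by
        conv_lhs => rw [hm]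
        rw [neg_mk]
      rw [e2]
      unfold tc
      rw [xc_mk, yc_mk]
      have e3 : -yc P - 1 = -(yc P + 1) := by ring
      rw [e3, neg_div_neg_eq]
    have e4 : tc (-P) + tc P = -(xc P / ((yc P + 1) * yc P)) := by
      rw [e1]
      unfold tc
      field_simp
      ring
    have hvx : v (xc P) = (v (tc P) ^ 2)⁻¹ := eq_inv_of_mul_eq_one_left h1
    have hvy : v (yc P) = (v (tc P) ^ 3)⁻¹ := eq_inv_of_mul_eq_one_left h2
    rw [e4, v.map_neg, map_div₀, map_mul, hy1, hvx, hvy]
    apply le_of_eq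
    field_simp

private theorem vae_nsmul {P : Pt F} (hP : Ker v P) (n : ℕ) : v (tc (n • P)) ≤ v (tc P) := by
  have h1 := (ker_nsmul v hP n).2
  have h2 : tc (n • P) = (tc (n • P) - n * tc P) + n * tc P := by ring
  rw [h2]
  refine v.map_add_le (h1.trans (vae_pow_le (ker_tc_lt v hP).le)) ?_
  rw [map_mul]
  exact mul_le_of_le_one_left zero_le (v_nat_le v n)

private theorem vae_zsmul {P : Pt F} (hP : Ker v P) (n : ℤ) : Ker v (n • P) ∧
    v (tc (n • P) - n * tc P) ≤ v (tc P) ^ 4 ∧ v (tc (n • P)) ≤ v (tc P) := by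
  have key : Ker v (n • P) ∧ v (tc (n • P) - n * tc P) ≤ v (tc P) ^ 4 := by
    obtain ⟨m, rfl | rfl⟩ := n.eq_nat_or_neg
    · rw [natCast_zsmul, Int.cast_natCast]
      exact ker_nsmul v hP m
    · obtain ⟨h1, h2⟩ := ker_nsmul v hP m
      rw [neg_zsmul, natCast_zsmul, Int.cast_neg, Int.cast_natCast]
      refine ⟨ker_neg v h1, ?_⟩
      have h3 := vae_neg v h1
      have h4 : v (tc (m • P)) ^ 4 ≤ v (tc P) ^ 4 := pow_le_pow_left' (vae_nsmul v hP m) 4
      have h5 : tc (-(m • P)) - -(m : F) * tc P =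
          (tc (-(m • P)) + tc (m • P)) + -(tc (m • P) - m * tc P) := by ring
      rw [h5]
      refine v.map_add_le (h3.trans h4) ?_
      rw [v.map_neg]
      exact h2
  refine ⟨key.1, key.2, ?_⟩
  have h2 : tc (n • P) = (tc (n • P) - n * tc P) + n * tc P := by ring
  rw [h2]
  refine v.map_add_le (key.2.trans (vae_pow_le (ker_tc_lt v hP).le)) ?_
  rw [map_mul]
  exact mul_le_of_le_one_left zero_le (v_int_le v n)

theorem v_alg_le (a : 𝓞 K) : v (algebraMap K F (a : K)) ≤ 1 := by
  obtain ⟨m, n, -, h⟩ := vae_coords (F := F) a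
  rw [h]
  refine v.map_add_le (v_int_le v m) ?_
  rw [map_mul, v_om, mul_one]
  exact v_int_le v n

theorem ker_sm_t {P : Pt F} (hP : Ker v P) (a : 𝓞 K) :
    v (tc (sm F a P) - algebraMap K F (a : K) * tc P) ≤ v (tc P) ^ 4 := by
  obtain ⟨m, n, h1, h2⟩ := vae_coords (F := F) a
  have e1 : sm F a P = m • P + n • omH F P := by
    conv_lhs => rw [h1]
    rw [map_add, map_mul]
    change sm F (m : 𝓞 K) P + sm F (n : 𝓞 K) (sm F S3.omO P) = _
    rw [sm_int, sm_om, sm_int]
  have hO : Ker v (omH F P) := (ker_omH v).mpr hP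
  have hvO : v (tc (omH F P)) = v (tc P) := by
    rw [vae_tc_omH, map_mul, v_om, one_mul]
  obtain ⟨a1, a2, a3⟩ := vae_zsmul v hP m
  obtain ⟨b1, b2, b3⟩ := vae_zsmul v hO n
  rw [hvO] at b2 b3
  have c1 := (ker_add v a1 b1).2
  have c2 : (max (v (tc (m • P))) (v (tc (n • omH F P)))) ^ 4 ≤ v (tc P) ^ 4 :=
    pow_le_pow_left' (max_le a3 b3) 4
  have e2 : tc (sm F a P) - algebraMap K F (a : K) * tc P =
      (tc (m • P + n • omH F P) - tc (m • P) - tc (n • omH F P)) +
        ((tc (m • P) - m * tc P) + (tc (n • omH F P) - n * tc (omH F P))) := by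
    rw [e1, h2, vae_tc_omH]
    ring
  rw [e2]
  exact v.map_add_le (c1.trans c2) (v.map_add_le a2 b2)

theorem ker_sm_le {P : Pt F} (hP : Ker v P) (a : 𝓞 K) : v (tc (sm F a P)) ≤ v (tc P) := by
  have h1 := ker_sm_t v hP a
  have h2 : tc (sm F a P) = (tc (sm F a P) - algebraMap K F (a : K) * tc P) +
      algebraMap K F (a : K) * tc P := by ring
  rw [h2]
  refine v.map_add_le (h1.trans (vae_pow_le (ker_tc_lt v hP).le)) ?_
  rw [map_mul]
  exact mul_le_of_le_one_left zero_le (v_alg_le v a)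

end

end Pool.Agent.Lib.MP_1a91b9_ntT.DB
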