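import Pool.Agent.Lib.MP_1a91b9_ntT.DB.TrD

/-!
# DB: the elliptic units `xi c = Π_{a ∈ T} y(S + a P)^(n(c/a))`

PROOF (complete; stream DB of helper55). Jobs XiA (`xi_ne_zero` .. `xi_iso`), XiB (`tc_add_S`,
`xi_loc`, `xi_pow`).

`yS_val`: `y_unit` for `Q = sm c P ≠ 0` (`Ord`), `n := q` as a natural number (`Ideal.absNorm_mem` : `q • P =
0`; `q` is `ℓ` or `ℓ^2`, prime to `3`). `xi_val`: `map_prod`, `map_zpow₀`. `xi_zero`: `TrD.zero`.
`xi_neg`: `TrD.odd`. `xi_add`: `n((c + c')/a) = n(c/a) + n(c'/a) + ℓ m_a`, `z = Π y(S + a P)^(m_a)`.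
`xi_ga`: `σ (yc (S + sm a P)) = yc (ga σ S + sm a (ga σ P)) = yc (S + sm (a d) P)` (`yc_ga`, `ga_S`, `ga_sm`,
`map_add`; `sm` is a ring homomorphism and `𝓞 K` is commutative). Apply `TrD.reindex` to
`f b = yc (S + sm b P) ^ n(c d iv b)` (it depends only on `b` modulo `ϖ`: `Ord`, `TrD.cong`, and for
`b = b'` modulo `ϖ`, both prime to `ϖ`, `iv b = iv b'` modulo `ϖ`; if `ϖ ∣ b`, define `f b = 1`
instead; so use `f b = if ϖ ∣ b then 1 else ..`), with `iv (a d) = iv a * iv d`, `d * iv (a d) = iv a` modulo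
`ϖ`. `xi_iso`: `A c = el (xi c)`: additive by `xi_add`; `sg σ (xi 1) = xi d`.

`tc_add_S`: let `v ϖ < 1`. `P` is in the kernel, `t = tc P`, `v t < 1`. For a multiple `Q = sm a P`
(`a` not divisible by `ϖ`): `v (yc (S + Q) - (om + 3 tc Q)) ≤ v (tc Q) ^ 2` (this is `S_add_ker` in ValC:
look at its exact form), `v (tc Q - a t) ≤ v t ^ 4` (`ker_sm_t`), `v (tc Q) ≤ v t`. So
`y(S + Q) = om (1 + 3 om^2 a t)` modulo `t^2` (`om^3 = 1`).
`xi_loc`: product over `a ∈ T` with exponents `m_a = n(c/a)`, `∑ m_a = 0` (`TrD.sum_zero`):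
`Π om^(m_a) = 1` and `Π (1 + 3 om^2 a t)^(m_a) = 1 + 3 om^2 t ∑ m_a a` modulo `t^2` (for elements `1 + u`
with `v u ≤ v t` the map `1 + u ↦ u` is additive modulo `t^2`: induction over `T`, and for integer
powers), `∑ m_a a + c` is divisible by `ϖ` and `v ϖ = v t ^ (q - 1) ≤ v t` (`v_tc`), so
`xi c = 1 - 3 om^2 c t` modulo `t^2`.
`xi_pow`: suppose `v (xi c - z^ℓ) ≤ exp (-2)` (`w ∋ ϖ`, `od w t = 1`, so `v t = exp (-1)`); `xi c = 1`
modulo `w`, so `z^ℓ = 1` modulo `w`, by `pow_loc` `z^ℓ = 1` modulo `w^2`, so `v (3 om^2 c t) ≤ exp (-2)`,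
`v 3 = 1` (`w` contains `ℓ ≥ 5`), `v om = 1`: `v c < 1`: `ϖ ∣ c` (`PD.val_iff`).
-/

set_option autoImplicit false

namespace Pool.Agent.Lib.MP_1a91b9_ntT.DB

open NumberField IsDedekindDomain WeierstrassCurve

universe u

noncomputable section

section
variable {N : Type u} [Field N] [NumberField N] [Algebra K N] [DecidableEq N]

/-- the elliptic unit of index `c` -/
def xi (T : Finset (𝓞 K)) (iv : 𝓞 K → 𝓞 K) (n : 𝓞 K → ℤ) (P : Pt N) (c : 𝓞 K) : N :=
  ∏ a ∈ T, yc (ptS N + sm N a P) ^ n (c * iv a)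

variable {ϖ : 𝓞 K} {ℓ q : ℕ} (h : PD ϖ ℓ q) {T : Finset (𝓞 K)} {iv : 𝓞 K → 𝓞 K} {n : 𝓞 K → ℤ}
  (hT : TrD ϖ ℓ T iv n) {P : Pt N} (hP : Ord ϖ P)
include h hT hP

theorem yS_val {Γ : Type*} [LinearOrderedCommGroupWithZero Γ] (v : Valuation N Γ) {c : 𝓞 K}
    (hc : ¬ ϖ ∣ c) : v (yc (ptS N + sm N c P)) = 1 :=
  yS_unit v h.prime h.one hP hc

private theorem xia_y_ne {c : 𝓞 K} (hc : ¬ ϖ ∣ c) : yc (ptS N + sm N c P) ≠ 0 := by
  intro h0
  have h1 := yS_val h hT hP (1 : Valuation N (WithZero (Multiplicative ℤ))) hc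
  rw [h0, map_zero] at h1
  exact zero_ne_one h1

theorem xi_val {Γ : Type*} [LinearOrderedCommGroupWithZero Γ] (v : Valuation N Γ) (c : 𝓞 K) :
    v (xi T iv n P c) = 1 := by
  rw [xi, map_prod]
  refine Finset.prod_eq_one fun a ha => ?_
  rw [map_zpow₀, yS_val h hT hP v (hT.res.nz a ha), one_zpow]

theorem xi_ne_zero (c : 𝓞 K) : xi T iv n P c ≠ 0 :=
  Finset.prod_ne_zero_iff.2 fun a ha => zpow_ne_zero _ (xia_y_ne h hT hP (hT.res.nz a ha))

theorem xi_zero {c : 𝓞 K} (hc : ϖ ∣ c) : xi T iv n P c = 1 := by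
  rw [xi]
  refine Finset.prod_eq_one fun a _ => ?_
  rw [TrD.zero h hT (hc.mul_right _), zpow_zero]

theorem xi_cong {c d : 𝓞 K} (hc : ϖ ∣ c - d) : xi T iv n P c = xi T iv n P d := by
  rw [xi, xi]
  refine Finset.prod_congr rfl fun a _ => ?_
  rw [hT.cong (c * iv a) (d * iv a) (by rw [← sub_mul]; exact hc.mul_right _)]

theorem xi_neg (c : 𝓞 K) : xi T iv n P (-c) = (xi T iv n P c)⁻¹ := by
  rw [xi, xi, ← Finset.prod_inv_distrib]
  refine Finset.prod_congr rfl fun a _ => ?_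
  rw [neg_mul, hT.odd, zpow_neg]

theorem xi_add (c d : 𝓞 K) : ∃ z : N, z ≠ 0 ∧ (∀ w : HeightOneSpectrum (𝓞 N), od w z = 0) ∧
    xi T iv n P (c + d) = xi T iv n P c * xi T iv n P d * z ^ ℓ := by
  have hm : ∀ a : 𝓞 K, ∃ m : ℤ, n ((c + d) * iv a) - n (c * iv a) - n (d * iv a) = ℓ * m := by
    intro a
    have h1 := hT.add (c * iv a) (d * iv a)
    rw [← add_mul] at h1
    exact h1
  choose m hm using hm
  have hz0 : ∏ a ∈ T, yc (ptS N + sm N a P) ^ m a ≠ 0 :=
    Finset.prod_ne_zero_iff.2 fun a ha => zpow_ne_zero _ (xia_y_ne h hT hP (hT.res.nz a ha))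
  refine ⟨∏ a ∈ T, yc (ptS N + sm N a P) ^ m a, hz0, fun w => ?_, ?_⟩
  · rw [← val_eq_one_iff w hz0, map_prod]
    refine Finset.prod_eq_one fun a ha => ?_
    rw [map_zpow₀, yS_val h hT hP _ (hT.res.nz a ha), one_zpow]
  · rw [xi, xi, xi, ← Finset.prod_mul_distrib, ← Finset.prod_pow, ← Finset.prod_mul_distrib]
    refine Finset.prod_congr rfl fun a ha => ?_
    have hy := xia_y_ne h hT hP (hT.res.nz a ha)
    have h1 : n ((c + d) * iv a) = n (c * iv a) + n (d * iv a) + m a * (ℓ : ℤ) := by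
      linear_combination hm a
    rw [h1, zpow_add₀ hy, zpow_add₀ hy, zpow_mul, zpow_natCast]

theorem xi_ga {k : Type u} [Field k] [Algebra K k] [Algebra k N] [IsScalarTower K k N]
    {σ : Gal(N/k)} {d : 𝓞 K} (hd : ¬ ϖ ∣ d) (hσ : ga σ P = sm N d P) (c : 𝓞 K) :
    σ (xi T iv n P c) = xi T iv n P (c * d) := by
  classical
  have key : ∀ a b : 𝓞 K, ¬ ϖ ∣ a → ¬ ϖ ∣ b → ϖ ∣ a - b → ϖ ∣ iv a - iv b := by
    intro a b ha hb hab
    have e1 := hT.inv a ha
    have e2 := hT.inv b hb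
    have e3 : ϖ ∣ a * (iv a - iv b) := by
      have e4 : a * (iv a - iv b) = (a * iv a - 1) - (b * iv b - 1) - (a - b) * iv b := by ring
      rw [e4]
      exact dvd_sub (dvd_sub e1 e2) (hab.mul_right _)
    exact (h.prime.dvd_or_dvd e3).resolve_left ha
  set f : 𝓞 K → N := fun b => if ϖ ∣ b then 1 else
    yc (ptS N + sm N b P) ^ n (c * d * iv b) with hf
  have hf1 : ∀ a b : 𝓞 K, ϖ ∣ a - b → f a = f b := by
    intro a b hab
    have hiff : ϖ ∣ a ↔ ϖ ∣ b := by
      constructor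
      · intro ha
        have := dvd_sub ha hab
        rwa [sub_sub_cancel] at this
      · intro hb
        have := dvd_add hab hb
        rwa [sub_add_cancel] at this
    simp only [hf]
    by_cases ha : ϖ ∣ a
    · rw [if_pos ha, if_pos (hiff.1 ha)]
    · have hb : ¬ ϖ ∣ b := fun hb => ha (hiff.2 hb)
      rw [if_neg ha, if_neg hb, (hP.sm_eq_iff a b).2 hab,
        hT.cong (c * d * iv a) (c * d * iv b)
          (by rw [← mul_sub]; exact (key a b ha hb hab).mul_left _)]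
  have hre := TrD.reindex h hT f hf1 hd
  have h2 : xi T iv n P (c * d) = ∏ a ∈ T, f a := by
    rw [xi]
    refine Finset.prod_congr rfl fun a ha => ?_
    simp only [hf]
    rw [if_neg (hT.res.nz a ha)]
  rw [h2, ← hre, xi, map_prod]
  refine Finset.prod_congr rfl fun a ha => ?_
  have hna := hT.res.nz a ha
  have hnad : ¬ ϖ ∣ a * d := fun h3 => (h.prime.dvd_or_dvd h3).elim hna hd
  simp only [hf]
  rw [if_neg hnad, map_zpow₀, ← yc_ga σ, map_add, ga_S, ga_sm, hσ]
  have h4 : sm N a (sm N d P) = sm N (a * d) P := by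
    rw [map_mul]
    rfl
  rw [h4]
  congr 1
  refine hT.cong _ _ ?_
  have e1 := hT.inv a hna
  have e2 := hT.inv (a * d) hnad
  have e3 : ϖ ∣ a * (iv a - d * iv (a * d)) := by
    have e4 : a * (iv a - d * iv (a * d)) = (a * iv a - 1) - (a * d * iv (a * d) - 1) := by ring
    rw [e4]
    exact dvd_sub e1 e2
  have e5 := (h.prime.dvd_or_dvd e3).resolve_left hna
  have e6 : c * iv a - c * d * iv (a * d) = c * (iv a - d * iv (a * d)) := by ring
  rw [e6]
  exact e5.mul_left _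

/-- the elliptic unit of index `c` as a unit -/
def xiU (c : 𝓞 K) : Nˣ := Units.mk0 (xi T iv n P c) (xi_ne_zero h hT hP c)

theorem xi_iso (k : Type u) [Field k] [NumberField k] [Algebra K k] [Algebra k N]
    [IsScalarTower K k N] (c : 𝓞 K) : Iso k ℓ P (xiU h hT hP c) := by
  have hadd : ∀ a b : 𝓞 K, el ℓ (xiU h hT hP (c * (a + b))) =
      el ℓ (xiU h hT hP (c * a)) + el ℓ (xiU h hT hP (c * b)) := by
    intro a b
    obtain ⟨z, hz0, -, hz⟩ := xi_add h hT hP (c * a) (c * b)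
    rw [← el_mul, el_eq]
    refine ⟨Units.mk0 z hz0, Units.ext ?_⟩
    rw [Units.val_mul, Units.val_mul, Units.val_pow_eq_pow_val]
    change xi T iv n P (c * (a + b)) = xi T iv n P (c * a) * xi T iv n P (c * b) * z ^ ℓ
    rw [mul_add, hz]
  refine ⟨{ toFun := fun d => el ℓ (xiU h hT hP (c * d))
            map_zero' := ?_
            map_add' := hadd }, fun σ d hσ => ?_⟩
  · have h1 : xiU h hT hP (c * 0) = 1 := by
      refine Units.ext ?_
      change xi T iv n P (c * 0) = 1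
      exact xi_zero h hT hP (by rw [mul_zero]; exact dvd_zero _)
    rw [h1, el_one]
  · have hd : ¬ ϖ ∣ d := by
      intro hd
      rw [(hP d).2 hd] at hσ
      have h1 : P = 0 := by
        rw [← map_zero (ga σ)] at hσ
        exact pm_inj _ hσ
      have h2 := (hP 1).1 (by rw [h1, map_zero])
      exact h.prime.not_unit (isUnit_of_dvd_one h2)
    change el ℓ (sg σ (xiU h hT hP c)) = el ℓ (xiU h hT hP (c * d))
    congr 1
    refine Units.ext ?_
    rw [sg_coe]
    exact xi_ga h hT hP hd hσ c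

private theorem xib_three {Γ : Type*} [LinearOrderedCommGroupWithZero Γ] (v : Valuation N Γ)
    (hv : v (algebraMap K N (ϖ : K)) < 1) : v (3 : N) = 1 := by
  have hl : v (ℓ : N) < 1 := by
    obtain ⟨b, hb⟩ := h.dvd
    have e1 : (ℓ : N) = algebraMap K N (ϖ : K) * algebraMap K N (b : K) := by
      rw [← map_mul]
      have e2 : ((ϖ * b : 𝓞 K) : K) = (ϖ : K) * (b : K) := by
        change algebraMap (𝓞 K) K (ϖ * b) = _
        rw [map_mul]
      rw [← e2, ← hb]
      change (ℓ : N) = algebraMap K N (algebraMap (𝓞 K) K (ℓ : 𝓞 K))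
      rw [map_natCast, map_natCast]
    rw [e1, map_mul]
    exact mul_lt_one_of_lt_of_le hv (v_alg_le v b)
  have h3 : v (3 : N) ≤ 1 := by
    have := v_nat_le v (F := N) 3
    exact_mod_cast this
  refine le_antisymm h3 (not_lt.1 fun h4 => ?_)
  have hcop : IsCoprime ((3 : ℕ) : ℤ) (ℓ : ℤ) := by
    rw [Nat.isCoprime_iff_coprime]
    rw [Nat.coprime_primes Nat.prime_three h.hl]
    have := h.five
    omega
  obtain ⟨a, b, hab⟩ := hcop
  have e1 : (1 : N) = (a : N) * 3 + (b : N) * (ℓ : N) := by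
    have := congrArg (fun z : ℤ => (z : N)) hab
    push_cast at this
    exact this.symm
  have e2 : v (1 : N) < 1 := by
    rw [e1]
    refine Valuation.map_add_lt v ?_ ?_
    · rw [map_mul]
      exact lt_of_le_of_lt (mul_le_mul' (v_int_le v a) le_rfl) (by rw [one_mul]; exact h4)
    · rw [map_mul]
      exact lt_of_le_of_lt (mul_le_mul' (v_int_le v b) le_rfl) (by rw [one_mul]; exact hl)
  rw [map_one] at e2
  exact lt_irrefl _ e2

/-- the ordinate of `S + a P` near a place over `ϖ` -/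
theorem tc_add_S {Γ : Type*} [LinearOrderedCommGroupWithZero Γ] (v : Valuation N Γ)
    (hv : v (algebraMap K N (ϖ : K)) < 1) {a : 𝓞 K} (ha : ¬ ϖ ∣ a) :
    v (yc (ptS N + sm N a P) - omF N * (1 + 3 * omF N ^ 2 * algebraMap K N (a : K) * tc P)) ≤
      v (tc P) ^ 2 := by
  have hK : Ker v P := ker_of_val v h.prime h.one hP hv
  have h3 : v (3 : N) = 1 := xib_three h hT hP v hv
  have h1 := S_add_ker v h3 (ker_sm v hK a)
  have h2 := ker_sm_t v hK a
  have h4 := ker_sm_le v hK a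
  have ht := (ker_tc_lt v hK).le
  have e1 : yc (ptS N + sm N a P) - omF N * (1 + 3 * omF N ^ 2 * algebraMap K N (a : K) * tc P) =
      (yc (ptS N + sm N a P) - (omF N + 3 * tc (sm N a P))) +
        3 * (tc (sm N a P) - algebraMap K N (a : K) * tc P) := by
    linear_combination -(3 * algebraMap K N (a : K) * tc P) * omF_cube N
  rw [e1]
  refine Valuation.map_add_le v (h1.trans (pow_le_pow_left' h4 2)) ?_
  rw [map_mul, h3, one_mul]
  exact h2.trans (pow_le_pow_right_of_le_one' ht (by norm_num))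

omit [NumberField N] [Algebra K N] [DecidableEq N] h hT hP in
private theorem xib_mul {Γ : Type*} [LinearOrderedCommGroupWithZero Γ] (v : Valuation N Γ)
    {g : Γ} (hg : g ≤ 1) {x x' α α' : N} (h1 : v α ≤ g) (h2 : v (x - 1 - α) ≤ g ^ 2)
    (h1' : v α' ≤ g) (h2' : v (x' - 1 - α') ≤ g ^ 2) :
    v (α + α') ≤ g ∧ v (x * x' - 1 - (α + α')) ≤ g ^ 2 := by
  refine ⟨Valuation.map_add_le v h1 h1', ?_⟩
  have hx' : v x' ≤ 1 := by
    have e1 : x' = (x' - 1 - α') + (1 + α') := by ring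
    rw [e1]
    refine Valuation.map_add_le v (h2'.trans (pow_le_one' hg 2)) ?_
    exact Valuation.map_add_le v (by rw [map_one]) (h1'.trans hg)
  have e2 : x * x' - 1 - (α + α') = (x - 1 - α) * x' + ((1 + α) * (x' - 1 - α') + α * α') := by
    ring
  rw [e2]
  refine Valuation.map_add_le v ?_ (Valuation.map_add_le v ?_ ?_)
  · rw [map_mul]
    exact (mul_le_mul' h2 hx').trans (by rw [mul_one])
  · rw [map_mul]
    have h3 : v (1 + α) ≤ 1 := Valuation.map_add_le v (by rw [map_one]) (h1.trans hg)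
    exact (mul_le_mul' h3 h2').trans (by rw [one_mul])
  · rw [map_mul, sq]
    exact mul_le_mul' h1 h1'

omit [NumberField N] [Algebra K N] [DecidableEq N] h hT hP in
private theorem xib_inv {Γ : Type*} [LinearOrderedCommGroupWithZero Γ] (v : Valuation N Γ)
    {g : Γ} (hg : g ≤ 1) {x α : N} (hx : v x = 1) (h1 : v α ≤ g) (h2 : v (x - 1 - α) ≤ g ^ 2) :
    v (-α) ≤ g ∧ v (x⁻¹ - 1 - -α) ≤ g ^ 2 := by
  refine ⟨by rwa [Valuation.map_neg], ?_⟩
  have hx0 : x ≠ 0 := by
    rintro rfl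
    rw [map_zero] at hx
    exact zero_ne_one hx
  have e1 : x⁻¹ - 1 - -α = x⁻¹ * (α * (x - 1 - α) + α * α - (x - 1 - α)) := by
    field_simp
    ring
  rw [e1, map_mul, map_inv₀, hx, inv_one, one_mul]
  refine Valuation.map_sub_le v (Valuation.map_add_le v ?_ ?_) h2
  · rw [map_mul]
    exact (mul_le_mul' (h1.trans hg) h2).trans (by rw [one_mul])
  · rw [map_mul, sq]
    exact mul_le_mul' h1 h1

omit [NumberField N] [Algebra K N] [DecidableEq N] h hT hP in
private theorem xib_pow {Γ : Type*} [LinearOrderedCommGroupWithZero Γ] (v : Valuation N Γ)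
    {g : Γ} (hg : g ≤ 1) {x α : N} (h1 : v α ≤ g) (h2 : v (x - 1 - α) ≤ g ^ 2) (m : ℕ) :
    v ((m : N) * α) ≤ g ∧ v (x ^ m - 1 - (m : N) * α) ≤ g ^ 2 := by
  induction m with
  | zero => simp
  | succ m ih =>
    have h3 := xib_mul v hg ih.1 ih.2 h1 h2
    have e1 : ((m + 1 : ℕ) : N) * α = (m : N) * α + α := by
      push_cast
      ring
    rw [e1, pow_succ]
    exact h3

omit [NumberField N] [Algebra K N] [DecidableEq N] h hT hP in
private theorem xib_zpow {Γ : Type*} [LinearOrderedCommGroupWithZero Γ] (v : Valuation N Γ)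
    {g : Γ} (hg : g ≤ 1) {x α : N} (hx : v x = 1) (h1 : v α ≤ g) (h2 : v (x - 1 - α) ≤ g ^ 2)
    (m : ℤ) : v ((m : N) * α) ≤ g ∧ v (x ^ m - 1 - (m : N) * α) ≤ g ^ 2 := by
  obtain ⟨k, rfl | rfl⟩ := m.eq_nat_or_neg
  · rw [zpow_natCast, Int.cast_natCast]
    exact xib_pow v hg h1 h2 k
  · have h3 := xib_pow v hg h1 h2 k
    have h4 : v (x ^ k) = 1 := by rw [map_pow, hx, one_pow]
    have h5 := xib_inv v hg h4 h3.1 h3.2
    have e1 : (((-(k : ℤ) : ℤ)) : N) * α = -((k : N) * α) := by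
      push_cast
      ring
    rw [e1, zpow_neg, zpow_natCast]
    exact h5

omit [NumberField N] [Algebra K N] [DecidableEq N] h hT hP in
private theorem xib_prod {Γ : Type*} [LinearOrderedCommGroupWithZero Γ] (v : Valuation N Γ)
    {g : Γ} (hg : g ≤ 1) {ι : Type*} (s : Finset ι) (x α : ι → N)
    (h1 : ∀ i ∈ s, v (α i) ≤ g ∧ v (x i - 1 - α i) ≤ g ^ 2) :
    v (∑ i ∈ s, α i) ≤ g ∧ v (∏ i ∈ s, x i - 1 - ∑ i ∈ s, α i) ≤ g ^ 2 := by
  classical
  induction s using Finset.induction_on with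
  | empty => simp
  | insert a s ha ih =>
    have h2 := ih fun i hi => h1 i (Finset.mem_insert_of_mem hi)
    have h3 := h1 a (Finset.mem_insert_self a s)
    rw [Finset.sum_insert ha, Finset.prod_insert ha]
    exact xib_mul v hg h3.1 h3.2 h2.1 h2.2

omit [NumberField N] [Algebra K N] [DecidableEq N] h hT hP in
private theorem xib_prod_zpow {x : N} (hx : x ≠ 0) {ι : Type*} (s : Finset ι) (f : ι → ℤ) :
    ∏ i ∈ s, x ^ f i = x ^ (∑ i ∈ s, f i) := by
  classical
  induction s using Finset.induction_on with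
  | empty => simp
  | insert a s ha ih =>
    rw [Finset.sum_insert ha, Finset.prod_insert ha, ih, zpow_add₀ hx]

theorem xi_loc {Γ : Type*} [LinearOrderedCommGroupWithZero Γ] (v : Valuation N Γ)
    (hv : v (algebraMap K N (ϖ : K)) < 1) (c : 𝓞 K) :
    v (xi T iv n P c - 1 + 3 * omF N ^ 2 * algebraMap K N (c : K) * tc P) ≤ v (tc P) ^ 2 := by
  have hK : Ker v P := ker_of_val v h.prime h.one hP hv
  have h3 : v (3 : N) = 1 := xib_three h hT hP v hv
  have ht := (ker_tc_lt v hK).le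
  have hom := v_om v (F := N)
  have hω3 := omF_cube N
  have hω0 := omF_ne_zero N
  -- each factor
  have hα : ∀ a : 𝓞 K, v (3 * omF N ^ 2 * algebraMap K N (a : K) * tc P) ≤ v (tc P) := by
    intro a
    rw [map_mul, map_mul, map_mul, h3, map_pow, hom, one_pow, one_mul, one_mul]
    exact (mul_le_mul' (v_alg_le v a) le_rfl).trans (by rw [one_mul])
  have hx : ∀ a ∈ T, v (omF N ^ 2 * yc (ptS N + sm N a P)) = 1 := by
    intro a ha
    rw [map_mul, map_pow, hom, one_pow, one_mul]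
    exact yS_val h hT hP v (hT.res.nz a ha)
  have hx1 : ∀ a ∈ T, v (omF N ^ 2 * yc (ptS N + sm N a P) - 1 -
      3 * omF N ^ 2 * algebraMap K N (a : K) * tc P) ≤ v (tc P) ^ 2 := by
    intro a ha
    have h4 := tc_add_S h hT hP v hv (hT.res.nz a ha)
    have e1 : omF N ^ 2 * yc (ptS N + sm N a P) - 1 -
        3 * omF N ^ 2 * algebraMap K N (a : K) * tc P = omF N ^ 2 *
        (yc (ptS N + sm N a P) - omF N * (1 + 3 * omF N ^ 2 * algebraMap K N (a : K) * tc P)) := by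
      linear_combination (1 + 3 * omF N ^ 2 * algebraMap K N (a : K) * tc P) * hω3
    rw [e1, map_mul, map_pow, hom, one_pow, one_mul]
    exact h4
  have hprod := (xib_prod v ht T
    (fun a => (omF N ^ 2 * yc (ptS N + sm N a P)) ^ n (c * iv a))
    (fun a => ((n (c * iv a) : ℤ) : N) * (3 * omF N ^ 2 * algebraMap K N (a : K) * tc P))
    (fun a ha => xib_zpow v ht (hx a ha) (hα a) (hx1 a ha) _)).2
  have e2 : ∏ a ∈ T, (omF N ^ 2 * yc (ptS N + sm N a P)) ^ n (c * iv a) = xi T iv n P c := by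
    have e3 : ∀ a ∈ T, (omF N ^ 2 * yc (ptS N + sm N a P)) ^ n (c * iv a) =
        (omF N ^ 2) ^ n (c * iv a) * yc (ptS N + sm N a P) ^ n (c * iv a) :=
      fun a _ => mul_zpow _ _ _
    rw [Finset.prod_congr rfl e3, Finset.prod_mul_distrib,
      xib_prod_zpow (pow_ne_zero 2 hω0) T (fun a => n (c * iv a)),
      TrD.sum_zero h hT c, zpow_zero, one_mul]
    rfl
  have e4 : ∑ a ∈ T, ((n (c * iv a) : ℤ) : N) * (3 * omF N ^ 2 * algebraMap K N (a : K) * tc P) =
      3 * omF N ^ 2 * tc P * algebraMap K N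
        ((∑ a ∈ T, (n (c * iv a) : 𝓞 K) * a : 𝓞 K) : K) := by
    have e5 : ((∑ a ∈ T, (n (c * iv a) : 𝓞 K) * a : 𝓞 K) : K) =
        ∑ a ∈ T, ((n (c * iv a) : ℤ) : K) * (a : K) := by
      change algebraMap (𝓞 K) K _ = _
      rw [map_sum]
      refine Finset.sum_congr rfl fun a _ => ?_
      rw [map_mul, map_intCast]
    rw [e5, map_sum, Finset.mul_sum]
    refine Finset.sum_congr rfl fun a _ => ?_
    rw [map_mul, map_intCast]
    ring
  obtain ⟨b, hb⟩ := hT.orth c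
  have e6 : algebraMap K N ((∑ a ∈ T, (n (c * iv a) : 𝓞 K) * a : 𝓞 K) : K) =
      algebraMap K N (ϖ : K) * algebraMap K N (b : K) - algebraMap K N (c : K) := by
    have e7 : (∑ a ∈ T, (n (c * iv a) : 𝓞 K) * a : 𝓞 K) = ϖ * b - c := by
      rw [← hb]
      ring
    rw [e7]
    have e8 : ((ϖ * b - c : 𝓞 K) : K) = (ϖ : K) * (b : K) - (c : K) := by
      change algebraMap (𝓞 K) K (ϖ * b - c) = _
      rw [map_sub, map_mul]
    rw [e8, map_sub, map_mul]
  rw [e2, e4, e6] at hprod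
  have hϖ : v (algebraMap K N (ϖ : K)) ≤ v (tc P) := by
    rw [← v_tc v h.prime h.one hP hv]
    have h5 : 5 ≤ q := PD.q_five h
    rw [h.norm]
    calc v (tc P) ^ (q - 1) ≤ v (tc P) ^ 1 := pow_le_pow_right_of_le_one' ht (by omega)
      _ = v (tc P) := pow_one _
  have e9 : xi T iv n P c - 1 + 3 * omF N ^ 2 * algebraMap K N (c : K) * tc P =
      (xi T iv n P c - 1 - 3 * omF N ^ 2 * tc P *
        (algebraMap K N (ϖ : K) * algebraMap K N (b : K) - algebraMap K N (c : K))) +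
      3 * omF N ^ 2 * tc P * (algebraMap K N (ϖ : K) * algebraMap K N (b : K)) := by
    ring
  rw [e9]
  refine Valuation.map_add_le v hprod ?_
  rw [map_mul, map_mul, map_mul, map_mul, h3, map_pow, hom, one_pow, one_mul, one_mul, sq]
  exact mul_le_mul' le_rfl ((mul_le_mul' hϖ (v_alg_le v b)).trans (by rw [mul_one]))

/-- if `xi c` is an `ℓ`-th power modulo the square of a place above `ϖ` then `ϖ ∣ c` -/
theorem xi_pow (w : HeightOneSpectrum (𝓞 N)) (hw : w.valuation N (algebraMap K N (ϖ : K)) < 1)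
    (ht : od w (tc P) = 1) {c : 𝓞 K} {z : N}
    (hz : w.valuation N (xi T iv n P c - z ^ ℓ) ≤ WithZero.exp (-2 : ℤ)) : ϖ ∣ c := by
  have ht0 : tc P ≠ 0 := by
    intro h0
    rw [h0] at ht
    simp [od] at ht
  have hvt : w.valuation N (tc P) = WithZero.exp (-1 : ℤ) := by rw [val_eq w ht0, ht]
  have hloc := xi_loc h hT hP (w.valuation N) hw c
  have h3 : w.valuation N (3 : N) = 1 := xib_three h hT hP (w.valuation N) hw
  have hom := v_om (w.valuation N) (F := N)
  have hsq : (WithZero.exp (-1 : ℤ)) ^ 2 = WithZero.exp (-2 : ℤ) := by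
    rw [← WithZero.exp_nsmul]
    norm_num
  rw [hvt, hsq] at hloc
  have hlt : WithZero.exp (-2 : ℤ) < 1 := by
    rw [← WithZero.exp_zero, WithZero.exp_lt_exp]
    norm_num
  have hlt1 : WithZero.exp (-1 : ℤ) < 1 := by
    rw [← WithZero.exp_zero, WithZero.exp_lt_exp]
    norm_num
  have hval : w.valuation N (3 * omF N ^ 2 * algebraMap K N (c : K) * tc P) =
      w.valuation N (algebraMap K N (c : K)) * WithZero.exp (-1 : ℤ) := by
    rw [map_mul, map_mul, map_mul, h3, map_pow, hom, one_pow, one_mul, one_mul, hvt]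
  have hlt2 : w.valuation N (3 * omF N ^ 2 * algebraMap K N (c : K) * tc P) < 1 := by
    rw [hval]
    exact lt_of_le_of_lt (mul_le_mul' (v_alg_le _ c) le_rfl) (by rw [one_mul]; exact hlt1)
  have hz1 : w.valuation N (z ^ ℓ - 1) < 1 := by
    have e1 : z ^ ℓ - 1 = (xi T iv n P c - 1 + 3 * omF N ^ 2 * algebraMap K N (c : K) * tc P) -
        3 * omF N ^ 2 * algebraMap K N (c : K) * tc P - (xi T iv n P c - z ^ ℓ) := by ring
    rw [e1]
    refine Valuation.map_sub_lt _ (Valuation.map_sub_lt _ (lt_of_le_of_lt hloc hlt) hlt2)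
      (lt_of_le_of_lt hz hlt)
  have hz2 := pow_loc h hw hz1
  have h4 : w.valuation N (3 * omF N ^ 2 * algebraMap K N (c : K) * tc P) ≤
      WithZero.exp (-2 : ℤ) := by
    have e1 : 3 * omF N ^ 2 * algebraMap K N (c : K) * tc P =
        (xi T iv n P c - 1 + 3 * omF N ^ 2 * algebraMap K N (c : K) * tc P) -
        (xi T iv n P c - z ^ ℓ) - (z ^ ℓ - 1) := by ring
    rw [e1]
    exact Valuation.map_sub_le _ (Valuation.map_sub_le _ hloc hz) hz2
  rw [← PD.val_iff h hw c]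
  rw [hval] at h4
  by_contra hcon
  have h5 : 1 ≤ w.valuation N (algebraMap K N (c : K)) := not_lt.1 hcon
  have h6 : WithZero.exp (-1 : ℤ) ≤ WithZero.exp (-2 : ℤ) := by
    calc WithZero.exp (-1 : ℤ) = 1 * WithZero.exp (-1 : ℤ) := (one_mul _).symm
      _ ≤ w.valuation N (algebraMap K N (c : K)) * WithZero.exp (-1 : ℤ) :=
        mul_le_mul' h5 le_rfl
      _ ≤ _ := h4
  rw [WithZero.exp_le_exp] at h6
  norm_num at h6

end

end

end Pool.Agent.Lib.MP_1a91b9_ntT.DB
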