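import Pool.Agent.Lib.MP_1a91b9_ntT.DB.Xi
import Pool.Agent.Lib.MP_1a91b9_ntT.DB.Frob

/-!
# DB: the elliptic units of the larger field

PROOF (complete; stream DB of helper55). Jobs YYA (`yy_val`, `yy_cong`), YYB (`norm_yc`, `yy_norm`).

`L/N` with a point `R : Pt L` of annihilator `(β)`, `β` of degree one (`Deg1 β p`), `¬ β ∣ ϖ`; `PL` the image
of `P`. `Q_a = S + sm a PL + R`.
`yy_val`: `sm a PL + R ≠ 0` (if it is `0` then `sm ϖ R = - sm a (sm ϖ PL) = 0`, so `β ∣ ϖ` by `Ord`),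
killed by `q p` (`q` the norm of `ϖ`, `Ideal.absNorm_mem`; `p_smul`), prime to `3` (`Deg1.mod_three`;
`q = ℓ` or `ℓ^2`): `y_unit`.
`yy_cong` (`W ∋ β`): `R` is in the kernel of `W` (`ker_of_val`), `S + sm a PL` is not (`not_ker_mix`,
`¬ ϖ ∣ a`), so `add_ker`: `v (yc (S + sm a PL + R) - yc (S + sm a PL)) ≤ v (tc R) < 1`; both are units
(`y_unit`), so the quotients of the factors are `1` modulo `W`, also their integral powers, and the
product; `yc (S + sm a PL) = algebraMap N L (yc (S + sm a P))` (`yc_pm`, `pm_S`, `pm_sm`).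
`norm_yc`: `Algebra.norm N (yc (ptS + sm a PL + R)) = Π_{σ} σ(..)` (`Algebra.norm_eq_prod_automorphisms`)
`= Π_{1 ≤ j < p} yc (S + sm a PL + j • R)`: `σ ↦ j` with `ga σ R = j • R` is a bijection `Gal(L/N) → Ico 1 p`
(`gal_sm`, `sm_eq_int`, `Deg1.exists_int`, `hgen`, `hall`), and `ga σ PL = PL` (the coordinates of `PL` are in
`N`), `ga σ S = S`. `dist_deg1` with `P := S + sm a PL`: `sm β P = P` (`sm_S` and `sm β PL = PL` because
`sm β P = P`, `pm_sm`; `P ≠ 0`, `yc P ≠ 0` by `y_unit`): dividing by `yc P`: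
`Π_{j} yc (S + j • R) = Π_j yc (S + sm a PL + j • R)`. So the norm is the constant `CC` (independent of `a`).
(`algebraMap N L` of the norm; injective.)
`yy_norm`: `Π (CC)^(n(c/a)) = CC^(∑ n(c/a)) = 1` (`TrD.sum_zero`), `CC ≠ 0`.
-/

set_option autoImplicit false

namespace Pool.Agent.Lib.MP_1a91b9_ntT.DB

open NumberField IsDedekindDomain WeierstrassCurve

universe u

noncomputable section

section
variable {N L : Type u} [Field N] [NumberField N] [Algebra K N] [DecidableEq N] [Field L]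
  [NumberField L] [Algebra K L] [DecidableEq L] [Algebra N L] [IsScalarTower K N L]

/-- the image of a point in an extension -/
def up (L : Type u) [Field L] [Algebra K L] [DecidableEq L] [Algebra N L] [IsScalarTower K N L]
    (P : Pt N) : Pt L := pm (IsScalarTower.toAlgHom K N L) P

/-- the elliptic unit of index `c` of the larger field -/
def yy (T : Finset (𝓞 K)) (iv : 𝓞 K → 𝓞 K) (n : 𝓞 K → ℤ) (P : Pt N) (R : Pt L) (c : 𝓞 K) : L :=
  ∏ a ∈ T, yc (ptS L + sm L a (up L P) + R) ^ n (c * iv a)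

end

section
variable {F : Type u} [Field F] {Γ : Type*} [LinearOrderedCommGroupWithZero Γ] (v : Valuation F Γ)

theorem yya_mul {x y z w : F} (hx : v x = 1) (hw : v w = 1) (h1 : v (x - y) < 1)
    (h2 : v (z - w) < 1) : v (x * z - y * w) < 1 := by
  have e : x * z - y * w = x * (z - w) + (x - y) * w := by ring
  rw [e]
  refine lt_of_le_of_lt (v.map_add _ _) (max_lt ?_ ?_)
  · rw [map_mul, hx, one_mul]
    exact h2
  · rw [map_mul, hw, mul_one]
    exact h1

theorem yya_inv {x y : F} (hx : v x = 1) (hy : v y = 1) (h1 : v (x - y) < 1) :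
    v (x⁻¹ - y⁻¹) < 1 := by
  have hx0 : x ≠ 0 := by
    rintro rfl
    rw [map_zero] at hx
    exact zero_ne_one hx
  have hy0 : y ≠ 0 := by
    rintro rfl
    rw [map_zero] at hy
    exact zero_ne_one hy
  have e : x⁻¹ - y⁻¹ = -(x - y) * (x⁻¹ * y⁻¹) := by
    field_simp
    ring
  rw [e, map_mul, map_mul, map_inv₀, map_inv₀, hx, hy, inv_one, mul_one, mul_one, Valuation.map_neg]
  exact h1

theorem yya_pow {x y : F} (hx : v x = 1) (hy : v y = 1) (h1 : v (x - y) < 1) (m : ℕ) :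
    v (x ^ m - y ^ m) < 1 := by
  induction m with
  | zero => rw [pow_zero, pow_zero, sub_self, map_zero]; exact zero_lt_one
  | succ m ih =>
    rw [pow_succ, pow_succ]
    exact yya_mul v (by rw [map_pow, hx, one_pow]) hy ih h1

theorem yya_zpow {x y : F} (hx : v x = 1) (hy : v y = 1) (h1 : v (x - y) < 1) (m : ℤ) :
    v (x ^ m - y ^ m) < 1 := by
  obtain ⟨k, rfl | rfl⟩ := m.eq_nat_or_neg
  · rw [zpow_natCast, zpow_natCast]
    exact yya_pow v hx hy h1 k
  · rw [zpow_neg, zpow_neg, zpow_natCast, zpow_natCast]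
    exact yya_inv v (by rw [map_pow, hx, one_pow]) (by rw [map_pow, hy, one_pow])
      (yya_pow v hx hy h1 k)

theorem yya_val_zpow {x : F} (hx : v x = 1) (m : ℤ) : v (x ^ m) = 1 := by
  rw [map_zpow₀, hx, one_zpow]

theorem yya_prod {ι : Type*} (s : Finset ι) (f g : ι → F) (hf : ∀ i ∈ s, v (f i) = 1)
    (hg : ∀ i ∈ s, v (g i) = 1) (h : ∀ i ∈ s, v (f i - g i) < 1) :
    v (∏ i ∈ s, f i - ∏ i ∈ s, g i) < 1 := by
  classical
  induction s using Finset.induction_on with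
  | empty => rw [Finset.prod_empty, Finset.prod_empty, sub_self, map_zero]; exact zero_lt_one
  | insert i s hi ih =>
    rw [Finset.prod_insert hi, Finset.prod_insert hi]
    refine yya_mul v (hf i (Finset.mem_insert_self _ _)) ?_ (h i (Finset.mem_insert_self _ _))
      (ih (fun j hj => hf j (Finset.mem_insert_of_mem hj))
        (fun j hj => hg j (Finset.mem_insert_of_mem hj))
        (fun j hj => h j (Finset.mem_insert_of_mem hj)))
    rw [map_prod]
    exact Finset.prod_eq_one fun j hj => hg j (Finset.mem_insert_of_mem hj)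

end

theorem yya_q3 {ϖ : 𝓞 K} {ℓ q : ℕ} (h : PD ϖ ℓ q) : q.Coprime 3 := by
  have h1 : ℓ.Coprime 3 := by
    rw [Nat.coprime_primes h.hl Nat.prime_three]
    have := h.five
    omega
  rcases h.alt with e | e
  · rw [e]
    exact h1
  · rw [e]
    exact Nat.Coprime.pow_left 2 h1

theorem yya_q {F : Type u} [Field F] [Algebra K F] [DecidableEq F] {ϖ : 𝓞 K} {ℓ q : ℕ}
    (h : PD ϖ ℓ q) {Q : Pt F} (hQ : Ord ϖ Q) (a : 𝓞 K) : q • sm F a Q = 0 := by
  have h1 : ϖ ∣ (q : 𝓞 K) := by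
    rw [← Ideal.mem_span_singleton, ← h.norm]
    exact Ideal.absNorm_mem _
  rw [← sm_nat]
  have h2 : sm F (q : 𝓞 K) (sm F a Q) = sm F ((q : 𝓞 K) * a) Q := by
    rw [map_mul]
    rfl
  rw [h2]
  exact (hQ _).2 (dvd_mul_of_dvd_left h1 a)

theorem yya_sm {F : Type u} [Field F] [Algebra K F] [DecidableEq F] (a b : 𝓞 K) (Q : Pt F) :
    sm F a (sm F b Q) = sm F (a * b) Q := by
  rw [map_mul]
  rfl

section
variable {N L : Type u} [Field N] [NumberField N] [Algebra K N] [DecidableEq N] [Field L]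
  [NumberField L] [Algebra K L] [DecidableEq L] [Algebra N L] [IsScalarTower K N L]
  {ϖ : 𝓞 K} {ℓ q : ℕ} (h : PD ϖ ℓ q) {P : Pt N} (hP : Ord ϖ P) {β : 𝓞 K} {p : ℕ}
  (hβ : Deg1 β p) (hβϖ : ¬ β ∣ ϖ) {R : Pt L} (hR : Ord β R)

omit [NumberField N] [NumberField L] in
theorem yya_up (hP : Ord ϖ P) : Ord ϖ (up L P) := (Ord.map _).2 hP

omit [NumberField N] [NumberField L] in
include h hP hβ hβϖ hR in
theorem yya_pt (a : 𝓞 K) : (q * p) • (sm L a (up L P) + R) = 0 ∧ sm L a (up L P) + R ≠ 0 ∧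
    (q * p).Coprime 3 := by
  have hPL : Ord ϖ (up L P) := yya_up hP
  refine ⟨?_, ?_, ?_⟩
  · rw [smul_add, mul_comm q p, mul_smul, yya_q h hPL a, smul_zero, zero_add, mul_comm p q, mul_smul,
      p_smul hβ ((hR β).2 dvd_rfl), smul_zero]
  · intro e
    refine hβϖ ((hR ϖ).1 ?_)
    have e1 := congrArg (sm L ϖ) e
    rw [map_add, map_zero, yya_sm, (hPL _).2 (dvd_mul_right ϖ a), zero_add] at e1
    exact e1
  · refine Nat.Coprime.mul_left (yya_q3 h) ?_
    have h1 := hβ.mod_three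
    have h2 : ¬ 3 ∣ p := by omega
    exact ((Nat.Prime.coprime_iff_not_dvd Nat.prime_three).2 h2).symm

omit [NumberField N] [NumberField L] in
include h hP in
theorem yya_pt0 {a : 𝓞 K} (ha : ¬ ϖ ∣ a) : q • sm L a (up L P) = 0 ∧ sm L a (up L P) ≠ 0 :=
  ⟨yya_q h (yya_up hP) a, fun e => ha ((yya_up hP a).1 e)⟩

end

section
variable {N L : Type u} [Field N] [NumberField N] [Algebra K N] [DecidableEq N] [Field L]
  [NumberField L] [Algebra K L] [DecidableEq L] [Algebra N L] [IsScalarTower K N L]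

variable {ϖ : 𝓞 K} {ℓ q : ℕ} (h : PD ϖ ℓ q) {T : Finset (𝓞 K)} {iv : 𝓞 K → 𝓞 K} {n : 𝓞 K → ℤ}
  (hT : TrD ϖ ℓ T iv n) {P : Pt N} (hP : Ord ϖ P) {β : 𝓞 K} {p : ℕ} (hβ : Deg1 β p)
  (hβϖ : ¬ β ∣ ϖ) {R : Pt L} (hR : Ord β R)
include h hT hP hβ hβϖ hR

theorem yy_val {Γ : Type*} [LinearOrderedCommGroupWithZero Γ] (v : Valuation L Γ) (c : 𝓞 K) :
    v (yy T iv n P R c) = 1 := by
  unfold yy
  rw [map_prod]
  refine Finset.prod_eq_one fun a _ => yya_val_zpow v ?_ _
  obtain ⟨h1, h2, h3⟩ := yya_pt h hP hβ hβϖ hR a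
  rw [add_assoc]
  exact y_unit v h3 h1 h2

theorem yy_cong {Γ : Type*} [LinearOrderedCommGroupWithZero Γ] (v : Valuation L Γ)
    (hv : v (algebraMap K L (β : K)) < 1) (c : 𝓞 K) :
    v (yy T iv n P R c - algebraMap N L (xi T iv n P c)) < 1 := by
  have hk : Ker v R := ker_of_val v hβ.isPrime hβ.one hR hv
  have hx : algebraMap N L (xi T iv n P c) =
      ∏ a ∈ T, yc (ptS L + sm L a (up L P)) ^ n (c * iv a) := by
    unfold xi
    rw [map_prod]
    refine Finset.prod_congr rfl fun a _ => ?_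
    rw [map_zpow₀]
    congr 1
    have h1 := yc_pm (IsScalarTower.toAlgHom K N L) (ptS N + sm N a P)
    rw [map_add, pm_S, pm_sm] at h1
    exact h1.symm
  rw [hx]
  unfold yy
  have hA : ∀ a : 𝓞 K, v (yc (ptS L + sm L a (up L P) + R)) = 1 := fun a => by
    obtain ⟨h1, h2, h3⟩ := yya_pt h hP hβ hβϖ hR a
    rw [add_assoc]
    exact y_unit v h3 h1 h2
  have hB : ∀ a ∈ T, v (yc (ptS L + sm L a (up L P))) = 1 := fun a ha => by
    obtain ⟨h1, h2⟩ := yya_pt0 (L := L) h hP (hT.res.nz a ha)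
    exact y_unit v (yya_q3 h) h1 h2
  refine yya_prod v T _ _ (fun a _ => yya_val_zpow v (hA a) _)
    (fun a ha => yya_val_zpow v (hB a ha) _) fun a ha => yya_zpow v (hA a) (hB a ha) ?_ _
  obtain ⟨h1, h2⟩ := yya_pt0 (L := L) h hP (hT.res.nz a ha)
  have h3 := not_ker_mix v (yya_q3 h) three_S S_ne_zero h1 h2
  exact lt_of_le_of_lt (add_ker v h3 hk).2.2 (ker_tc_lt v hk)


omit [NumberField N] [NumberField L] h hT hP hβ hβϖ hR in
theorem yyb_fix (P : Pt N) (σ : Gal(L/N)) : ga σ (up L P) = up L P := by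
  rcases cases_pt P with rfl | ⟨x, y, hxy, rfl⟩
  · unfold up
    rw [map_zero, map_zero]
  · have h0 : up L (mkPt x y hxy) ≠ 0 := by
      intro e
      have e1 : pm (IsScalarTower.toAlgHom K N L) (mkPt x y hxy) =
          pm (IsScalarTower.toAlgHom K N L) 0 := by
        rw [map_zero]
        exact e
      exact mk_ne_zero x y hxy (pm_inj _ e1)
    have h1 : ga σ (up L (mkPt x y hxy)) ≠ 0 := by
      intro e
      have e1 : ga σ (up L (mkPt x y hxy)) = ga σ 0 := by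
        rw [map_zero]
        exact e
      exact h0 (pm_inj _ e1)
    refine pt_ext h1 h0 ?_ ?_
    · rw [xc_ga]
      have h2 : xc (up L (mkPt x y hxy)) = algebraMap N L x :=
        xc_pm (IsScalarTower.toAlgHom K N L) (mkPt x y hxy)
      rw [h2]
      exact σ.commutes x
    · rw [yc_ga]
      have h2 : yc (up L (mkPt x y hxy)) = algebraMap N L y :=
        yc_pm (IsScalarTower.toAlgHom K N L) (mkPt x y hxy)
      rw [h2]
      exact σ.commutes y

variable [IsGalois N L] (hPβ : sm N β P = P) (hgen : ∀ σ : Gal(L/N), ga σ R = R → σ = 1)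
  (hall : ∀ c : 𝓞 K, ¬ β ∣ c → ∃ σ : Gal(L/N), ga σ R = sm L c R)
include hPβ hgen hall

theorem norm_yc {a : 𝓞 K} (ha : ¬ ϖ ∣ a) :
    algebraMap N L (Algebra.norm N (yc (ptS L + sm L a (up L P) + R))) =
      ∏ j ∈ Finset.Ico 1 p, yc (ptS L + j • R) := by
  have hβ0 : β ≠ 0 := hβ.isPrime.ne_zero
  have hRβ : sm L β R = 0 := (hR β).2 dvd_rfl
  have hR0 : R ≠ 0 := by
    intro e
    refine hβ.isPrime.not_isUnit (isUnit_of_dvd_one ((hR 1).1 ?_))
    rw [e, map_zero]
  have hPL : sm L β (up L P) = up L P := by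
    unfold up
    rw [← pm_sm, hPβ]
  obtain ⟨h1, h2⟩ := yya_pt0 (L := L) h hP ha
  have hy1 : (1 : Valuation L (WithZero (Multiplicative ℤ))) (yc (ptS L + sm L a (up L P))) = 1 :=
    y_unit _ (yya_q3 h) h1 h2
  have hy : yc (ptS L + sm L a (up L P)) ≠ 0 := by
    intro e
    rw [e, map_zero] at hy1
    exact zero_ne_one hy1
  set P1 := ptS L + sm L a (up L P) with hP1
  have hsm : sm L β P1 = P1 := by
    rw [hP1, map_add, sm_S β hβ.one, yya_sm, mul_comm β a, ← yya_sm, hPL]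
  have hP10 : P1 ≠ 0 := by
    intro e
    rw [e] at hy
    exact hy yc_zero
  obtain ⟨f⟩ := exists_emb L
  have hd := dist_deg1 f hβ hRβ hR0 (P := P1) (by rw [hsm]; exact hP10) (by rw [hsm]; exact hy)
  rw [hsm] at hd
  have hd1 := mul_left_cancel₀ hy hd
  rw [hd1, Algebra.norm_eq_prod_automorphisms]
  have hex : ∀ σ : Gal(L/N), ∃ j : ℕ, j ∈ Finset.Ico 1 p ∧ ga σ R = j • R := by
    intro σ
    obtain ⟨c, hc, hc1⟩ := gal_sm hβ0 hR σ
    obtain ⟨k, hk, hk1⟩ := hβ.exists_int c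
    refine ⟨k, Finset.mem_Ico.2 ⟨?_, hk⟩, ?_⟩
    · rcases Nat.eq_zero_or_pos k with e | e
      · exfalso
        rw [e, Nat.cast_zero, sub_zero] at hk1
        exact hβ.isPrime.not_isUnit (hc.isUnit_of_dvd' hk1 dvd_rfl)
      · exact e
    · rw [hc1, sm_eq_int hRβ (k := (k : ℤ)) (by rw [Int.cast_natCast]; exact hk1), natCast_zsmul]
  have hinj : ∀ i ∈ Finset.Ico 1 p, ∀ j ∈ Finset.Ico 1 p, i • R = j • R → i = j := by
    intro i hi j hj hij
    rw [Finset.mem_Ico] at hi hj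
    have h3 : ((i : ℤ) - j) • R = 0 := by
      rw [sub_smul, natCast_zsmul, natCast_zsmul, hij, sub_self]
    have h4 := (smul_zero_iff hβ hRβ hR0 _).1 h3
    have h5 : ((i : ℤ) - j) = 0 := Int.eq_zero_of_abs_lt_dvd h4 (by rw [abs_lt]; omega)
    omega
  choose j hj1 hj2 using hex
  refine Finset.prod_bij (fun σ _ => j σ) (fun σ _ => hj1 σ) ?_ ?_ ?_
  · intro σ _ τ _ e
    have e1 : ga σ R = ga τ R := by
      rw [hj2, hj2, e]
    have e2 : ga (τ⁻¹ * σ) R = R := by
      rw [ga_mul, e1, ← ga_mul, inv_mul_cancel, ga_one]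
    have e3 := hgen _ e2
    exact (inv_mul_eq_one.1 e3).symm
  · intro i hi
    have h3 : ¬ β ∣ ((i : ℕ) : 𝓞 K) := by
      intro hd
      rw [← Int.cast_natCast, hβ.dvd_int_iff] at hd
      rw [Finset.mem_Ico] at hi
      have := Int.le_of_dvd (by omega) hd
      omega
    obtain ⟨σ, hσ⟩ := hall _ h3
    refine ⟨σ, Finset.mem_univ _, hinj _ (hj1 σ) _ hi ?_⟩
    rw [← hj2, hσ, sm_nat]
  · intro σ _
    rw [← yc_ga]
    have h3 : ga σ (P1 + R) = P1 + j σ • R := by
      rw [map_add, hj2, hP1, map_add, ga_S, ga_sm, yyb_fix]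
    rw [← h3]

theorem yy_norm (c : 𝓞 K) : Algebra.norm N (yy T iv n P R c) = 1 := by
  have hβ0 : β ≠ 0 := hβ.isPrime.ne_zero
  have hRβ : sm L β R = 0 := (hR β).2 dvd_rfl
  have hR0 : R ≠ 0 := by
    intro e
    refine hβ.isPrime.not_isUnit (isUnit_of_dvd_one ((hR 1).1 ?_))
    rw [e, map_zero]
  apply (algebraMap N L).injective
  rw [map_one, Algebra.norm_eq_prod_automorphisms]
  set CC := ∏ j ∈ Finset.Ico 1 p, yc (ptS L + j • R) with hCC
  have hC0 : CC ≠ 0 := by
    rw [hCC, Finset.prod_ne_zero_iff]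
    intro i hi e
    have hi1 := Finset.mem_Ico.1 hi
    have h3 : i • R ≠ 0 := by
      intro e1
      have e2 : (i : ℤ) • R = 0 := by
        rw [natCast_zsmul]
        exact e1
      rw [smul_zero_iff hβ hRβ hR0] at e2
      have := Int.le_of_dvd (by omega) e2
      omega
    have h4 : p • (i • R) = 0 := by
      rw [← mul_smul, mul_comm, mul_smul, p_smul hβ hRβ, smul_zero]
    have h5 : p.Coprime 3 := by
      have h1 := hβ.mod_three
      have h2 : ¬ 3 ∣ p := by omega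
      exact ((Nat.Prime.coprime_iff_not_dvd Nat.prime_three).2 h2).symm
    have h6 : (1 : Valuation L (WithZero (Multiplicative ℤ))) (yc (ptS L + i • R)) = 1 :=
      y_unit _ h5 h4 h3
    rw [e, map_zero] at h6
    exact zero_ne_one h6
  have h1 : ∏ σ : Gal(L/N), σ (yy T iv n P R c) =
      ∏ a ∈ T, CC ^ n (c * iv a) := by
    unfold yy
    have h2 : ∀ σ : Gal(L/N), σ (∏ a ∈ T, yc (ptS L + sm L a (up L P) + R) ^ n (c * iv a)) =
        ∏ a ∈ T, σ (yc (ptS L + sm L a (up L P) + R)) ^ n (c * iv a) := fun σ => by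
      rw [map_prod]
      exact Finset.prod_congr rfl fun a _ => map_zpow₀ σ _ _
    rw [Finset.prod_congr rfl fun σ _ => h2 σ, Finset.prod_comm]
    refine Finset.prod_congr rfl fun a ha => ?_
    rw [Finset.prod_zpow, hCC, ← norm_yc h hT hP hβ hβϖ hR hPβ hgen hall (hT.res.nz a ha),
      Algebra.norm_eq_prod_automorphisms]
  rw [h1]
  have h2 : ∀ s : Finset (𝓞 K), ∏ a ∈ s, CC ^ n (c * iv a) = CC ^ (∑ a ∈ s, n (c * iv a)) := by
    intro s
    classical
    induction s using Finset.induction_on with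
    | empty => rw [Finset.prod_empty, Finset.sum_empty, zpow_zero]
    | insert i s hi ih => rw [Finset.prod_insert hi, Finset.sum_insert hi, zpow_add₀ hC0, ih]
  rw [h2, hT.sum_zero h, zpow_zero]

end

end

end Pool.Agent.Lib.MP_1a91b9_ntT.DB
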